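import Pool.Agent.H22.CK.Defs

set_option autoImplicit false

namespace H22CK

/-- A1 -/
theorem const_facts {k : ℕ} (hk : 4 ≤ k) :
    0 < lam k ∧ 0 < mu k ∧ 1 < mu k * ((k : ℝ) - 1) ∧ mu k * ((k : ℝ) - 1) < 2 ∧
    mu k * ((k : ℝ) - 1) = 1 + lam k * (2 * (k : ℝ) - 3 / 2) ∧
    mu k - lam k = 2 * ((3 * (k : ℝ) - 2) / (2 * ((k : ℝ) - 1) * (2 * (k : ℝ) - 1))) := by
  have hK : (4 : ℝ) ≤ (k : ℝ) := by exact_mod_cast hk
  have h1 : 0 < (k : ℝ) - 1 := by linarith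
  have h2 : 0 < 2 * (k : ℝ) - 1 := by linarith
  have h22 : 0 < (2 * (k : ℝ) - 1) ^ 2 := by positivity
  have h1' : (k : ℝ) - 1 ≠ 0 := h1.ne'
  have h2' : 2 * (k : ℝ) - 1 ≠ 0 := h2.ne'
  have h2'' : (k : ℝ) * 2 - 1 ≠ 0 := by intro h; apply h2'; linarith
  have hκ : mu k * ((k : ℝ) - 1) = (8 * (k : ℝ) ^ 2 - 11 * (k : ℝ) + 4) / (2 * (k : ℝ) - 1) ^ 2 := by
    unfold mu
    field_simp
  refine ⟨?_, ?_, ?_, ?_, ?_, ?_⟩
  · unfold lam; positivity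
  · unfold mu
    apply div_pos
    · nlinarith
    · positivity
  · rw [hκ, lt_div_iff₀ h22]
    nlinarith
  · rw [hκ, div_lt_iff₀ h22]
    nlinarith
  · rw [hκ]
    unfold lam
    field_simp
    ring
  · unfold mu lam
    field_simp
    ring

end H22CK
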