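import Pool.Agent.H22.CK.Defs

set_option autoImplicit false

namespace H22CK

/-- A2 -/
theorem const_facts_even {k δ : ℕ} (hk : 4 ≤ k) (hδ : k = 2 * δ) :
    0 < mu k * δ - 1 ∧
    mu k * δ - 1 ≤ mu k / ((k : ℝ) - 1) * ((δ : ℝ) - 1) ∧
    (mu k * δ - 1) * k ≤ 1 ∧ mu k * δ - 1 ≤ lam k / 2 * k ∧
    mu k * k * ((k : ℝ) - 2) / 2 ≤ (k : ℝ) - 1 := by
  have hK : (4 : ℝ) ≤ (k : ℝ) := by exact_mod_cast hk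
  have hd : (δ : ℝ) = (k : ℝ) / 2 := by
    rw [hδ]; push_cast; ring
  have h1 : 0 < (k : ℝ) - 1 := by linarith
  have h2 : 0 < 2 * (k : ℝ) - 1 := by linarith
  have h22 : 0 < (2 * (k : ℝ) - 1) ^ 2 := by positivity
  have h1' : (k : ℝ) - 1 ≠ 0 := h1.ne'
  have h2' : 2 * (k : ℝ) - 1 ≠ 0 := h2.ne'
  have h2'' : (k : ℝ) * 2 - 1 ≠ 0 := by intro h; apply h2'; linarith
  have hε : mu k * δ - 1 = (5 * (k : ℝ) ^ 2 - 6 * k + 2) / (2 * ((k : ℝ) - 1) * (2 * (k : ℝ) - 1) ^ 2) := by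
    rw [hd]
    unfold mu
    field_simp
    ring
  have hden : 0 < 2 * ((k : ℝ) - 1) * (2 * (k : ℝ) - 1) ^ 2 := by positivity
  refine ⟨?_, ?_, ?_, ?_, ?_⟩
  · rw [hε]
    apply div_pos _ hden
    nlinarith
  · rw [hε, hd]
    unfold mu
    rw [div_le_iff₀ hden]
    have : (8 * (k : ℝ) ^ 2 - 11 * (k : ℝ) + 4) / (((k : ℝ) - 1) * (2 * (k : ℝ) - 1) ^ 2) / ((k : ℝ) - 1) *
        ((k : ℝ) / 2 - 1) * (2 * ((k : ℝ) - 1) * (2 * (k : ℝ) - 1) ^ 2) =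
        (8 * (k : ℝ) ^ 2 - 11 * (k : ℝ) + 4) * ((k : ℝ) - 2) / ((k : ℝ) - 1) := by
      field_simp
    rw [this, le_div_iff₀ h1]
    nlinarith [mul_nonneg (sq_nonneg ((k : ℝ) - 4)) (by linarith : (0 : ℝ) ≤ (k : ℝ)), mul_nonneg (by linarith : (0:ℝ) ≤ (k : ℝ) - 4) (by positivity : (0:ℝ) ≤ (k : ℝ)^2), mul_nonneg (by linarith : (0:ℝ) ≤ (k : ℝ) - 4) (by positivity : (0:ℝ) ≤ (k : ℝ))]
  · rw [hε, div_mul_eq_mul_div, div_le_iff₀ hden]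
    nlinarith [mul_nonneg (sq_nonneg ((k : ℝ) - 4)) (by linarith : (0 : ℝ) ≤ (k : ℝ)), mul_nonneg (by linarith : (0:ℝ) ≤ (k : ℝ) - 4) (by positivity : (0:ℝ) ≤ (k : ℝ)^2), mul_nonneg (by linarith : (0:ℝ) ≤ (k : ℝ) - 4) (by positivity : (0:ℝ) ≤ (k : ℝ))]
  · rw [hε, div_le_iff₀ hden]
    unfold lam
    have : 2 * ((k : ℝ) - 1) / (2 * (k : ℝ) - 1) ^ 2 / 2 * k * (2 * ((k : ℝ) - 1) * (2 * (k : ℝ) - 1) ^ 2)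
        = 2 * ((k : ℝ) - 1) ^ 2 * k := by
      field_simp
    rw [this]
    nlinarith [mul_nonneg (sq_nonneg ((k : ℝ) - 4)) (by linarith : (0 : ℝ) ≤ (k : ℝ)), mul_nonneg (by linarith : (0:ℝ) ≤ (k : ℝ) - 4) (by positivity : (0:ℝ) ≤ (k : ℝ)^2), mul_nonneg (by linarith : (0:ℝ) ≤ (k : ℝ) - 4) (by positivity : (0:ℝ) ≤ (k : ℝ))]
  · unfold mu
    have : (8 * (k : ℝ) ^ 2 - 11 * (k : ℝ) + 4) / (((k : ℝ) - 1) * (2 * (k : ℝ) - 1) ^ 2) * k * ((k : ℝ) - 2) / 2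
        = (8 * (k : ℝ) ^ 2 - 11 * (k : ℝ) + 4) * k * ((k : ℝ) - 2) / (2 * (((k : ℝ) - 1) * (2 * (k : ℝ) - 1) ^ 2)) := by
      field_simp
    rw [this, div_le_iff₀ (by positivity)]
    nlinarith [mul_nonneg (sq_nonneg ((k : ℝ) - 4)) (by linarith : (0 : ℝ) ≤ (k : ℝ)), mul_nonneg (by linarith : (0:ℝ) ≤ (k : ℝ) - 4) (by positivity : (0:ℝ) ≤ (k : ℝ)^2), mul_nonneg (by linarith : (0:ℝ) ≤ (k : ℝ) - 4) (by positivity : (0:ℝ) ≤ (k : ℝ)), mul_nonneg (by linarith : (0:ℝ) ≤ (k : ℝ) - 4) (by positivity : (0:ℝ) ≤ (k : ℝ)^3)]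

end H22CK
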