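import Pool.Agent.H22.CK.Defs

/-! Basic facts on degrees and edge numbers (helper56). -/

set_option autoImplicit false

namespace H22CK

variable {V W : Type*}

theorem dL_eq (E : V → W → Prop) (S : Finset V) (t : W) [DecidablePred (fun x => E x t)] :
    dL E S t = (S.filter (fun x => E x t)).card := by
  unfold dL; congr

theorem dR_eq (E : V → W → Prop) (T : Finset W) (x : V) [DecidablePred (fun t => E x t)] :
    dR E T x = (T.filter (fun t => E x t)).card := by
  unfold dR; congr

theorem ed_sumR (E : V → W → Prop) (S : Finset V) (T : Finset W) :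
    ed E S T = ∑ x ∈ S, dR E T x := by
  classical
  unfold ed
  rw [Finset.card_filter, Finset.sum_product]
  apply Finset.sum_congr rfl
  intro x _
  rw [dR_eq, Finset.card_filter]

theorem ed_sumL (E : V → W → Prop) (S : Finset V) (T : Finset W) :
    ed E S T = ∑ t ∈ T, dL E S t := by
  classical
  unfold ed
  rw [Finset.card_filter, Finset.sum_product_right]
  apply Finset.sum_congr rfl
  intro x _
  rw [dL_eq, Finset.card_filter]

theorem dL_le (E : V → W → Prop) (S : Finset V) (t : W) : dL E S t ≤ S.card := by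
  classical
  rw [dL_eq]; exact Finset.card_filter_le _ _

theorem dR_le (E : V → W → Prop) (T : Finset W) (x : V) : dR E T x ≤ T.card := by
  classical
  rw [dR_eq]; exact Finset.card_filter_le _ _

theorem dL_mono (E : V → W → Prop) {S S' : Finset V} (h : S ⊆ S') (t : W) : dL E S t ≤ dL E S' t := by
  classical
  rw [dL_eq, dL_eq]; exact Finset.card_le_card (Finset.filter_subset_filter _ h)

theorem dR_mono (E : V → W → Prop) {T T' : Finset W} (h : T ⊆ T') (x : V) : dR E T x ≤ dR E T' x := by
  classical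
  rw [dR_eq, dR_eq]; exact Finset.card_le_card (Finset.filter_subset_filter _ h)

theorem ed_le_mul (E : V → W → Prop) (S : Finset V) (T : Finset W) : ed E S T ≤ S.card * T.card := by
  rw [ed_sumR]
  calc ∑ x ∈ S, dR E T x ≤ ∑ _x ∈ S, T.card := Finset.sum_le_sum (fun x _ => dR_le E T x)
    _ = S.card * T.card := by rw [Finset.sum_const, smul_eq_mul]

theorem dL_erase_of [DecidableEq V] (E : V → W → Prop) {S : Finset V} {x : V} (hx : x ∈ S) {t : W}
    (h : E x t) : dL E S t = dL E (S.erase x) t + 1 := by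
  classical
  rw [dL_eq, dL_eq, Finset.filter_erase, Finset.card_erase_of_mem (by simp [hx, h])]
  have : 0 < (S.filter (fun x => E x t)).card := Finset.card_pos.mpr ⟨x, by simp [hx, h]⟩
  omega

theorem dL_erase_not [DecidableEq V] (E : V → W → Prop) {S : Finset V} {x : V} {t : W}
    (h : ¬ E x t) : dL E S t = dL E (S.erase x) t := by
  classical
  rw [dL_eq, dL_eq, Finset.filter_erase, Finset.erase_eq_of_notMem]
  simp [h]

theorem ed_erase [DecidableEq V] (E : V → W → Prop) {S : Finset V} {x : V} (hx : x ∈ S)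
    (T : Finset W) : ed E S T = ed E (S.erase x) T + dR E T x := by
  rw [ed_sumR, ed_sumR, Finset.sum_erase_add _ _ hx]

/-- removing `x` and all `t` whose degree drops below `δ` -/
theorem ed_step [DecidableEq V] [DecidableEq W] (E : V → W → Prop) {S : Finset V} {x : V}
    (hx : x ∈ S) (T : Finset W) {δ : ℕ} (hdeg : ∀ t ∈ T, δ ≤ dL E S t) (T1 : Finset W)
    (hT1 : ∀ t, t ∈ T1 ↔ t ∈ T ∧ δ ≤ dL E (S.erase x) t) :
    T1 ⊆ T ∧ (∀ t ∈ T \ T1, E x t ∧ dL E S t = δ ∧ dL E (S.erase x) t + 1 = δ) ∧
    ed E S T + (T \ T1).card = ed E (S.erase x) T1 + (T \ T1).card * δ + dR E T x := by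
  have hsub : T1 ⊆ T := fun t ht => ((hT1 t).1 ht).1
  have hrem : ∀ t ∈ T \ T1, E x t ∧ dL E S t = δ ∧ dL E (S.erase x) t + 1 = δ := by
    intro t ht
    rw [Finset.mem_sdiff] at ht
    have h1 : ¬ δ ≤ dL E (S.erase x) t := fun h => ht.2 ((hT1 t).2 ⟨ht.1, h⟩)
    have h2 := hdeg t ht.1
    by_cases h : E x t
    · have := dL_erase_of E hx h
      refine ⟨h, by omega, by omega⟩
    · exact absurd ((dL_erase_not E h) ▸ h2) h1
  refine ⟨hsub, hrem, ?_⟩
  rw [ed_erase E hx T, ed_sumL E (S.erase x) T, ← Finset.sum_sdiff hsub]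
  have h4 := ed_sumL E (S.erase x) T1
  have h3 : ∑ t ∈ T \ T1, dL E (S.erase x) t + (T \ T1).card = (T \ T1).card * δ := by
    rw [Finset.card_eq_sum_ones, ← Finset.sum_add_distrib, Finset.sum_mul]
    apply Finset.sum_congr rfl
    intro t ht
    rw [(hrem t ht).2.2]; ring
  omega

end H22CK
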