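import Pool.Agent.H22.CK.A1
import Pool.Agent.H22.CK.BW

set_option autoImplicit false

namespace H22CK

variable {V W : Type*}

theorem weight_I_aux [DecidableEq V] [DecidableEq W] {k δ : ℕ} (hk : 4 ≤ k)
    (hδ : k + 1 = 2 * δ ∨ k = 2 * δ) (E : V → W → Prop) (n : ℕ) :
    ∀ (S : Finset V) (T : Finset W), S.card = n → T.Nonempty → S.card + 1 ≤ k →
    (∀ t ∈ T, δ ≤ dL E S t) →
    ∃ S' T', S' ⊆ S ∧ T' ⊆ T ∧ (∀ t ∈ T', δ ≤ dL E S' t) ∧ (∀ x ∈ S', k ≤ dR E T' x) ∧
      (mu k * ((k : ℝ) - 1) - 1) * ((k : ℝ) - 1 - S.card) ≤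
        S.card + T.card + lam k / 2 * ((T'.card : ℝ) * ((T'.card : ℝ) - 1)) - mu k * ed E S T := by
  have hδ2 : 2 ≤ δ := by omega
  obtain ⟨hlam, hmu, hk1, hk2, hkap, -⟩ := const_facts hk
  have hK : (4 : ℝ) ≤ (k : ℝ) := by exact_mod_cast hk
  have hδ1 : 2 * (δ : ℝ) ≤ (k : ℝ) + 1 := by
    have : 2 * δ ≤ k + 1 := by omega
    exact_mod_cast this
  have hδk : (k : ℝ) ≤ 2 * (δ : ℝ) := by
    have : k ≤ 2 * δ := by omega
    exact_mod_cast this
  have hδ2r : (2 : ℝ) ≤ δ := by exact_mod_cast hδ2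
  have hmud : mu k * ((δ : ℝ) - 1) ≤ 1 := by
    have : mu k * ((δ : ℝ) - 1) ≤ mu k * (((k : ℝ) - 1) / 2) := by
      apply mul_le_mul_of_nonneg_left _ hmu.le
      linarith
    linarith
  have hlam2 : (2 * (k : ℝ) - 1) ^ 2 * lam k = 2 * ((k : ℝ) - 1) := by
    unfold lam
    have : (2 * (k : ℝ) - 1) ^ 2 ≠ 0 := by
      have : 0 < 2 * (k : ℝ) - 1 := by linarith
      positivity
    rw [mul_div_cancel₀ _ this]
  induction n with
  | zero =>
    intro S T hS hT _ hdeg
    obtain ⟨t, ht⟩ := hT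
    have h1 := hdeg t ht
    have h2 := dL_le E S t
    omega
  | succ n ih =>
    intro S T hSn hT hS hdeg
    by_cases hall : ∀ x ∈ S, k ≤ dR E T x
    · refine ⟨S, T, Finset.Subset.refl _, Finset.Subset.refl _, hdeg, hall, ?_⟩
      have hSne : S.Nonempty := Finset.card_pos.mp (by omega)
      obtain ⟨x, hx⟩ := hSne
      have hb : k ≤ T.card := (hall x hx).trans (dR_le E T x)
      have hbr : (k : ℝ) ≤ T.card := by exact_mod_cast hb
      have he : (ed E S T : ℝ) ≤ S.card * T.card := by exact_mod_cast ed_le_mul E S T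
      have hSr : (S.card : ℝ) + 1 ≤ k := by exact_mod_cast hS
      set a : ℝ := (S.card : ℝ)
      set b : ℝ := (T.card : ℝ)
      set e : ℝ := (ed E S T : ℝ)
      have he' : mu k * e ≤ mu k * (a * b) := mul_le_mul_of_nonneg_left he hmu.le
      have hr : 0 ≤ (k : ℝ) - 1 - a := by linarith
      have h1 : a + b + lam k / 2 * (b * (b - 1)) - mu k * (a * b) =
          lam k / 2 * (b - (2 * (k : ℝ) - 1)) ^ 2 + ((k : ℝ) - 1 - a) * (mu k * b - 1) := by
        have e1 : mu k * (a * b) = (mu k * ((k : ℝ) - 1)) * b - ((k : ℝ) - 1 - a) * (mu k * b) := by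
          ring
        rw [e1, hkap]
        have e2 : (k : ℝ) - 1 = (2 * (k : ℝ) - 1) ^ 2 * lam k / 2 := by linarith
        have e3 : a = (k : ℝ) - 1 - ((k : ℝ) - 1 - a) := by ring
        linear_combination e2
      have h2 : ((k : ℝ) - 1 - a) * (mu k * ((k : ℝ) - 1) - 1) ≤ ((k : ℝ) - 1 - a) * (mu k * b - 1) := by
        apply mul_le_mul_of_nonneg_left _ hr
        have : mu k * ((k : ℝ) - 1) ≤ mu k * b := mul_le_mul_of_nonneg_left (by linarith) hmu.le
        linarith
      have h3 : 0 ≤ lam k / 2 * (b - (2 * (k : ℝ) - 1)) ^ 2 := by positivity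
      nlinarith
    · push Not at hall
      obtain ⟨x, hx, hxd⟩ := hall
      set T1 := T.filter (fun t => δ ≤ dL E (S.erase x) t) with hT1
      obtain ⟨hsub, hrem, hed⟩ := ed_step E hx T hdeg T1 (by intro t; rw [hT1, Finset.mem_filter])
      have hcS : (S.erase x).card + 1 = S.card := by
        rw [Finset.card_erase_of_mem hx]
        have : 0 < S.card := Finset.card_pos.mpr ⟨x, hx⟩
        omega
      have hcT : (T \ T1).card + T1.card = T.card := Finset.card_sdiff_add_card_eq_card hsub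
      have hedr : (ed E S T : ℝ) = ed E (S.erase x) T1 + ((T \ T1).card : ℝ) * (δ - 1) + dR E T x := by
        have : (ed E S T : ℝ) + (T \ T1).card = ed E (S.erase x) T1 + ((T \ T1).card : ℝ) * δ + dR E T x := by
          exact_mod_cast hed
        linarith
      have hdr : (dR E T x : ℝ) ≤ (k : ℝ) - 1 := by
        have : dR E T x + 1 ≤ k := hxd
        have : (dR E T x : ℝ) + 1 ≤ k := by exact_mod_cast this
        linarith
      have hmd : mu k * dR E T x ≤ mu k * ((k : ℝ) - 1) := mul_le_mul_of_nonneg_left hdr hmu.le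
      have hcSr : ((S.erase x).card : ℝ) + 1 = S.card := by exact_mod_cast hcS
      have hcTr : ((T \ T1).card : ℝ) + T1.card = T.card := by exact_mod_cast hcT
      by_cases hne : T1.Nonempty
      · obtain ⟨S', T', h1, h2, h3, h4, h5⟩ := ih (S.erase x) T1 (by omega) hne (by omega) (by
          intro t ht
          rw [hT1, Finset.mem_filter] at ht
          exact ht.2)
        refine ⟨S', T', h1.trans (Finset.erase_subset _ _), h2.trans hsub, h3, h4, ?_⟩
        rw [hedr]
        have hj : 0 ≤ ((T \ T1).card : ℝ) * (1 - mu k * ((δ : ℝ) - 1)) :=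
          mul_nonneg (Nat.cast_nonneg _) (by linarith)
        have e1 : ((S.erase x).card : ℝ) = S.card - 1 := by linarith
        have e2 : (T1.card : ℝ) = T.card - (T \ T1).card := by linarith
        rw [e1, e2] at h5
        nlinarith
      · rw [Finset.not_nonempty_iff_eq_empty] at hne
        rw [hne] at hedr hrem hcTr
        have hall2 : ∀ t ∈ T, E x t ∧ dL E S t = δ := by
          intro t ht
          have := hrem t (by simpa using ht)
          exact ⟨this.1, this.2.1⟩
        have hdT : dR E T x = T.card := by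
          classical
          rw [dR_eq, Finset.filter_true_of_mem]
          intro t ht; exact (hall2 t ht).1
        have hSδ : δ ≤ S.card := by
          obtain ⟨t, ht⟩ := hT
          exact (hall2 t ht).2 ▸ dL_le E S t
        have hSδr : (δ : ℝ) ≤ S.card := by exact_mod_cast hSδ
        have hed0 : ed E (S.erase x) (∅ : Finset W) = 0 := by
          rw [ed_sumL]; simp
        refine ⟨∅, ∅, by simp, by simp, by simp, by simp, ?_⟩
        rw [hedr, hed0]
        simp only [Finset.sdiff_empty, Finset.card_empty, Nat.cast_zero, hdT] at *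
        set a : ℝ := (S.card : ℝ)
        set b : ℝ := (T.card : ℝ)
        have hb0 : 0 ≤ b := Nat.cast_nonneg _
        have key : (mu k * ((k : ℝ) - 1) - 1) * ((k : ℝ) - 1 - a) ≤ a + b - mu k * (b * δ) := by
          by_cases hc : 1 ≤ mu k * δ
          · have h1 : b * (mu k * δ - 1) ≤ ((k : ℝ) - 1) * (mu k * δ - 1) :=
              mul_le_mul_of_nonneg_right hdr (by linarith)
            have h2 : 0 ≤ (a - δ) * (mu k * ((k : ℝ) - 1)) := mul_nonneg (by linarith) (by linarith)
            nlinarith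
          · push Not at hc
            have h1 : 0 ≤ b * (1 - mu k * δ) := mul_nonneg hb0 (by linarith)
            have h2 : 0 ≤ (a - δ) * (mu k * ((k : ℝ) - 1)) := mul_nonneg (by linarith) (by linarith)
            have h3 : 0 ≤ (2 * (δ : ℝ) - k) * (mu k * ((k : ℝ) - 1) - 1) := mul_nonneg (by linarith) (by linarith)
            have h4 : 0 ≤ (δ : ℝ) * (2 - mu k * ((k : ℝ) - 1)) := mul_nonneg (by linarith) (by linarith)
            nlinarith
        nlinarith

/-- B1 -/
theorem weight_I [DecidableEq V] [DecidableEq W] {k δ : ℕ} (hk : 4 ≤ k)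
    (hδ : k + 1 = 2 * δ ∨ k = 2 * δ) (E : V → W → Prop)
    (S : Finset V) (T : Finset W) (hT : T.Nonempty) (hS : S.card + 1 ≤ k)
    (hdeg : ∀ t ∈ T, δ ≤ dL E S t) :
    ∃ S' T', S' ⊆ S ∧ T' ⊆ T ∧ (∀ t ∈ T', δ ≤ dL E S' t) ∧ (∀ x ∈ S', k ≤ dR E T' x) ∧
      (mu k * ((k : ℝ) - 1) - 1) * ((k : ℝ) - 1 - S.card) ≤
        S.card + T.card + lam k / 2 * ((T'.card : ℝ) * ((T'.card : ℝ) - 1)) - mu k * ed E S T :=
  weight_I_aux hk hδ E S.card S T rfl hT hS hdeg

end H22CK
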