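import Pool.Agent.H22.CK.A1
import Pool.Agent.H22.CK.A2
import Pool.Agent.H22.CK.BW

set_option autoImplicit false

namespace H22CK

variable {V W : Type*}

/-- the function `θ` of the weight argument -/
noncomputable def theta (k δ : ℕ) (E : V → W → Prop) (e0 : W → ℕ) (S : Finset V) (t : W) : ℝ :=
  max 0 ((mu k * δ - 1) - mu k / ((k : ℝ) - 1) * ((dL E S t : ℝ) - δ + e0 t))

theorem theta_nonneg (k δ : ℕ) (E : V → W → Prop) (e0 : W → ℕ) (S : Finset V) (t : W) :
    0 ≤ theta k δ E e0 S t := le_max_left _ _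

theorem theta_ge (k δ : ℕ) (E : V → W → Prop) (e0 : W → ℕ) (S : Finset V) (t : W) :
    (mu k * δ - 1) - mu k / ((k : ℝ) - 1) * ((dL E S t : ℝ) - δ + e0 t) ≤ theta k δ E e0 S t :=
  le_max_right _ _

set_option maxHeartbeats 2000000 in
theorem weight_J_aux [DecidableEq V] [DecidableEq W] {k δ : ℕ} (hk : 4 ≤ k) (hδ : k = 2 * δ)
    (E : V → W → Prop) (e0 : W → ℕ) (he0 : ∀ t, e0 t ≤ 1) (n : ℕ) :
    ∀ (S : Finset V) (T : Finset W), S.card = n → T.Nonempty → S.card + 2 ≤ k →
    (∀ t ∈ T, δ ≤ dL E S t) →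
    ∃ S' T', S' ⊆ S ∧ T' ⊆ T ∧ (∀ t ∈ T', δ ≤ dL E S' t) ∧ (∀ x ∈ S', k ≤ dR E T' x) ∧
      mu k * T.card - 1 - (∑ t ∈ T, theta k δ E e0 S t)
        + (mu k * k - 1) * ((k : ℝ) - 2 - S.card) ≤
        S.card + T.card + lam k / 2 * ((T'.card : ℝ) * ((T'.card : ℝ) - 1)) - mu k * ed E S T := by
  have hδ2 : 2 ≤ δ := by omega
  obtain ⟨hlam, hmu, hk1, hk2, hkap, -⟩ := const_facts hk
  obtain ⟨heps, -, -, -, hlast⟩ := const_facts_even hk hδ
  have hK : (4 : ℝ) ≤ (k : ℝ) := by exact_mod_cast hk
  have hδk : (k : ℝ) = 2 * (δ : ℝ) := by exact_mod_cast hδ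
  have hδ2r : (2 : ℝ) ≤ δ := by exact_mod_cast hδ2
  have hα : mu k / ((k : ℝ) - 1) * ((k : ℝ) - 1) = mu k := by
    have : (k : ℝ) - 1 ≠ 0 := by
      have : 0 < (k : ℝ) - 1 := by linarith
      exact this.ne'
    field_simp
  have hα0 : 0 < mu k / ((k : ℝ) - 1) := div_pos hmu (by linarith)
  have hlam2 : (2 * (k : ℝ) - 1) ^ 2 * lam k = 2 * ((k : ℝ) - 1) := by
    unfold lam
    have : (2 * (k : ℝ) - 1) ^ 2 ≠ 0 := by
      have : 0 < 2 * (k : ℝ) - 1 := by linarith
      positivity
    rw [mul_div_cancel₀ _ this]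
  induction n with
  | zero =>
    intro S T hS hT _ hdeg
    obtain ⟨t, ht⟩ := hT
    have h1 := hdeg t ht
    have h2 := dL_le E S t
    omega
  | succ n ih =>
    intro S T hSn hT hS hdeg
    by_cases hall : ∀ x ∈ S, k ≤ dR E T x
    · refine ⟨S, T, Finset.Subset.refl _, Finset.Subset.refl _, hdeg, hall, ?_⟩
      have hSne : S.Nonempty := Finset.card_pos.mp (by omega)
      obtain ⟨x, hx⟩ := hSne
      have hb : k ≤ T.card := (hall x hx).trans (dR_le E T x)
      have hbr : (k : ℝ) ≤ T.card := by exact_mod_cast hb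
      have he : (ed E S T : ℝ) ≤ S.card * T.card := by exact_mod_cast ed_le_mul E S T
      have hSr : (S.card : ℝ) + 2 ≤ k := by exact_mod_cast hS
      have hθ : 0 ≤ ∑ t ∈ T, theta k δ E e0 S t :=
        Finset.sum_nonneg (fun t _ => theta_nonneg k δ E e0 S t)
      set Θ := ∑ t ∈ T, theta k δ E e0 S t
      set a : ℝ := (S.card : ℝ)
      set b : ℝ := (T.card : ℝ)
      set e : ℝ := (ed E S T : ℝ)
      have he' : mu k * e ≤ mu k * (a * b) := mul_le_mul_of_nonneg_left he hmu.le
      have hr : 0 ≤ (k : ℝ) - 2 - a := by linarith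
      have h1 : a + b + lam k / 2 * (b * (b - 1)) - mu k * (a * b) =
          lam k / 2 * (b - (2 * (k : ℝ) - 1)) ^ 2 + ((k : ℝ) - 1 - a) * (mu k * b - 1) := by
        have e1 : mu k * (a * b) = (mu k * ((k : ℝ) - 1)) * b - ((k : ℝ) - 1 - a) * (mu k * b) := by
          ring
        rw [e1, hkap]
        have e2 : (k : ℝ) - 1 = (2 * (k : ℝ) - 1) ^ 2 * lam k / 2 := by linarith
        linear_combination e2
      have h2 : ((k : ℝ) - 2 - a) * (mu k * k - 1) ≤ ((k : ℝ) - 2 - a) * (mu k * b - 1) := by
        apply mul_le_mul_of_nonneg_left _ hr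
        have : mu k * k ≤ mu k * b := mul_le_mul_of_nonneg_left (by linarith) hmu.le
        linarith
      have h3 : 0 ≤ lam k / 2 * (b - (2 * (k : ℝ) - 1)) ^ 2 := by positivity
      nlinarith
    · push Not at hall
      obtain ⟨x, hx, hxd⟩ := hall
      set T1 := T.filter (fun t => δ ≤ dL E (S.erase x) t) with hT1
      obtain ⟨hsub, hrem, hed⟩ := ed_step E hx T hdeg T1 (by intro t; rw [hT1, Finset.mem_filter])
      have hcS : (S.erase x).card + 1 = S.card := by
        rw [Finset.card_erase_of_mem hx]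
        have : 0 < S.card := Finset.card_pos.mpr ⟨x, hx⟩
        omega
      have hcT : (T \ T1).card + T1.card = T.card := Finset.card_sdiff_add_card_eq_card hsub
      have hedr : (ed E S T : ℝ) = ed E (S.erase x) T1 + ((T \ T1).card : ℝ) * (δ - 1) + dR E T x := by
        have : (ed E S T : ℝ) + (T \ T1).card = ed E (S.erase x) T1 + ((T \ T1).card : ℝ) * δ + dR E T x := by
          exact_mod_cast hed
        linarith
      have hdr : (dR E T x : ℝ) ≤ (k : ℝ) - 1 := by
        have : dR E T x + 1 ≤ k := hxd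
        have : (dR E T x : ℝ) + 1 ≤ k := by exact_mod_cast this
        linarith
      have hmd : mu k * dR E T x ≤ mu k * ((k : ℝ) - 1) := mul_le_mul_of_nonneg_left hdr hmu.le
      have hcSr : ((S.erase x).card : ℝ) + 1 = S.card := by exact_mod_cast hcS
      have hcTr : ((T \ T1).card : ℝ) + T1.card = T.card := by exact_mod_cast hcT
      -- the removed vertices are neighbours of `x`
      have hremθ : ∀ t ∈ T \ T1, (mu k * δ - 1) - mu k / ((k : ℝ) - 1) ≤ theta k δ E e0 S t := by
        intro t ht
        refine le_trans ?_ (theta_ge k δ E e0 S t)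
        rw [(hrem t ht).2.1]
        have : (e0 t : ℝ) ≤ 1 := by exact_mod_cast he0 t
        nlinarith
      have hsumrem : ((T \ T1).card : ℝ) * ((mu k * δ - 1) - mu k / ((k : ℝ) - 1)) ≤
          ∑ t ∈ T \ T1, theta k δ E e0 S t := by
        rw [← nsmul_eq_mul, ← Finset.sum_const]
        exact Finset.sum_le_sum hremθ
      by_cases hne : T1.Nonempty
      · obtain ⟨S', T', h1, h2, h3, h4, h5⟩ := ih (S.erase x) T1 (by omega) hne (by omega) (by
          intro t ht
          rw [hT1, Finset.mem_filter] at ht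
          exact ht.2)
        refine ⟨S', T', h1.trans (Finset.erase_subset _ _), h2.trans hsub, h3, h4, ?_⟩
        rw [hedr]
        -- theta of the smaller set
        have hθ1 : ∑ t ∈ T1, theta k δ E e0 (S.erase x) t ≤
            ∑ t ∈ T1, theta k δ E e0 S t + mu k / ((k : ℝ) - 1) * dR E T1 x := by
          classical
          rw [dR_eq, Finset.card_filter]
          push_cast
          rw [Finset.mul_sum, ← Finset.sum_add_distrib]
          apply Finset.sum_le_sum
          intro t ht
          by_cases hxt : E x t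
          · have := dL_erase_of E hx hxt
            simp only [hxt, if_true, mul_one]
            unfold theta
            rw [this]
            push_cast
            apply max_le
            · have := le_max_left (0 : ℝ) ((mu k * δ - 1) - mu k / ((k : ℝ) - 1) * ((dL E (S.erase x) t : ℝ) + 1 - δ + e0 t))
              linarith
            · have := le_max_right (0 : ℝ) ((mu k * δ - 1) - mu k / ((k : ℝ) - 1) * ((dL E (S.erase x) t : ℝ) + 1 - δ + e0 t))
              linarith
          · have := dL_erase_not E (S := S) hxt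
            simp only [hxt, if_false, mul_zero, add_zero]
            unfold theta
            rw [this]
        have hdsplit : dR E T x = dR E T1 x + (T \ T1).card := by
          classical
          rw [dR_eq, dR_eq, ← Finset.sdiff_union_of_subset hsub, Finset.filter_union,
            Finset.card_union_of_disjoint]
          · rw [Finset.sdiff_union_of_subset hsub]
            have : ((T \ T1).filter (fun t => E x t)) = T \ T1 :=
              Finset.filter_true_of_mem (fun t ht => (hrem t ht).1)
            rw [this, add_comm]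
          · apply Finset.disjoint_filter_filter
            exact Finset.sdiff_disjoint
        have hdsr : (dR E T x : ℝ) = dR E T1 x + (T \ T1).card := by exact_mod_cast hdsplit
        have hsum : ∑ t ∈ T, theta k δ E e0 S t =
            ∑ t ∈ T \ T1, theta k δ E e0 S t + ∑ t ∈ T1, theta k δ E e0 S t := by
          rw [Finset.sum_sdiff hsub]
        rw [hsum]
        have e1 : ((S.erase x).card : ℝ) = S.card - 1 := by linarith
        have e2 : (T1.card : ℝ) = T.card - (T \ T1).card := by linarith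
        rw [e1, e2] at h5
        have hαd : mu k / ((k : ℝ) - 1) * dR E T x ≤ mu k / ((k : ℝ) - 1) * ((k : ℝ) - 1) :=
          mul_le_mul_of_nonneg_left hdr hα0.le
        set α := mu k / ((k : ℝ) - 1)
        set j : ℝ := ((T \ T1).card : ℝ)
        set d : ℝ := (dR E T x : ℝ)
        set d1 : ℝ := (dR E T1 x : ℝ)
        set A1 := ∑ t ∈ T1, theta k δ E e0 (S.erase x) t
        set A2 := ∑ t ∈ T1, theta k δ E e0 S t
        set A3 := ∑ t ∈ T \ T1, theta k δ E e0 S t
        have f1 : mu k * d ≤ mu k * ((k : ℝ) - 1) := hmd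
        have f2 : mu k * (d1 + j) = mu k * d := by rw [hdsr]
        have f3 : α * (d1 + j) = α * d := by rw [hdsr]
        nlinarith
      · rw [Finset.not_nonempty_iff_eq_empty] at hne
        rw [hne] at hedr hrem hcTr hsumrem
        have hall2 : ∀ t ∈ T, E x t ∧ dL E S t = δ := by
          intro t ht
          have := hrem t (by simpa using ht)
          exact ⟨this.1, this.2.1⟩
        have hdT : dR E T x = T.card := by
          classical
          rw [dR_eq, Finset.filter_true_of_mem]
          intro t ht; exact (hall2 t ht).1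
        have hSδ : δ ≤ S.card := by
          obtain ⟨t, ht⟩ := hT
          exact (hall2 t ht).2 ▸ dL_le E S t
        have hSδr : (δ : ℝ) ≤ S.card := by exact_mod_cast hSδ
        have hed0 : ed E (S.erase x) (∅ : Finset W) = 0 := by
          rw [ed_sumL]; simp
        refine ⟨∅, ∅, by simp, by simp, by simp, by simp, ?_⟩
        rw [hedr, hed0]
        rw [hdT] at hdr
        rw [Finset.sdiff_empty] at hsumrem ⊢
        rw [hdT, Finset.card_empty, Nat.cast_zero]
        set Θ := ∑ t ∈ T, theta k δ E e0 S t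
        set a : ℝ := (S.card : ℝ)
        set b : ℝ := (T.card : ℝ)
        set α := mu k / ((k : ℝ) - 1)
        have hb0 : 0 ≤ b := Nat.cast_nonneg _
        have hμα : b * (mu k + α) ≤ ((k : ℝ) - 1) * (mu k + α) :=
          mul_le_mul_of_nonneg_right hdr (by linarith)
        have hμα2 : ((k : ℝ) - 1) * (mu k + α) = mu k * k := by
          linear_combination hα
        have hak : 0 ≤ (a - δ) * (mu k * k) := mul_nonneg (by linarith) (by positivity)
        have hlast' : mu k * (δ * 2) * ((δ * 2 : ℝ) - 2) / 2 ≤ (δ * 2 : ℝ) - 1 := by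
          have := hlast
          rw [hδk] at this
          linarith
        nlinarith

/-- B2 (invariant J); `ε = mu k * δ - 1`, `α = mu k / (k-1)` -/
theorem weight_J [DecidableEq V] [DecidableEq W] {k δ : ℕ} (hk : 4 ≤ k) (hδ : k = 2 * δ)
    (E : V → W → Prop) (e0 : W → ℕ) (he0 : ∀ t, e0 t ≤ 1)
    (S : Finset V) (T : Finset W) (hT : T.Nonempty) (hS : S.card + 2 ≤ k)
    (hdeg : ∀ t ∈ T, δ ≤ dL E S t) :
    ∃ S' T', S' ⊆ S ∧ T' ⊆ T ∧ (∀ t ∈ T', δ ≤ dL E S' t) ∧ (∀ x ∈ S', k ≤ dR E T' x) ∧
      mu k * T.card - 1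
        - (∑ t ∈ T, max 0 ((mu k * δ - 1) - mu k / ((k : ℝ) - 1) * ((dL E S t : ℝ) - δ + e0 t)))
        + (mu k * k - 1) * ((k : ℝ) - 2 - S.card) ≤
        S.card + T.card + lam k / 2 * ((T'.card : ℝ) * ((T'.card : ℝ) - 1)) - mu k * ed E S T :=
  weight_J_aux hk hδ E e0 he0 S.card S T rfl hT hS hdeg

end H22CK
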