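import Pool.Agent.H22.CK.B1
import Pool.Agent.H22.CK.B2

set_option autoImplicit false

namespace H22CK

variable {V W : Type*}

/-- B3: the weight inequality for a small closed pair (from B1, B2, A1, A2) -/
theorem weight_closed [DecidableEq V] [DecidableEq W] {k δ : ℕ} (hk : 4 ≤ k)
    (hδ : k + 1 = 2 * δ ∨ k = 2 * δ) (E : V → W → Prop)
    (S : Finset V) (T : Finset W) (hT : T.Nonempty) (hS : S.card + 1 ≤ k)
    (hdeg : ∀ t ∈ T, δ ≤ dL E S t) :
    ∃ S' T', S' ⊆ S ∧ T' ⊆ T ∧ IsCore k E S' T' ∧
      mu k * ed E S T ≤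
        S.card + T.card + lam k / 2 * ((T'.card : ℝ) * ((T'.card : ℝ) - 1)) := by
  have hδ' : (k + 1) / 2 = δ := by omega
  obtain ⟨hlam, hmu, hk1, hk2, hkap, -⟩ := const_facts hk
  have hK : (4 : ℝ) ≤ (k : ℝ) := by exact_mod_cast hk
  by_cases hsmall : S.card + 2 ≤ 2 * δ
  · obtain ⟨S', T', h1, h2, h3, h4, h5⟩ := weight_I hk hδ E S T hT hS hdeg
    refine ⟨S', T', h1, h2, ⟨?_, ?_, h4⟩, ?_⟩
    · rw [hδ']
      have := Finset.card_le_card h1
      omega
    · rw [hδ']; exact h3
    · have hSr : (S.card : ℝ) + 1 ≤ k := by exact_mod_cast hS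
      have : 0 ≤ (mu k * ((k : ℝ) - 1) - 1) * ((k : ℝ) - 1 - S.card) :=
        mul_nonneg (by linarith) (by linarith)
      linarith
  · have hke : k = 2 * δ := by omega
    have hSc : S.card + 1 = k := by omega
    obtain ⟨heps, hea, -, -, -⟩ := const_facts_even hk hke
    have hδk : (k : ℝ) = 2 * (δ : ℝ) := by exact_mod_cast hke
    have hα : mu k / ((k : ℝ) - 1) * ((k : ℝ) - 1) = mu k := by
      have : (k : ℝ) - 1 ≠ 0 := by
        have : 0 < (k : ℝ) - 1 := by linarith
        exact this.ne'
      field_simp
    have hα0 : 0 < mu k / ((k : ℝ) - 1) := div_pos hmu (by linarith)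
    have hSne : S.Nonempty := Finset.card_pos.mp (by omega)
    obtain ⟨x, hx, hmin⟩ := Finset.exists_min_image S (fun x => dR E T x) hSne
    set T1 := T.filter (fun t => δ ≤ dL E (S.erase x) t) with hT1
    obtain ⟨hsub, hrem, hed⟩ := ed_step E hx T hdeg T1 (by intro t; rw [hT1, Finset.mem_filter])
    have hcS : (S.erase x).card + 1 = S.card := by
      rw [Finset.card_erase_of_mem hx]
      omega
    have hcT : (T \ T1).card + T1.card = T.card := Finset.card_sdiff_add_card_eq_card hsub
    -- minimality
    have hmin1 : S.card * dR E T x ≤ ed E S T := by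
      rw [ed_sumR, ← smul_eq_mul, ← Finset.sum_const]
      exact Finset.sum_le_sum hmin
    have hne : T1.Nonempty := by
      rw [Finset.nonempty_iff_ne_empty]
      intro hemp
      rw [hemp] at hrem
      have hall2 : ∀ t ∈ T, E x t ∧ dL E S t = δ := by
        intro t ht
        have := hrem t (by simpa using ht)
        exact ⟨this.1, this.2.1⟩
      have hdT : dR E T x = T.card := by
        classical
        rw [dR_eq, Finset.filter_true_of_mem]
        intro t ht; exact (hall2 t ht).1
      have hedT : ed E S T = T.card * δ := by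
        rw [ed_sumL, Finset.sum_congr rfl (fun t ht => (hall2 t ht).2), Finset.sum_const, smul_eq_mul]
      rw [hdT, hedT] at hmin1
      have hTpos : 0 < T.card := Finset.card_pos.mpr hT
      have : S.card ≤ δ := by
        rw [mul_comm] at hmin1
        exact Nat.le_of_mul_le_mul_left hmin1 hTpos
      omega
    classical
    obtain ⟨S', T', h1, h2, h3, h4, h5⟩ := weight_J hk hke E (fun t => if E x t then 1 else 0)
      (fun t => by split_ifs <;> omega) (S.erase x) T1 hne (by omega) (by
        intro t ht
        rw [hT1, Finset.mem_filter] at ht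
        exact ht.2)
    refine ⟨S', T', h1.trans (Finset.erase_subset _ _), h2.trans hsub, ⟨?_, ?_, h4⟩, ?_⟩
    · rw [hδ']
      have := Finset.card_le_card h1
      omega
    · rw [hδ']; exact h3
    · have hedr : (ed E S T : ℝ) = ed E (S.erase x) T1 + ((T \ T1).card : ℝ) * (δ - 1) + dR E T x := by
        have : (ed E S T : ℝ) + (T \ T1).card = ed E (S.erase x) T1 + ((T \ T1).card : ℝ) * δ + dR E T x := by
          exact_mod_cast hed
        linarith
      have hcSr : ((S.erase x).card : ℝ) + 1 = S.card := by exact_mod_cast hcS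
      have hcTr : ((T \ T1).card : ℝ) + T1.card = T.card := by exact_mod_cast hcT
      have hScr : (S.card : ℝ) + 1 = k := by exact_mod_cast hSc
      have hmin1r : (S.card : ℝ) * dR E T x ≤ ed E S T := by exact_mod_cast hmin1
      -- the degrees
      have hdeq : ∀ t, (dL E (S.erase x) t : ℝ) + ((if E x t then 1 else 0 : ℕ) : ℝ) = dL E S t := by
        intro t
        by_cases hxt : E x t
        · have := dL_erase_of E hx hxt
          simp only [hxt, if_true]
          exact_mod_cast this.symm
        · have := dL_erase_not E (S := S) hxt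
          simp only [hxt, if_false]
          rw [this]; simp
      set α := mu k / ((k : ℝ) - 1) with hαdef
      have hdegk : ∀ t, (dL E S t : ℝ) ≤ (k : ℝ) - 1 := by
        intro t
        have : (dL E S t : ℝ) ≤ S.card := by exact_mod_cast dL_le E S t
        linarith
      have hsum1 : (∑ t ∈ T1, max 0 ((mu k * δ - 1) - α * ((dL E (S.erase x) t : ℝ) - δ +
          ((if E x t then 1 else 0 : ℕ) : ℝ)))) ≤ ∑ t ∈ T1, α * ((k : ℝ) - 1 - dL E S t) := by
        apply Finset.sum_le_sum
        intro t ht
        have e1 := hdeq t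
        have e2 : (dL E (S.erase x) t : ℝ) - δ + ((if E x t then 1 else 0 : ℕ) : ℝ) = dL E S t - δ := by
          linarith
        rw [e2]
        apply max_le
        · exact mul_nonneg hα0.le (by linarith [hdegk t])
        · have : α * ((k : ℝ) - 1 - dL E S t) = α * ((δ : ℝ) - 1) - α * (dL E S t - δ) := by
            rw [hδk]; ring
          linarith
      have hsum2 : ((T \ T1).card : ℝ) * (mu k * δ - 1) ≤ ∑ t ∈ T \ T1, α * ((k : ℝ) - 1 - dL E S t) := by
        rw [← nsmul_eq_mul, ← Finset.sum_const]
        apply Finset.sum_le_sum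
        intro t ht
        rw [(hrem t ht).2.1]
        have : α * ((k : ℝ) - 1 - δ) = α * ((δ : ℝ) - 1) := by
          rw [hδk]; ring
        linarith
      have hsum3 : ∑ t ∈ T, α * ((k : ℝ) - 1 - dL E S t) = α * (((k : ℝ) - 1) * T.card - ed E S T) := by
        rw [← Finset.mul_sum, Finset.sum_sub_distrib, Finset.sum_const, nsmul_eq_mul, ed_sumL]
        push_cast
        ring
      have hsum4 : ∑ t ∈ T, α * ((k : ℝ) - 1 - dL E S t) = ∑ t ∈ T \ T1, α * ((k : ℝ) - 1 - dL E S t) +
          ∑ t ∈ T1, α * ((k : ℝ) - 1 - dL E S t) := by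
        rw [Finset.sum_sdiff hsub]
      have hfin : α * (((k : ℝ) - 1) * T.card - ed E S T) ≤ mu k * (T.card - dR E T x) := by
        have : α * (((k : ℝ) - 1) * T.card - ed E S T) ≤ α * (((k : ℝ) - 1) * T.card - S.card * dR E T x) :=
          mul_le_mul_of_nonneg_left (by linarith) hα0.le
        refine this.trans (le_of_eq ?_)
        have e : (S.card : ℝ) = (k : ℝ) - 1 := by linarith
        rw [e, ← hα]; ring
      have hr0 : (k : ℝ) - 2 - (S.erase x).card = 0 := by linarith
      rw [hr0, mul_zero, add_zero] at h5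
      rw [hedr]
      have e1 : ((S.erase x).card : ℝ) = S.card - 1 := by linarith
      have e2 : (T1.card : ℝ) = T.card - (T \ T1).card := by linarith
      rw [e1, e2] at h5
      nlinarith

end H22CK
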