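import Pool.Agent.H22.CK.Defs

/-! Counting lemmas for E10, E11, E12. -/

set_option autoImplicit false

namespace H22CK.Ear

variable {V W : Type*}

theorem nbrL {E : V → W → Prop} {S : Finset V} {t : W} {F : Finset V} (h : F.card < dL E S t) :
    ∃ x ∈ S, E x t ∧ x ∉ F := by
  classical
  by_contra hc
  push Not at hc
  have hsub : S.filter (fun x => E x t) ⊆ F := by
    intro x hx
    rw [Finset.mem_filter] at hx
    exact hc x hx.1 hx.2
  have h1 : dL E S t = (S.filter (fun x => E x t)).card := by unfold dL; rfl
  have h2 := Finset.card_le_card hsub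
  omega

theorem nbrR {E : V → W → Prop} {T : Finset W} {x : V} {F : Finset W} (h : F.card < dR E T x) :
    ∃ t ∈ T, E x t ∧ t ∉ F := by
  classical
  by_contra hc
  push Not at hc
  have hsub : T.filter (fun t => E x t) ⊆ F := by
    intro t ht
    rw [Finset.mem_filter] at ht
    exact hc t ht.1 ht.2
  have h1 : dR E T x = (T.filter (fun t => E x t)).card := by unfold dR; rfl
  have h2 := Finset.card_le_card hsub
  omega

theorem nbrL2 {E : V → W → Prop} {S : Finset V} {t t' : W} {F : Finset V}
    (h : F.card + S.card < dL E S t + dL E S t') :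
    ∃ x ∈ S, E x t ∧ E x t' ∧ x ∉ F := by
  classical
  by_contra hc
  push Not at hc
  have h1 : dL E S t = (S.filter (fun x => E x t)).card := by unfold dL; rfl
  have h2 : dL E S t' = (S.filter (fun x => E x t')).card := by unfold dL; rfl
  have hsub : S.filter (fun x => E x t) ∩ S.filter (fun x => E x t') ⊆ F := by
    intro x hx
    rw [Finset.mem_inter, Finset.mem_filter, Finset.mem_filter] at hx
    exact hc x hx.1.1 hx.1.2 hx.2.2
  have h3 := Finset.card_le_card hsub
  have h4 := Finset.card_union_add_card_inter (S.filter (fun x => E x t))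
    (S.filter (fun x => E x t'))
  have h5 : (S.filter (fun x => E x t) ∪ S.filter (fun x => E x t')).card ≤ S.card :=
    Finset.card_le_card (Finset.union_subset (Finset.filter_subset _ _) (Finset.filter_subset _ _))
  omega

theorem dL_sdiff [DecidableEq V] (E : V → W → Prop) (S F : Finset V) (t : W) :
    dL E S t ≤ dL E (S \ F) t + (S ∩ F).card := by
  classical
  have h1 : dL E S t = (S.filter (fun x => E x t)).card := by unfold dL; rfl
  have h2 : dL E (S \ F) t = ((S \ F).filter (fun x => E x t)).card := by unfold dL; rfl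
  have hsub : S.filter (fun x => E x t) ⊆ (S \ F).filter (fun x => E x t) ∪ (S ∩ F) := by
    intro x hx
    rw [Finset.mem_filter] at hx
    rw [Finset.mem_union, Finset.mem_filter, Finset.mem_sdiff, Finset.mem_inter]
    by_cases hF : x ∈ F
    · exact Or.inr ⟨hx.1, hF⟩
    · exact Or.inl ⟨⟨hx.1, hF⟩, hx.2⟩
  calc dL E S t = (S.filter (fun x => E x t)).card := h1
    _ ≤ ((S \ F).filter (fun x => E x t) ∪ (S ∩ F)).card := Finset.card_le_card hsub
    _ ≤ _ := by rw [h2]; exact Finset.card_union_le _ _

theorem dR_sdiff [DecidableEq W] (E : V → W → Prop) (T F : Finset W) (x : V) :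
    dR E T x ≤ dR E (T \ F) x + F.card := by
  classical
  have h1 : dR E T x = (T.filter (fun t => E x t)).card := by unfold dR; rfl
  have h2 : dR E (T \ F) x = ((T \ F).filter (fun t => E x t)).card := by unfold dR; rfl
  have hsub : T.filter (fun t => E x t) ⊆ (T \ F).filter (fun t => E x t) ∪ F := by
    intro t ht
    rw [Finset.mem_filter] at ht
    rw [Finset.mem_union, Finset.mem_filter, Finset.mem_sdiff]
    by_cases hF : t ∈ F
    · exact Or.inr hF
    · exact Or.inl ⟨⟨ht.1, hF⟩, ht.2⟩
  calc dR E T x = (T.filter (fun t => E x t)).card := h1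
    _ ≤ ((T \ F).filter (fun t => E x t) ∪ F).card := Finset.card_le_card hsub
    _ ≤ _ := by rw [h2]; exact Finset.card_union_le _ _

theorem dR_sdiff' [DecidableEq W] (E : V → W → Prop) (T F : Finset W) (x : V) (u : W)
    (hu : ¬ E x u) : dR E T x ≤ dR E (T \ insert u F) x + F.card := by
  classical
  have h1 : dR E T x = (T.filter (fun t => E x t)).card := by unfold dR; rfl
  have h2 : dR E (T \ insert u F) x = ((T \ insert u F).filter (fun t => E x t)).card := by
    unfold dR; rfl
  have hsub : T.filter (fun t => E x t) ⊆ (T \ insert u F).filter (fun t => E x t) ∪ F := by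
    intro t ht
    rw [Finset.mem_filter] at ht
    rw [Finset.mem_union, Finset.mem_filter, Finset.mem_sdiff, Finset.mem_insert]
    by_cases hF : t ∈ F
    · exact Or.inr hF
    · refine Or.inl ⟨⟨ht.1, ?_⟩, ht.2⟩
      rintro (rfl | h)
      · exact hu ht.2
      · exact hF h
  calc dR E T x = (T.filter (fun t => E x t)).card := h1
    _ ≤ ((T \ insert u F).filter (fun t => E x t) ∪ F).card := Finset.card_le_card hsub
    _ ≤ _ := by rw [h2]; exact Finset.card_union_le _ _

theorem dL_disj {R B : V → W → Prop} (hRB : ∀ x y, R x y → ¬ B x y) (S : Finset V) (t : W) :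
    dL R S t + dL B S t ≤ S.card := by
  classical
  have h1 : dL R S t = (S.filter (fun x => R x t)).card := by unfold dL; rfl
  have h2 : dL B S t = (S.filter (fun x => B x t)).card := by unfold dL; rfl
  have hd : Disjoint (S.filter (fun x => R x t)) (S.filter (fun x => B x t)) := by
    rw [Finset.disjoint_left]
    intro x hx hx'
    rw [Finset.mem_filter] at hx hx'
    exact hRB x t hx.2 hx'.2
  rw [h1, h2, ← Finset.card_union_of_disjoint hd]
  exact Finset.card_le_card (Finset.union_subset (Finset.filter_subset _ _) (Finset.filter_subset _ _))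

/-- monotonicity -/
theorem dL_mono {E : V → W → Prop} {S S' : Finset V} (h : S ⊆ S') (t : W) :
    dL E S t ≤ dL E S' t := by
  classical
  have h1 : dL E S t = (S.filter (fun x => E x t)).card := by unfold dL; rfl
  have h2 : dL E S' t = (S'.filter (fun x => E x t)).card := by unfold dL; rfl
  rw [h1, h2]
  exact Finset.card_le_card (Finset.filter_subset_filter _ h)

end H22CK.Ear
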