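import Mathlib

/-! Definitions of PROJECT CK (MP_52ca01_co : r(K_{n,n}, C_{2k}, 3) >= c_k n).

Left vertices live in `V`, right vertices in `W`; a bipartite graph is a relation `E : V → W → Prop`.
Sequences are functions on `ℕ` of which only the values below the stated length matter. -/

set_option autoImplicit false

namespace H22CK

variable {V W : Type*}

/-- number of neighbours in `S` (left side) of the right vertex `t` -/
noncomputable def dL (E : V → W → Prop) (S : Finset V) (t : W) : ℕ := by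
  classical exact (S.filter (fun x => E x t)).card

/-- number of neighbours in `T` (right side) of the left vertex `x` -/
noncomputable def dR (E : V → W → Prop) (T : Finset W) (x : V) : ℕ := by
  classical exact (T.filter (fun t => E x t)).card

/-- number of edges between `S` and `T` -/
noncomputable def ed (E : V → W → Prop) (S : Finset V) (T : Finset W) : ℕ := by
  classical exact ((S ×ˢ T).filter (fun q => E q.1 q.2)).card

/-- the relation with the two sides exchanged -/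
def fl (E : V → W → Prop) : W → V → Prop := fun y x => E x y

/-- A `k`-core, `δ = ⌈k/2⌉ = (k+1)/2`: `|S| ≤ 2δ - 2`, all degrees of `T` in `S` are `≥ δ` and all
degrees of `S` in `T` are `≥ k`. -/
structure IsCore (k : ℕ) (E : V → W → Prop) (S : Finset V) (T : Finset W) : Prop where
  small : S.card + 2 ≤ 2 * ((k + 1) / 2)
  degT : ∀ t ∈ T, (k + 1) / 2 ≤ dL E S t
  degS : ∀ x ∈ S, k ≤ dR E T x

/-- `u ≠ v` lie in the large side of a common core inside `(X, Y)`. -/
def CPair (k : ℕ) (E : V → W → Prop) (X : Finset V) (Y : Finset W) (u v : W) : Prop :=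
  u ≠ v ∧ ∃ S T, S ⊆ X ∧ T ⊆ Y ∧ IsCore k E S T ∧ u ∈ T ∧ v ∈ T

/-- number of ordered core pairs inside `(X, Y)` (on the right side) -/
noncomputable def cp (k : ℕ) (E : V → W → Prop) (X : Finset V) (Y : Finset W) : ℕ := by
  classical exact ((Y ×ˢ Y).filter (fun q => CPair k E X Y q.1 q.2)).card

/-- a path `p 0, c 0, p 1, c 1, ..., p (k-1), c (k-1)` on `2k` vertices inside `(X, Y)` -/
def HasPath (k : ℕ) (E : V → W → Prop) (X : Finset V) (Y : Finset W) : Prop :=
  ∃ (p : ℕ → V) (c : ℕ → W), Set.InjOn p (Set.Iio k) ∧ Set.InjOn c (Set.Iio k) ∧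
    (∀ i < k, p i ∈ X ∧ c i ∈ Y) ∧ (∀ i < k, E (p i) (c i)) ∧
    (∀ i, i + 1 < k → E (p (i + 1)) (c i))

/-- a cycle `p 0, c 0, p 1, c 1, ..., p (k-1), c (k-1), p 0` on `2k` vertices -/
def HasCycle (k : ℕ) (E : V → W → Prop) : Prop :=
  ∃ (p : ℕ → V) (c : ℕ → W), Set.InjOn p (Set.Iio k) ∧ Set.InjOn c (Set.Iio k) ∧
    (∀ i < k, E (p i) (c i)) ∧ (∀ i, i + 1 < k → E (p (i + 1)) (c i)) ∧ E (p 0) (c (k - 1))

/-- cyclic successor on `{0, ..., k-1}` -/
def nx (k i : ℕ) : ℕ := if i + 1 = k then 0 else i + 1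

/-- the path `y 0, x 0, y 1, x 1, ..., x (t-1), y t` with `t` left and `t+1` right vertices -/
structure IsOdd (t : ℕ) (E : V → W → Prop) (X : Finset V) (Y : Finset W) (x : ℕ → V) (y : ℕ → W) :
    Prop where
  xX : ∀ i < t, x i ∈ X
  yY : ∀ i ≤ t, y i ∈ Y
  xinj : Set.InjOn x (Set.Iio t)
  yinj : Set.InjOn y (Set.Iic t)
  e1 : ∀ i < t, E (x i) (y i)
  e2 : ∀ i < t, E (x i) (y (i + 1))

/-- the cycle `x 0, y 0, x 1, y 1, ..., x (t-1), y (t-1), x 0` -/
structure IsCyc (t : ℕ) (E : V → W → Prop) (X : Finset V) (Y : Finset W) (x : ℕ → V) (y : ℕ → W) :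
    Prop where
  xX : ∀ i < t, x i ∈ X
  yY : ∀ i < t, y i ∈ Y
  xinj : Set.InjOn x (Set.Iio t)
  yinj : Set.InjOn y (Set.Iio t)
  e1 : ∀ i < t, E (x i) (y i)
  e2 : ∀ i < t, E (x (nx t i)) (y i)

/-- a nonempty pair `(X0, Y0)` inside `(X, Y)` which no edge of `(X, Y)` leaves -/
structure Closed (E : V → W → Prop) (X : Finset V) (Y : Finset W) (X0 : Finset V) (Y0 : Finset W) :
    Prop where
  hX : X0 ⊆ X
  hY : Y0 ⊆ Y
  nX : X0.Nonempty
  nY : Y0.Nonempty
  c1 : ∀ x ∈ X0, ∀ y ∈ Y, E x y → y ∈ Y0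
  c2 : ∀ y ∈ Y0, ∀ x ∈ X, E x y → x ∈ X0

/-- A cyclic arrangement `p 0, ..., p (k-1)` of the `k` elements of `K`; the arcs `i ∈ M` (from `p i`
to its cyclic successor) carry distinct connectors `c i ∈ A`, adjacent to both ends of the arc.
The arcs `i < k`, `i ∉ M` are called missing. -/
structure Arr (k : ℕ) (G : V → W → Prop) (K : Finset V) (A : Finset W) (p : ℕ → V) (c : ℕ → W)
    (M : Finset ℕ) : Prop where
  cardK : K.card = k
  pK : ∀ i < k, p i ∈ K
  pinj : Set.InjOn p (Set.Iio k)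
  MK : ∀ i ∈ M, i < k
  cA : ∀ i ∈ M, c i ∈ A
  a1 : ∀ i ∈ M, G (p i) (c i)
  a2 : ∀ i ∈ M, G (p (nx k i)) (c i)
  cinj : Set.InjOn c (M : Set ℕ)

/-- the constants -/
noncomputable def lam (k : ℕ) : ℝ := 2 * ((k : ℝ) - 1) / (2 * (k : ℝ) - 1) ^ 2

noncomputable def mu (k : ℕ) : ℝ :=
  (8 * (k : ℝ) ^ 2 - 11 * (k : ℝ) + 4) / (((k : ℝ) - 1) * (2 * (k : ℝ) - 1) ^ 2)

end H22CK

namespace H22CK

variable {V W : Type*}

/-- number of `t ∈ A` adjacent to `x` which have at least `d` neighbours in `K` -/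
noncomputable def av (G : V → W → Prop) (K : Finset V) (d : ℕ) (A : Finset W) (x : V) : ℕ := by
  classical exact (A.filter (fun t => G x t ∧ d ≤ dL G K t)).card

end H22CK
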