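import Pool.Agent.H22.CK.Defs

/-! CK-E1: the basic moves on arrangements. -/

set_option autoImplicit false

namespace H22CK

variable {V W : Type*}

theorem nx_lt {k i : ℕ} (hi : i < k) : nx k i < k := by
  unfold nx; split_ifs <;> omega

theorem nx_inj {k i j : ℕ} (hi : i < k) (hj : j < k) (h : nx k i = nx k j) : i = j := by
  unfold nx at h; split_ifs at h <;> omega

/-- E1 the 2-opt move: reverse the segment `[a+1, b]`; arcs `a` and `b` become missing. -/
theorem two_opt {k : ℕ} {G : V → W → Prop} {K : Finset V} {A : Finset W} {p : ℕ → V} {c : ℕ → W}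
    {M : Finset ℕ} (h : Arr k G K A p c M) {a b : ℕ} (hab : a < b) (hb : b < k) :
    ∃ p' c' M', Arr k G K A p' c' M' ∧ p' 0 = p 0 ∧
      a ∉ M' ∧ b ∉ M' ∧ p' a = p a ∧ p' (nx k a) = p b ∧ p' b = p (nx k a) ∧
      p' (nx k b) = p (nx k b) ∧ M'.card = ((M.erase a).erase b).card ∧
      (∀ i ∈ M', ∃ j ∈ M, j ≠ a ∧ j ≠ b ∧ c' i = c j) ∧
      (∀ i, b < i → (i ∈ M' ↔ i ∈ M)) := by
  classical
  set rv : ℕ → ℕ := fun m => if a < m ∧ m ≤ b then a + 1 + b - m else m with hrv
  set ra : ℕ → ℕ := fun m => if a < m ∧ m < b then a + b - m else m with hra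
  set M1 := (M.erase a).erase b with hM1
  have hra_inv : ∀ m, ra (ra m) = m := by
    intro m; simp only [hra]; split_ifs <;> omega
  have hra_inj : Function.Injective ra := by
    intro i j hij; rw [← hra_inv i, hij, hra_inv]
  have hmemM1 : ∀ m, m ∈ M1 ↔ m ∈ M ∧ m ≠ a ∧ m ≠ b := by
    intro m; simp only [hM1, Finset.mem_erase]; tauto
  have hmem : ∀ m, m ∈ M1.image ra ↔ ra m ∈ M1 := by
    intro m
    constructor
    · intro hm
      obtain ⟨j, hj, rfl⟩ := Finset.mem_image.1 hm
      rw [hra_inv]; exact hj
    · intro hm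
      exact Finset.mem_image.2 ⟨ra m, hm, hra_inv m⟩
  have hraa : ra a = a := by simp only [hra]; split_ifs <;> omega
  have hrab : ra b = b := by simp only [hra]; split_ifs <;> omega
  have hra_lt : ∀ m, m < k → ra m < k := by
    intro m hm; simp only [hra]; split_ifs <;> omega
  have hnxa : nx k a = a + 1 := by unfold nx; split_ifs <;> omega
  refine ⟨p ∘ rv, c ∘ ra, M1.image ra, ?_, ?_, ?_, ?_, ?_, ?_, ?_, ?_, ?_, ?_, ?_⟩
  · -- Arr
    have key : ∀ i, ra i ∈ M1 → i < k ∧ G (p (rv i)) (c (ra i)) ∧ G (p (rv (nx k i))) (c (ra i)) := by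
      intro i hi
      have hiM := (hmemM1 _).1 hi
      have hik : i < k := by
        have := hra_lt _ (h.MK _ hiM.1)
        rwa [hra_inv] at this
      have hia : i ≠ a := fun he => hiM.2.1 (by rw [he, hraa])
      have hib : i ≠ b := fun he => hiM.2.2 (by rw [he, hrab])
      refine ⟨hik, ?_⟩
      have A1 := h.a1 _ hiM.1
      have A2 := h.a2 _ hiM.1
      by_cases hc : a < i ∧ i < b
      · have e1 : ra i = a + b - i := by simp only [hra]; rw [if_pos hc]
        have e2 : rv i = nx k (ra i) := by
          rw [e1]; simp only [hrv, nx]; split_ifs <;> omega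
        have e3 : rv (nx k i) = ra i := by
          rw [e1]; simp only [hrv, nx]; split_ifs <;> omega
        rw [e2, e3]; exact ⟨A2, A1⟩
      · have e1 : ra i = i := by simp only [hra]; rw [if_neg hc]
        have e2 : rv i = i := by simp only [hrv]; split_ifs <;> omega
        have e3 : rv (nx k i) = nx k i := by
          simp only [hrv, nx]; split_ifs <;> omega
        rw [e1] at A1 A2 ⊢
        rw [e2, e3]; exact ⟨A1, A2⟩
    refine ⟨h.cardK, ?_, ?_, ?_, ?_, ?_, ?_, ?_⟩
    · intro i hi
      exact h.pK _ (by simp only [hrv]; split_ifs <;> omega)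
    · intro i hi j hj hij
      have hi' : i < k := hi
      have hj' : j < k := hj
      have h1 : rv i < k := by simp only [hrv]; split_ifs <;> omega
      have h2 : rv j < k := by simp only [hrv]; split_ifs <;> omega
      have := h.pinj h1 h2 hij
      simp only [hrv] at this
      split_ifs at this <;> omega
    · intro i hi; exact (key i ((hmem i).1 hi)).1
    · intro i hi; exact h.cA _ ((hmemM1 _).1 ((hmem i).1 hi)).1
    · intro i hi; exact (key i ((hmem i).1 hi)).2.1
    · intro i hi; exact (key i ((hmem i).1 hi)).2.2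
    · intro i hi j hj hij
      have h1 := ((hmemM1 _).1 ((hmem i).1 hi)).1
      have h2 := ((hmemM1 _).1 ((hmem j).1 hj)).1
      exact hra_inj (h.cinj h1 h2 hij)
  · simp only [Function.comp, hrv]; rw [if_neg (by omega)]
  · rw [hmem, hraa, hmemM1]; tauto
  · rw [hmem, hrab, hmemM1]; tauto
  · simp only [Function.comp, hrv]; rw [if_neg (by omega)]
  · rw [hnxa]; simp only [Function.comp, hrv]; rw [if_pos (by omega)]; congr 1; omega
  · rw [hnxa]; simp only [Function.comp, hrv]; rw [if_pos (by omega)]; congr 1; omega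
  · simp only [Function.comp, hrv]
    congr 1
    rw [if_neg]
    unfold nx; split_ifs <;> omega
  · rw [Finset.card_image_of_injective _ hra_inj]
  · intro i hi
    have := (hmemM1 _).1 ((hmem i).1 hi)
    exact ⟨ra i, this.1, this.2.1, this.2.2, rfl⟩
  · intro i hi
    have e1 : ra i = i := by simp only [hra]; rw [if_neg (by omega)]
    rw [hmem, e1, hmemM1]
    constructor
    · intro h'; exact h'.1
    · intro h'; exact ⟨h', by omega, by omega⟩

/-- E2 adding a connector -/
theorem add_link {k : ℕ} {G : V → W → Prop} {K : Finset V} {A : Finset W} {p : ℕ → V} {c : ℕ → W}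
    {M : Finset ℕ} (h : Arr k G K A p c M) {i : ℕ} (hi : i < k) (hiM : i ∉ M) {A' : Finset W}
    (hA : A ⊆ A') {t : W} (ht : t ∈ A') (hf : ∀ j ∈ M, c j ≠ t) (h1 : G (p i) t)
    (h2 : G (p (nx k i)) t) :
    Arr k G K A' p (Function.update c i t) (insert i M) := by
  have hup : ∀ j ∈ M, Function.update c i t j = c j := by
    intro j hj
    rw [Function.update_of_ne]
    rintro rfl; exact hiM hj
  refine ⟨h.cardK, h.pK, h.pinj, ?_, ?_, ?_, ?_, ?_⟩
  · intro j hj
    rcases Finset.mem_insert.1 hj with rfl | hj
    · exact hi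
    · exact h.MK j hj
  · intro j hj
    rcases Finset.mem_insert.1 hj with rfl | hj
    · rw [Function.update_self]; exact ht
    · rw [hup j hj]; exact hA (h.cA j hj)
  · intro j hj
    rcases Finset.mem_insert.1 hj with rfl | hj
    · rw [Function.update_self]; exact h1
    · rw [hup j hj]; exact h.a1 j hj
  · intro j hj
    rcases Finset.mem_insert.1 hj with rfl | hj
    · rw [Function.update_self]; exact h2
    · rw [hup j hj]; exact h.a2 j hj
  · intro j hj l hl hjl
    rcases Finset.mem_insert.1 (Finset.mem_coe.1 hj) with rfl | hj'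
    · rcases Finset.mem_insert.1 (Finset.mem_coe.1 hl) with rfl | hl'
      · rfl
      · rw [Function.update_self, hup l hl'] at hjl
        exact absurd hjl.symm (hf l hl')
    · rcases Finset.mem_insert.1 (Finset.mem_coe.1 hl) with rfl | hl'
      · rw [Function.update_self, hup j hj'] at hjl
        exact absurd hjl (hf j hj')
      · rw [hup j hj', hup l hl'] at hjl
        exact h.cinj hj' hl' hjl

/-- E3 reversing the whole arrangement -/
theorem arr_rev {k : ℕ} {G : V → W → Prop} {K : Finset V} {A : Finset W} {p : ℕ → V} {c : ℕ → W}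
    {M : Finset ℕ} (h : Arr k G K A p c M) {i : ℕ} (hi : i < k) (hiM : i ∉ M) :
    ∃ p' c' M', Arr k G K A p' c' M' ∧ M'.card = M.card ∧
      ∃ j < k, j ∉ M' ∧ p' j = p (nx k i) ∧ p' (nx k j) = p i := by
  classical
  -- vertices m ↦ k - 1 - m, arcs m ↦ k - 2 - m (and k - 1 ↦ k - 1)
  set rv : ℕ → ℕ := fun m => if m < k then k - 1 - m else m with hrv
  set ra : ℕ → ℕ := fun m => if m + 1 < k then k - 2 - m else m with hra
  have hra_inv : ∀ m, ra (ra m) = m := by
    intro m; simp only [hra]; split_ifs <;> omega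
  have hra_inj : Function.Injective ra := by
    intro i j hij; rw [← hra_inv i, hij, hra_inv]
  have hmem : ∀ m, m ∈ M.image ra ↔ ra m ∈ M := by
    intro m
    constructor
    · intro hm
      obtain ⟨j, hj, rfl⟩ := Finset.mem_image.1 hm
      rw [hra_inv]; exact hj
    · intro hm
      exact Finset.mem_image.2 ⟨ra m, hm, hra_inv m⟩
  have hra_lt : ∀ m, m < k → ra m < k := by
    intro m hm; simp only [hra]; split_ifs <;> omega
  have hv1 : ∀ m, m < k → rv m = nx k (ra m) := by
    intro m hm; simp only [hrv, hra, nx]; split_ifs <;> omega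
  have hv2 : ∀ m, m < k → rv (nx k m) = ra m := by
    intro m hm; simp only [hrv, hra, nx]; split_ifs <;> omega
  refine ⟨p ∘ rv, c ∘ ra, M.image ra, ?_, Finset.card_image_of_injective _ hra_inj, ra i,
    hra_lt i hi, ?_, ?_, ?_⟩
  · refine ⟨h.cardK, ?_, ?_, ?_, ?_, ?_, ?_, ?_⟩
    · intro j hj
      exact h.pK _ (by simp only [hrv]; split_ifs <;> omega)
    · intro i hi j hj hij
      have hi' : i < k := hi
      have hj' : j < k := hj
      have h1 : rv i < k := by simp only [hrv]; split_ifs <;> omega
      have h2 : rv j < k := by simp only [hrv]; split_ifs <;> omega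
      have := h.pinj h1 h2 hij
      simp only [hrv] at this
      split_ifs at this <;> omega
    · intro j hj
      have := hra_lt _ (h.MK _ ((hmem j).1 hj))
      rwa [hra_inv] at this
    · intro j hj; exact h.cA _ ((hmem j).1 hj)
    · intro j hj
      have hj1 := (hmem j).1 hj
      have hjk : j < k := by
        have := hra_lt _ (h.MK _ hj1)
        rwa [hra_inv] at this
      have := h.a2 _ hj1
      simp only [Function.comp]
      rw [hv1 j hjk]; exact this
    · intro j hj
      have hj1 := (hmem j).1 hj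
      have hjk : j < k := by
        have := hra_lt _ (h.MK _ hj1)
        rwa [hra_inv] at this
      have := h.a1 _ hj1
      simp only [Function.comp]
      rw [hv2 j hjk]; exact this
    · intro i hi j hj hij
      exact hra_inj (h.cinj ((hmem i).1 hi) ((hmem j).1 hj) hij)
  · rw [hmem, hra_inv]; exact hiM
  · simp only [Function.comp]
    rw [hv1 _ (hra_lt i hi), hra_inv]
  · simp only [Function.comp]
    rw [hv2 _ (hra_lt i hi), hra_inv]

/-- E4 -/
theorem arr_cycle {k : ℕ} (hk : 1 ≤ k) {G : V → W → Prop} {K : Finset V} {A : Finset W}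
    {p : ℕ → V} {c : ℕ → W} {M : Finset ℕ} (h : Arr k G K A p c M) (hM : M.card = k) :
    HasCycle k G := by
  have hMr : M = Finset.range k := by
    apply Finset.eq_of_subset_of_card_le
    · intro i hi; exact Finset.mem_range.2 (h.MK i hi)
    · rw [Finset.card_range, hM]
  have hmem : ∀ i, i < k → i ∈ M := by
    intro i hi; rw [hMr]; exact Finset.mem_range.2 hi
  refine ⟨p, c, h.pinj, ?_, ?_, ?_, ?_⟩
  · intro i hi j hj hij
    exact h.cinj (hmem i hi) (hmem j hj) hij
  · intro i hi; exact h.a1 i (hmem i hi)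
  · intro i hi
    have := h.a2 i (hmem i (by omega))
    unfold nx at this
    rwa [if_neg (by omega)] at this
  · have := h.a2 (k - 1) (hmem _ (by omega))
    unfold nx at this
    rwa [if_pos (by omega)] at this

end H22CK
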