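import Pool.Agent.H22.CK.CntE

/-! CK-E10: the ear lemma. -/

set_option autoImplicit false

namespace H22CK

variable {V W : Type*}

/-- greedy path inside `(Q, T)` -/
theorem ear_greedy [DecidableEq V] [DecidableEq W] {k n : ℕ} (B : V → W → Prop)
    (Q : Finset V) (T : Finset W) (u v : W) (hu : u ∈ T)
    (hT : ∀ t ∈ T, n ≤ dL B Q t) (hQ : ∀ x ∈ Q, k ≤ dR B T x) (hnk : n + 1 ≤ k) :
    ∀ m, m + 2 ≤ n → ∃ (q : ℕ → V) (t : ℕ → W), (∀ i ≤ m, q i ∈ Q) ∧ Set.InjOn q (Set.Iic m) ∧
      (∀ i < m, t i ∈ T ∧ t i ≠ u ∧ t i ≠ v) ∧ Set.InjOn t (Set.Iio m) ∧ B (q 0) u ∧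
      (∀ i < m, B (q i) (t i) ∧ B (q (i + 1)) (t i)) := by
  classical
  intro m
  induction m with
  | zero =>
    intro hm
    obtain ⟨x, hx, hxu, -⟩ := Ear.nbrL (E := B) (S := Q) (t := u) (F := ∅) (by
      have := hT u hu
      rw [Finset.card_empty]; omega)
    refine ⟨fun _ => x, fun _ => u, fun _ _ => hx, ?_, ?_, ?_, hxu, ?_⟩
    · intro i hi j hj _
      have hi' : i ≤ 0 := hi
      have hj' : j ≤ 0 := hj
      omega
    · intro i hi; omega
    · intro i hi
      have hi' : i < 0 := hi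
      omega
    · intro i hi; omega
  | succ m ih =>
    intro hm
    obtain ⟨q, t, h1, h2, h3, h4, h5, h6⟩ := ih (by omega)
    obtain ⟨t', ht', hqt', htF⟩ := Ear.nbrR (E := B) (T := T) (x := q m)
      (F := insert u (insert v ((Finset.range m).image t))) (by
        have e1 := hQ (q m) (h1 m le_rfl)
        have e2 : (insert u (insert v ((Finset.range m).image t))).card ≤
            (insert v ((Finset.range m).image t)).card + 1 := Finset.card_insert_le _ _
        have e3 : (insert v ((Finset.range m).image t)).card ≤ ((Finset.range m).image t).card + 1 :=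
          Finset.card_insert_le _ _
        have e4 : ((Finset.range m).image t).card ≤ m := by
          calc _ ≤ (Finset.range m).card := Finset.card_image_le
            _ = m := Finset.card_range m
        omega)
    rw [Finset.mem_insert, Finset.mem_insert] at htF
    push Not at htF
    obtain ⟨hu', hv', htF⟩ := htF
    obtain ⟨q', hq', hqt2, hqF⟩ := Ear.nbrL (E := B) (S := Q) (t := t')
      (F := (Finset.range (m + 1)).image q) (by
        have e1 := hT t' ht'
        have e4 : ((Finset.range (m + 1)).image q).card ≤ m + 1 := by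
          calc _ ≤ (Finset.range (m + 1)).card := Finset.card_image_le
            _ = m + 1 := Finset.card_range _
        omega)
    have hqne : ∀ i ≤ m, q i ≠ q' := by
      intro i hi he
      exact hqF (Finset.mem_image.2 ⟨i, Finset.mem_range.2 (by omega), he⟩)
    have htne : ∀ i < m, t i ≠ t' := by
      intro i hi he
      exact htF (Finset.mem_image.2 ⟨i, Finset.mem_range.2 (by omega), he⟩)
    have Q1 : ∀ i ≤ m, Function.update q (m + 1) q' i = q i := by
      intro i hi; rw [Function.update_of_ne (by omega)]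
    have Q2 : Function.update q (m + 1) q' (m + 1) = q' := Function.update_self _ _ _
    have T1 : ∀ i < m, Function.update t m t' i = t i := by
      intro i hi; rw [Function.update_of_ne (by omega)]
    have T2 : Function.update t m t' m = t' := Function.update_self _ _ _
    refine ⟨Function.update q (m + 1) q', Function.update t m t', ?_, ?_, ?_, ?_, ?_, ?_⟩
    · intro i hi
      rcases Nat.lt_or_ge m i with h | h
      · have : i = m + 1 := by omega
        rw [this, Q2]; exact hq'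
      · rw [Q1 i h]; exact h1 i h
    · intro i hi j hj hij
      have hi' : i ≤ m + 1 := hi
      have hj' : j ≤ m + 1 := hj
      rcases Nat.lt_or_ge m i with h | h <;> rcases Nat.lt_or_ge m j with h' | h'
      · omega
      · have hi2 : i = m + 1 := by omega
        rw [hi2, Q2, Q1 j h'] at hij
        exact absurd hij.symm (hqne j h')
      · have hj2 : j = m + 1 := by omega
        rw [hj2, Q2, Q1 i h] at hij
        exact absurd hij (hqne i h)
      · rw [Q1 i h, Q1 j h'] at hij
        exact h2 h h' hij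
    · intro i hi
      rcases Nat.lt_or_ge i m with h | h
      · rw [T1 i h]; exact h3 i h
      · have : i = m := by omega
        rw [this, T2]
        exact ⟨ht', hu', hv'⟩
    · intro i hi j hj hij
      have hi' : i < m + 1 := hi
      have hj' : j < m + 1 := hj
      rcases Nat.lt_or_ge i m with h | h <;> rcases Nat.lt_or_ge j m with h' | h'
      · rw [T1 i h, T1 j h'] at hij
        exact h4 h h' hij
      · have hj2 : j = m := by omega
        rw [hj2, T2, T1 i h] at hij
        exact absurd hij (htne i h)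
      · have hi2 : i = m := by omega
        rw [hi2, T2, T1 j h'] at hij
        exact absurd hij.symm (htne j h')
      · omega
    · rw [Q1 0 (by omega)]; exact h5
    · intro i hi
      rcases Nat.lt_or_ge i m with h | h
      · rw [T1 i h, Q1 i (by omega), Q1 (i + 1) (by omega)]; exact h6 i h
      · have : i = m := by omega
        rw [this, T2, Q2, Q1 m le_rfl]
        exact ⟨hqt', hqt2⟩

/-- adding the last two steps -/
theorem ear_finish {n : ℕ} (B Z : V → W → Prop) (S : Finset V) (u : W) (hn2 : 2 ≤ n)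
    (q : ℕ → V) (t : ℕ → W)
    (h1 : ∀ i ≤ n - 2, q i ∉ S) (h2 : Set.InjOn q (Set.Iic (n - 2)))
    (h3 : ∀ i < n - 2, t i ≠ u) (h4 : Set.InjOn t (Set.Iio (n - 2))) (h5 : B (q 0) u)
    (h6 : ∀ i < n - 2, B (q i) (t i) ∧ B (q (i + 1)) (t i))
    (x : V) (a b : W) (hx : x ∉ S) (hxq : ∀ i ≤ n - 2, q i ≠ x) (hau : a ≠ u) (hbu : b ≠ u)
    (hab : a ≠ b) (hat : ∀ i < n - 2, t i ≠ a) (hbt : ∀ i < n - 2, t i ≠ b)
    (e1 : B (q (n - 2)) a) (e2 : B x a) (e3 : B x b)
    (hz : ∃ z ∈ S, Z z b) :
    ∃ (q : ℕ → V) (t : ℕ → W), (∀ i < n, q i ∉ S) ∧ Set.InjOn q (Set.Iio n) ∧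
      Set.InjOn t (Set.Iio n) ∧ (∀ i < n, t i ≠ u) ∧ B (q 0) u ∧ (∀ i < n, B (q i) (t i)) ∧
      (∀ i, i + 1 < n → B (q (i + 1)) (t i)) ∧
      ∃ z ∈ S, Z z (t (n - 1)) := by
  classical
  set q' : ℕ → V := fun i => if i ≤ n - 2 then q i else x with hq'
  set t' : ℕ → W := fun i => if i < n - 2 then t i else if i = n - 2 then a else b with ht'
  have Q1 : ∀ i ≤ n - 2, q' i = q i := by
    intro i hi; simp only [hq']; rw [if_pos hi]
  have Q2 : ∀ i, n - 2 < i → q' i = x := by
    intro i hi; simp only [hq']; rw [if_neg (by omega)]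
  have T1 : ∀ i < n - 2, t' i = t i := by
    intro i hi; simp only [ht']; rw [if_pos hi]
  have T2 : ∀ i, i = n - 2 → t' i = a := by
    intro i hi; simp only [ht']; rw [if_neg (by omega), if_pos hi]
  have T3 : ∀ i, n - 2 < i → t' i = b := by
    intro i hi; simp only [ht']; rw [if_neg (by omega), if_neg (by omega)]
  refine ⟨q', t', ?_, ?_, ?_, ?_, ?_, ?_, ?_, ?_⟩
  · intro i hi
    rcases Nat.lt_or_ge (n - 2) i with h | h
    · rw [Q2 i h]; exact hx
    · rw [Q1 i h]; exact h1 i h
  · intro i hi j hj hij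
    have hi' : i < n := hi
    have hj' : j < n := hj
    rcases Nat.lt_or_ge (n - 2) i with h | h <;> rcases Nat.lt_or_ge (n - 2) j with h' | h'
    · omega
    · rw [Q2 i h, Q1 j h'] at hij
      exact absurd hij.symm (hxq j h')
    · rw [Q1 i h, Q2 j h'] at hij
      exact absurd hij (hxq i h)
    · rw [Q1 i h, Q1 j h'] at hij
      exact h2 h h' hij
  · intro i hi j hj hij
    have hi' : i < n := hi
    have hj' : j < n := hj
    rcases lt_trichotomy i (n - 2) with h | h | h <;> rcases lt_trichotomy j (n - 2) with h' | h' | h'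
    · rw [T1 i h, T1 j h'] at hij
      exact h4 h h' hij
    · rw [T1 i h, T2 j h'] at hij
      exact absurd hij (hat i h)
    · rw [T1 i h, T3 j h'] at hij
      exact absurd hij (hbt i h)
    · rw [T2 i h, T1 j h'] at hij
      exact absurd hij.symm (hat j h')
    · omega
    · rw [T2 i h, T3 j h'] at hij
      exact absurd hij hab
    · rw [T3 i h, T1 j h'] at hij
      exact absurd hij.symm (hbt j h')
    · rw [T3 i h, T2 j h'] at hij
      exact absurd hij.symm hab
    · omega
  · intro i hi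
    rcases lt_trichotomy i (n - 2) with h | h | h
    · rw [T1 i h]; exact h3 i h
    · rw [T2 i h]; exact hau
    · rw [T3 i h]; exact hbu
  · rw [Q1 0 (by omega)]; exact h5
  · intro i hi
    rcases lt_trichotomy i (n - 2) with h | h | h
    · rw [T1 i h, Q1 i (by omega)]; exact (h6 i h).1
    · rw [T2 i h, Q1 i (by omega), h]; exact e1
    · rw [T3 i h, Q2 i h]; exact e3
  · intro i hi
    rcases lt_trichotomy i (n - 2) with h | h | h
    · rw [T1 i h, Q1 (i + 1) (by omega)]; exact (h6 i h).2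
    · rw [T2 i h, Q2 (i + 1) (by omega)]; exact e2
    · omega
  · rw [T3 (n - 1) (by omega)]; exact hz

/-- E10 (ear lemma) -/
theorem ear [DecidableEq V] [DecidableEq W] {k δ n : ℕ} (hk : 4 ≤ k)
    (hδ : k + 1 = 2 * δ ∨ k = 2 * δ) (R B : V → W → Prop) (hRB : ∀ x y, R x y → ¬ B x y)
    (SC SD : Finset V) (TC TD : Finset W) (hC : IsCore k R SC TC) (hD : IsCore k B SD TD)
    (hcard : SD.card ≤ SC.card) (hQ : δ ≤ (SD \ SC).card) (hn : n + SC.card = k) (hn2 : 2 ≤ n)
    (u v : W) (huv : u ≠ v)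
    (hu1 : u ∈ TC) (hu2 : u ∈ TD) (hv1 : v ∈ TC) (hv2 : v ∈ TD) :
    ∃ (q : ℕ → V) (t : ℕ → W), (∀ i < n, q i ∉ SC) ∧ Set.InjOn q (Set.Iio n) ∧
      Set.InjOn t (Set.Iio n) ∧ (∀ i < n, t i ≠ u) ∧ B (q 0) u ∧ (∀ i < n, B (q i) (t i)) ∧
      (∀ i, i + 1 < n → B (q (i + 1)) (t i)) ∧
      ∃ z ∈ SC, R z (t (n - 1)) ∨ B z (t (n - 1)) := by
  classical
  have hδk : (k + 1) / 2 = δ := by omega
  set Q := SD \ SC with hQdef
  have hsplit : Q.card + (SD ∩ SC).card = SD.card := by
    rw [hQdef]; exact Finset.card_sdiff_add_card_inter SD SC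
  have hT : ∀ t ∈ TD, n ≤ dL B Q t := by
    intro t ht
    have e1 := hD.degT t ht
    rw [hδk] at e1
    have e2 := Ear.dL_sdiff B SD SC t
    have e3 : dL B (SD \ SC) t = dL B Q t := rfl
    omega
  have hQd : ∀ x ∈ Q, k ≤ dR B TD x := by
    intro x hx
    exact hD.degS x (Finset.mem_sdiff.1 hx).1
  have hSCpos : 1 ≤ SC.card := by
    have h0 : 0 < Q.card := by omega
    omega
  obtain ⟨q, t, h1, h2, h3, h4, h5, h6⟩ := ear_greedy (k := k) (n := n) B Q TD u v hu2 hT hQd
    (by omega) (n - 2) (by omega)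
  set F : Finset W := insert u (insert v ((Finset.range (n - 2)).image t)) with hF
  have hFc : F.card ≤ n := by
    have e2 : F.card ≤ (insert v ((Finset.range (n - 2)).image t)).card + 1 :=
      Finset.card_insert_le _ _
    have e3 : (insert v ((Finset.range (n - 2)).image t)).card ≤
        ((Finset.range (n - 2)).image t).card + 1 := Finset.card_insert_le _ _
    have e4 : ((Finset.range (n - 2)).image t).card ≤ n - 2 := by
      calc _ ≤ (Finset.range (n - 2)).card := Finset.card_image_le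
        _ = n - 2 := Finset.card_range _
    omega
  set N := (TD \ F).filter (fun w => B (q (n - 2)) w) with hN
  have hNc : SC.card ≤ N.card := by
    have e1 := hQd _ (h1 (n - 2) le_rfl)
    have e2 := Ear.dR_sdiff B TD F (q (n - 2))
    have e3 : dR B (TD \ F) (q (n - 2)) = N.card := by unfold dR; rfl
    omega
  have hNp : ∀ w ∈ N, w ∈ TD ∧ w ≠ u ∧ w ≠ v ∧ (∀ i < n - 2, t i ≠ w) ∧ B (q (n - 2)) w := by
    intro w hw
    rw [hN, Finset.mem_filter, Finset.mem_sdiff, hF, Finset.mem_insert, Finset.mem_insert] at hw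
    obtain ⟨⟨hw1, hw2⟩, hw3⟩ := hw
    push Not at hw2
    refine ⟨hw1, hw2.1, hw2.2.1, ?_, hw3⟩
    intro i hi he
    exact hw2.2.2 (Finset.mem_image.2 ⟨i, Finset.mem_range.2 hi, he⟩)
  have hQn : ∀ x ∈ Q, x ∉ SC := fun x hx => (Finset.mem_sdiff.1 hx).2
  set Fq : Finset V := (Finset.range (n - 1)).image q with hFq
  have hFqc : Fq.card = n - 1 := by
    rw [hFq, Finset.card_image_of_injOn, Finset.card_range]
    intro i hi j hj hij
    have hi' : i < n - 1 := by simpa using hi
    have hj' : j < n - 1 := by simpa using hj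
    exact h2 (show i ≤ n - 2 by omega) (show j ≤ n - 2 by omega) hij
  have hFqm : ∀ x, x ∉ Fq → ∀ i ≤ n - 2, q i ≠ x := by
    intro x hx i hi he
    exact hx (Finset.mem_image.2 ⟨i, Finset.mem_range.2 (by omega), he⟩)
  by_cases hcase : ∃ w ∈ N, w ∉ TC ∧ ∀ z ∈ SC, ¬ B z w
  · obtain ⟨w, hwN, hwT, hwz⟩ := hcase
    obtain ⟨hw1, hw2, hw3, hw4, hw5⟩ := hNp w hwN
    obtain ⟨x, hx1, hx2, hx3, hx4⟩ := Ear.nbrL2 (E := B) (S := SD) (t := w) (t' := v) (F := Fq) (by
      have e1 := hD.degT w hw1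
      have e2 := hD.degT v hv2
      omega)
    have hxS : x ∉ SC := fun h => hwz x h hx2
    refine ear_finish B (fun z t => R z t ∨ B z t) SC u hn2 q t (fun i hi => hQn _ (h1 i hi)) h2
      (fun i hi => (h3 i hi).2.1) h4 h5 h6 x w v hxS (hFqm x hx4) hw2 huv.symm hw3 hw4
      (fun i hi => (h3 i hi).2.2) hw5 hx2 hx3 ?_
    obtain ⟨z, hz1, hz2, -⟩ := Ear.nbrL (E := R) (S := SC) (t := v) (F := ∅) (by
      have e1 := hC.degT v hv1
      rw [Finset.card_empty]; omega)
    exact ⟨z, hz1, Or.inl hz2⟩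
  · push Not at hcase
    have hatt : ∀ w ∈ N, ∃ z ∈ SC, R z w ∨ B z w := by
      intro w hw
      by_cases hwT : w ∈ TC
      · obtain ⟨z, hz1, hz2, -⟩ := Ear.nbrL (E := R) (S := SC) (t := w) (F := ∅) (by
          have e1 := hC.degT w hwT
          rw [Finset.card_empty]; omega)
        exact ⟨z, hz1, Or.inl hz2⟩
      · obtain ⟨z, hz1, hz2⟩ := hcase w hw hwT
        exact ⟨z, hz1, Or.inr hz2⟩
    have hch : ∀ w ∈ N, ∃ x ∈ Q, B x w ∧ x ∉ Fq := by
      intro w hw
      obtain ⟨hw1, hw2, hw3, hw4, hw5⟩ := hNp w hw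
      exact Ear.nbrL (E := B) (S := Q) (t := w) (F := Fq) (by
        have := hT w hw1
        omega)
    have : Nonempty V := ⟨q 0⟩
    choose! φ hφ1 hφ2 hφ3 using hch
    have hpig : ∃ w ∈ N, ∃ w' ∈ N, w ≠ w' ∧ φ w = φ w' := by
      refine Finset.exists_ne_map_eq_of_card_lt_of_maps_to (t := Q \ Fq) ?_ ?_
      · have e1 : (Q \ Fq).card + Fq.card = Q.card := by
          apply Finset.card_sdiff_add_card_eq_card
          intro x hx
          obtain ⟨i, hi, rfl⟩ := Finset.mem_image.1 hx
          exact h1 i (by have := Finset.mem_range.1 hi; omega)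
        omega
      · intro w hw
        exact Finset.mem_coe.2 (Finset.mem_sdiff.2 ⟨hφ1 w hw, hφ3 w hw⟩)
    obtain ⟨w, hw, w', hw', hne, he⟩ := hpig
    obtain ⟨a1, a2, a3, a4, a5⟩ := hNp w hw
    obtain ⟨b1, b2, b3, b4, b5⟩ := hNp w' hw'
    exact ear_finish B (fun z t => R z t ∨ B z t) SC u hn2 q t (fun i hi => hQn _ (h1 i hi)) h2
      (fun i hi => (h3 i hi).2.1) h4 h5 h6 (φ w) w w' (hQn _ (hφ1 w hw)) (hFqm _ (hφ3 w hw)) a2 b2
      hne a4 b4 a5 (hφ2 w hw) (he ▸ hφ2 w' hw') (hatt w' hw')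

end H22CK
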