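import Pool.Agent.H22.CK.E8
import Pool.Agent.H22.CK.CntE

/-! CK-E11: closing an ear. -/

set_option autoImplicit false

namespace H22CK

variable {V W : Type*}

/-- E11 (closing an ear; from E8) -/
theorem close_ear [DecidableEq V] [DecidableEq W] {k δ n : ℕ} (hk : 4 ≤ k)
    (hδ : k + 1 = 2 * δ ∨ k = 2 * δ) (R B : V → W → Prop)
    (SC : Finset V) (TC : Finset W) (hC : IsCore k R SC TC)
    (hn : n + SC.card = k) (hn1 : 1 ≤ n) (u : W) (hu1 : u ∈ TC)
    (q : ℕ → V) (t : ℕ → W) (hq : ∀ i < n, q i ∉ SC) (hqi : Set.InjOn q (Set.Iio n))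
    (hti : Set.InjOn t (Set.Iio n)) (htu : ∀ i < n, t i ≠ u) (h0 : B (q 0) u)
    (h1 : ∀ i < n, B (q i) (t i)) (h2 : ∀ i, i + 1 < n → B (q (i + 1)) (t i))
    (hz : ∃ z ∈ SC, R z (t (n - 1)) ∨ B z (t (n - 1))) :
    HasCycle k (fun x y => R x y ∨ B x y) := by
  classical
  obtain ⟨z, hzS, hzt⟩ := hz
  have hδk : (k + 1) / 2 = δ := by omega
  set s := SC.card with hs
  have hsm : s + 2 ≤ 2 * δ := by
    have := hC.small
    omega
  have hspos : 1 ≤ s := Finset.card_pos.2 ⟨z, hzS⟩
  set F : Finset W := (Finset.range n).image t with hF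
  have hFc : F.card ≤ n := by
    calc F.card ≤ (Finset.range n).card := Finset.card_image_le
      _ = n := Finset.card_range n
  set A := TC \ insert u F with hA
  set U := SC.filter (fun x => R x u) with hU
  have hUc : δ ≤ U.card := by
    have h := hC.degT u hu1
    rw [hδk] at h
    have h' : dL R SC u = U.card := by unfold dL; rfl
    omega
  obtain ⟨p, c, hp1, hp2, hp3, hp4, hp5, hp6⟩ := lemma_H (s := s) (d := δ) (by omega) hsm R SC U A
    rfl (Finset.filter_subset _ _) hUc z hzS
    (by
      intro w hw
      have hw' : w ∈ TC := (Finset.mem_sdiff.1 hw).1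
      have := hC.degT w hw'
      rwa [hδk] at this)
    (by
      intro x hx
      have e1 := hC.degS x hx
      have e2 := Ear.dR_sdiff R TC (insert u F) x
      have e3 : (insert u F).card ≤ F.card + 1 := Finset.card_insert_le _ _
      have e4 : dR R (TC \ insert u F) x = dR R A x := rfl
      omega)
    (by
      intro x hx hxU
      have hxu : ¬ R x u := by
        intro h
        exact hxU (Finset.mem_filter.2 ⟨hx, h⟩)
      have e1 := hC.degS x hx
      have e2 := Ear.dR_sdiff' R TC F x u hxu
      have e4 : dR R (TC \ insert u F) x = dR R A x := rfl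
      omega)
  have hcA : ∀ i, i + 1 < s → c i ≠ u ∧ ∀ j < n, c i ≠ t j := by
    intro i hi
    have h := (hp5 i hi).1
    rw [hA, Finset.mem_sdiff, Finset.mem_insert] at h
    push Not at h
    refine ⟨h.2.1, ?_⟩
    intro j hj he
    exact h.2.2 (Finset.mem_image.2 ⟨j, Finset.mem_range.2 hj, he.symm⟩)
  set P : ℕ → V := fun i => if i < s then p i else q (i - s) with hP
  set C : ℕ → W := fun i => if i + 1 < s then c i else if i + 1 = s then u else t (i - s) with hCd
  have P1 : ∀ i, i < s → P i = p i := by
    intro i hi; simp only [hP]; rw [if_pos hi]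
  have P2 : ∀ i, s ≤ i → P i = q (i - s) := by
    intro i hi; simp only [hP]; rw [if_neg (by omega)]
  have C1 : ∀ i, i + 1 < s → C i = c i := by
    intro i hi; simp only [hCd]; rw [if_pos hi]
  have C2 : ∀ i, i + 1 = s → C i = u := by
    intro i hi; simp only [hCd]; rw [if_neg (by omega), if_pos hi]
  have C3 : ∀ i, s ≤ i → C i = t (i - s) := by
    intro i hi; simp only [hCd]; rw [if_neg (by omega), if_neg (by omega)]
  refine ⟨P, C, ?_, ?_, ?_, ?_, ?_⟩
  · intro i hi j hj hij
    have hi' : i < k := hi
    have hj' : j < k := hj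
    rcases lt_or_ge i s with h | h <;> rcases lt_or_ge j s with h' | h'
    · rw [P1 i h, P1 j h'] at hij
      exact hp2 h h' hij
    · rw [P1 i h, P2 j h'] at hij
      exact absurd (hij ▸ hp1 i h) (hq (j - s) (by omega))
    · rw [P2 i h, P1 j h'] at hij
      exact absurd (hij ▸ hp1 j h') (hq (i - s) (by omega))
    · rw [P2 i h, P2 j h'] at hij
      have : i - s = j - s := hqi (show i - s < n by omega) (show j - s < n by omega) hij
      omega
  · intro i hi j hj hij
    have hi' : i < k := hi
    have hj' : j < k := hj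
    rcases lt_trichotomy (i + 1) s with h | h | h <;> rcases lt_trichotomy (j + 1) s with h' | h' | h'
    · rw [C1 i h, C1 j h'] at hij
      exact hp6 (show i < s - 1 by omega) (show j < s - 1 by omega) hij
    · rw [C1 i h, C2 j h'] at hij
      exact absurd hij (hcA i h).1
    · rw [C1 i h, C3 j (by omega)] at hij
      exact absurd hij ((hcA i h).2 _ (by omega))
    · rw [C2 i h, C1 j h'] at hij
      exact absurd hij.symm (hcA j h').1
    · omega
    · rw [C2 i h, C3 j (by omega)] at hij
      exact absurd hij.symm (htu _ (by omega))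
    · rw [C3 i (by omega), C1 j h'] at hij
      exact absurd hij.symm ((hcA j h').2 _ (by omega))
    · rw [C3 i (by omega), C2 j h'] at hij
      exact absurd hij (htu _ (by omega))
    · rw [C3 i (by omega), C3 j (by omega)] at hij
      have : i - s = j - s := hti (show i - s < n by omega) (show j - s < n by omega) hij
      omega
  · intro i hi
    rcases lt_trichotomy (i + 1) s with h | h | h
    · rw [C1 i h, P1 i (by omega)]; exact Or.inl (hp5 i h).2.1
    · rw [C2 i h, P1 i (by omega)]
      have : i = s - 1 := by omega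
      rw [this]
      exact Or.inl (Finset.mem_filter.1 hp4).2
    · rw [C3 i (by omega), P2 i (by omega)]
      exact Or.inr (h1 _ (by omega))
  · intro i hi
    rcases lt_trichotomy (i + 1) s with h | h | h
    · rw [C1 i h, P1 (i + 1) h]; exact Or.inl (hp5 i h).2.2
    · rw [C2 i h, P2 (i + 1) (by omega)]
      have : i + 1 - s = 0 := by omega
      rw [this]
      exact Or.inr h0
    · rw [C3 i (by omega), P2 (i + 1) (by omega)]
      have : i + 1 - s = (i - s) + 1 := by omega
      rw [this]
      exact Or.inr (h2 _ (by omega))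
  · rw [P1 0 (by omega), hp3, C3 (k - 1) (by omega)]
    have : k - 1 - s = n - 1 := by omega
    rw [this]
    exact hzt

end H22CK
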