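import Pool.Agent.H22.CK.E9
import Pool.Agent.H22.CK.E11

/-! CK-E12: the case `n = 1`, `k` odd. -/

set_option autoImplicit false

namespace H22CK

variable {V W : Type*}

/-- E12 (`n = 1`, `k` odd; from E9 and E11) -/
theorem case_two_b [DecidableEq V] [DecidableEq W] {k δ : ℕ} (hk : 5 ≤ k)
    (hδ : k + 1 = 2 * δ) (R B : V → W → Prop) (hRB : ∀ x y, R x y → ¬ B x y)
    (SC SD : Finset V) (TC TD : Finset W) (hC : IsCore k R SC TC) (hD : IsCore k B SD TD)
    (hcard : SD.card ≤ SC.card) (hn : 1 + SC.card = k)
    (u v : W) (huv : u ≠ v)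
    (hu1 : u ∈ TC) (hu2 : u ∈ TD) (hv1 : v ∈ TC) (hv2 : v ∈ TD) :
    HasCycle k (fun x y => R x y ∨ B x y) := by
  classical
  have hδk : (k + 1) / 2 = δ := by omega
  -- a blue neighbour of `u` outside `SC`
  obtain ⟨q0, hq0D, hq0u, hq0C⟩ : ∃ x ∈ SD, B x u ∧ x ∉ SC := by
    have e1 := hC.degT u hu1
    have e2 := hD.degT u hu2
    have e3 := Ear.dL_disj hRB SC u
    by_contra hc
    push Not at hc
    have hle : dL B SD u ≤ dL B SC u := by
      have h1 : dL B SD u = (SD.filter (fun x => B x u)).card := by unfold dL; rfl
      have h2 : dL B SC u = (SC.filter (fun x => B x u)).card := by unfold dL; rfl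
      rw [h1, h2]
      apply Finset.card_le_card
      intro x hx
      rw [Finset.mem_filter] at hx ⊢
      exact ⟨hc x hx.1 hx.2, hx.2⟩
    omega
  by_cases hcase : ∃ w ∈ TD, w ≠ u ∧ B q0 w ∧ ∃ z ∈ SC, R z w ∨ B z w
  · obtain ⟨w, hw1, hw2, hw3, hw4⟩ := hcase
    refine close_ear (n := 1) (δ := δ) (by omega) (Or.inl hδ) R B SC TC hC hn le_rfl u hu1
      (fun _ => q0) (fun _ => w) (fun _ _ => hq0C) ?_ ?_ (fun _ _ => hw2) hq0u (fun _ _ => hw3)
      (fun i hi => by omega) hw4
    · intro i hi j hj _
      have hi' : i < 1 := hi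
      have hj' : j < 1 := hj
      omega
    · intro i hi j hj _
      have hi' : i < 1 := hi
      have hj' : j < 1 := hj
      omega
  · push Not at hcase
    obtain ⟨w, hw1, hw2, hw3⟩ := Ear.nbrR (E := B) (T := TD) (x := q0) (F := {u}) (by
      have := hD.degS q0 hq0D
      rw [Finset.card_singleton]; omega)
    rw [Finset.mem_singleton] at hw3
    have hwz := hcase w hw1 hw3 hw2
    have hwC : w ∉ TC := by
      intro hw
      obtain ⟨z, hz1, hz2, -⟩ := Ear.nbrL (E := R) (S := SC) (t := w) (F := ∅) (by
        have e1 := hC.degT w hw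
        rw [Finset.card_empty]; omega)
      exact (hwz z hz1).1 hz2
    have hwv : w ≠ v := fun h => hwC (h ▸ hv1)
    obtain ⟨q1, hq1D, hq1w, hq1v, hq1⟩ := Ear.nbrL2 (E := B) (S := SD) (t := w) (t' := v)
      (F := {q0}) (by
        have e1 := hD.degT w hw1
        have e2 := hD.degT v hv2
        rw [Finset.card_singleton]
        omega)
    rw [Finset.mem_singleton] at hq1
    have hq1C : q1 ∉ SC := fun h => (hwz q1 h).2 hq1w
    -- the vertex `x0`
    obtain ⟨x0, hx0, hx0'⟩ : ∃ x0 ∈ SC, (R x0 u → ∀ x ∈ SC, R x u) := by
      by_cases h : ∃ x0 ∈ SC, ¬ R x0 u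
      · obtain ⟨x0, h1, h2⟩ := h
        exact ⟨x0, h1, fun h' => absurd h' h2⟩
      · push Not at h
        have : 0 < SC.card := by omega
        obtain ⟨x0, hx0⟩ := Finset.card_pos.1 this
        exact ⟨x0, hx0, fun _ => h⟩
    set S := SC.erase x0 with hS
    have hSc : S.card + 1 = SC.card := Finset.card_erase_add_one hx0
    set A := TC \ insert u {v} with hA
    have hSl : ∀ t, dL R SC t ≤ dL R S t + 1 := by
      intro t
      have h1 : dL R SC t = (SC.filter (fun x => R x t)).card := by unfold dL; rfl
      have h2 : dL R S t = (S.filter (fun x => R x t)).card := by unfold dL; rfl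
      have hsub : SC.filter (fun x => R x t) ⊆ insert x0 (S.filter (fun x => R x t)) := by
        intro x hx
        rw [Finset.mem_filter] at hx
        rw [Finset.mem_insert, Finset.mem_filter, hS, Finset.mem_erase]
        by_cases h : x = x0
        · exact Or.inl h
        · exact Or.inr ⟨⟨h, hx.1⟩, hx.2⟩
      rw [h1, h2]
      exact (Finset.card_le_card hsub).trans (Finset.card_insert_le _ _)
    have hU2 : δ ≤ (S.filter (fun x => R x u)).card := by
      by_cases h : R x0 u
      · have hall : S.filter (fun x => R x u) = S := by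
          apply Finset.filter_true_of_mem
          intro x hx
          exact hx0' h x (Finset.mem_of_mem_erase hx)
        rw [hall]; omega
      · have h1 : dL R SC u = (SC.filter (fun x => R x u)).card := by unfold dL; rfl
        have hsub : SC.filter (fun x => R x u) ⊆ S.filter (fun x => R x u) := by
          intro x hx
          rw [Finset.mem_filter] at hx ⊢
          refine ⟨Finset.mem_erase.2 ⟨?_, hx.1⟩, hx.2⟩
          rintro rfl
          exact h hx.2
        have e1 := hC.degT u hu1
        have e2 := Finset.card_le_card hsub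
        omega
    obtain ⟨p, c, hp1, hp2, hp3, hp4, hp5, hp6⟩ := lemma_W (s := k - 2) (d := δ - 1) (by omega)
      (by omega) R S (S.filter (fun x => R x v)) (S.filter (fun x => R x u)) A (by omega)
      (Finset.filter_subset _ _) (Finset.filter_subset _ _)
      (by
        have e1 := hC.degT v hv1
        have e2 := hSl v
        have e3 : dL R S v = (S.filter (fun x => R x v)).card := by unfold dL; rfl
        omega)
      (by omega)
      (by
        intro w' hw'
        have e1 := hC.degT w' (Finset.mem_sdiff.1 hw').1
        have e2 := hSl w'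
        omega)
      (by
        intro x hx
        have e1 := hC.degS x (Finset.mem_of_mem_erase hx)
        have e2 := Ear.dR_sdiff R TC (insert u {v}) x
        have e3 : (insert u ({v} : Finset W)).card ≤ ({v} : Finset W).card + 1 :=
          Finset.card_insert_le _ _
        rw [Finset.card_singleton] at e3
        have e4 : dR R (TC \ insert u {v}) x = dR R A x := rfl
        omega)
    have hpS : ∀ i < k - 2, p i ∈ SC := fun i hi => Finset.mem_of_mem_erase (hp1 i hi)
    have hcA : ∀ i, i + 1 < k - 2 → c i ∈ TC ∧ c i ≠ u ∧ c i ≠ v := by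
      intro i hi
      have h := (hp5 i hi).1
      rw [hA, Finset.mem_sdiff, Finset.mem_insert, Finset.mem_singleton] at h
      push Not at h
      exact ⟨h.1, h.2.1, h.2.2⟩
    set P : ℕ → V := fun i => if i < k - 2 then p i else if i = k - 2 then q0 else q1 with hP
    set C : ℕ → W := fun i => if i + 1 < k - 2 then c i else if i + 1 = k - 2 then u else
      if i = k - 2 then w else v with hCd
    have P1 : ∀ i, i < k - 2 → P i = p i := by
      intro i hi; simp only [hP]; rw [if_pos hi]
    have P2 : ∀ i, i = k - 2 → P i = q0 := by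
      intro i hi; simp only [hP]; rw [if_neg (by omega), if_pos hi]
    have P3 : ∀ i, k - 2 < i → P i = q1 := by
      intro i hi; simp only [hP]; rw [if_neg (by omega), if_neg (by omega)]
    have C1 : ∀ i, i + 1 < k - 2 → C i = c i := by
      intro i hi; simp only [hCd]; rw [if_pos hi]
    have C2 : ∀ i, i + 1 = k - 2 → C i = u := by
      intro i hi; simp only [hCd]; rw [if_neg (by omega), if_pos hi]
    have C3 : ∀ i, i = k - 2 → C i = w := by
      intro i hi; simp only [hCd]; rw [if_neg (by omega), if_neg (by omega), if_pos hi]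
    have C4 : ∀ i, k - 2 < i → C i = v := by
      intro i hi; simp only [hCd]; rw [if_neg (by omega), if_neg (by omega), if_neg (by omega)]
    have c4 : ∀ i, i + 1 < k - 2 ∨ i + 1 = k - 2 ∨ i = k - 2 ∨ k - 2 < i := by intro i; omega
    refine ⟨P, C, ?_, ?_, ?_, ?_, ?_⟩
    · intro i hi j hj hij
      have hi' : i < k := hi
      have hj' : j < k := hj
      rcases lt_trichotomy i (k - 2) with h | h | h <;>
        rcases lt_trichotomy j (k - 2) with h' | h' | h'
      · rw [P1 i h, P1 j h'] at hij
        exact hp2 h h' hij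
      · rw [P1 i h, P2 j h'] at hij
        exact absurd (hij ▸ hpS i h) hq0C
      · rw [P1 i h, P3 j h'] at hij
        exact absurd (hij ▸ hpS i h) hq1C
      · rw [P2 i h, P1 j h'] at hij
        exact absurd (hij ▸ hpS j h') hq0C
      · omega
      · rw [P2 i h, P3 j h'] at hij
        exact absurd hij.symm hq1
      · rw [P3 i h, P1 j h'] at hij
        exact absurd (hij ▸ hpS j h') hq1C
      · rw [P3 i h, P2 j h'] at hij
        exact absurd hij hq1
      · omega
    · intro i hi j hj hij
      have hi' : i < k := hi
      have hj' : j < k := hj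
      rcases c4 i with h | h | h | h <;> rcases c4 j with h' | h' | h' | h'
      · rw [C1 i h, C1 j h'] at hij
        exact hp6 (show i < k - 2 - 1 by omega) (show j < k - 2 - 1 by omega) hij
      · rw [C1 i h, C2 j h'] at hij
        exact absurd hij (hcA i h).2.1
      · rw [C1 i h, C3 j h'] at hij
        exact absurd (hij ▸ (hcA i h).1) hwC
      · rw [C1 i h, C4 j h'] at hij
        exact absurd hij (hcA i h).2.2
      · rw [C2 i h, C1 j h'] at hij
        exact absurd hij.symm (hcA j h').2.1
      · omega
      · rw [C2 i h, C3 j h'] at hij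
        exact absurd hij.symm hw3
      · rw [C2 i h, C4 j h'] at hij
        exact absurd hij huv
      · rw [C3 i h, C1 j h'] at hij
        exact absurd (hij ▸ (hcA j h').1) hwC
      · rw [C3 i h, C2 j h'] at hij
        exact absurd hij hw3
      · omega
      · rw [C3 i h, C4 j h'] at hij
        exact absurd hij hwv
      · rw [C4 i h, C1 j h'] at hij
        exact absurd hij.symm (hcA j h').2.2
      · rw [C4 i h, C2 j h'] at hij
        exact absurd hij.symm huv
      · rw [C4 i h, C3 j h'] at hij
        exact absurd hij.symm hwv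
      · omega
    · intro i hi
      rcases c4 i with h | h | h | h
      · rw [C1 i h, P1 i (by omega)]; exact Or.inl (hp5 i h).2.1
      · rw [C2 i h, P1 i (by omega)]
        have : i = k - 2 - 1 := by omega
        rw [this]
        exact Or.inl (Finset.mem_filter.1 hp4).2
      · rw [C3 i h, P2 i h]; exact Or.inr hw2
      · rw [C4 i h, P3 i h]; exact Or.inr hq1v
    · intro i hi
      rcases c4 i with h | h | h | h
      · rw [C1 i h, P1 (i + 1) h]; exact Or.inl (hp5 i h).2.2
      · rw [C2 i h, P2 (i + 1) h]; exact Or.inr hq0u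
      · rw [C3 i h, P3 (i + 1) (by omega)]; exact Or.inr hq1w
      · omega
    · rw [P1 0 (by omega), C4 (k - 1) (by omega)]
      exact Or.inl (Finset.mem_filter.1 hp3).2

end H22CK
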