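import Pool.Agent.H22.CK.E7
import Pool.Agent.H22.CK.E10
import Pool.Agent.H22.CK.E12

/-! CK-E13: exclusivity. -/

set_option autoImplicit false

namespace H22CK

variable {V W : Type*}

/-- E13 when the red small side is the larger one -/
theorem exclusive_aux [DecidableEq V] [DecidableEq W] {k : ℕ} (hk : 4 ≤ k)
    (R B : V → W → Prop) (hRB : ∀ x y, R x y → ¬ B x y)
    (SC SD : Finset V) (TC TD : Finset W) (hC : IsCore k R SC TC) (hD : IsCore k B SD TD)
    (hcard : SD.card ≤ SC.card)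
    (u v : W) (huv : u ≠ v)
    (hu1 : u ∈ TC) (hu2 : u ∈ TD) (hv1 : v ∈ TC) (hv2 : v ∈ TD) :
    HasCycle k (fun x y => R x y ∨ B x y) := by
  have hδ : k + 1 = 2 * ((k + 1) / 2) ∨ k = 2 * ((k + 1) / 2) := by omega
  have hsm := hC.small
  by_cases hQ : (SD \ SC).card + 1 ≤ (k + 1) / 2
  · exact case_one hk hδ R B hRB SC SD TC TD hC hD hcard hQ u v huv hu1 hu2 hv1 hv2
  · obtain ⟨n, hn⟩ : ∃ n, n + SC.card = k := ⟨k - SC.card, by omega⟩
    by_cases hn2 : 2 ≤ n
    · obtain ⟨q, t, h1, h2, h3, h4, h5, h6, h7, h8⟩ := ear hk hδ R B hRB SC SD TC TD hC hD hcard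
        (by omega) hn hn2 u v huv hu1 hu2 hv1 hv2
      exact close_ear hk hδ R B SC TC hC hn (by omega) u hu1 q t h1 h2 h3 h4 h5 h6 h7 h8
    · have hn1 : n = 1 := by omega
      subst hn1
      exact case_two_b (δ := (k + 1) / 2) (by omega) (by omega) R B hRB SC SD TC TD hC hD hcard hn u v huv hu1 hu2
        hv1 hv2

/-- E13 (exclusivity; from E7, E10, E11, E12) -/
theorem exclusive {k : ℕ} (hk : 4 ≤ k)
    (R B : V → W → Prop) (hRB : ∀ x y, R x y → ¬ B x y)
    (SC SD : Finset V) (TC TD : Finset W) (hC : IsCore k R SC TC) (hD : IsCore k B SD TD)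
    (u v : W) (huv : u ≠ v)
    (hu1 : u ∈ TC) (hu2 : u ∈ TD) (hv1 : v ∈ TC) (hv2 : v ∈ TD) :
    HasCycle k (fun x y => R x y ∨ B x y) := by
  classical
  rcases le_total SD.card SC.card with h | h
  · exact exclusive_aux hk R B hRB SC SD TC TD hC hD h u v huv hu1 hu2 hv1 hv2
  · have hBR : ∀ x y, B x y → ¬ R x y := fun x y hb hr => hRB x y hr hb
    have := exclusive_aux hk B R hBR SD SC TD TC hD hC h u v huv hu2 hu1 hv2 hv1
    have he : (fun x y => R x y ∨ B x y) = (fun x y => B x y ∨ R x y) := by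
      funext x y
      exact propext or_comm
    rw [he]
    exact this

end H22CK
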