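import Pool.Agent.H22.CK.Rot

/-! CK-E7: exclusivity, case 1. -/

set_option autoImplicit false

namespace H22CK

variable {V W : Type*}

theorem card_le_av {G : V → W → Prop} {K : Finset V} {d : ℕ} {A F : Finset W} {x : V}
    (hF : F ⊆ A) (h : ∀ t ∈ F, G x t ∧ d ≤ dL G K t) : F.card ≤ av G K d A x := by
  classical
  have : F ⊆ A.filter (fun t => G x t ∧ d ≤ dL G K t) := by
    intro t ht
    exact Finset.mem_filter.2 ⟨hF ht, h t ht⟩
  refine le_trans (Finset.card_le_card this) (le_of_eq ?_)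
  unfold av
  congr!

theorem card_le_dL {G : V → W → Prop} {K F : Finset V} {t : W}
    (hF : F ⊆ K) (h : ∀ x ∈ F, G x t) : F.card ≤ dL G K t := by
  classical
  have : F ⊆ K.filter (fun x => G x t) := by
    intro x hx
    exact Finset.mem_filter.2 ⟨hF hx, h x hx⟩
  refine le_trans (Finset.card_le_card this) (le_of_eq ?_)
  unfold dL
  congr!

/-- the neighbour sets as finsets -/
theorem exists_nbrs_L (G : V → W → Prop) (S : Finset V) (t : W) :
    ∃ F : Finset V, F.card = dL G S t ∧ ∀ x, x ∈ F ↔ x ∈ S ∧ G x t := by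
  classical
  refine ⟨S.filter (fun x => G x t), ?_, fun x => Finset.mem_filter⟩
  unfold dL; congr!

theorem exists_nbrs_R (G : V → W → Prop) (T : Finset W) (x : V) :
    ∃ F : Finset W, F.card = dR G T x ∧ ∀ t, t ∈ F ↔ t ∈ T ∧ G x t := by
  classical
  refine ⟨T.filter (fun t => G x t), ?_, fun x => Finset.mem_filter⟩
  unfold dR; congr!

/-- E7 (Case 1: `|S_D ∖ S_C| ≤ δ - 1`; from E4, E5, E6 twice) -/
theorem case_one [DecidableEq V] [DecidableEq W] {k δ : ℕ} (hk : 4 ≤ k)
    (hδ : k + 1 = 2 * δ ∨ k = 2 * δ) (R B : V → W → Prop) (hRB : ∀ x y, R x y → ¬ B x y)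
    (SC SD : Finset V) (TC TD : Finset W) (hC : IsCore k R SC TC) (hD : IsCore k B SD TD)
    (hcard : SD.card ≤ SC.card) (hQ : (SD \ SC).card + 1 ≤ δ) (u v : W) (huv : u ≠ v)
    (hu1 : u ∈ TC) (hu2 : u ∈ TD) (hv1 : v ∈ TC) (hv2 : v ∈ TD) :
    HasCycle k (fun x y => R x y ∨ B x y) := by
  have hδk : (k + 1) / 2 = δ := by omega
  have hsC := hC.small
  have hsD := hD.small
  have hCT := hC.degT
  have hDT := hD.degT
  rw [hδk] at hsC hsD hCT hDT
  obtain ⟨n, hn⟩ : ∃ n, n + SC.card = k := ⟨k - SC.card, by omega⟩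
  have hn1 : 1 ≤ n := by omega
  -- blue neighbours in `SD ∖ SC`
  obtain ⟨NR, hNRc, hNR⟩ := exists_nbrs_L R SC v
  obtain ⟨NB, hNBc, hNB⟩ := exists_nbrs_L B SD v
  have h1 : n ≤ (NB \ SC).card := by
    have e1 : NR ⊆ SC := fun x hx => ((hNR x).1 hx).1
    have e2 : NB ∩ SC ⊆ SC \ NR := by
      intro x hx
      rw [Finset.mem_inter] at hx
      rw [Finset.mem_sdiff]
      refine ⟨hx.2, fun h => ?_⟩
      exact hRB _ _ ((hNR x).1 h).2 ((hNB x).1 hx.1).2
    have e3 := Finset.card_le_card e2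
    rw [Finset.card_sdiff_of_subset e1] at e3
    have e4 := Finset.card_sdiff_add_card_inter NB SC
    have e5 := hCT v hv1
    have e6 := hDT v hv2
    have e7 := Finset.card_le_card e1
    omega
  have hNBQ : NB \ SC ⊆ SD \ SC := by
    intro x hx
    rw [Finset.mem_sdiff] at hx ⊢
    exact ⟨((hNB x).1 hx.1).1, hx.2⟩
  have hnQ : n ≤ (SD \ SC).card := le_trans h1 (Finset.card_le_card hNBQ)
  obtain ⟨q, hq⟩ : (NB \ SC).Nonempty := by rw [← Finset.card_pos]; omega
  obtain ⟨Q, hqQ, hQsub, hQc⟩ := Finset.exists_subsuperset_card_eq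
    (s := {q}) (t := SD \ SC) (n := n) (by
      intro x hx
      rw [Finset.mem_singleton] at hx
      rw [hx]; exact hNBQ hq) (by simpa using hn1) hnQ
  have hqQ' : q ∈ Q := hqQ (Finset.mem_singleton_self q)
  have hqv : B q v := ((hNB q).1 (Finset.mem_sdiff.1 hq).1).2
  set K := SC ∪ Q with hKdef
  have hdisj : Disjoint SC Q := by
    rw [Finset.disjoint_left]
    intro x hx hx'
    exact (Finset.mem_sdiff.1 (hQsub hx')).2 hx
  have hK : K.card = k := by
    rw [hKdef, Finset.card_union_of_disjoint hdisj, hQc]; omega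
  have hSDK : (SD \ K).card + n ≤ (SD \ SC).card := by
    have e1 : SD \ K ⊆ (SD \ SC) \ Q := by
      intro x hx
      rw [hKdef, Finset.mem_sdiff, Finset.mem_union] at hx
      rw [Finset.mem_sdiff, Finset.mem_sdiff]
      tauto
    have e2 := Finset.card_le_card e1
    rw [Finset.card_sdiff_of_subset hQsub] at e2
    omega
  set G : V → W → Prop := fun x y => R x y ∨ B x y with hG
  -- blue degree of `t ∈ TD` in `K`
  have hblue : ∀ t ∈ TD, ∃ F : Finset V, F ⊆ K ∧ n + 1 ≤ F.card ∧ ∀ x ∈ F, B x t := by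
    intro t ht
    obtain ⟨N, hNc, hN⟩ := exists_nbrs_L B SD t
    refine ⟨N ∩ K, Finset.inter_subset_right, ?_, ?_⟩
    · have e1 := Finset.card_sdiff_add_card_inter N K
      have e2 : N \ K ⊆ SD \ K := by
        intro x hx
        rw [Finset.mem_sdiff] at hx ⊢
        exact ⟨((hN x).1 hx.1).1, hx.2⟩
      have e3 := Finset.card_le_card e2
      have e4 := hDT t ht
      omega
    · intro x hx
      exact ((hN x).1 (Finset.mem_inter.1 hx).1).2
  have hred : ∀ t ∈ TC, ∃ F : Finset V, F ⊆ K ∧ δ ≤ F.card ∧ ∀ x ∈ F, R x t := by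
    intro t ht
    obtain ⟨N, hNc, hN⟩ := exists_nbrs_L R SC t
    refine ⟨N, ?_, ?_, ?_⟩
    · intro x hx
      exact Finset.mem_union_left _ ((hN x).1 hx).1
    · have := hCT t ht
      omega
    · intro x hx; exact ((hN x).1 hx).2
  have hdC : ∀ t ∈ TC, δ ≤ dL G K t := by
    intro t ht
    obtain ⟨F, hF1, hF2, hF3⟩ := hred t ht
    exact le_trans hF2 (card_le_dL hF1 (fun x hx => Or.inl (hF3 x hx)))
  have hdD : ∀ t ∈ TD, n + 1 ≤ dL G K t := by
    intro t ht
    obtain ⟨F, hF1, hF2, hF3⟩ := hblue t ht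
    exact le_trans hF2 (card_le_dL hF1 (fun x hx => Or.inr (hF3 x hx)))
  have hdCD : ∀ t ∈ TC, t ∈ TD → δ + n + 1 ≤ dL G K t := by
    intro t ht ht'
    obtain ⟨F, hF1, hF2, hF3⟩ := hred t ht
    obtain ⟨F', hF1', hF2', hF3'⟩ := hblue t ht'
    have hdj : Disjoint F F' := by
      rw [Finset.disjoint_left]
      intro x hx hx'
      exact hRB _ _ (hF3 x hx) (hF3' x hx')
    have := card_le_dL (G := G) (K := K) (F := F ∪ F') (t := t) (Finset.union_subset hF1 hF1') (by
      intro x hx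
      rcases Finset.mem_union.1 hx with hx | hx
      · exact Or.inl (hF3 x hx)
      · exact Or.inr (hF3' x hx))
    rw [Finset.card_union_of_disjoint hdj] at this
    omega
  set A0 := ((TC ∪ TD).erase u).erase v with hA0
  -- neighbours of the vertices of `K`
  have hxS : ∀ x ∈ K, x ∉ Q → ∃ F : Finset W, F ⊆ TC ∪ TD ∧ k ≤ F.card ∧
      ∀ t ∈ F, G x t ∧ δ ≤ dL G K t := by
    intro x hx hxQ
    have hxC : x ∈ SC := by
      rcases Finset.mem_union.1 hx with h | h
      · exact h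
      · exact absurd h hxQ
    obtain ⟨N, hNc, hN⟩ := exists_nbrs_R R TC x
    refine ⟨N, fun t ht => Finset.mem_union_left _ ((hN t).1 ht).1, ?_, ?_⟩
    · have := hC.degS x hxC; omega
    · intro t ht
      exact ⟨Or.inl ((hN t).1 ht).2, hdC t ((hN t).1 ht).1⟩
  have hxB : ∀ x ∈ Q, ∃ F : Finset W, F ⊆ TC ∪ TD ∧ k ≤ F.card ∧
      ∀ t ∈ F, G x t ∧ n + 1 ≤ dL G K t := by
    intro x hx
    have hxD : x ∈ SD := (Finset.mem_sdiff.1 (hQsub hx)).1
    obtain ⟨N, hNc, hN⟩ := exists_nbrs_R B TD x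
    refine ⟨N, fun t ht => Finset.mem_union_right _ ((hN t).1 ht).1, ?_, ?_⟩
    · have := hD.degS x hxD; omega
    · intro t ht
      exact ⟨Or.inr ((hN t).1 ht).2, hdD t ((hN t).1 ht).1⟩
  have b1 : ∀ (x : V) (d : ℕ) (F : Finset W), F ⊆ TC ∪ TD → k ≤ F.card →
      (∀ t ∈ F, G x t ∧ d ≤ dL G K t) → k ≤ av G K d A0 x + 2 := by
    intro x d F hF hFc hFt
    have e1 : (F.erase u).erase v ⊆ A0 := by
      intro t ht
      rw [Finset.mem_erase, Finset.mem_erase] at ht
      rw [hA0, Finset.mem_erase, Finset.mem_erase]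
      exact ⟨ht.1, ht.2.1, hF ht.2.2⟩
    have e2 := card_le_av (G := G) (K := K) (d := d) (x := x) e1 (by
      intro t ht
      rw [Finset.mem_erase, Finset.mem_erase] at ht
      exact hFt t ht.2.2)
    have e3 := Finset.pred_card_le_card_erase (s := F) (a := u)
    have e4 := Finset.pred_card_le_card_erase (s := F.erase u) (a := v)
    omega
  have b2 : ∀ (x : V) (d : ℕ) (F : Finset W), F ⊆ TC ∪ TD → k ≤ F.card →
      (∀ t ∈ F, G x t ∧ d ≤ dL G K t) → ¬ G x u → k + 1 ≤ av G K d A0 x + 2 := by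
    intro x d F hF hFc hFt hxu
    have e1 : F.erase v ⊆ A0 := by
      intro t ht
      rw [Finset.mem_erase] at ht
      rw [hA0, Finset.mem_erase, Finset.mem_erase]
      refine ⟨ht.1, ?_, hF ht.2⟩
      rintro rfl
      exact hxu (hFt _ ht.2).1
    have e2 := card_le_av (G := G) (K := K) (d := d) (x := x) e1 (by
      intro t ht
      rw [Finset.mem_erase] at ht
      exact hFt t ht.2)
    have e4 := Finset.pred_card_le_card_erase (s := F) (a := v)
    omega
  have b3 : ∀ (x : V) (d : ℕ) (F : Finset W), F ⊆ TC ∪ TD → k ≤ F.card →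
      (∀ t ∈ F, G x t ∧ d ≤ dL G K t) → ¬ G x v → k + 1 ≤ av G K d (insert u A0) x + 1 := by
    intro x d F hF hFc hFt hxv
    have e1 : F ⊆ insert u A0 := by
      intro t ht
      by_cases htu : t = u
      · rw [htu]; exact Finset.mem_insert_self _ _
      · apply Finset.mem_insert_of_mem
        rw [hA0, Finset.mem_erase, Finset.mem_erase]
        refine ⟨?_, htu, hF ht⟩
        rintro rfl
        exact hxv (hFt _ ht).1
    have e2 := card_le_av (G := G) (K := K) (d := d) (x := x) e1 hFt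
    omega
  have hk2 : k ≤ 2 * δ := by omega
  obtain ⟨p, c, M, hA, hM⟩ := step_zero (by omega) hk2 hn1 G K Q hK Finset.subset_union_right hQc
    A0 (by
      intro x hx hxQ
      obtain ⟨F, h1, h2, h3⟩ := hxS x hx hxQ
      exact b1 x δ F h1 h2 h3) (by
      intro x hx
      obtain ⟨F, h1, h2, h3⟩ := hxB x hx
      exact b1 x (n + 1) F h1 h2 h3)
  obtain ⟨p', c', M', hA', hM'⟩ := step_special (f := 2) (by omega) hk2 (Or.inr rfl) hn1 G K Q hK
    Finset.subset_union_right hQc A0 u (by simp [hA0]) (hdCD u hu1 hu2) (by omega) (by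
      intro x hx hxQ hxu
      obtain ⟨F, h1, h2, h3⟩ := hxS x hx hxQ
      exact b2 x δ F h1 h2 h3 hxu) (by
      intro x hx hxu
      obtain ⟨F, h1, h2, h3⟩ := hxB x hx
      exact b2 x (n + 1) F h1 h2 h3 hxu) p c M hA hM
  obtain ⟨p'', c'', M'', hA'', hM''⟩ := step_special (f := 1) (by omega) hk2 (Or.inl rfl) hn1 G K Q
    hK Finset.subset_union_right hQc (insert u A0) v (by simp [hA0, huv.symm]) (hdCD v hv1 hv2)
    (fun _ => ⟨q, hqQ', Or.inr hqv⟩) (by
      intro x hx hxQ hxu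
      obtain ⟨F, h1, h2, h3⟩ := hxS x hx hxQ
      exact b3 x δ F h1 h2 h3 hxu) (by
      intro x hx hxu
      obtain ⟨F, h1, h2, h3⟩ := hxB x hx
      exact b3 x (n + 1) F h1 h2 h3 hxu) p' c' M' hA' (by omega)
  exact arr_cycle (by omega) hA'' (by omega)

end H22CK
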