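import Pool.Agent.H22.CK.Moves

/-! CK-E8, CK-E9: Hamiltonian paths with prescribed ends. -/

set_option autoImplicit false

namespace H22CK

variable {V W : Type*}

/-- a covering path `p 0, c 0, p 1, ..., p (s-1)` of `S` with connectors in `A` -/
structure HP (s : ℕ) (G : V → W → Prop) (S : Finset V) (A : Finset W) (p : ℕ → V) (c : ℕ → W) :
    Prop where
  pS : ∀ i < s, p i ∈ S
  pinj : Set.InjOn p (Set.Iio s)
  cc : ∀ i, i + 1 < s → c i ∈ A ∧ G (p i) (c i) ∧ G (p (i + 1)) (c i)
  cinj : Set.InjOn c (Set.Iio (s - 1))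

/-- the arrangement of a covering path, the closing arc being missing -/
theorem HP.arr {s : ℕ} {G : V → W → Prop} {S : Finset V} {A : Finset W} {p : ℕ → V} {c : ℕ → W}
    (h : HP s G S A p c) (hs : S.card = s) : Arr s G S A p c (Finset.range (s - 1)) := by
  refine ⟨hs, h.pS, h.pinj, ?_, ?_, ?_, ?_, ?_⟩
  · intro i hi; have := Finset.mem_range.1 hi; omega
  · intro i hi; have := Finset.mem_range.1 hi; exact (h.cc i (by omega)).1
  · intro i hi; have := Finset.mem_range.1 hi; exact (h.cc i (by omega)).2.1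
  · intro i hi
    have := Finset.mem_range.1 hi
    have e : nx s i = i + 1 := by unfold nx; rw [if_neg (by omega)]
    rw [e]; exact (h.cc i (by omega)).2.2
  · intro i hi j hj hij
    exact h.cinj (by simpa using hi) (by simpa using hj) hij

theorem Arr.hp {s : ℕ} {G : V → W → Prop} {S : Finset V} {A : Finset W} {p : ℕ → V} {c : ℕ → W}
    {M : Finset ℕ} (h : Arr s G S A p c M) (hM : ∀ i, i + 1 < s → i ∈ M) : HP s G S A p c := by
  refine ⟨h.pK, h.pinj, ?_, ?_⟩
  · intro i hi
    have e : nx s i = i + 1 := by unfold nx; rw [if_neg (by omega)]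
    have h1 := h.a2 i (hM i hi)
    rw [e] at h1
    exact ⟨h.cA i (hM i hi), h.a1 i (hM i hi), h1⟩
  · intro i hi j hj hij
    have hi' : i < s - 1 := hi
    have hj' : j < s - 1 := hj
    exact h.cinj (hM i (by omega)) (hM j (by omega)) hij

/-- rotation keeping `p 0`, to reach an end in `U` -/
theorem rot_end [DecidableEq V] [DecidableEq W] {s d : ℕ} (G : V → W → Prop)
    (S U : Finset V) (A : Finset W) (hs : S.card = s) (hU : U ⊆ S)
    (hA : ∀ t ∈ A, d ≤ dL G S t) (h2 : ∀ x ∈ S, x ∉ U → s ≤ dR G A x)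
    (p : ℕ → V) (c : ℕ → W) (h : HP s G S A p c) (hs1 : 2 ≤ s)
    (hd : s < d + (U.erase (p 0)).card) :
    ∃ (p' : ℕ → V) (c' : ℕ → W), HP s G S A p' c' ∧ p' 0 = p 0 ∧ p' (s - 1) ∈ U := by
  classical
  by_cases hend : p (s - 1) ∈ U
  · exact ⟨p, c, h, rfl, hend⟩
  by_contra hno
  push Not at hno
  have hArr := h.arr hs
  have hlast : p (s - 1) ∈ S := h.pS _ (by omega)
  -- a free connector at the end
  have hfree : ∃ t ∈ A, G (p (s - 1)) t ∧ ∀ j ∈ Finset.range (s - 1), c j ≠ t := by
    by_contra hcon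
    push Not at hcon
    have hsub : A.filter (fun t => G (p (s - 1)) t) ⊆ (Finset.range (s - 1)).image c := by
      intro t ht
      rw [Finset.mem_filter] at ht
      obtain ⟨j, hj, he⟩ := hcon t ht.1 ht.2
      exact Finset.mem_image.2 ⟨j, hj, he⟩
    have e1 : dR G A (p (s - 1)) = (A.filter (fun t => G (p (s - 1)) t)).card := by unfold dR; rfl
    have e2 := Finset.card_le_card hsub
    have e3 : ((Finset.range (s - 1)).image c).card ≤ s - 1 := by
      calc _ ≤ (Finset.range (s - 1)).card := Finset.card_image_le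
        _ = s - 1 := Finset.card_range _
    have e4 := h2 _ hlast hend
    omega
  obtain ⟨t, htA, hGt, hf⟩ := hfree
  -- every neighbour `p b` of `t`, `b < s-1`, has successor outside `U`
  have hrot : ∀ b < s - 1, G (p b) t → p (b + 1) ∉ U := by
    intro b hb hGb hbU
    have hbM : b ∈ Finset.range (s - 1) := Finset.mem_range.2 hb
    have hcM : s - 1 ∉ Finset.range (s - 1) := by simp
    obtain ⟨p', c', M', hA', h0, e1, e2, e3, e4, e5, e6, e7, e8, e9⟩ :=
      two_opt hArr hb (show s - 1 < s by omega)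
    have hfr : ∀ l ∈ M', c' l ≠ t := by
      intro l hl
      obtain ⟨m, hm, -, -, he⟩ := e8 l hl
      rw [he]; exact hf m hm
    have hL := add_link hA' (show b < s by omega) e1 (Finset.Subset.refl A) htA hfr
      (by rw [e3]; exact hGb) (by rw [e4]; exact hGt)
    have hcard : (insert b M').card = s - 1 := by
      rw [Finset.card_insert_of_notMem e1, e7]
      have : ((Finset.range (s - 1)).erase b).erase (s - 1) = (Finset.range (s - 1)).erase b := by
        apply Finset.erase_eq_of_notMem
        intro hc; exact hcM (Finset.mem_of_mem_erase hc)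
      rw [this, Finset.card_erase_of_mem hbM, Finset.card_range]
      omega
    have hsub : insert b M' ⊆ Finset.range (s - 1) := by
      intro i hi
      rcases Finset.mem_insert.1 hi with rfl | hi'
      · exact hbM
      · have := hA'.MK i hi'
        rw [Finset.mem_range]
        rcases Nat.lt_or_ge i (s - 1) with h' | h'
        · exact h'
        · have : i = s - 1 := by omega
          rw [this] at hi'; exact absurd hi' e2
    have heq : insert b M' = Finset.range (s - 1) :=
      Finset.eq_of_subset_of_card_le hsub (by rw [hcard, Finset.card_range])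
    have hHP : HP s G S A p' (Function.update c' b t) := by
      apply Arr.hp hL
      intro i hi
      rw [heq]; exact Finset.mem_range.2 (by omega)
    apply hno p' _ hHP h0
    rw [e5]
    have : nx s b = b + 1 := by unfold nx; rw [if_neg (by omega)]
    rw [this]; exact hbU
  -- count
  set N := S.filter (fun x => G x t) with hN
  have hNc : d ≤ N.card := by
    have := hA t htA
    have e : dL G S t = N.card := by unfold dL; rfl
    omega
  set I := (Finset.range (s - 1)).filter (fun b => G (p b) t) with hI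
  have hNI : N ⊆ insert (p (s - 1)) (I.image p) := by
    intro x hx
    rw [hN, Finset.mem_filter] at hx
    obtain ⟨i, hi, rfl⟩ := arr_pos hArr hx.1
    by_cases hja : i = s - 1
    · rw [hja]; exact Finset.mem_insert_self _ _
    · apply Finset.mem_insert_of_mem
      exact Finset.mem_image.2 ⟨i, by rw [hI, Finset.mem_filter, Finset.mem_range]; exact ⟨by omega, hx.2⟩, rfl⟩
  have hcN : N.card ≤ I.card + 1 := by
    calc N.card ≤ (insert (p (s - 1)) (I.image p)).card := Finset.card_le_card hNI
      _ ≤ (I.image p).card + 1 := Finset.card_insert_le _ _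
      _ ≤ I.card + 1 := by gcongr; exact Finset.card_image_le
  have hinj : Set.InjOn (fun b => p (b + 1)) (I : Set ℕ) := by
    intro i hi j hj hij
    have h1 : i < s - 1 := by
      have := (Finset.mem_filter.1 hi).1; exact Finset.mem_range.1 this
    have h2 : j < s - 1 := by
      have := (Finset.mem_filter.1 hj).1; exact Finset.mem_range.1 this
    have := h.pinj (show i + 1 < s by omega) (show j + 1 < s by omega) hij
    omega
  have himg : I.image (fun b => p (b + 1)) ⊆ (S.erase (p 0)) \ (U.erase (p 0)) := by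
    intro x hx
    obtain ⟨b, hb, rfl⟩ := Finset.mem_image.1 hx
    have hb' := Finset.mem_filter.1 hb
    have hbs := Finset.mem_range.1 hb'.1
    have hne : p (b + 1) ≠ p 0 := by
      intro he
      have := h.pinj (show b + 1 < s by omega) (show 0 < s by omega) he
      omega
    rw [Finset.mem_sdiff, Finset.mem_erase, Finset.mem_erase]
    exact ⟨⟨hne, h.pS _ (by omega)⟩, fun hc => hrot b hbs hb'.2 hc.2⟩
  have hcI : I.card ≤ ((S.erase (p 0)) \ (U.erase (p 0))).card := by
    rw [← Finset.card_image_of_injOn hinj]; exact Finset.card_le_card himg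
  have hcard : ((S.erase (p 0)) \ (U.erase (p 0))).card + (U.erase (p 0)).card = s - 1 := by
    have hsub : U.erase (p 0) ⊆ S.erase (p 0) := Finset.erase_subset_erase _ hU
    rw [Finset.card_sdiff_add_card_eq_card hsub, Finset.card_erase_of_mem (h.pS 0 (by omega)), hs]
  omega

/-- the rooted covering path exists -/
theorem rooted_path [DecidableEq V] [DecidableEq W] {s d : ℕ} (hd : 2 ≤ d) (hs2 : s + 2 ≤ 2 * d)
    (G : V → W → Prop) (S : Finset V) (A : Finset W) (hs : S.card = s)
    (z : V) (hz : z ∈ S) (hA : ∀ t ∈ A, d ≤ dL G S t)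
    (h1 : ∀ x ∈ S, s ≤ dR G A x + 1) (hs1 : 2 ≤ s) :
    ∃ (p : ℕ → V) (c : ℕ → W), HP s G S A p c ∧ p 0 = z := by
  classical
  -- rooted arrangements
  set P : ℕ → Prop := fun m => ∃ (p : ℕ → V) (c : ℕ → W) (M : Finset ℕ), Arr s G S A p c M ∧
    p 0 = z ∧ (s - 1) ∉ M ∧ M.card = m with hP
  have hbound : ∀ m, P m → m ≤ s - 1 := by
    rintro m ⟨p, c, M, hA', -, hn, rfl⟩
    have : M ⊆ Finset.range (s - 1) := by
      intro i hi
      have := hA'.MK i hi
      rw [Finset.mem_range]
      rcases Nat.lt_or_ge i (s - 1) with h' | h'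
      · exact h'
      · have : i = s - 1 := by omega
        rw [this] at hi; exact absurd hi hn
    calc M.card ≤ (Finset.range (s - 1)).card := Finset.card_le_card this
      _ = s - 1 := Finset.card_range _
  have hP0 : P 0 := by
    -- enumerate S starting with z
    have hAne : A.Nonempty := by
      have h3 := h1 z hz
      have e : dR G A z = (A.filter (fun t => G z t)).card := by unfold dR; rfl
      have : 0 < (A.filter (fun t => G z t)).card := by omega
      obtain ⟨t, ht⟩ := Finset.card_pos.1 this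
      exact ⟨t, (Finset.mem_filter.1 ht).1⟩
    obtain ⟨t0, -⟩ := hAne
    set e := S.equivFinOfCardEq hs with he
    -- index of z
    set iz : Fin s := e ⟨z, hz⟩ with hiz
    have h0s : 0 < s := by omega
    set sw : Fin s ≃ Fin s := Equiv.swap ⟨0, h0s⟩ iz with hsw
    set p : ℕ → V := fun i => if h : i < s then ((e.symm (sw ⟨i, h⟩) : S) : V) else z with hp
    refine ⟨p, fun _ => t0, ∅, ⟨hs, ?_, ?_, ?_, ?_, ?_, ?_, ?_⟩, ?_, ?_, ?_⟩
    · intro i hi; simp only [hp]; rw [dif_pos hi]; exact (e.symm (sw ⟨i, hi⟩)).2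
    · intro i hi j hj hij
      have hi' : i < s := hi
      have hj' : j < s := hj
      simp only [hp] at hij
      rw [dif_pos hi', dif_pos hj'] at hij
      have := Subtype.ext hij
      have := sw.injective (e.symm.injective this)
      simpa using this
    · intro i hi; simp at hi
    · intro i hi; simp at hi
    · intro i hi; simp at hi
    · intro i hi; simp at hi
    · intro i hi; simp at hi
    · simp only [hp]; rw [dif_pos h0s]
      have : sw ⟨0, h0s⟩ = iz := by rw [hsw]; exact Equiv.swap_apply_left _ _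
      rw [this, hiz]; simp
    · simp
    · simp
  -- maximal m
  obtain ⟨m, hm, hmax⟩ : ∃ m, P m ∧ ∀ m', P m' → m' ≤ m := by
    have hfin : {m | P m}.Finite := (Set.finite_Iic (s - 1)).subset (fun m hm => hbound m hm)
    obtain ⟨m, hm, hmax⟩ := Set.exists_max_image {m | P m} id hfin ⟨0, hP0⟩
    exact ⟨m, hm, fun m' hm' => hmax m' hm'⟩
  have hno : ¬ P (m + 1) := fun h => by have := hmax _ h; omega
  obtain ⟨p, c, M, hArr, h0, hn, hMm⟩ := hm
  by_cases hms : m = s - 1
  · -- complete
    refine ⟨p, c, Arr.hp hArr ?_, h0⟩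
    have hsub : M ⊆ Finset.range (s - 1) := by
      intro i hi
      have := hArr.MK i hi
      rw [Finset.mem_range]
      rcases Nat.lt_or_ge i (s - 1) with h' | h'
      · exact h'
      · have : i = s - 1 := by omega
        rw [this] at hi; exact absurd hi hn
    have heq : M = Finset.range (s - 1) :=
      Finset.eq_of_subset_of_card_le hsub (by rw [Finset.card_range]; omega)
    intro i hi; rw [heq]; exact Finset.mem_range.2 (by omega)
  exfalso
  have hmlt : m + 2 ≤ s := by
    have := hbound m ⟨p, c, M, hArr, h0, hn, hMm⟩; omega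
  -- a missing arc a < s-1
  obtain ⟨a, ha, haM⟩ : ∃ a < s - 1, a ∉ M := by
    by_contra hcon
    push Not at hcon
    have : Finset.range (s - 1) ⊆ M := fun i hi => hcon i (Finset.mem_range.1 hi)
    have := Finset.card_le_card this
    rw [Finset.card_range] at this
    omega
  have hnxa : nx s a = a + 1 := by unfold nx; rw [if_neg (by omega)]
  have hfree : ∀ x ∈ S, ∃ t ∈ A, G x t ∧ ∀ j ∈ M, c j ≠ t := by
    intro x hx
    by_contra hcon
    push Not at hcon
    have hsub : A.filter (fun t => G x t) ⊆ M.image c := by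
      intro t ht
      rw [Finset.mem_filter] at ht
      obtain ⟨j, hj, he⟩ := hcon t ht.1 ht.2
      exact Finset.mem_image.2 ⟨j, hj, he⟩
    have e1 : dR G A x = (A.filter (fun t => G x t)).card := by unfold dR; rfl
    have e2 := Finset.card_le_card hsub
    have e3 : (M.image c).card ≤ M.card := Finset.card_image_le
    have e4 := h1 _ hx
    omega
  obtain ⟨t1, ht1A, hG1, hf1⟩ := hfree (p a) (hArr.pK a (by omega))
  obtain ⟨t2, ht2A, hG2, hf2⟩ := hfree (p (a + 1)) (hArr.pK (a + 1) (by omega))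
  have ht12 : t1 ≠ t2 := by
    rintro rfl
    apply hno
    refine ⟨p, _, _, add_link hArr (show a < s by omega) haM (Finset.Subset.refl A) ht1A hf1 hG1
      (by rw [hnxa]; exact hG2), h0, ?_, ?_⟩
    · rw [Finset.mem_insert]; push Not; exact ⟨by omega, hn⟩
    · rw [Finset.card_insert_of_notMem haM, hMm]
  -- two_opt on a and b, with rooted information
  have htwo : ∀ b < s, b ≠ a → ∃ p' c' M' i j, Arr s G S A p' c' M' ∧ p' 0 = z ∧ i < s ∧ j < s ∧
      i ≠ j ∧ i ∉ M' ∧ j ∉ M' ∧ (s - 1) ∉ M' ∧
      ((p' i = p a ∧ p' (nx s i) = p b ∧ p' j = p (nx s a) ∧ p' (nx s j) = p (nx s b)) ∨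
       (p' i = p b ∧ p' (nx s i) = p a ∧ p' j = p (nx s b) ∧ p' (nx s j) = p (nx s a))) ∧
      M'.card = ((M.erase a).erase b).card ∧
      (∀ i ∈ M', ∃ j ∈ M, j ≠ a ∧ j ≠ b ∧ c' i = c j) ∧ i ≠ s - 1 ∧ (b ≠ s - 1 → j ≠ s - 1) := by
    intro b hb hba
    rcases lt_or_gt_of_ne hba with hlt | hlt
    · -- b < a
      obtain ⟨p', c', M', hA', h0', e1, e2, e3, e4, e5, e6, e7, e8, e9⟩ :=
        two_opt hArr hlt (show a < s by omega)
      refine ⟨p', c', M', b, a, hA', by rw [h0', h0], hb, by omega, by omega, e1, e2, ?_,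
        Or.inr ⟨e3, e4, e5, e6⟩, by rw [e7, Finset.erase_right_comm], ?_, by omega, by omega⟩
      · rw [e9 (s - 1) (by omega)]; exact hn
      · intro i hi
        obtain ⟨j, g1, g2, g3, g4⟩ := e8 i hi
        exact ⟨j, g1, g3, g2, g4⟩
    · obtain ⟨p', c', M', hA', h0', e1, e2, e3, e4, e5, e6, e7, e8, e9⟩ :=
        two_opt hArr hlt hb
      refine ⟨p', c', M', a, b, hA', by rw [h0', h0], by omega, hb, by omega, e1, e2, ?_,
        Or.inl ⟨e3, e4, e5, e6⟩, e7, e8, by omega, fun h => h⟩
      by_cases hbs : b = s - 1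
      · rw [← hbs]; exact e2
      · rw [e9 (s - 1) (by omega)]; exact hn
  -- neighbours of t1 are tails of real arcs
  have hT1 : ∀ b < s, b ≠ a → G (p b) t1 → b ∈ M := by
    intro b hb hba hGb
    by_contra hbM
    obtain ⟨p', c', M', i, j, hA', h0', hi, hj, hij, hiM, hjM, hlM, hor, hcard, hcon, his, hjs⟩ :=
      htwo b hb hba
    apply hno
    have hfr : ∀ l ∈ M', c' l ≠ t1 := by
      intro l hl
      obtain ⟨m', hm', -, -, he⟩ := hcon l hl
      rw [he]; exact hf1 m' hm'
    refine ⟨p', _, insert i M', add_link hA' hi hiM (Finset.Subset.refl A) ht1A hfr ?_ ?_, h0', ?_, ?_⟩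
    · rcases hor with ⟨g1, g2, -, -⟩ | ⟨g1, g2, -, -⟩
      · rw [g1]; exact hG1
      · rw [g1]; exact hGb
    · rcases hor with ⟨g1, g2, -, -⟩ | ⟨g1, g2, -, -⟩
      · rw [g2]; exact hGb
      · rw [g2]; exact hG1
    · rw [Finset.mem_insert]; push Not; exact ⟨fun h => his h.symm, hlM⟩
    · rw [Finset.card_insert_of_notMem hiM, hcard, card_erase_two' haM hbM, hMm]
  have hT2 : ∀ b < s, b ≠ a → b ≠ s - 1 → G (p (nx s b)) t2 → b ∈ M := by
    intro b hb hba hbs hGb
    by_contra hbM
    obtain ⟨p', c', M', i, j, hA', h0', hi, hj, hij, hiM, hjM, hlM, hor, hcard, hcon, his, hjs⟩ :=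
      htwo b hb hba
    apply hno
    have hfr : ∀ l ∈ M', c' l ≠ t2 := by
      intro l hl
      obtain ⟨m', hm', -, -, he⟩ := hcon l hl
      rw [he]; exact hf2 m' hm'
    have hG2' : G (p (nx s a)) t2 := by rw [hnxa]; exact hG2
    refine ⟨p', _, insert j M', add_link hA' hj hjM (Finset.Subset.refl A) ht2A hfr ?_ ?_, h0', ?_, ?_⟩
    · rcases hor with ⟨-, -, g1, g2⟩ | ⟨-, -, g1, g2⟩
      · rw [g1]; exact hG2'
      · rw [g1]; exact hGb
    · rcases hor with ⟨-, -, g1, g2⟩ | ⟨-, -, g1, g2⟩
      · rw [g2]; exact hGb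
      · rw [g2]; exact hG2'
    · rw [Finset.mem_insert]; push Not; exact ⟨fun h => hjs hbs h.symm, hlM⟩
    · rw [Finset.card_insert_of_notMem hjM, hcard, card_erase_two' haM hbM, hMm]
  -- no crossing
  have hcross : ∀ b ∈ M, G (p b) t1 → ¬ G (p (nx s b)) t2 := by
    intro b hbM hGb hGb2
    have hba : b ≠ a := fun he => haM (he ▸ hbM)
    have hbs : b ≠ s - 1 := fun he => hn (he ▸ hbM)
    obtain ⟨p', c', M', i, j, hA', h0', hi, hj, hij, hiM, hjM, hlM, hor, hcard, hcon, his, hjs⟩ :=
      htwo b (hArr.MK b hbM) hba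
    apply hno
    have hfr1 : ∀ l ∈ M', c' l ≠ t1 := by
      intro l hl
      obtain ⟨m', hm', -, -, he⟩ := hcon l hl
      rw [he]; exact hf1 m' hm'
    have hfr2 : ∀ l ∈ M', c' l ≠ t2 := by
      intro l hl
      obtain ⟨m', hm', -, -, he⟩ := hcon l hl
      rw [he]; exact hf2 m' hm'
    have hG2' : G (p (nx s a)) t2 := by rw [hnxa]; exact hG2
    have hg : (G (p' i) t1 ∧ G (p' (nx s i)) t1) ∧ G (p' j) t2 ∧ G (p' (nx s j)) t2 := by
      rcases hor with ⟨g1, g2, g3, g4⟩ | ⟨g1, g2, g3, g4⟩
      · rw [g1, g2, g3, g4]; exact ⟨⟨hG1, hGb⟩, hG2', hGb2⟩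
      · rw [g1, g2, g3, g4]; exact ⟨⟨hGb, hG1⟩, hGb2, hG2'⟩
    have hL := add_link hA' hi hiM (Finset.Subset.refl A) ht1A hfr1 hg.1.1 hg.1.2
    have hjM2 : j ∉ insert i M' := by
      rw [Finset.mem_insert]; push Not; exact ⟨hij.symm, hjM⟩
    have hL2 := add_link hL hj hjM2 (Finset.Subset.refl A) ht2A (t := t2) (by
      intro l hl
      rcases Finset.mem_insert.1 hl with hl | hl
      · rw [hl, Function.update_self]; exact ht12
      · have hne : l ≠ i := fun he => hiM (he ▸ hl)
        rw [Function.update_of_ne hne]; exact hfr2 l hl) hg.2.1 hg.2.2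
    refine ⟨p', _, _, hL2, h0', ?_, ?_⟩
    · rw [Finset.mem_insert, Finset.mem_insert]; push Not
      exact ⟨fun h => hjs hbs h.symm, fun h => his h.symm, hlM⟩
    · rw [Finset.card_insert_of_notMem hjM2, Finset.card_insert_of_notMem hiM, hcard]
      have := card_erase_two haM hbM
      omega
  -- count
  set I1 := (Finset.range s).filter (fun b => b ≠ a ∧ G (p b) t1) with hI1
  set I2 := (Finset.range s).filter (fun b => b ≠ a ∧ b ≠ s - 1 ∧ G (p (nx s b)) t2) with hI2
  have hM1 : I1 ⊆ M := by
    intro b hb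
    rw [hI1, Finset.mem_filter, Finset.mem_range] at hb
    exact hT1 b hb.1 hb.2.1 hb.2.2
  have hM2 : I2 ⊆ M := by
    intro b hb
    rw [hI2, Finset.mem_filter, Finset.mem_range] at hb
    exact hT2 b hb.1 hb.2.1 hb.2.2.1 hb.2.2.2
  have hdisj : Disjoint I1 I2 := by
    rw [Finset.disjoint_left]
    intro b hb1 hb2
    have hbM := hM1 hb1
    rw [hI1, Finset.mem_filter] at hb1
    rw [hI2, Finset.mem_filter] at hb2
    exact hcross b hbM hb1.2.2 hb2.2.2.2
  have hc : I1.card + I2.card ≤ M.card := by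
    rw [← Finset.card_union_of_disjoint hdisj]
    exact Finset.card_le_card (Finset.union_subset hM1 hM2)
  have hd1 : dL G S t1 ≤ I1.card + 1 := by
    have hsub : S.filter (fun x => G x t1) ⊆ insert (p a) (I1.image p) := by
      intro x hx
      rw [Finset.mem_filter] at hx
      obtain ⟨i, hi, rfl⟩ := arr_pos hArr hx.1
      by_cases hja : i = a
      · rw [hja]; exact Finset.mem_insert_self _ _
      · apply Finset.mem_insert_of_mem
        exact Finset.mem_image.2 ⟨i, by rw [hI1, Finset.mem_filter, Finset.mem_range]; exact ⟨hi, hja, hx.2⟩, rfl⟩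
    calc dL G S t1 = (S.filter (fun x => G x t1)).card := by unfold dL; rfl
      _ ≤ (insert (p a) (I1.image p)).card := Finset.card_le_card hsub
      _ ≤ (I1.image p).card + 1 := Finset.card_insert_le _ _
      _ ≤ I1.card + 1 := by gcongr; exact Finset.card_image_le
  have hd2 : dL G S t2 ≤ I2.card + 2 := by
    have hsub : S.filter (fun x => G x t2) ⊆
        insert (p (nx s (s - 1))) (insert (p (nx s a)) (I2.image (fun b => p (nx s b)))) := by
      intro x hx
      rw [Finset.mem_filter] at hx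
      obtain ⟨i, hi, rfl⟩ := arr_pos hArr hx.1
      obtain ⟨j, hj, rfl⟩ := nx_surj hi
      by_cases hjs : j = s - 1
      · rw [hjs]; exact Finset.mem_insert_self _ _
      by_cases hja : j = a
      · rw [hja]; exact Finset.mem_insert_of_mem (Finset.mem_insert_self _ _)
      · apply Finset.mem_insert_of_mem
        apply Finset.mem_insert_of_mem
        exact Finset.mem_image.2 ⟨j, by rw [hI2, Finset.mem_filter, Finset.mem_range]; exact ⟨hj, hja, hjs, hx.2⟩, rfl⟩
    calc dL G S t2 = (S.filter (fun x => G x t2)).card := by unfold dL; rfl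
      _ ≤ (insert (p (nx s (s - 1))) (insert (p (nx s a)) (I2.image (fun b => p (nx s b))))).card :=
        Finset.card_le_card hsub
      _ ≤ (insert (p (nx s a)) (I2.image (fun b => p (nx s b)))).card + 1 := Finset.card_insert_le _ _
      _ ≤ ((I2.image (fun b => p (nx s b))).card + 1) + 1 := by
        gcongr; exact Finset.card_insert_le _ _
      _ ≤ I2.card + 2 := by
        have : (I2.image (fun b => p (nx s b))).card ≤ I2.card := Finset.card_image_le
        omega
  have g1 := hA t1 ht1A
  have g2 := hA t2 ht2A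
  omega

/-- E8 (rooted Hamiltonian path with prescribed end set) -/
theorem lemma_H [DecidableEq V] [DecidableEq W] {s d : ℕ} (hd : 2 ≤ d) (hs2 : s + 2 ≤ 2 * d)
    (G : V → W → Prop) (S U : Finset V) (A : Finset W) (hs : S.card = s) (hU : U ⊆ S)
    (hUc : d ≤ U.card) (z : V) (hz : z ∈ S) (hA : ∀ t ∈ A, d ≤ dL G S t)
    (h1 : ∀ x ∈ S, s ≤ dR G A x + 1) (h2 : ∀ x ∈ S, x ∉ U → s ≤ dR G A x) :
    ∃ (p : ℕ → V) (c : ℕ → W), (∀ i < s, p i ∈ S) ∧ Set.InjOn p (Set.Iio s) ∧ p 0 = z ∧
      p (s - 1) ∈ U ∧ (∀ i, i + 1 < s → c i ∈ A ∧ G (p i) (c i) ∧ G (p (i + 1)) (c i)) ∧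
      Set.InjOn c (Set.Iio (s - 1)) := by
  have hs1 : 2 ≤ s := by
    have := Finset.card_le_card hU
    omega
  obtain ⟨p, c, h, h0⟩ := rooted_path hd hs2 G S A hs z hz hA h1 hs1
  have hcU : U.card ≤ (U.erase (p 0)).card + 1 := by
    have := Finset.pred_card_le_card_erase (s := U) (a := p 0)
    omega
  obtain ⟨p', c', h', h0', hend⟩ := rot_end G S U A hs hU hA h2 p c h hs1 (by omega)
  exact ⟨p', c', h'.pS, h'.pinj, by rw [h0', h0], hend, h'.cc, h'.cinj⟩

/-- reversing a covering path -/
theorem HP.rev {s : ℕ} {G : V → W → Prop} {S : Finset V} {A : Finset W} {p : ℕ → V} {c : ℕ → W}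
    (h : HP s G S A p c) (hs : 1 ≤ s) :
    ∃ p' c', HP s G S A p' c' ∧ p' 0 = p (s - 1) ∧ p' (s - 1) = p 0 := by
  refine ⟨fun i => p (s - 1 - i), fun i => c (s - 2 - i), ⟨?_, ?_, ?_, ?_⟩, by simp, by simp⟩
  · intro i hi; exact h.pS _ (by omega)
  · intro i hi j hj hij
    have hi' : i < s := hi
    have hj' : j < s := hj
    have := h.pinj (show s - 1 - i < s by omega) (show s - 1 - j < s by omega) hij
    omega
  · intro i hi
    have h1 := h.cc (s - 2 - i) (by omega)
    have e1 : s - 2 - i + 1 = s - 1 - i := by omega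
    have e2 : s - 1 - (i + 1) = s - 2 - i := by omega
    rw [e1] at h1
    refine ⟨h1.1, h1.2.2, ?_⟩
    show G (p (s - 1 - (i + 1))) _
    rw [e2]; exact h1.2.1
  · intro i hi j hj hij
    have hi' : i < s - 1 := hi
    have hj' : j < s - 1 := hj
    have := h.cinj (show s - 2 - i < s - 1 by omega) (show s - 2 - j < s - 1 by omega) hij
    omega

/-- an arrangement with at most one missing arc gives a covering path -/
theorem Arr.shift {s : ℕ} {G : V → W → Prop} {S : Finset V} {A : Finset W} {p : ℕ → V} {c : ℕ → W}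
    {M : Finset ℕ} (h : Arr s G S A p c M) {a : ℕ} (ha : a < s) (hM : ∀ i < s, i ≠ a → i ∈ M) :
    ∃ p' c', HP s G S A p' c' := by
  set sh : ℕ → ℕ := fun i => if a + 1 + i < s then a + 1 + i else a + 1 + i - s with hsh
  have hlt : ∀ i < s, sh i < s := by
    intro i hi; simp only [hsh]; split_ifs <;> omega
  have hne : ∀ i, i + 1 < s → sh i ≠ a := by
    intro i hi; simp only [hsh]; split_ifs <;> omega
  have hnx : ∀ i, i + 1 < s → sh (i + 1) = nx s (sh i) := by
    intro i hi; simp only [hsh, nx]; split_ifs <;> omega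
  have hinj : ∀ i < s, ∀ j < s, sh i = sh j → i = j := by
    intro i hi j hj hij
    simp only [hsh] at hij
    split_ifs at hij <;> omega
  refine ⟨p ∘ sh, c ∘ sh, ⟨fun i hi => h.pK _ (hlt i hi), ?_, ?_, ?_⟩⟩
  · intro i hi j hj hij
    have hi' : i < s := hi
    have hj' : j < s := hj
    exact hinj i hi' j hj' (h.pinj (hlt i hi') (hlt j hj') hij)
  · intro i hi
    have hm := hM _ (hlt i (by omega)) (hne i hi)
    refine ⟨h.cA _ hm, h.a1 _ hm, ?_⟩
    have := h.a2 _ hm
    simp only [Function.comp]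
    rw [hnx i hi]; exact this
  · intro i hi j hj hij
    have hi' : i < s - 1 := hi
    have hj' : j < s - 1 := hj
    have hm1 := hM _ (hlt i (by omega)) (hne i (by omega))
    have hm2 := hM _ (hlt j (by omega)) (hne j (by omega))
    exact hinj i (by omega) j (by omega) (h.cinj hm1 hm2 hij)

/-- E9 (Hamiltonian path between two prescribed sets) -/
theorem lemma_W [DecidableEq V] [DecidableEq W] {s d : ℕ} (hd : 2 ≤ d) (hs2 : s + 1 = 2 * d)
    (G : V → W → Prop) (S U1 U2 : Finset V) (A : Finset W) (hs : S.card = s) (hU1 : U1 ⊆ S)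
    (hU2 : U2 ⊆ S) (hUc1 : d ≤ U1.card) (hUc2 : d + 1 ≤ U2.card)
    (hA : ∀ t ∈ A, d ≤ dL G S t) (h1 : ∀ x ∈ S, s ≤ dR G A x) :
    ∃ (p : ℕ → V) (c : ℕ → W), (∀ i < s, p i ∈ S) ∧ Set.InjOn p (Set.Iio s) ∧ p 0 ∈ U1 ∧
      p (s - 1) ∈ U2 ∧ (∀ i, i + 1 < s → c i ∈ A ∧ G (p i) (c i) ∧ G (p (i + 1)) (c i)) ∧
      Set.InjOn c (Set.Iio (s - 1)) := by
  classical
  have hs1 : 3 ≤ s := by omega
  -- an unrooted covering path
  have hpath : ∃ (p : ℕ → V) (c : ℕ → W), HP s G S A p c := by
    have hne : S.Nonempty := by rw [← Finset.card_pos]; omega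
    obtain ⟨x0, hx0⟩ := hne
    have hAne : A.Nonempty := by
      have h3 := h1 x0 hx0
      have e : dR G A x0 = (A.filter (fun t => G x0 t)).card := by unfold dR; rfl
      have : 0 < (A.filter (fun t => G x0 t)).card := by omega
      obtain ⟨t, ht⟩ := Finset.card_pos.1 this
      exact ⟨t, (Finset.mem_filter.1 ht).1⟩
    obtain ⟨t0, -⟩ := hAne
    have hP0 : Imp s G S A 0 := by
      set e := S.equivFinOfCardEq hs with he
      refine ⟨fun i => if h : i < s then ((e.symm ⟨i, h⟩ : S) : V) else x0, fun _ => t0, ∅,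
        ⟨hs, ?_, ?_, ?_, ?_, ?_, ?_, ?_⟩, rfl⟩
      · intro i hi; rw [dif_pos hi]; exact (e.symm ⟨i, hi⟩).2
      · intro i hi j hj hij
        have hi' : i < s := hi
        have hj' : j < s := hj
        have hij' : (if h : i < s then ((e.symm ⟨i, h⟩ : S) : V) else x0) =
          (if h : j < s then ((e.symm ⟨j, h⟩ : S) : V) else x0) := hij
        rw [dif_pos hi', dif_pos hj'] at hij'
        have hij := hij'
        have := Subtype.ext hij
        have := e.symm.injective this
        simpa using this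
      · intro i hi; simp at hi
      · intro i hi; simp at hi
      · intro i hi; simp at hi
      · intro i hi; simp at hi
      · intro i hi; simp at hi
    have hbound : ∀ m, Imp s G S A m → m ≤ s := by
      rintro m ⟨p, c, M, hA', rfl⟩
      have : M ⊆ Finset.range s := fun i hi => Finset.mem_range.2 (hA'.MK i hi)
      calc M.card ≤ (Finset.range s).card := Finset.card_le_card this
        _ = s := Finset.card_range _
    obtain ⟨m, hm, hmax⟩ : ∃ m, Imp s G S A m ∧ ∀ m', Imp s G S A m' → m' ≤ m := by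
      have hfin : {m | Imp s G S A m}.Finite := (Set.finite_Iic s).subset (fun m hm => hbound m hm)
      obtain ⟨m, hm, hmax⟩ := Set.exists_max_image {m | Imp s G S A m} id hfin ⟨0, hP0⟩
      exact ⟨m, hm, fun m' hm' => hmax m' hm'⟩
    have hno : ¬ Imp s G S A (m + 1) := fun h => by have := hmax _ h; omega
    obtain ⟨p, c, M, hArr, hMm⟩ := hm
    have hsubM : M ⊆ Finset.range s := fun i hi => Finset.mem_range.2 (hArr.MK i hi)
    by_cases hms : s ≤ m + 1
    · -- at most one missing arc
      by_cases hall : ∀ i < s, i ∈ M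
      · exact Arr.shift hArr (show s - 1 < s by omega) (fun i hi _ => hall i hi)
      · push Not at hall
        obtain ⟨a, ha, haM⟩ := hall
        apply Arr.shift hArr ha
        intro i hi hia
        by_contra hiM
        have hsub : M ⊆ ((Finset.range s).erase a).erase i := by
          intro j hj
          rw [Finset.mem_erase, Finset.mem_erase, Finset.mem_range]
          exact ⟨fun h => hiM (h ▸ hj), fun h => haM (h ▸ hj), hArr.MK j hj⟩
        have hc := Finset.card_le_card hsub
        rw [Finset.card_erase_of_mem (by rw [Finset.mem_erase, Finset.mem_range]; exact ⟨hia, hi⟩),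
          Finset.card_erase_of_mem (Finset.mem_range.2 ha), Finset.card_range] at hc
        omega
    exfalso
    obtain ⟨a, ha, haM⟩ : ∃ a < s, a ∉ M := by
      by_contra hcon
      push Not at hcon
      have : Finset.range s ⊆ M := fun i hi => hcon i (Finset.mem_range.1 hi)
      have := Finset.card_le_card this
      rw [Finset.card_range] at this
      omega
    have hfree : ∀ x ∈ S, ∃ t ∈ A, G x t ∧ ∀ j ∈ M, c j ≠ t := by
      intro x hx
      by_contra hcon
      push Not at hcon
      have hsub : A.filter (fun t => G x t) ⊆ M.image c := by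
        intro t ht
        rw [Finset.mem_filter] at ht
        obtain ⟨j, hj, he⟩ := hcon t ht.1 ht.2
        exact Finset.mem_image.2 ⟨j, hj, he⟩
      have e1 : dR G A x = (A.filter (fun t => G x t)).card := by unfold dR; rfl
      have e2 := Finset.card_le_card hsub
      have e3 : (M.image c).card ≤ M.card := Finset.card_image_le
      have e4 := h1 _ hx
      omega
    obtain ⟨t1, ht1A, hG1, hf1⟩ := hfree (p a) (hArr.pK a ha)
    obtain ⟨t2, ht2A, hG2, hf2⟩ := hfree (p (nx s a)) (hArr.pK _ (nx_lt ha))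
    rw [← hMm] at hno
    have ht12 : t1 ≠ t2 := by
      rintro rfl
      exact hno (move_link0 hArr ha haM (Finset.Subset.refl A) ht1A hf1 hG1 hG2)
    have hcc := count_cross hArr ha haM (Finset.Subset.refl A) hno ht1A ht2A ht12 hf1 hf2 hG1 hG2
    have g1 := hA t1 ht1A
    have g2 := hA t2 ht2A
    omega
  obtain ⟨p, c, hp⟩ := hpath
  -- an end in U1
  have hend1 : ∃ (p : ℕ → V) (c : ℕ → W), HP s G S A p c ∧ p 0 ∈ U1 := by
    by_cases h0 : p 0 ∈ U1
    · exact ⟨p, c, hp, h0⟩
    · have : U1.erase (p 0) = U1 := Finset.erase_eq_of_notMem h0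
      obtain ⟨p', c', h', -, hend⟩ := rot_end G S U1 A hs hU1 hA (fun x hx _ => h1 x hx) p c hp
        (by omega) (by rw [this]; omega)
      obtain ⟨p'', c'', h'', e1, e2⟩ := h'.rev (by omega)
      exact ⟨p'', c'', h'', by rw [e1]; exact hend⟩
  obtain ⟨p1, c1, hp1, h01⟩ := hend1
  have hcU : U2.card ≤ (U2.erase (p1 0)).card + 1 := by
    have := Finset.pred_card_le_card_erase (s := U2) (a := p1 0)
    omega
  obtain ⟨p', c', h', h0', hend⟩ := rot_end G S U2 A hs hU2 hA (fun x hx _ => h1 x hx) p1 c1 hp1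
    (by omega) (by omega)
  exact ⟨p', c', h'.pS, h'.pinj, by rw [h0']; exact h01, hend, h'.cc, h'.cinj⟩

end H22CK
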