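import Pool.Agent.H22.CK.E8

/-! `lemma_W` (CK-E9) is proved in `E8.lean`. -/
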