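import Pool.Agent.H22.CK.Defs

/-! F1 of PROJECT CK: there is no monochromatic path on `2k` vertices. -/

set_option autoImplicit false

namespace H22CK

/-- F1 (no monochromatic path) -/
theorem no_mono_path {n m k : ℕ} (hk : 1 ≤ k) (c : Fin n → Fin n → Fin m)
    (hc : ∀ i j : Fin m, ¬ HasCycle k (fun x y => c x y = i ∨ c x y = j)) (i : Fin m) :
    ¬ HasPath k (fun x y => c x y = i) Finset.univ Finset.univ := by
  rintro ⟨p, d, hp, hd, -, h1, h2⟩
  have _ := hk
  exact hc i (c (p 0) (d (k - 1)))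
    ⟨p, d, hp, hd, fun j hj => Or.inl (h1 j hj), fun j hj => Or.inl (h2 j hj), Or.inr rfl⟩

end H22CK
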