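import Pool.Agent.H22.CK.E13

/-! F2 of PROJECT CK: core pairs of different colours are different. -/

set_option autoImplicit false

namespace H22CK

/-- F2 (core pairs of different colours are different; from E13) -/
theorem sum_cp {n m k : ℕ} (hk : 4 ≤ k) (c : Fin n → Fin n → Fin m)
    (hc : ∀ i j : Fin m, ¬ HasCycle k (fun x y => c x y = i ∨ c x y = j)) :
    (∑ i, cp k (fun x y => c x y = i) Finset.univ Finset.univ) + n ≤ n * n := by
  classical
  let F : Fin m → Finset (Fin n × Fin n) := fun i =>
    (Finset.univ ×ˢ Finset.univ).filter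
      (fun q : Fin n × Fin n => CPair k (fun x y => c x y = i) Finset.univ Finset.univ q.1 q.2)
  have hF : ∀ i, cp k (fun x y => c x y = i) Finset.univ Finset.univ = (F i).card := by
    intro i
    unfold cp
    congr
  have hdisj : ∀ i ∈ (Finset.univ : Finset (Fin m)), ∀ j ∈ (Finset.univ : Finset (Fin m)),
      i ≠ j → Disjoint (F i) (F j) := by
    intro i _ j _ hij
    rw [Finset.disjoint_left]
    intro q hq hq'
    simp only [F, Finset.mem_filter] at hq hq'
    obtain ⟨-, hne, S, T, -, -, hS, hu, hv⟩ := hq
    obtain ⟨-, -, S', T', -, -, hS', hu', hv'⟩ := hq'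
    refine hc i j (exclusive hk _ _ ?_ S S' T T' hS hS' q.1 q.2 hne hu hu' hv hv')
    intro x y h1 h2
    exact hij (h1.symm.trans h2)
  have hcard : ∑ i, (F i).card = (Finset.univ.biUnion F).card :=
    (Finset.card_biUnion (by
      intro i hi j hj hij
      exact hdisj i hi j hj hij)).symm
  have hsub : Finset.univ.biUnion F ⊆ (Finset.univ : Finset (Fin n)).offDiag := by
    intro q hq
    simp only [Finset.mem_biUnion, Finset.mem_univ, true_and] at hq
    obtain ⟨i, hi⟩ := hq
    simp only [F, Finset.mem_filter] at hi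
    rw [Finset.mem_offDiag]
    exact ⟨Finset.mem_univ _, Finset.mem_univ _, hi.2.1⟩
  have hle := Finset.card_le_card hsub
  rw [Finset.offDiag_card] at hle
  simp only [Finset.card_univ, Fintype.card_fin] at hle
  have hs : (∑ i, cp k (fun x y => c x y = i) Finset.univ Finset.univ) = ∑ i, (F i).card :=
    Finset.sum_congr rfl (fun i _ => hF i)
  rw [hs, hcard]
  have hn : n ≤ n * n := Nat.le_mul_self n
  omega

end H22CK
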