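import Pool.Agent.H22.CK.Defs

/-! L1 of PROJECT CK. -/

set_option autoImplicit false

namespace H22CK

variable {V W : Type*}

/-- rotation of a cycle -/
theorem cyc_rot {t : ℕ} {E : V → W → Prop} {X : Finset V} {Y : Finset W} {x : ℕ → V} {y : ℕ → W}
    (h : IsCyc t E X Y x y) (j : ℕ) :
    IsCyc t E X Y (fun i => x ((i + j) % t)) (fun i => y ((i + j) % t)) := by
  have hmod : ∀ i, i < t → (i + j) % t < t := fun i hi => Nat.mod_lt _ (by omega)
  have hinj : ∀ a b, a < t → b < t → (a + j) % t = (b + j) % t → a = b := by
    intro a b ha hb hab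
    have h1 : (a + j) ≡ (b + j) [MOD t] := hab
    have h2 : a ≡ b [MOD t] := Nat.ModEq.add_right_cancel' j h1
    have h3 : a % t = b % t := h2
    rwa [Nat.mod_eq_of_lt ha, Nat.mod_eq_of_lt hb] at h3
  refine ⟨fun i hi => h.xX _ (hmod i hi), fun i hi => h.yY _ (hmod i hi), ?_, ?_,
    fun i hi => h.e1 _ (hmod i hi), ?_⟩
  · intro a ha b hb hab
    exact hinj a b ha hb (h.xinj (hmod a ha) (hmod b hb) hab)
  · intro a ha b hb hab
    exact hinj a b ha hb (h.yinj (hmod a ha) (hmod b hb) hab)
  · intro i hi
    have h1 := h.e2 _ (hmod i hi)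
    have h2 : nx t ((i + j) % t) = (nx t i + j) % t := by
      have ht : 0 < t := by omega
      have e1 : ∀ a, a < t → nx t a = (a + 1) % t := by
        intro a ha
        unfold nx
        split_ifs with h3
        · rw [h3, Nat.mod_self]
        · rw [Nat.mod_eq_of_lt (by omega)]
      rw [e1 _ (hmod i hi), e1 _ hi]
      simp only [Nat.mod_add_mod, Nat.add_mod_mod]
      congr 1
      ring
    rw [h2] at h1
    exact h1

/-- an outside vertex adjacent to the cycle: odd path -/
theorem cyc_odd {t : ℕ} {E : V → W → Prop} {X : Finset V} {Y : Finset W} {x : ℕ → V} {y : ℕ → W}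
    (h : IsCyc t E X Y x y) {z : W} (hz : z ∈ Y) (hn : ∀ i < t, z ≠ y i) (he : E (x 0) z) :
    IsOdd t E X Y x (fun i => if i = 0 then z else y (i - 1)) := by
  refine ⟨h.xX, ?_, h.xinj, ?_, ?_, ?_⟩
  · intro i hi
    try dsimp only
    split_ifs
    · exact hz
    · exact h.yY _ (by omega)
  · intro a ha b hb hab
    simp only [Set.mem_Iic] at ha hb
    by_cases ha0 : a = 0 <;> by_cases hb0 : b = 0
    · omega
    · simp only [ha0, hb0, if_true, if_false] at hab
      exact absurd hab (hn _ (by omega))
    · simp only [ha0, hb0, if_true, if_false] at hab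
      exact absurd hab.symm (hn _ (by omega))
    · simp only [ha0, hb0, if_false] at hab
      have := h.yinj (show a - 1 ∈ Set.Iio t by simp only [Set.mem_Iio]; omega)
        (show b - 1 ∈ Set.Iio t by simp only [Set.mem_Iio]; omega) hab
      omega
  · intro i hi
    try dsimp only
    split_ifs with h0
    · rw [h0]; exact he
    · have := h.e2 (i - 1) (by omega)
      unfold nx at this
      rw [if_neg (by omega), show i - 1 + 1 = i by omega] at this
      exact this
  · intro i hi
    simpa using h.e1 i hi

/-- an outside vertex adjacent to the cycle, other side -/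
theorem cyc_odd' {t : ℕ} {E : V → W → Prop} {X : Finset V} {Y : Finset W} {x : ℕ → V} {y : ℕ → W}
    (h : IsCyc t E X Y x y) {z : V} (hz : z ∈ X) (hn : ∀ i < t, z ≠ x i) (he : E z (y 0))
    (ht : 1 ≤ t) :
    IsOdd t (fl E) Y X y (fun i => if i = 0 then z else if i = t then x 0 else x i) := by
  refine ⟨h.yY, ?_, h.yinj, ?_, ?_, ?_⟩
  · intro i hi
    try dsimp only
    split_ifs
    · exact hz
    · exact h.xX _ (by omega)
    · exact h.xX _ (by omega)
  · intro a ha b hb hab
    simp only [Set.mem_Iic] at ha hb
    dsimp only at hab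
    have key : ∀ c d : ℕ, c < t → d < t → x c = x d → c = d := fun c d hc hd hcd =>
      h.xinj hc hd hcd
    split_ifs at hab with a1 a2 a3 a4 a5 a6 a7 a8
    · omega
    · exact absurd hab (hn _ (by omega))
    · exact absurd hab (hn _ (by omega))
    · exact absurd hab.symm (hn _ (by omega))
    · omega
    · have := key _ _ (by omega) (by omega) hab; omega
    · exact absurd hab.symm (hn _ (by omega))
    · have := key _ _ (by omega) (by omega) hab; omega
    · exact key _ _ (by omega) (by omega) hab
  · intro i hi
    dsimp only [fl]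
    split_ifs with h0 h2
    · rw [h0]; exact he
    · omega
    · exact h.e1 i hi
  · intro i hi
    dsimp only [fl]
    have := h.e2 i hi
    unfold nx at this
    split_ifs at this with h3
    · rw [if_neg (by omega), if_pos h3]; exact this
    · rw [if_neg (by omega), if_neg h3]; exact this

/-- a cycle and no odd path: the cycle is closed -/
theorem cyc_is_closed [DecidableEq V] [DecidableEq W] {t : ℕ} (ht1 : 1 ≤ t) {E : V → W → Prop}
    {X : Finset V} {Y : Finset W} {x : ℕ → V} {y : ℕ → W} (h : IsCyc t E X Y x y)
    (hno1 : ¬ ∃ x y, IsOdd t E X Y x y) (hno2 : ¬ ∃ y x, IsOdd t (fl E) Y X y x) :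
    Closed E X Y ((Finset.range t).image x) ((Finset.range t).image y) := by
  refine ⟨?_, ?_, ?_, ?_, ?_, ?_⟩
  · intro v hv
    rw [Finset.mem_image] at hv
    obtain ⟨i, hi, rfl⟩ := hv
    exact h.xX i (Finset.mem_range.1 hi)
  · intro v hv
    rw [Finset.mem_image] at hv
    obtain ⟨i, hi, rfl⟩ := hv
    exact h.yY i (Finset.mem_range.1 hi)
  · exact ⟨x 0, Finset.mem_image_of_mem x (Finset.mem_range.2 (by omega))⟩
  · exact ⟨y 0, Finset.mem_image_of_mem y (Finset.mem_range.2 (by omega))⟩
  · intro v hv z hz he
    rw [Finset.mem_image] at hv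
    obtain ⟨j, hj, rfl⟩ := hv
    rw [Finset.mem_range] at hj
    by_contra hcon
    have hr := cyc_rot h j
    apply hno1
    refine ⟨_, _, cyc_odd hr hz ?_ ?_⟩
    · intro i hi heq
      apply hcon
      rw [heq]
      exact Finset.mem_image_of_mem y (Finset.mem_range.2 (Nat.mod_lt _ (by omega)))
    · simpa [Nat.mod_eq_of_lt hj] using he
  · intro v hv z hz he
    rw [Finset.mem_image] at hv
    obtain ⟨j, hj, rfl⟩ := hv
    rw [Finset.mem_range] at hj
    by_contra hcon
    have hr := cyc_rot h j
    apply hno2
    refine ⟨_, _, cyc_odd' hr hz ?_ ?_ ht1⟩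
    · intro i hi heq
      apply hcon
      rw [heq]
      exact Finset.mem_image_of_mem x (Finset.mem_range.2 (Nat.mod_lt _ (by omega)))
    · simpa [Nat.mod_eq_of_lt hj] using he

/-- L1 (longest path even) -/
theorem even_closed [DecidableEq V] [DecidableEq W] {t δ : ℕ} (hδ : 2 ≤ δ) (ht1 : 1 ≤ t)
    (ht : t + 1 ≤ 2 * δ) (E : V → W → Prop)
    (X : Finset V) (Y : Finset W) (hX : ∀ x ∈ X, δ ≤ dR E Y x) (hY : ∀ y ∈ Y, δ ≤ dL E X y)
    (hP : HasPath t E X Y) (hno1 : ¬ ∃ x y, IsOdd t E X Y x y)
    (hno2 : ¬ ∃ y x, IsOdd t (fl E) Y X y x) :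
    ∃ X0 Y0, Closed E X Y X0 Y0 ∧ X0.card ≤ t := by
  classical
  obtain ⟨p, c, hpi, hci, hm, he1, he2⟩ := hP
  -- neighbours of the ends
  have n0 : ∀ z ∈ Y, E (p 0) z → ∃ i < t, z = c i := by
    intro z hz he
    by_contra hcon
    push Not at hcon
    apply hno1
    refine ⟨p, fun i => if i = 0 then z else c (i - 1), ⟨fun i hi => (hm i hi).1, ?_, hpi, ?_,
      ?_, ?_⟩⟩
    · intro i hi
      try dsimp only
      split_ifs
      · exact hz
      · exact (hm _ (by omega)).2
    · intro a ha b hb hab
      simp only [Set.mem_Iic] at ha hb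
      by_cases ha0 : a = 0 <;> by_cases hb0 : b = 0
      · omega
      · simp only [ha0, hb0, if_true, if_false] at hab
        exact absurd hab (hcon _ (by omega))
      · simp only [ha0, hb0, if_true, if_false] at hab
        exact absurd hab.symm (hcon _ (by omega))
      · simp only [ha0, hb0, if_false] at hab
        have := hci (show a - 1 ∈ Set.Iio t by simp only [Set.mem_Iio]; omega)
          (show b - 1 ∈ Set.Iio t by simp only [Set.mem_Iio]; omega) hab
        omega
    · intro i hi
      try dsimp only
      split_ifs with h0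
      · rw [h0]; exact he
      · have := he2 (i - 1) (by omega)
        rwa [show i - 1 + 1 = i by omega] at this
    · intro i hi
      simpa using he1 i hi
  have n1 : ∀ z ∈ X, E z (c (t - 1)) → ∃ i < t, z = p i := by
    intro z hz he
    by_contra hcon
    push Not at hcon
    apply hno2
    refine ⟨c, fun i => if i < t then p i else z, ⟨fun i hi => (hm i hi).2, ?_, hci, ?_, ?_, ?_⟩⟩
    · intro i hi
      try dsimp only
      split_ifs with h1
      · exact (hm _ h1).1
      · exact hz
    · intro a ha b hb hab
      simp only [Set.mem_Iic] at ha hb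
      dsimp only at hab
      split_ifs at hab with a1 a2 a3
      · exact hpi a1 a2 hab
      · exact absurd hab.symm (hcon _ a1)
      · exact absurd hab (hcon _ a3)
      · omega
    · intro i hi
      dsimp only [fl]
      rw [if_pos hi]
      exact he1 i hi
    · intro i hi
      dsimp only [fl]
      split_ifs with h1
      · exact he2 i h1
      · rw [show i = t - 1 by omega]; exact he
  -- the counting
  set A := (Finset.range t).filter (fun i => E (p 0) (c i)) with hA
  set B := (Finset.range t).filter (fun i => E (p i) (c (t - 1))) with hB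
  have cA : δ ≤ A.card := by
    refine (hX _ (hm 0 (by omega)).1).trans ?_
    unfold dR
    have : Y.filter (fun z => E (p 0) z) ⊆ A.image c := by
      intro z hz
      rw [Finset.mem_filter] at hz
      obtain ⟨i, hi, rfl⟩ := n0 z hz.1 hz.2
      exact Finset.mem_image_of_mem c (Finset.mem_filter.2 ⟨Finset.mem_range.2 hi, hz.2⟩)
    exact (Finset.card_le_card this).trans Finset.card_image_le
  have cB : δ ≤ B.card := by
    refine (hY _ (hm (t - 1) (by omega)).2).trans ?_
    unfold dL
    have : X.filter (fun z => E z (c (t - 1))) ⊆ B.image p := by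
      intro z hz
      rw [Finset.mem_filter] at hz
      obtain ⟨i, hi, rfl⟩ := n1 z hz.1 hz.2
      exact Finset.mem_image_of_mem p (Finset.mem_filter.2 ⟨Finset.mem_range.2 hi, hz.2⟩)
    exact (Finset.card_le_card this).trans Finset.card_image_le
  have hint : (A ∩ B).Nonempty := by
    rw [← Finset.card_pos]
    have h1 := Finset.card_union_add_card_inter A B
    have h2 : (A ∪ B).card ≤ t := by
      have := Finset.card_le_card (Finset.union_subset (Finset.filter_subset _ _)
        (Finset.filter_subset _ _) : A ∪ B ⊆ Finset.range t)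
      rwa [Finset.card_range] at this
    omega
  obtain ⟨i, hi⟩ := hint
  rw [Finset.mem_inter, hA, hB, Finset.mem_filter, Finset.mem_filter, Finset.mem_range] at hi
  obtain ⟨⟨hit, hi1⟩, -, hi2⟩ := hi
  -- the cycle
  set σ : ℕ → ℕ := fun j => if j = 0 then 0 else if j + i < t then i + j else t - j with hσ
  set τ : ℕ → ℕ := fun j => if j + i < t then i + j else t - 1 - j with hτ
  have hcyc : IsCyc t E X Y (fun j => p (σ j)) (fun j => c (τ j)) := by
    refine ⟨?_, ?_, ?_, ?_, ?_, ?_⟩
    · intro j hj
      refine (hm _ ?_).1
      simp only [hσ]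
      split_ifs <;> omega
    · intro j hj
      refine (hm _ ?_).2
      simp only [hτ]
      split_ifs <;> omega
    · intro a ha b hb hab
      simp only [Set.mem_Iio] at ha hb
      have h3 : σ a = σ b := by
        apply hpi _ _ hab
        · simp only [Set.mem_Iio, hσ]; split_ifs <;> omega
        · simp only [Set.mem_Iio, hσ]; split_ifs <;> omega
      simp only [hσ] at h3
      split_ifs at h3 <;> omega
    · intro a ha b hb hab
      simp only [Set.mem_Iio] at ha hb
      have h3 : τ a = τ b := by
        apply hci _ _ hab
        · simp only [Set.mem_Iio, hτ]; split_ifs <;> omega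
        · simp only [Set.mem_Iio, hτ]; split_ifs <;> omega
      simp only [hτ] at h3
      split_ifs at h3 <;> omega
    · intro j hj
      by_cases h0 : j = 0
      · subst h0
        have e1 : σ 0 = 0 := by simp [hσ]
        have e2 : τ 0 = i := by simp only [hτ]; rw [if_pos (by omega)]; omega
        simp only [e1, e2]
        exact hi1
      · by_cases h3 : j + i < t
        · have e1 : σ j = i + j := by simp only [hσ]; rw [if_neg h0, if_pos h3]
          have e2 : τ j = i + j := by simp only [hτ]; rw [if_pos h3]
          simp only [e1, e2]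
          exact he1 _ (by omega)
        · have e1 : σ j = t - 1 - j + 1 := by
            simp only [hσ]; rw [if_neg h0, if_neg h3]; omega
          have e2 : τ j = t - 1 - j := by simp only [hτ]; rw [if_neg h3]
          simp only [e1, e2]
          exact he2 _ (by omega)
    · intro j hj
      by_cases h3 : j + 1 = t
      · have e1 : σ (nx t j) = 0 := by simp [hσ, nx, h3]
        simp only [e1]
        by_cases h4 : j + i < t
        · have e2 : τ j = t - 1 := by simp only [hτ]; rw [if_pos h4]; omega
          have hi0 : i = 0 := by omega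
          rw [hi0] at hi2
          simp only [e2]
          exact hi2
        · have e2 : τ j = 0 := by simp only [hτ]; rw [if_neg h4]; omega
          simp only [e2]
          exact he1 0 (by omega)
      · have e0 : nx t j = j + 1 := by simp [nx, h3]
        rw [e0]
        by_cases h4 : j + 1 + i < t
        · have e1 : σ (j + 1) = i + j + 1 := by
            simp only [hσ]; rw [if_neg (by omega), if_pos h4]; ring
          have e2 : τ j = i + j := by simp only [hτ]; rw [if_pos (by omega)]
          simp only [e1, e2]
          exact he2 _ (by omega)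
        · by_cases h5 : j + i < t
          · have e1 : σ (j + 1) = i := by
              simp only [hσ]; rw [if_neg (by omega), if_neg h4]; omega
            have e2 : τ j = t - 1 := by simp only [hτ]; rw [if_pos h5]; omega
            simp only [e1, e2]
            exact hi2
          · have e1 : σ (j + 1) = t - 1 - j := by
              simp only [hσ]; rw [if_neg (by omega), if_neg h4]; omega
            have e2 : τ j = t - 1 - j := by simp only [hτ]; rw [if_neg h5]
            simp only [e1, e2]
            exact he1 _ (by omega)
  refine ⟨_, _, cyc_is_closed ht1 hcyc hno1 hno2, ?_⟩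
  exact Finset.card_image_le.trans (by simp)

end H22CK
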