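import Pool.Agent.H22.CK.PCyc

/-! L2 (a `2t`-cycle while the longest path has at most `2t+1` vertices). -/

set_option autoImplicit false

namespace H22CK

variable {V W : Type*}

open Finset

namespace L2aux

theorem hasPath_fl_of {k : ℕ} {E : V → W → Prop} {X : Finset V} {Y : Finset W}
    (h : HasPath k (fl E) Y X) : HasPath k E X Y := by
  obtain ⟨p, c, hp, hc, h1, h2, h3⟩ := h
  refine ⟨fun i => c (k - 1 - i), fun i => p (k - 1 - i), ?_, ?_, ?_, ?_, ?_⟩
  · intro i hi j hj hij
    simp only [Set.mem_Iio] at hi hj
    have := hc (show k - 1 - i ∈ Set.Iio k by simp only [Set.mem_Iio]; omega)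
      (show k - 1 - j ∈ Set.Iio k by simp only [Set.mem_Iio]; omega) hij
    omega
  · intro i hi j hj hij
    simp only [Set.mem_Iio] at hi hj
    have := hp (show k - 1 - i ∈ Set.Iio k by simp only [Set.mem_Iio]; omega)
      (show k - 1 - j ∈ Set.Iio k by simp only [Set.mem_Iio]; omega) hij
    omega
  · intro i hi
    have := h1 (k - 1 - i) (by omega)
    exact ⟨this.2, this.1⟩
  · intro i hi
    exact h2 (k - 1 - i) (by omega)
  · intro i hi
    have := h3 (k - 1 - (i + 1)) (by omega)
    have e : k - 1 - (i + 1) + 1 = k - 1 - i := by omega
    rw [e] at this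
    exact this

/-- the residue -/
theorem repr_lt {m : ℕ} (hm : 0 < m) {α : Type*} {P : ℤ → α}
    (hP : ∀ i j, P i = P j ↔ (m : ℤ) ∣ i - j) (p : ℤ) : P ((p % (m : ℤ)).toNat : ℤ) = P p := by
  rw [hP, Int.toNat_of_nonneg (Int.emod_nonneg _ (by omega))]
  have := Int.emod_add_mul_ediv p (m : ℤ)
  exact ⟨-(p / (m : ℤ)), by linarith⟩

/-- counting neighbours on a cycle -/
theorem cnt_le {m δ : ℕ} (hm : 0 < m) {α : Type*} [DecidableEq α] {P : ℤ → α}
    (hP : ∀ i j, P i = P j ↔ (m : ℤ) ∣ i - j) (S : Finset α) (hS : ∀ s ∈ S, ∃ p : ℤ, s = P p)
    (hc : δ ≤ S.card) : δ ≤ ((Finset.range m).filter (fun p : ℕ => P (p : ℤ) ∈ S)).card := by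
  refine hc.trans ?_
  have h1 : S ⊆ ((Finset.range m).filter (fun p : ℕ => P (p : ℤ) ∈ S)).image (fun p : ℕ => P p) := by
    intro s hs
    obtain ⟨p, hp⟩ := hS s hs
    rw [Finset.mem_image]
    refine ⟨(p % (m : ℤ)).toNat, ?_, ?_⟩
    · rw [Finset.mem_filter, Finset.mem_range]
      refine ⟨toNat_emod_lt hm p, ?_⟩
      rw [repr_lt hm hP, ← hp]
      exact hs
    · rw [repr_lt hm hP, ← hp]
  exact (Finset.card_le_card h1).trans Finset.card_image_le

theorem case_two [DecidableEq V] [DecidableEq W] {t δ : ℕ} (ht1 : 2 ≤ t)
    (ht : t + 1 ≤ 2 * δ) (E : V → W → Prop)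
    (X : Finset V) (Y : Finset W) (hX : ∀ x ∈ X, δ ≤ dR E Y x) (hY : ∀ y ∈ Y, δ ≤ dL E X y)
    {P : ℤ → V} {Q : ℤ → W} (h : PCyc t E X Y P Q) (hno : ¬ HasPath (t + 1) E X Y)
    (z : W) (hz : z ∈ Y) (hzQ : ∀ i, z ≠ Q i) (k : ℤ) (hk : E (P k) z) :
    ∃ X0 Y0, Closed E X Y X0 Y0 ∧ X0.card ≤ t := by
  classical
  have ht0 : 0 < t := by omega
  -- (A) a vertex outside of the cycle adjacent to `P i` has no neighbour outside
  have hA : ∀ y ∈ Y, (∀ i, y ≠ Q i) → (∃ i, E (P i) y) → ∀ x ∈ X, E x y → ∃ i, x = P i := by
    intro y hy hyQ ⟨i, hi⟩ x hx hxy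
    by_contra hcon
    push Not at hcon
    apply hno
    refine ⟨fun j => if j = 0 then x else P (i + j - 1), fun j => if j = 0 then y else Q (i + j - 1),
      ?_, ?_, ?_, ?_, ?_⟩
    · intro a ha b hb hab
      simp only [Set.mem_Iio] at ha hb
      dsimp only at hab
      split_ifs at hab with h1 h2 h2
      · omega
      · exact absurd hab (hcon _)
      · exact absurd hab.symm (hcon _)
      · rw [h.pinj] at hab
        have := eq_of_dvd_lt hab (by omega) (by omega)
        omega
    · intro a ha b hb hab
      simp only [Set.mem_Iio] at ha hb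
      dsimp only at hab
      split_ifs at hab with h1 h2 h2
      · omega
      · exact absurd hab (hyQ _)
      · exact absurd hab.symm (hyQ _)
      · rw [h.qinj] at hab
        have := eq_of_dvd_lt hab (by omega) (by omega)
        omega
    · intro j _
      constructor
      · dsimp only
        split_ifs
        · exact hx
        · exact h.pX _
      · dsimp only
        split_ifs
        · exact hy
        · exact h.qY _
    · intro j _
      dsimp only
      split_ifs
      · exact hxy
      · exact h.e1 _
    · intro j _
      dsimp only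
      rw [if_neg (by omega)]
      by_cases h1 : j = 0
      · subst h1
        rw [if_pos rfl]
        have : i + ((0 + 1 : ℕ) : ℤ) - 1 = i := by push_cast; ring
        rw [this]
        exact hi
      · rw [if_neg h1]
        have h2 := h.e2 (i + j - 1)
        have : i + (j : ℤ) - 1 + 1 = i + ((j + 1 : ℕ) : ℤ) - 1 := by push_cast; ring
        rw [this] at h2
        exact h2
  refine ⟨(Finset.range t).image (fun i : ℕ => P i),
    Y.filter (fun y => ∃ i, E (P i) y), ⟨?_, Finset.filter_subset _ _, ?_, ?_, ?_, ?_⟩, ?_⟩
  · intro x hx
    obtain ⟨i, _, rfl⟩ := Finset.mem_image.1 hx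
    exact h.pX _
  · exact ⟨P 0, Finset.mem_image.2 ⟨0, Finset.mem_range.2 ht0, rfl⟩⟩
  · exact ⟨Q 0, Finset.mem_filter.2 ⟨h.qY _, 0, h.e1 0⟩⟩
  · intro x hx y hy hxy
    obtain ⟨i, _, rfl⟩ := Finset.mem_image.1 hx
    exact Finset.mem_filter.2 ⟨hy, i, hxy⟩
  · intro y hy x hx hxy
    obtain ⟨hyY, hyP⟩ := Finset.mem_filter.1 hy
    have goal : ∃ i, x = P i := by
      by_cases hyQ : ∀ i, y ≠ Q i
      · exact hA y hyY hyQ hyP x hx hxy
      · push Not at hyQ
        obtain ⟨j, rfl⟩ := hyQ
        by_contra hcon
        push Not at hcon
        -- neighbours of `x` lie on the cycle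
        have hB : ∀ y' ∈ Y, E x y' → ∃ i, y' = Q i := by
          intro y' hy' hxy'
          by_contra hcon'
          push Not at hcon'
          apply hno
          refine ⟨fun i => if i = t then x else P (j - i), fun i => if i = t then y' else Q (j - i - 1),
            ?_, ?_, ?_, ?_, ?_⟩
          · intro a ha b hb hab
            simp only [Set.mem_Iio] at ha hb
            dsimp only at hab
            split_ifs at hab with h1 h2 h2
            · omega
            · exact absurd hab (hcon _)
            · exact absurd hab.symm (hcon _)
            · rw [h.pinj] at hab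
              have := eq_of_dvd_lt hab (by omega) (by omega)
              omega
          · intro a ha b hb hab
            simp only [Set.mem_Iio] at ha hb
            dsimp only at hab
            split_ifs at hab with h1 h2 h2
            · omega
            · exact absurd hab (hcon' _)
            · exact absurd hab.symm (hcon' _)
            · rw [h.qinj] at hab
              have := eq_of_dvd_lt hab (by omega) (by omega)
              omega
          · intro i _
            constructor
            · dsimp only
              split_ifs
              · exact hx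
              · exact h.pX _
            · dsimp only
              split_ifs
              · exact hy'
              · exact h.qY _
          · intro i _
            dsimp only
            split_ifs
            · exact hxy'
            · have h2 := h.e2 (j - i - 1)
              rw [sub_add_cancel] at h2
              exact h2
          · intro i hi
            dsimp only
            by_cases h1 : i + 1 = t
            · rw [if_pos h1, if_neg (by omega)]
              have e : j - (i : ℤ) - 1 = j - t := by
                have : (t : ℤ) = i + 1 := by exact_mod_cast h1.symm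
                rw [this]; ring
              rw [e, ← h.shiftQ, sub_add_cancel]
              exact hxy
            · rw [if_neg h1, if_neg (by omega)]
              have e : j - ((i + 1 : ℕ) : ℤ) = j - i - 1 := by push_cast; ring
              rw [e]
              exact h.e1 _
        -- no consecutive neighbours
        have hC : ∀ b : ℤ, E x (Q b) → ¬ E (P (b + 1)) z := by
          intro b hb hbz
          apply hno
          refine ⟨fun i => if i = 0 then x else P (b - i + 1), fun i => if i = t then z else Q (b - i),
            ?_, ?_, ?_, ?_, ?_⟩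
          · intro a ha b' hb' hab
            simp only [Set.mem_Iio] at ha hb'
            dsimp only at hab
            split_ifs at hab with h1 h2 h2
            · omega
            · exact absurd hab (hcon _)
            · exact absurd hab.symm (hcon _)
            · rw [h.pinj] at hab
              have := eq_of_dvd_lt hab (by omega) (by omega)
              omega
          · intro a ha b' hb' hab
            simp only [Set.mem_Iio] at ha hb'
            dsimp only at hab
            split_ifs at hab with h1 h2 h2
            · omega
            · exact absurd hab (hzQ _)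
            · exact absurd hab.symm (hzQ _)
            · rw [h.qinj] at hab
              have := eq_of_dvd_lt hab (by omega) (by omega)
              omega
          · intro i _
            constructor
            · dsimp only
              split_ifs
              · exact hx
              · exact h.pX _
            · dsimp only
              split_ifs
              · exact hz
              · exact h.qY _
          · intro i _
            dsimp only
            by_cases h1 : i = 0
            · subst h1
              rw [if_pos rfl, if_neg (by omega)]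
              simpa using hb
            · rw [if_neg h1]
              by_cases h2 : i = t
              · rw [if_pos h2, h2]
                have e : b - (t : ℤ) + 1 = b + 1 - t := by ring
                rw [e, ← h.shift, sub_add_cancel]
                exact hbz
              · rw [if_neg h2]
                exact h.e2 _
          · intro i hi
            dsimp only
            rw [if_neg (by omega), if_neg (by omega)]
            have e : b - ((i + 1 : ℕ) : ℤ) + 1 = b - i := by push_cast; ring
            rw [e]
            exact h.e1 _
        -- counting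
        have cx : δ ≤ (Y.filter (fun y' => E x y')).card := by
          have := hX x hx
          unfold dR at this
          convert this
        have cz : δ ≤ (X.filter (fun x' => E x' z)).card := by
          have := hY z hz
          unfold dL at this
          convert this
        have n1 := cnt_le ht0 h.qinj (Y.filter (fun y' => E x y')) (fun s hs => by
          obtain ⟨h1, h2⟩ := Finset.mem_filter.1 hs
          exact hB s h1 h2) cx
        have hpinj' : ∀ i j, P (i + 1) = P (j + 1) ↔ (t : ℤ) ∣ i - j := by
          intro i j
          rw [h.pinj]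
          have : i + 1 - (j + 1) = i - j := by ring
          rw [this]
        have n2 := cnt_le (P := fun i => P (i + 1)) ht0 hpinj' (X.filter (fun x' => E x' z))
          (fun s hs => by
            obtain ⟨h1, h2⟩ := Finset.mem_filter.1 hs
            obtain ⟨i, hi⟩ := hA z hz hzQ ⟨k, hk⟩ s h1 h2
            refine ⟨i - 1, ?_⟩
            show s = P (i - 1 + 1)
            rw [sub_add_cancel]
            exact hi) cz
        have hd : Disjoint ((Finset.range t).filter (fun p : ℕ => Q (p : ℤ) ∈ Y.filter (fun y' => E x y')))
            ((Finset.range t).filter (fun p : ℕ => P ((p : ℤ) + 1) ∈ X.filter (fun x' => E x' z))) := by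
          rw [Finset.disjoint_left]
          intro p hp hp'
          have h1 := (Finset.mem_filter.1 (Finset.mem_filter.1 hp).2).2
          have h2 := (Finset.mem_filter.1 (Finset.mem_filter.1 hp').2).2
          exact hC _ h1 h2
        have h3 := Finset.card_union_of_disjoint hd
        have h4 := Finset.card_le_card (Finset.union_subset (Finset.filter_subset _ _)
          (Finset.filter_subset _ _) : ((Finset.range t).filter (fun p : ℕ => Q (p : ℤ) ∈
            Y.filter (fun y' => E x y'))) ∪ ((Finset.range t).filter (fun p : ℕ => P ((p : ℤ) + 1) ∈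
              X.filter (fun x' => E x' z))) ⊆ Finset.range t)
        rw [h3, Finset.card_range] at h4
        have n2' : δ ≤ ((Finset.range t).filter (fun p : ℕ => P ((p : ℤ) + 1) ∈
            X.filter (fun x' => E x' z))).card := n2
        omega
    obtain ⟨i, hi⟩ := goal
    rw [Finset.mem_image]
    refine ⟨(i % (t : ℤ)).toNat, Finset.mem_range.2 (toNat_emod_lt ht0 i), ?_⟩
    rw [hi]
    exact repr_lt ht0 h.pinj i
  · exact Finset.card_image_le.trans (by rw [Finset.card_range])

end L2aux

/-- L2 (a `2t`-cycle while the longest path has at most `2t+1` vertices) -/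
theorem cyc_closed [DecidableEq V] [DecidableEq W] {t δ : ℕ} (hδ : 2 ≤ δ) (ht1 : 2 ≤ t)
    (ht : t + 1 ≤ 2 * δ) (E : V → W → Prop)
    (X : Finset V) (Y : Finset W) (hX : ∀ x ∈ X, δ ≤ dR E Y x) (hY : ∀ y ∈ Y, δ ≤ dL E X y)
    (x : ℕ → V) (y : ℕ → W) (hc : IsCyc t E X Y x y) (hno : ¬ HasPath (t + 1) E X Y) :
    ∃ X0 Y0, Closed E X Y X0 Y0 ∧ (X0.card ≤ t ∨ Y0.card ≤ t) := by
  classical
  have ht0 : 0 < t := by omega
  have h := hc.pcyc ht0
  set P : ℤ → V := fun i => x (i % (t : ℤ)).toNat with hP
  set Q : ℤ → W := fun i => y (i % (t : ℤ)).toNat with hQ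
  clear_value P Q
  by_cases h1 : ∃ z ∈ Y, (∀ i, z ≠ Q i) ∧ ∃ k, E (P k) z
  · obtain ⟨z, hz, hzQ, k, hk⟩ := h1
    obtain ⟨X0, Y0, h2, h3⟩ := L2aux.case_two ht1 ht E X Y hX hY h hno z hz hzQ k hk
    exact ⟨X0, Y0, h2, Or.inl h3⟩
  · by_cases h2 : ∃ z ∈ X, (∀ i, z ≠ P i) ∧ ∃ k, E z (Q k)
    · obtain ⟨z, hz, hzP, k, hk⟩ := h2
      obtain ⟨Y0, X0, h3, h4⟩ := L2aux.case_two (E := fl E) ht1 ht Y X
        (fun y hy => by
          have := hY y hy
          unfold dL at this
          unfold dR fl
          exact this)
        (fun x hx => by
          have := hX x hx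
          unfold dR at this
          unfold dL fl
          exact this) h.fl (fun h5 => hno (L2aux.hasPath_fl_of h5)) z hz (fun i => hzP _) k hk
      exact ⟨X0, Y0, ⟨h3.hY, h3.hX, h3.nY, h3.nX, fun a ha b hb hab => h3.c2 a ha b hb hab,
        fun a ha b hb hab => h3.c1 a ha b hb hab⟩, Or.inr h4⟩
    · push Not at h1 h2
      refine ⟨(Finset.range t).image (fun i : ℕ => P i), (Finset.range t).image (fun i : ℕ => Q i),
        ⟨?_, ?_, ?_, ?_, ?_, ?_⟩, Or.inl ?_⟩
      · intro a ha
        obtain ⟨i, _, rfl⟩ := Finset.mem_image.1 ha
        exact h.pX _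
      · intro a ha
        obtain ⟨i, _, rfl⟩ := Finset.mem_image.1 ha
        exact h.qY _
      · exact ⟨P 0, Finset.mem_image.2 ⟨0, Finset.mem_range.2 ht0, rfl⟩⟩
      · exact ⟨Q 0, Finset.mem_image.2 ⟨0, Finset.mem_range.2 ht0, rfl⟩⟩
      · intro a ha b hb hab
        obtain ⟨i, _, rfl⟩ := Finset.mem_image.1 ha
        have h3 : ∃ j, b = Q j := by
          by_contra hcon
          push Not at hcon
          exact h1 b hb hcon i hab
        obtain ⟨j, rfl⟩ := h3
        exact Finset.mem_image.2 ⟨(j % (t : ℤ)).toNat, Finset.mem_range.2 (toNat_emod_lt ht0 j),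
          L2aux.repr_lt ht0 h.qinj j⟩
      · intro a ha b hb hab
        obtain ⟨i, _, rfl⟩ := Finset.mem_image.1 ha
        have h3 : ∃ j, b = P j := by
          by_contra hcon
          push Not at hcon
          exact h2 b hb hcon i hab
        obtain ⟨j, rfl⟩ := h3
        exact Finset.mem_image.2 ⟨(j % (t : ℤ)).toNat, Finset.mem_range.2 (toNat_emod_lt ht0 j),
          L2aux.repr_lt ht0 h.pinj j⟩
      · exact Finset.card_image_le.trans (by rw [Finset.card_range])

end H22CK
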