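import Pool.Agent.H22.CK.Defs

/-! L3, L4 of PROJECT CK. -/

set_option autoImplicit false

namespace H22CK

variable {V W : Type*}

/-- L3 (crossing gives a cycle on `2t` vertices) -/
theorem odd_cross {t : ℕ} {E : V → W → Prop}
    {X : Finset V} {Y : Finset W} {x : ℕ → V} {y : ℕ → W} (h : IsOdd t E X Y x y) {i : ℕ}
    (hi : i + 1 < t) (h1 : E (x (i + 1)) (y 0)) (h2 : E (x i) (y t)) :
    ∃ x' y', IsCyc t E X Y x' y' := by
  set σ : ℕ → ℕ := fun j => if j < t - 1 - i then i + 1 + j else t - 1 - j with hσ
  set τ : ℕ → ℕ := fun j => if j < t - 1 - i then i + 2 + j else t - 1 - j with hτ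
  refine ⟨fun j => x (σ j), fun j => y (τ j), ⟨?_, ?_, ?_, ?_, ?_, ?_⟩⟩
  · intro j hj
    apply h.xX
    simp only [hσ]
    split_ifs <;> omega
  · intro j hj
    apply h.yY
    simp only [hτ]
    split_ifs <;> omega
  · intro a ha b hb hab
    simp only [Set.mem_Iio] at ha hb
    have h3 : σ a = σ b := by
      apply h.xinj _ _ hab
      · simp only [Set.mem_Iio, hσ]; split_ifs <;> omega
      · simp only [Set.mem_Iio, hσ]; split_ifs <;> omega
    simp only [hσ] at h3
    split_ifs at h3 <;> omega
  · intro a ha b hb hab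
    simp only [Set.mem_Iio] at ha hb
    have h3 : τ a = τ b := by
      apply h.yinj _ _ hab
      · simp only [Set.mem_Iic, hτ]; split_ifs <;> omega
      · simp only [Set.mem_Iic, hτ]; split_ifs <;> omega
    simp only [hτ] at h3
    split_ifs at h3 <;> omega
  · intro j hj
    simp only [hσ, hτ]
    split_ifs with h3
    · have := h.e2 (i + 1 + j) (by omega)
      rwa [show i + 1 + j + 1 = i + 2 + j by ring] at this
    · exact h.e1 _ (by omega)
  · intro j hj
    by_cases h3 : j + 1 = t
    · have e1 : σ (nx t j) = i + 1 := by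
        simp only [hσ, nx, h3, if_true]
        rw [if_pos (by omega)]
      have e2 : τ j = 0 := by
        simp only [hτ]
        rw [if_neg (by omega)]
        omega
      simp only [e1, e2]
      exact h1
    · have e0 : nx t j = j + 1 := by simp [nx, h3]
      rw [e0]
      by_cases h4 : j < t - 1 - i
      · by_cases h5 : j + 1 < t - 1 - i
        · have e1 : σ (j + 1) = i + 2 + j := by
            simp only [hσ]; rw [if_pos h5]; ring
          have e2 : τ j = i + 2 + j := by simp only [hτ]; rw [if_pos h4]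
          simp only [e1, e2]
          exact h.e1 _ (by omega)
        · have e1 : σ (j + 1) = i := by
            simp only [hσ]; rw [if_neg h5]; omega
          have e2 : τ j = t := by simp only [hτ]; rw [if_pos h4]; omega
          simp only [e1, e2]
          exact h2
      · have e1 : σ (j + 1) = t - 2 - j := by
          simp only [hσ]; rw [if_neg (by omega)]; omega
        have e2 : τ j = t - 2 - j + 1 := by
          simp only [hτ]; rw [if_neg h4]; omega
        simp only [e1, e2]
        exact h.e2 _ (by omega)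

/-- the reversed odd path -/
theorem odd_rev {t : ℕ} {E : V → W → Prop} {X : Finset V} {Y : Finset W} {x : ℕ → V} {y : ℕ → W}
    (h : IsOdd t E X Y x y) : IsOdd t E X Y (fun i => x (t - 1 - i)) (fun i => y (t - i)) := by
  refine ⟨fun i hi => h.xX _ (by omega), fun i hi => h.yY _ (by omega), ?_, ?_, ?_, ?_⟩
  · intro a ha b hb hab
    simp only [Set.mem_Iio] at ha hb
    have := h.xinj (show t - 1 - a ∈ Set.Iio t by simp only [Set.mem_Iio]; omega)
      (show t - 1 - b ∈ Set.Iio t by simp only [Set.mem_Iio]; omega) hab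
    omega
  · intro a ha b hb hab
    simp only [Set.mem_Iic] at ha hb
    have := h.yinj (show t - a ∈ Set.Iic t by simp only [Set.mem_Iic]; omega)
      (show t - b ∈ Set.Iic t by simp only [Set.mem_Iic]; omega) hab
    omega
  · intro i hi
    have := h.e2 (t - 1 - i) (by omega)
    rwa [show t - 1 - i + 1 = t - i by omega] at this
  · intro i hi
    have := h.e1 (t - 1 - i) (by omega)
    simpa [show t - (i + 1) = t - 1 - i by omega] using this

/-- the neighbours of the first vertex of a longest odd path are on the path -/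
theorem odd_nbr {t : ℕ} {E : V → W → Prop} {X : Finset V} {Y : Finset W} {x : ℕ → V} {y : ℕ → W}
    (h : IsOdd t E X Y x y) (hno : ¬ HasPath (t + 1) E X Y) (z : V) (hz : z ∈ X)
    (he : E z (y 0)) : ∃ i < t, z = x i := by
  by_contra hcon
  push Not at hcon
  apply hno
  refine ⟨fun i => if i = 0 then z else x (i - 1), y, ?_, ?_, ?_, ?_, ?_⟩
  · intro a ha b hb hab
    simp only [Set.mem_Iio] at ha hb
    by_cases ha0 : a = 0 <;> by_cases hb0 : b = 0
    · omega
    · simp only [ha0, hb0, if_true, if_false] at hab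
      exact absurd hab (hcon _ (by omega))
    · simp only [ha0, hb0, if_true, if_false] at hab
      exact absurd hab.symm (hcon _ (by omega))
    · simp only [ha0, hb0, if_false] at hab
      have := h.xinj (show a - 1 ∈ Set.Iio t by simp only [Set.mem_Iio]; omega)
        (show b - 1 ∈ Set.Iio t by simp only [Set.mem_Iio]; omega) hab
      omega
  · intro a ha b hb hab
    simp only [Set.mem_Iio] at ha hb
    exact h.yinj (show a ∈ Set.Iic t by simp only [Set.mem_Iic]; omega)
      (show b ∈ Set.Iic t by simp only [Set.mem_Iic]; omega) hab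
  · intro i hi
    refine ⟨?_, h.yY _ (by omega)⟩
    dsimp only
    split_ifs
    · exact hz
    · exact h.xX _ (by omega)
  · intro i hi
    dsimp only
    split_ifs with h0
    · rw [h0]; exact he
    · have := h.e2 (i - 1) (by omega)
      rwa [show i - 1 + 1 = i by omega] at this
  · intro i hi
    dsimp only
    rw [if_neg (by omega)]
    simpa using h.e1 i (by omega)

/-- the neighbours of the last vertex -/
theorem odd_nbr' {t : ℕ} {E : V → W → Prop} {X : Finset V} {Y : Finset W} {x : ℕ → V} {y : ℕ → W}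
    (h : IsOdd t E X Y x y) (hno : ¬ HasPath (t + 1) E X Y) (z : V) (hz : z ∈ X)
    (he : E z (y t)) : ∃ i < t, z = x i := by
  obtain ⟨i, hi, h1⟩ := odd_nbr (odd_rev h) hno z hz (by simpa using he)
  exact ⟨t - 1 - i, by omega, h1⟩

/-- the counting -/
theorem odd_count [DecidableEq V] {t : ℕ} {E : V → W → Prop} {X : Finset V} {Y : Finset W}
    {x : ℕ → V} {y : ℕ → W} (h : IsOdd t E X Y x y) (v : W)
    (hv : ∀ z ∈ X, E z v → ∃ i < t, z = x i) (S : Finset ℕ)
    (hS : ∀ i, i ∈ S ↔ i < t ∧ E (x i) v) : dL E X v = S.card := by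
  classical
  unfold dL
  have h1 : X.filter (fun z => E z v) = S.image x := by
    ext z
    simp only [Finset.mem_filter, Finset.mem_image]
    constructor
    · rintro ⟨h2, h3⟩
      obtain ⟨i, hi, rfl⟩ := hv z h2 h3
      exact ⟨i, (hS i).2 ⟨hi, h3⟩, rfl⟩
    · rintro ⟨i, hi, rfl⟩
      obtain ⟨h2, h3⟩ := (hS i).1 hi
      exact ⟨h.xX i h2, h3⟩
  rw [h1]
  apply Finset.card_image_of_injOn
  intro a ha b hb hab
  exact h.xinj ((hS a).1 ha).1 ((hS b).1 hb).1 hab

/-- the two families of indices of L4, L5 -/
theorem odd_families [DecidableEq V] {t : ℕ} (E : V → W → Prop)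
    (X : Finset V) (Y : Finset W)
    (x : ℕ → V) (y : ℕ → W) (ho : IsOdd t E X Y x y) (hno : ¬ HasPath (t + 1) E X Y)
    (ht : 1 ≤ t) :
    ∃ A0 A1 : Finset ℕ, (∀ i, i ∈ A0 ↔ i + 1 < t ∧ E (x (i + 1)) (y 0)) ∧
      (∀ i, i ∈ A1 ↔ i + 1 < t ∧ E (x i) (y t)) ∧ dL E X (y 0) = A0.card + 1 ∧
      dL E X (y t) = A1.card + 1 := by
  classical
  refine ⟨(Finset.range (t - 1)).filter (fun i => E (x (i + 1)) (y 0)),
    (Finset.range (t - 1)).filter (fun i => E (x i) (y t)), ?_, ?_, ?_, ?_⟩
  · intro i
    simp only [Finset.mem_filter, Finset.mem_range]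
    constructor
    · rintro ⟨a, b⟩; exact ⟨by omega, b⟩
    · rintro ⟨a, b⟩; exact ⟨by omega, b⟩
  · intro i
    simp only [Finset.mem_filter, Finset.mem_range]
    constructor
    · rintro ⟨a, b⟩; exact ⟨by omega, b⟩
    · rintro ⟨a, b⟩; exact ⟨by omega, b⟩
  · rw [odd_count ho (y 0) (odd_nbr ho hno)
      (insert 0 (((Finset.range (t - 1)).filter (fun i => E (x (i + 1)) (y 0))).map
        ⟨fun i => i + 1, fun a b hab => by simpa using hab⟩))]
    · rw [Finset.card_insert_of_notMem, Finset.card_map]
      simp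
    · intro i
      simp only [Finset.mem_insert, Finset.mem_map, Finset.mem_filter, Finset.mem_range,
        Function.Embedding.coeFn_mk]
      constructor
      · rintro (h | ⟨a, ⟨h1, h2⟩, rfl⟩)
        · subst h; exact ⟨by omega, ho.e1 0 (by omega)⟩
        · exact ⟨by omega, h2⟩
      · rintro ⟨h1, h2⟩
        by_cases h0 : i = 0
        · exact Or.inl h0
        · refine Or.inr ⟨i - 1, ⟨by omega, ?_⟩, by omega⟩
          rwa [show i - 1 + 1 = i by omega]
  · rw [odd_count ho (y t) (odd_nbr' ho hno)
      (insert (t - 1) ((Finset.range (t - 1)).filter (fun i => E (x i) (y t))))]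
    · rw [Finset.card_insert_of_notMem]
      simp
    · intro i
      simp only [Finset.mem_insert, Finset.mem_filter, Finset.mem_range]
      constructor
      · rintro (h | ⟨h1, h2⟩)
        · subst h
          refine ⟨by omega, ?_⟩
          have := ho.e2 (t - 1) (by omega)
          rwa [show t - 1 + 1 = t by omega] at this
        · exact ⟨by omega, h2⟩
      · rintro ⟨h1, h2⟩
        by_cases h0 : i = t - 1
        · exact Or.inl h0
        · exact Or.inr ⟨by omega, h2⟩

/-- L4 (`2t`-cycle by counting) -/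
theorem odd_cyc [DecidableEq V] [DecidableEq W] {t δ : ℕ} (hδ : 2 ≤ δ)
    (ht : t + 2 ≤ 2 * δ) (E : V → W → Prop)
    (X : Finset V) (Y : Finset W) (hY : ∀ y ∈ Y, δ ≤ dL E X y)
    (x : ℕ → V) (y : ℕ → W) (ho : IsOdd t E X Y x y) (hno : ¬ HasPath (t + 1) E X Y) :
    ∃ x' y', IsCyc t E X Y x' y' := by
  classical
  by_cases ht1 : 1 ≤ t
  · obtain ⟨A0, A1, hA0, hA1, c0, c1⟩ := odd_families E X Y x y ho hno ht1
    have d0 := hY _ (ho.yY 0 (by omega))
    have d1 := hY _ (ho.yY t le_rfl)
    have hsub : A0 ∪ A1 ⊆ Finset.range (t - 1) := by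
      intro i hi
      rw [Finset.mem_union, hA0, hA1] at hi
      rw [Finset.mem_range]
      omega
    have hcard := Finset.card_le_card hsub
    rw [Finset.card_range] at hcard
    have hint : (A0 ∩ A1).Nonempty := by
      rw [← Finset.card_pos]
      have := Finset.card_union_add_card_inter A0 A1
      omega
    obtain ⟨i, hi⟩ := hint
    rw [Finset.mem_inter, hA0, hA1] at hi
    exact odd_cross ho hi.1.1 hi.1.2 hi.2.2
  · exfalso
    have ht0 : t = 0 := by omega
    subst ht0
    have d0 := hY _ (ho.yY 0 (by omega))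
    have hc := odd_count ho (y 0) (odd_nbr ho hno) ∅ (by simp)
    simp at hc
    omega

end H22CK
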