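import Pool.Agent.H22.CK.L5

/-! L6 of PROJECT CK. -/

set_option autoImplicit false

namespace H22CK

variable {V W : Type*}

/-- L6 (type I) -/
theorem odd_typeI [DecidableEq V] [DecidableEq W] {t δ : ℕ} (hδ : 2 ≤ δ)
    (ht : t + 1 = 2 * δ) (E : V → W → Prop)
    (X : Finset V) (Y : Finset W) (hY : ∀ y ∈ Y, δ ≤ dL E X y)
    (hno : ¬ HasPath (t + 1) E X Y) (hnc : ¬ ∃ x' y', IsCyc t E X Y x' y')
    (x : ℕ → V) (y : ℕ → W) (ho : IsOdd t E X Y x y)
    (h0 : ∀ i < t, (E (x i) (y 0) ↔ i < δ)) (h1 : ∀ i < t, (E (x i) (y t) ↔ δ ≤ i + 1)) :
    ∃ x0 ∈ X, ∃ N, N ⊆ X ∧ N.card = δ ∧ ∀ z ∈ Y, E x0 z → ∀ w ∈ X, (E w z ↔ w ∈ N) := by
  classical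
  refine ⟨x 0, ho.xX 0 (by omega), (Finset.range δ).image x, ?_, ?_, ?_⟩
  · intro v hv
    rw [Finset.mem_image] at hv
    obtain ⟨i, hi, rfl⟩ := hv
    rw [Finset.mem_range] at hi
    exact ho.xX i (by omega)
  · rw [Finset.card_image_of_injOn, Finset.card_range]
    intro a ha b hb hab
    simp only [Finset.coe_range, Set.mem_Iio] at ha hb
    exact ho.xinj (show a ∈ Set.Iio t by simp only [Set.mem_Iio]; omega)
      (show b ∈ Set.Iio t by simp only [Set.mem_Iio]; omega) hab
  · intro z hz hxz
    -- it suffices to know the neighbours on the path
    have key : (∀ w ∈ X, E w z → ∃ i < t, w = x i) → (∀ i < t, (E (x i) z ↔ i < δ)) →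
        ∀ w ∈ X, (E w z ↔ w ∈ (Finset.range δ).image x) := by
      intro k1 k2 w hw
      rw [Finset.mem_image]
      constructor
      · intro h
        obtain ⟨i, hi, rfl⟩ := k1 w hw h
        exact ⟨i, Finset.mem_range.2 ((k2 i hi).1 h), rfl⟩
      · rintro ⟨i, hi, rfl⟩
        rw [Finset.mem_range] at hi
        exact (k2 i (by omega)).2 hi
    by_cases hP : ∃ i ≤ t, z = y i
    · obtain ⟨i, hi, rfl⟩ := hP
      by_cases hi0 : i = 0
      · subst hi0
        exact key (odd_nbr ho hno) h0
      · by_cases hit : i = t
        · exfalso
          rw [hit] at hxz
          have := (h1 0 (by omega)).1 hxz
          omega
        · by_cases hid : i < δ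
          · -- rotated path
            set σ : ℕ → ℕ := fun j => if j < i then i - 1 - j else j with hσ
            set τ : ℕ → ℕ := fun j => if j ≤ i then i - j else j with hτ
            have ho' : IsOdd t E X Y (fun j => x (σ j)) (fun j => y (τ j)) := by
              refine ⟨?_, ?_, ?_, ?_, ?_, ?_⟩
              · intro j hj
                apply ho.xX
                simp only [hσ]
                split_ifs <;> omega
              · intro j hj
                apply ho.yY
                simp only [hτ]
                split_ifs <;> omega
              · intro a ha b hb hab
                simp only [Set.mem_Iio] at ha hb
                have h3 : σ a = σ b := by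
                  apply ho.xinj _ _ hab
                  · simp only [Set.mem_Iio, hσ]; split_ifs <;> omega
                  · simp only [Set.mem_Iio, hσ]; split_ifs <;> omega
                simp only [hσ] at h3
                split_ifs at h3 <;> omega
              · intro a ha b hb hab
                simp only [Set.mem_Iic] at ha hb
                have h3 : τ a = τ b := by
                  apply ho.yinj _ _ hab
                  · simp only [Set.mem_Iic, hτ]; split_ifs <;> omega
                  · simp only [Set.mem_Iic, hτ]; split_ifs <;> omega
                simp only [hτ] at h3
                split_ifs at h3 <;> omega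
              · intro j hj
                rcases lt_trichotomy j i with h3 | h3 | h3
                · have e1 : σ j = i - 1 - j := by simp only [hσ]; rw [if_pos h3]
                  have e2 : τ j = i - 1 - j + 1 := by
                    simp only [hτ]; rw [if_pos h3.le]; omega
                  simp only [e1, e2]
                  exact ho.e2 _ (by omega)
                · have e1 : σ j = i := by simp only [hσ]; rw [if_neg (by omega)]; exact h3
                  have e2 : τ j = 0 := by
                    simp only [hτ]; rw [if_pos h3.le]; omega
                  simp only [e1, e2]
                  exact (h0 i (by omega)).2 hid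
                · have e1 : σ j = j := by simp only [hσ]; rw [if_neg (by omega)]
                  have e2 : τ j = j := by simp only [hτ]; rw [if_neg (by omega)]
                  simp only [e1, e2]
                  exact ho.e1 _ hj
              · intro j hj
                by_cases h3 : j < i
                · have e1 : σ j = i - 1 - j := by simp only [hσ]; rw [if_pos h3]
                  have e2 : τ (j + 1) = i - 1 - j := by
                    simp only [hτ]; rw [if_pos (by omega)]; omega
                  simp only [e1, e2]
                  exact ho.e1 _ (by omega)
                · have e1 : σ j = j := by simp only [hσ]; rw [if_neg h3]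
                  have e2 : τ (j + 1) = j + 1 := by simp only [hτ]; rw [if_neg (by omega)]
                  simp only [e1, e2]
                  exact ho.e2 _ hj
            obtain ⟨s1, -, -, -, s5⟩ := odd_star hδ ht E X Y hY hno hnc _ _ ho'
            have t0 : τ 0 = i := by simp only [hτ]; rw [if_pos (by omega)]; omega
            have tt : τ t = t := by simp only [hτ]; rw [if_neg (by omega)]
            simp only [t0, tt] at s1 s5
            refine key ?_ ?_
            · intro w hw hE
              obtain ⟨j, hj, h3⟩ := s1 w hw hE
              refine ⟨σ j, ?_, h3⟩
              simp only [hσ]
              split_ifs <;> omega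
            · intro l hl
              -- position of `l`
              by_cases hli : l < i
              · -- σ (i-1-l) = l
                have e1 : σ (i - 1 - l) = l := by
                  simp only [hσ]; rw [if_pos (by omega)]; omega
                refine ⟨fun _ => by omega, fun _ => ?_⟩
                by_cases hl1 : i - 1 - l = 0
                · have := ho'.e1 0 (by omega)
                  simp only [t0] at this
                  rw [hl1] at e1
                  rwa [e1] at this
                · have := s5 (i - 1 - l - 1) (by omega)
                  rw [show i - 1 - l - 1 + 1 = i - 1 - l by omega, e1] at this
                  apply this.2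
                  intro hE
                  have e3 : σ (i - 1 - l - 1) = l + 1 := by
                    simp only [hσ]; rw [if_pos (by omega)]; omega
                  rw [e3] at hE
                  have := (h1 _ (by omega)).1 hE
                  omega
              · have e1 : σ l = l := by simp only [hσ]; rw [if_neg hli]
                have h5 := s5 (l - 1) (by omega)
                rw [show l - 1 + 1 = l by omega, e1] at h5
                rw [h5]
                by_cases hl2 : l = i
                · have e3 : σ (l - 1) = 0 := by
                    simp only [hσ]; rw [if_pos (by omega)]; omega
                  rw [e3, h1 0 (by omega)]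
                  omega
                · have e3 : σ (l - 1) = l - 1 := by
                    simp only [hσ]; rw [if_neg (by omega)]
                  rw [e3, h1 (l - 1) (by omega)]
                  omega
          · -- a cycle
            exfalso
            apply hnc
            set σ : ℕ → ℕ := fun j => if j < i then j else t - 1 - (j - i) with hσ
            set τ : ℕ → ℕ := fun j => if j + 1 < i then j + 1 else if j < i then t else
              t - 1 - (j - i) with hτ
            refine ⟨fun j => x (σ j), fun j => y (τ j), ⟨?_, ?_, ?_, ?_, ?_, ?_⟩⟩
            · intro j hj
              apply ho.xX
              simp only [hσ]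
              split_ifs <;> omega
            · intro j hj
              apply ho.yY
              simp only [hτ]
              split_ifs <;> omega
            · intro a ha b hb hab
              simp only [Set.mem_Iio] at ha hb
              have h3 : σ a = σ b := by
                apply ho.xinj _ _ hab
                · simp only [Set.mem_Iio, hσ]; split_ifs <;> omega
                · simp only [Set.mem_Iio, hσ]; split_ifs <;> omega
              simp only [hσ] at h3
              split_ifs at h3 <;> omega
            · intro a ha b hb hab
              simp only [Set.mem_Iio] at ha hb
              have h3 : τ a = τ b := by
                apply ho.yinj _ _ hab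
                · simp only [Set.mem_Iic, hτ]; split_ifs <;> omega
                · simp only [Set.mem_Iic, hτ]; split_ifs <;> omega
              simp only [hτ] at h3
              split_ifs at h3 <;> omega
            · intro j hj
              by_cases h3 : j + 1 < i
              · have e1 : σ j = j := by simp only [hσ]; rw [if_pos (by omega)]
                have e2 : τ j = j + 1 := by simp only [hτ]; rw [if_pos h3]
                simp only [e1, e2]
                exact ho.e2 _ hj
              · by_cases h4 : j < i
                · have e1 : σ j = i - 1 := by simp only [hσ]; rw [if_pos h4]; omega
                  have e2 : τ j = t := by simp only [hτ]; rw [if_neg h3, if_pos h4]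
                  simp only [e1, e2]
                  exact (h1 _ (by omega)).2 (by omega)
                · have e1 : σ j = t - 1 - (j - i) := by simp only [hσ]; rw [if_neg h4]
                  have e2 : τ j = t - 1 - (j - i) := by
                    simp only [hτ]; rw [if_neg h3, if_neg h4]
                  simp only [e1, e2]
                  exact ho.e1 _ (by omega)
            · intro j hj
              by_cases h3 : j + 1 = t
              · have e1 : σ (nx t j) = 0 := by
                  simp only [hσ, nx, h3, if_true]
                  rw [if_pos (by omega)]
                have e2 : τ j = i := by
                  simp only [hτ]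
                  rw [if_neg (by omega), if_neg (by omega)]
                  omega
                simp only [e1, e2]
                exact hxz
              · have e0 : nx t j = j + 1 := by simp [nx, h3]
                rw [e0]
                by_cases h4 : j + 1 < i
                · have e1 : σ (j + 1) = j + 1 := by simp only [hσ]; rw [if_pos (by omega)]
                  have e2 : τ j = j + 1 := by simp only [hτ]; rw [if_pos h4]
                  simp only [e1, e2]
                  exact ho.e1 _ (by omega)
                · by_cases h5 : j < i
                  · have e1 : σ (j + 1) = t - 1 := by
                      simp only [hσ]; rw [if_neg (by omega)]; omega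
                    have e2 : τ j = t - 1 + 1 := by
                      simp only [hτ]; rw [if_neg h4, if_pos h5]; omega
                    simp only [e1, e2]
                    exact ho.e2 _ (by omega)
                  · have e1 : σ (j + 1) = t - 2 - (j - i) := by
                      simp only [hσ]; rw [if_neg (by omega)]; omega
                    have e2 : τ j = t - 2 - (j - i) + 1 := by
                      simp only [hτ]; rw [if_neg h4, if_neg h5]; omega
                    simp only [e1, e2]
                    exact ho.e2 _ (by omega)
    · -- `z` is not on the path
      push Not at hP
      have ho' : IsOdd t E X Y x (fun j => if j = 0 then z else y j) := by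
        refine ⟨ho.xX, ?_, ho.xinj, ?_, ?_, ?_⟩
        · intro j hj
          skip
          split_ifs
          · exact hz
          · exact ho.yY j hj
        · intro a ha b hb hab
          simp only [Set.mem_Iic] at ha hb
          by_cases ha0 : a = 0 <;> by_cases hb0 : b = 0
          · omega
          · simp only [ha0, hb0, if_true, if_false] at hab
            exact absurd hab (hP _ hb)
          · simp only [ha0, hb0, if_true, if_false] at hab
            exact absurd hab.symm (hP _ ha)
          · simp only [ha0, hb0, if_false] at hab
            exact ho.yinj ha hb hab
        · intro j hj
          skip
          split_ifs with h3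
          · rw [h3]; exact hxz
          · exact ho.e1 j hj
        · intro j hj
          skip
          rw [if_neg (by omega)]
          exact ho.e2 j hj
      obtain ⟨s1, -, -, -, s5⟩ := odd_star hδ ht E X Y hY hno hnc _ _ ho'
      simp only [if_true, show t ≠ 0 by omega, if_false] at s1 s5
      refine key s1 ?_
      intro l hl
      by_cases hl0 : l = 0
      · subst hl0
        exact ⟨fun _ => by omega, fun _ => hxz⟩
      · have h5 := s5 (l - 1) (by omega)
        rw [show l - 1 + 1 = l by omega] at h5
        rw [h5, h1 (l - 1) (by omega)]
        omega

end H22CK
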