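import Pool.Agent.H22.CK.L34

/-! L5 of PROJECT CK. -/

set_option autoImplicit false

namespace H22CK

variable {V W : Type*}

/-- L5 (facts (★★) for a longest path with `t = 2δ-1` and without `2t`-cycle) -/
theorem odd_star [DecidableEq V] [DecidableEq W] {t δ : ℕ} (hδ : 2 ≤ δ)
    (ht : t + 1 = 2 * δ) (E : V → W → Prop)
    (X : Finset V) (Y : Finset W) (hY : ∀ y ∈ Y, δ ≤ dL E X y)
    (hno : ¬ HasPath (t + 1) E X Y) (hnc : ¬ ∃ x' y', IsCyc t E X Y x' y')
    (x : ℕ → V) (y : ℕ → W) (ho : IsOdd t E X Y x y) :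
    (∀ z ∈ X, E z (y 0) → ∃ i < t, z = x i) ∧ (∀ z ∈ X, E z (y t) → ∃ i < t, z = x i) ∧
    dL E X (y 0) = δ ∧ dL E X (y t) = δ ∧
    (∀ i, i + 1 < t → (E (x (i + 1)) (y 0) ↔ ¬ E (x i) (y t))) := by
  classical
  refine ⟨odd_nbr ho hno, odd_nbr' ho hno, ?_⟩
  obtain ⟨A0, A1, hA0, hA1, c0, c1⟩ := odd_families E X Y x y ho hno (by omega)
  have d0 := hY _ (ho.yY 0 (by omega))
  have d1 := hY _ (ho.yY t le_rfl)
  have hsub : A0 ∪ A1 ⊆ Finset.range (t - 1) := by
    intro i hi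
    rw [Finset.mem_union, hA0, hA1] at hi
    rw [Finset.mem_range]
    omega
  have hcard := Finset.card_le_card hsub
  rw [Finset.card_range] at hcard
  have hint : A0 ∩ A1 = ∅ := by
    by_contra hne
    obtain ⟨i, hi⟩ := Finset.nonempty_iff_ne_empty.2 hne
    rw [Finset.mem_inter, hA0, hA1] at hi
    exact hnc (odd_cross ho hi.1.1 hi.1.2 hi.2.2)
  have hu := Finset.card_union_add_card_inter A0 A1
  rw [hint, Finset.card_empty] at hu
  have heq : A0 ∪ A1 = Finset.range (t - 1) := by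
    apply Finset.eq_of_subset_of_card_le hsub
    rw [Finset.card_range]
    omega
  refine ⟨by omega, by omega, ?_⟩
  intro i hi
  constructor
  · intro h1 h2
    have : i ∈ A0 ∩ A1 := by
      rw [Finset.mem_inter, hA0, hA1]
      exact ⟨⟨hi, h1⟩, ⟨hi, h2⟩⟩
    rw [hint] at this
    simp at this
  · intro h1
    have h2 : i ∈ A0 ∪ A1 := by
      rw [heq, Finset.mem_range]; omega
    rw [Finset.mem_union, hA0, hA1] at h2
    rcases h2 with h2 | h2
    · exact h2.2
    · exact absurd h2.2 h1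

end H22CK
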