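import Pool.Agent.H22.CK.PCyc
import Pool.Agent.H22.CK.L5

/-! L7 (type II). -/

set_option autoImplicit false

namespace H22CK

variable {V W : Type*}

open Finset

namespace L7aux

/-- the odd path `b, a, b', P q, Q q, P (q+1), ..., Q (q+m-1)` -/
theorem odd {m : ℕ} (hm : 0 < m) {E : V → W → Prop} {X : Finset V} {Y : Finset W}
    {P : ℤ → V} {Q : ℤ → W} (h : PCyc m E X Y P Q) {a : V} {b b' : W} (ha : a ∈ X) (hb : b ∈ Y)
    (hb' : b' ∈ Y) (hne : b ≠ b') (haP : ∀ i, a ≠ P i) (hbQ : ∀ i, b ≠ Q i) (hbQ' : ∀ i, b' ≠ Q i)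
    (e : E a b) (e' : E a b') (q : ℤ) (hq : E (P q) b') :
    IsOdd (m + 1) E X Y (fun j => if j = 0 then a else P (q + j - 1))
      (fun j => if j = 0 then b else if j = 1 then b' else Q (q + j - 2)) where
  xX i _ := by
    try dsimp only
    split_ifs
    · exact ha
    · exact h.pX _
  yY i _ := by
    try dsimp only
    split_ifs
    · exact hb
    · exact hb'
    · exact h.qY _
  xinj i hi j hj hij := by
    try dsimp only at hij
    simp only [Set.mem_Iio] at hi hj
    split_ifs at hij with h1 h2 h2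
    · omega
    · exact absurd hij (haP _)
    · exact absurd hij.symm (haP _)
    · rw [h.pinj] at hij
      have := eq_of_dvd_lt hij (by omega) (by omega)
      omega
  yinj i hi j hj hij := by
    try dsimp only at hij
    simp only [Set.mem_Iic] at hi hj
    split_ifs at hij with h1 h2 h3 h4 h5 h6 h7 h8
    · omega
    · exact absurd hij hne
    · exact absurd hij (hbQ _)
    · exact absurd hij.symm hne
    · omega
    · exact absurd hij (hbQ' _)
    · exact absurd hij.symm (hbQ _)
    · exact absurd hij.symm (hbQ' _)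
    · rw [h.qinj] at hij
      have := eq_of_dvd_lt hij (by omega) (by omega)
      omega
  e1 i hi := by
    try dsimp only
    split_ifs with h1 h2
    · exact e
    · subst h2
      have : q + ((1 : ℕ) : ℤ) - 1 = q := by push_cast; ring
      rw [this]
      exact hq
    · have h3 := h.e2 (q + i - 2)
      have : q + (i : ℤ) - 2 + 1 = q + i - 1 := by ring
      rw [this] at h3
      exact h3
  e2 i hi := by
    by_cases h1 : i = 0
    · subst h1
      simpa using e'
    · rw [if_neg h1, if_neg (by omega), if_neg (by omega)]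
      have h3 := h.e1 (q + i - 1)
      have : q + ((i + 1 : ℕ) : ℤ) - 2 = q + i - 1 := by push_cast; ring
      rw [this]
      exact h3

/-- consecutive neighbours give a longer cycle -/
theorem noconsec {m : ℕ} (hm : 0 < m) {E : V → W → Prop} {X : Finset V} {Y : Finset W}
    (hnc : ¬ ∃ x' y', IsCyc (m + 1) E X Y x' y')
    {P : ℤ → V} {Q : ℤ → W} (h : PCyc m E X Y P Q) {a : V} {b b' : W} (ha : a ∈ X) (hb : b ∈ Y)
    (hb' : b' ∈ Y) (hne : b ≠ b') (haP : ∀ i, a ≠ P i) (hbQ : ∀ i, b ≠ Q i) (hbQ' : ∀ i, b' ≠ Q i)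
    (e : E a b) (e' : E a b') (p : ℤ) (hp : E (P p) b) (hp' : E (P (p + 1)) b') : False := by
  apply hnc
  refine ⟨fun j => if j = 0 then a else P (p + j),
    fun j => if j = 0 then b' else if j = m then b else Q (p + j), ?_⟩
  refine ⟨?_, ?_, ?_, ?_, ?_, ?_⟩
  · intro i _
    try dsimp only
    split_ifs
    · exact ha
    · exact h.pX _
  · intro i _
    try dsimp only
    split_ifs
    · exact hb'
    · exact hb
    · exact h.qY _
  · intro i hi j hj hij
    try dsimp only at hij
    simp only [Set.mem_Iio] at hi hj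
    split_ifs at hij with h1 h2 h2
    · omega
    · exact absurd hij (haP _)
    · exact absurd hij.symm (haP _)
    · rw [h.pinj] at hij
      have := eq_of_dvd_lt hij (by omega) (by omega)
      omega
  · intro i hi j hj hij
    try dsimp only at hij
    simp only [Set.mem_Iio] at hi hj
    split_ifs at hij with h1 h2 h3 h4 h5 h6 h7 h8
    · omega
    · exact absurd hij.symm hne
    · exact absurd hij (hbQ' _)
    · exact absurd hij hne
    · omega
    · exact absurd hij (hbQ _)
    · exact absurd hij.symm (hbQ' _)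
    · exact absurd hij.symm (hbQ _)
    · rw [h.qinj] at hij
      have := eq_of_dvd_lt hij (by omega) (by omega)
      omega
  · intro i hi
    try dsimp only
    split_ifs with h1 h2
    · exact e'
    · rw [h2, h.shift]
      exact hp
    · exact h.e1 _
  · intro i hi
    have hnx : nx (m + 1) i = if i = m then 0 else i + 1 := by
      unfold nx
      by_cases h1 : i = m
      · rw [if_pos (by omega), if_pos h1]
      · rw [if_neg (by omega), if_neg h1]
    rw [hnx]
    by_cases h1 : i = m
    · subst h1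
      rw [if_pos rfl, if_pos rfl, if_neg (by omega), if_pos rfl]
      exact e
    · rw [if_neg h1, if_neg (by omega)]
      by_cases h2 : i = 0
      · subst h2
        rw [if_pos rfl]
        simpa using hp'
      · rw [if_neg h2, if_neg h1]
        have h7 := h.e2 (p + i)
        have : p + (i : ℤ) + 1 = p + ((i + 1 : ℕ) : ℤ) := by push_cast; ring
        rw [this] at h7
        exact h7

/-- number of neighbours on the cycle -/
theorem count {m δ : ℕ} [DecidableEq V] {E : V → W → Prop} {X : Finset V} {Y : Finset W}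
    {P : ℤ → V} {Q : ℤ → W} (h : PCyc m E X Y P Q) {a : V} {b : W} (ha : a ∈ X)
    (haP : ∀ i, a ≠ P i) (e : E a b) (hd : dL E X b = δ) (hm : 0 < m)
    (hN : ∀ z ∈ X, E z b → z = a ∨ ∃ p : ℤ, z = P p) [DecidablePred fun p : ℕ => E (P p) b] :
    ((Finset.range m).filter (fun p : ℕ => E (P p) b)).card + 1 = δ := by
  classical
  have h1 : X.filter (fun x => E x b) =
      insert a (((Finset.range m).filter (fun p : ℕ => E (P p) b)).image (fun p : ℕ => P p)) := by
    ext z
    simp only [Finset.mem_filter, Finset.mem_insert, Finset.mem_image, Finset.mem_range]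
    constructor
    · rintro ⟨hz, hzb⟩
      rcases hN z hz hzb with h2 | ⟨p, h2⟩
      · exact Or.inl h2
      · right
        have h3 : P ((p % (m : ℤ)).toNat : ℤ) = P p := by
          rw [h.pinj, Int.toNat_of_nonneg (Int.emod_nonneg _ (by omega))]
          have := Int.emod_add_mul_ediv p (m : ℤ)
          exact ⟨-(p / (m : ℤ)), by linarith⟩
        refine ⟨(p % (m : ℤ)).toNat, ⟨toNat_emod_lt hm p, ?_⟩, ?_⟩
        · rw [h3, ← h2]
          exact hzb
        · rw [h3, h2]
    · rintro (h2 | ⟨p, ⟨_, h3⟩, rfl⟩)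
      · rw [h2]
        exact ⟨ha, e⟩
      · exact ⟨h.pX _, h3⟩
  have h2 : dL E X b = (X.filter (fun x => E x b)).card := by
    unfold dL
    congr!
  rw [h2, h1, Finset.card_insert_of_notMem, Finset.card_image_of_injOn] at hd
  · exact hd
  · intro i hi j hj hij
    have hi' := Finset.mem_range.1 (Finset.mem_filter.1 hi).1
    have hj' := Finset.mem_range.1 (Finset.mem_filter.1 hj).1
    have h3 := (h.pinj _ _).1 hij
    have := eq_of_dvd_lt h3 (by omega) (by omega)
    omega
  · intro h3
    obtain ⟨p, _, h4⟩ := Finset.mem_image.1 h3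
    exact haP _ h4.symm

/-- rotation -/
theorem sum_shift {m : ℕ} (g : ℤ → ℕ) (hg : g m = g 0) :
    ∑ p ∈ Finset.range m, g ((p : ℤ) + 1) = ∑ p ∈ Finset.range m, g p := by
  have h1 := Finset.sum_range_succ (fun p : ℕ => g (p : ℤ)) m
  have h2 := Finset.sum_range_succ' (fun p : ℕ => g (p : ℤ)) m
  rw [h1] at h2
  have h3 : ∀ p : ℕ, ((p + 1 : ℕ) : ℤ) = (p : ℤ) + 1 := fun p => by push_cast; ring
  simp only [h3, Nat.cast_zero] at h2
  omega

/-- two periodic predicates with half of the period each, no consecutive elements -/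
theorem alt {m δ : ℕ} (hδ : 2 ≤ δ) (hm : m + 2 = 2 * δ) (f g : ℤ → Prop)
    [DecidablePred fun p : ℕ => f p] [DecidablePred fun p : ℕ => g p]
    (hf : ∀ i j : ℤ, (m : ℤ) ∣ i - j → (f i ↔ f j)) (hg : ∀ i j : ℤ, (m : ℤ) ∣ i - j → (g i ↔ g j))
    (cf : ((Finset.range m).filter (fun p : ℕ => f p)).card + 1 = δ)
    (cg : ((Finset.range m).filter (fun p : ℕ => g p)).card + 1 = δ)
    (h1 : ∀ p, f p → ¬ g (p + 1)) (h2 : ∀ p, g p → ¬ f (p + 1)) :
    (∀ p, f (p + 1) ↔ ¬ f p) ∧ ∀ p, g p ↔ f p := by
  classical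
  have key : ∀ (f g : ℤ → Prop), (∀ i j : ℤ, (m : ℤ) ∣ i - j → (f i ↔ f j)) →
      (∀ i j : ℤ, (m : ℤ) ∣ i - j → (g i ↔ g j)) →
      ((Finset.range m).filter (fun p : ℕ => f p)).card + 1 = δ →
      ((Finset.range m).filter (fun p : ℕ => g p)).card + 1 = δ →
      (∀ p, f p → ¬ g (p + 1)) → ∀ p, f p ↔ ¬ g (p + 1) := by
    intro f g hf hg cf cg h1
    have c1 : ((Finset.range m).filter (fun p : ℕ => f p)).card =
        ∑ p ∈ Finset.range m, (if f p then 1 else 0) := Finset.card_filter _ _
    have c2 : ((Finset.range m).filter (fun p : ℕ => g p)).card =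
        ∑ p ∈ Finset.range m, (if g p then 1 else 0) := Finset.card_filter _ _
    have c3 := sum_shift (m := m) (fun p : ℤ => if g p then 1 else 0)
      (by
        have := hg m 0 (by simp)
        simp only [this])
    have c4 : ∑ p ∈ Finset.range m, ((if f p then 1 else 0) + (if g ((p : ℤ) + 1) then 1 else 0)) =
        ∑ p ∈ Finset.range m, 1 := by
      rw [Finset.sum_add_distrib, c3, ← c1, ← c2]
      simp
      omega
    have c5 : ∀ p ∈ Finset.range m, (if f ((p : ℕ) : ℤ) then 1 else 0) +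
        (if g ((p : ℤ) + 1) then 1 else 0) ≤ 1 := by
      intro p _
      have := h1 p
      split_ifs with a1 a2
      · exact absurd a2 (this a1)
      all_goals omega
    have c6 := (Finset.sum_eq_sum_iff_of_le c5).1 c4
    have c7 : ∀ p : ℕ, p < m → (f p ↔ ¬ g ((p : ℤ) + 1)) := by
      intro p hp
      have h3 := c6 p (Finset.mem_range.2 hp)
      refine ⟨h1 p, fun h4 => ?_⟩
      by_contra h5
      rw [if_neg h4, if_neg h5] at h3
      omega
    intro p
    have hm0 : 0 < m := by omega
    have h3 : (m : ℤ) ∣ p - ((p % (m : ℤ)).toNat : ℤ) := by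
      rw [Int.toNat_of_nonneg (Int.emod_nonneg _ (by omega))]
      have := Int.emod_add_mul_ediv p (m : ℤ)
      exact ⟨(p / (m : ℤ)), by linarith⟩
    have h4 := c7 _ (toNat_emod_lt hm0 p)
    rw [hf _ _ h3, h4]
    have h5 : (m : ℤ) ∣ p + 1 - (((p % (m : ℤ)).toNat : ℤ) + 1) := by
      have : p + 1 - (((p % (m : ℤ)).toNat : ℤ) + 1) = p - ((p % (m : ℤ)).toNat : ℤ) := by ring
      rw [this]
      exact h3
    rw [hg _ _ h5]
  have k1 : ∀ p, f p ↔ ¬ g (p + 1) := key f g hf hg (by convert cf) (by convert cg) h1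
  have k2 : ∀ p, g p ↔ ¬ f (p + 1) := key g f hg hf (by convert cg) (by convert cf) h2
  have k3 : ∀ p, f (p + 1 + 1) ↔ f p := by
    intro p
    have a1 := k1 p
    have a2 := k2 (p + 1)
    tauto
  have k4 : f 1 ↔ ¬ f 0 := by
    by_contra hcon
    have hc : f 1 ↔ f 0 := by tauto
    have k5 : ∀ p : ℕ, (f p ↔ f 0) ∧ (f ((p : ℤ) + 1) ↔ f 0) := by
      intro p
      induction p with
      | zero =>
        refine ⟨by simp, ?_⟩
        have : ((0 : ℕ) : ℤ) + 1 = 1 := by norm_num
        rw [this]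
        exact hc
      | succ p ih =>
        have e1 : ((p + 1 : ℕ) : ℤ) = (p : ℤ) + 1 := by push_cast; ring
        rw [e1]
        refine ⟨ih.2, ?_⟩
        rw [k3]
        exact ih.1
    by_cases h0 : f 0
    · have : (Finset.range m).filter (fun p : ℕ => f p) = Finset.range m := by
        rw [Finset.filter_true_of_mem]
        intro p _
        exact (k5 p).1.2 h0
      rw [this, Finset.card_range] at cf
      omega
    · have : (Finset.range m).filter (fun p : ℕ => f p) = ∅ := by
        rw [Finset.filter_false_of_mem]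
        intro p _ hp
        exact h0 ((k5 p).1.1 hp)
      rw [this, Finset.card_empty] at cf
      omega
  have k6 : ∀ p, f (p + 1) ↔ ¬ f p := by
    intro p
    induction p using Int.induction_on with
    | zero => simpa using k4
    | succ p ih =>
      have := k3 p
      tauto
    | pred p ih =>
      have h3 := k3 (-(p : ℤ) - 1)
      have e1 : -(p : ℤ) - 1 + 1 = -(p : ℤ) := by ring
      rw [e1] at h3 ⊢
      tauto
  refine ⟨k6, fun p => ?_⟩
  have a1 := k2 p
  have a2 := k6 p
  tauto

end L7aux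

/-- L7 (type II): a cycle with `m = 2δ - 2` left vertices and a path `b1, a, b2` outside it, with both
`b1` and `b2` adjacent to the cycle -/
theorem odd_typeII [DecidableEq V] [DecidableEq W] {t m δ : ℕ} (hδ : 2 ≤ δ)
    (ht : t + 1 = 2 * δ) (hm : m + 2 = 2 * δ) (E : V → W → Prop)
    (X : Finset V) (Y : Finset W) (hY : ∀ y ∈ Y, δ ≤ dL E X y)
    (hno : ¬ HasPath (t + 1) E X Y) (hnc : ¬ ∃ x' y', IsCyc t E X Y x' y')
    (w : ℕ → V) (r : ℕ → W) (hc : IsCyc m E X Y w r) (a : V) (b1 b2 : W)
    (ha : a ∈ X) (hb1 : b1 ∈ Y) (hb2 : b2 ∈ Y) (hb : b1 ≠ b2)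
    (haw : ∀ i < m, a ≠ w i) (hb1r : ∀ i < m, b1 ≠ r i) (hb2r : ∀ i < m, b2 ≠ r i)
    (e1 : E a b1) (e2 : E a b2) (i1 i2 : ℕ) (hi1 : i1 < m) (hi2 : i2 < m)
    (e3 : E (w i1) b1) (e4 : E (w i2) b2) :
    ∃ x0 ∈ X, ∃ N, N ⊆ X ∧ N.card = δ ∧ ∀ z ∈ Y, E x0 z → ∀ w ∈ X, (E w z ↔ w ∈ N) := by
  classical
  have hm0 : 0 < m := by omega
  obtain rfl : t = m + 1 := by omega
  have h := hc.pcyc hm0
  set P : ℤ → V := fun i => w (i % (m : ℤ)).toNat with hP
  set Q : ℤ → W := fun i => r (i % (m : ℤ)).toNat with hQ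
  have haP : ∀ i, a ≠ P i := fun i => haw _ (toNat_emod_lt hm0 i)
  have hQ1 : ∀ i, b1 ≠ Q i := fun i => hb1r _ (toNat_emod_lt hm0 i)
  have hQ2 : ∀ i, b2 ≠ Q i := fun i => hb2r _ (toNat_emod_lt hm0 i)
  have e3' : E (P (i1 : ℤ)) b1 := by
    rw [hP, pcyc_nat w hi1]
    exact e3
  have e4' : E (P (i2 : ℤ)) b2 := by
    rw [hP, pcyc_nat w hi2]
    exact e4
  -- facts from the odd path `b, a, b', ...`
  have star : ∀ (P : ℤ → V) (Q : ℤ → W), PCyc m E X Y P Q → (∀ i, a ≠ P i) →
      ∀ b b' : W, b ∈ Y → b' ∈ Y → b ≠ b' → (∀ i, b ≠ Q i) → (∀ i, b' ≠ Q i) → E a b → E a b' →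
      ∀ q : ℤ, E (P q) b' →
      (∀ z ∈ X, E z b → z = a ∨ ∃ p : ℤ, z = P p) ∧ dL E X b = δ ∧
        (E (P q) b → ¬ E a (Q (q - 1))) := by
    intro P Q h haP b b' hbY hbY' hne hbQ hbQ' eb eb' q hq
    have ho := L7aux.odd hm0 h ha hbY hbY' hne haP hbQ hbQ' eb eb' q hq
    obtain ⟨s1, -, s3, -, s5⟩ := odd_star hδ ht E X Y hY hno hnc _ _ ho
    refine ⟨?_, ?_, ?_⟩
    · intro z hz hzb
      have hzb' : E z ((fun j : ℕ => if j = 0 then b else if j = 1 then b' else Q (q + j - 2)) 0) := hzb
      obtain ⟨i, _, hi⟩ := s1 z hz hzb'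
      by_cases h0 : i = 0
      · rw [if_pos h0] at hi
        exact Or.inl hi
      · rw [if_neg h0] at hi
        exact Or.inr ⟨_, hi⟩
    · exact s3
    · intro hqb hcon
      have h5 := (s5 0 (by omega)).1 (by simpa using hqb)
      apply h5
      have e6 : q + ((m + 1 : ℕ) : ℤ) - 2 = q - 1 + m := by push_cast; ring
      rw [if_pos rfl, if_neg (by omega), if_neg (by omega), e6, h.shiftQ]
      exact hcon
  obtain ⟨n1, d1, -⟩ := star P Q h haP b1 b2 hb1 hb2 hb hQ1 hQ2 e1 e2 i2 e4'
  have c1 := L7aux.count h ha haP e1 d1 hm0 n1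
  -- any other neighbour of `a` outside the cycle
  have other : ∀ z ∈ Y, E a z → z ≠ b1 → (∀ i, z ≠ Q i) →
      (∀ w ∈ X, E w z → w = a ∨ ∃ p : ℤ, w = P p) ∧
        (∀ p, E (P (p + 1)) b1 ↔ ¬ E (P p) b1) ∧ ∀ p, E (P p) z ↔ E (P p) b1 := by
    intro z hz ez hz1 hzQ
    obtain ⟨n2, d2, -⟩ := star P Q h haP z b1 hz hb1 hz1 hzQ hQ1 ez e1 i1 e3'
    have c2 := L7aux.count h ha haP ez d2 hm0 n2
    refine ⟨n2, ?_⟩
    exact L7aux.alt hδ hm (fun p => E (P p) b1) (fun p => E (P p) z)
      (fun i j hij => by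
        have := (h.pinj i j).2 hij
        simp only [this])
      (fun i j hij => by
        have := (h.pinj i j).2 hij
        simp only [this]) c1 c2
      (fun p hp hp' => L7aux.noconsec hm0 hnc h ha hb1 hz hz1.symm haP hQ1 hzQ e1 ez p hp hp')
      (fun p hp hp' => L7aux.noconsec hm0 hnc h ha hz hb1 hz1 haP hzQ hQ1 ez e1 p hp hp')
  obtain ⟨n2, alt1, eq2⟩ := other b2 hb2 e2 hb.symm hQ2
  refine ⟨a, ha, X.filter (fun x => E x b1), Finset.filter_subset _ _, ?_, ?_⟩
  · rw [← d1]
    unfold dL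
    congr!
  · intro z hz ez v hv
    rw [Finset.mem_filter]
    have goal : E v z ↔ E v b1 := by
      by_cases hz1 : z = b1
      · rw [hz1]
      · by_cases hzQ : ∀ i, z ≠ Q i
        · obtain ⟨n3, -, eq3⟩ := other z hz ez hz1 hzQ
          constructor
          · intro hvz
            rcases n3 v hv hvz with h2 | ⟨p, h2⟩
            · rw [h2]; exact e1
            · rw [h2] at hvz ⊢
              exact (eq3 p).1 hvz
          · intro hvb
            rcases n1 v hv hvb with h2 | ⟨p, h2⟩
            · rw [h2]; exact ez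
            · rw [h2] at hvb ⊢
              exact (eq3 p).2 hvb
        · exfalso
          push Not at hzQ
          obtain ⟨p, rfl⟩ := hzQ
          by_cases hp : E (P p) b1
          · -- go backwards
            have hr := h.rev
            have s := (star (fun i => P (-i)) (fun i => Q (-i - 1)) hr (fun i => haP _) b1 b2 hb1 hb2 hb
              (fun i => hQ1 _) (fun i => hQ2 _) e1 e2 (-p) (by
                show E (P (- -p)) b2
                rw [neg_neg]
                exact (eq2 p).2 hp)).2.2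
              (by
                show E (P (- -p)) b1
                rw [neg_neg]
                exact hp)
            apply s
            show E a (Q (-(-p - 1) - 1))
            have : -(-p - 1) - 1 = p := by ring
            rw [this]
            exact ez
          · have hp1 : E (P (p + 1)) b1 := (alt1 p).2 hp
            have s := (star P Q h haP b1 b2 hb1 hb2 hb hQ1 hQ2 e1 e2 (p + 1) ((eq2 (p + 1)).2 hp1)).2.2
              hp1
            apply s
            rw [add_sub_cancel_right]
            exact ez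
    rw [goal]
    constructor
    · exact fun h2 => ⟨hv, h2⟩
    · exact fun h2 => h2.2

end H22CK
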