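import Pool.Agent.H22.CK.L5
import Pool.Agent.H22.CK.L6
import Pool.Agent.H22.CK.L7

set_option autoImplicit false

namespace H22CK

variable {V W : Type*}

/-- L8 (longest path odd, `t = 2δ - 1`, no `2t`-cycle; from L5, L6, L7) -/
theorem odd_special [DecidableEq V] [DecidableEq W] {t δ : ℕ} (hδ : 2 ≤ δ)
    (ht : t + 1 = 2 * δ) (E : V → W → Prop)
    (X : Finset V) (Y : Finset W) (hY : ∀ y ∈ Y, δ ≤ dL E X y)
    (hno : ¬ HasPath (t + 1) E X Y) (hnc : ¬ ∃ x' y', IsCyc t E X Y x' y')
    (x : ℕ → V) (y : ℕ → W) (ho : IsOdd t E X Y x y) :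
    ∃ x0 ∈ X, ∃ N, N ⊆ X ∧ N.card = δ ∧ ∀ z ∈ Y, E x0 z → ∀ w ∈ X, (E w z ↔ w ∈ N) := by
  classical
  obtain ⟨hn0, hnt, hd0, hdt, hx⟩ := odd_star hδ ht E X Y hY hno hnc x y ho
  have ht0 : 0 < t := by omega
  have xinj : ∀ i j, i < t → j < t → x i = x j → i = j := fun i j hi hj h =>
    ho.xinj (Set.mem_Iio.mpr hi) (Set.mem_Iio.mpr hj) h
  have yinj : ∀ i j, i ≤ t → j ≤ t → y i = y j → i = j := fun i j hi hj h =>
    ho.yinj (Set.mem_Iic.mpr hi) (Set.mem_Iic.mpr hj) h
  by_cases hmono : ∀ i, i + 2 < t → E (x (i + 2)) (y 0) → E (x (i + 1)) (y 0)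
  · -- type I
    set J := (Finset.range t).filter (fun j => E (x j) (y 0)) with hJ
    have hcard : J.card = δ := by
      rw [← hd0]
      unfold dL
      refine Finset.card_bij (fun j _ => x j) ?_ ?_ ?_
      · intro j hj
        rw [hJ, Finset.mem_filter, Finset.mem_range] at hj
        rw [Finset.mem_filter]
        exact ⟨ho.xX j hj.1, hj.2⟩
      · intro a ha b hb hab
        rw [hJ, Finset.mem_filter, Finset.mem_range] at ha hb
        exact xinj a b ha.1 hb.1 hab
      · intro z hz
        rw [Finset.mem_filter] at hz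
        obtain ⟨i, hi, rfl⟩ := hn0 z hz.1 hz.2
        exact ⟨i, by rw [hJ, Finset.mem_filter, Finset.mem_range]; exact ⟨hi, hz.2⟩, rfl⟩
    have hdown : ∀ j, j + 1 ∈ J → j ∈ J := by
      intro j hj
      rw [hJ, Finset.mem_filter, Finset.mem_range] at hj ⊢
      rcases j with _ | i
      · exact ⟨ht0, ho.e1 0 ht0⟩
      · exact ⟨by omega, hmono i hj.1 hj.2⟩
    have hle : ∀ j ∈ J, ∀ i, i ≤ j → i ∈ J := by
      intro j
      induction j with
      | zero =>
        intro h0 i hi
        obtain rfl : i = 0 := by omega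
        exact h0
      | succ j ih =>
        intro hj i hi
        rcases Nat.lt_or_ge i (j + 1) with h | h
        · exact ih (hdown j hj) i (by omega)
        · obtain rfl : i = j + 1 := by omega
          exact hj
    have hsub : J ⊆ Finset.range δ := by
      intro j hj
      rw [Finset.mem_range, ← hcard]
      have h1 : Finset.range (j + 1) ⊆ J := fun i hi => hle j hj i (by
        rw [Finset.mem_range] at hi
        omega)
      have h2 := Finset.card_le_card h1
      rw [Finset.card_range] at h2
      omega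
    have hJe : J = Finset.range δ :=
      Finset.eq_of_subset_of_card_le hsub (by rw [Finset.card_range, hcard])
    have h0 : ∀ i < t, (E (x i) (y 0) ↔ i < δ) := by
      intro i hi
      have h1 : i ∈ J ↔ i ∈ Finset.range δ := by rw [hJe]
      rw [hJ, Finset.mem_filter, Finset.mem_range, Finset.mem_range] at h1
      exact ⟨fun h => h1.mp ⟨hi, h⟩, fun h => (h1.mpr h).2⟩
    refine odd_typeI hδ ht E X Y hY hno hnc x y ho h0 ?_
    intro i hi
    rcases Nat.lt_or_ge (i + 1) t with h | h
    · have h1 := hx i h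
      rw [h0 (i + 1) h] at h1
      constructor
      · intro h2
        by_contra h3
        exact (h1.mp (by omega)) h2
      · intro h2
        by_contra h3
        have := h1.mpr h3
        omega
    · obtain rfl : t = i + 1 := by omega
      exact ⟨fun _ => by omega, fun _ => ho.e2 i (by omega)⟩
  · -- type II
    push Not at hmono
    obtain ⟨i, hi, h1, h2⟩ := hmono
    have h3 : E (x i) (y t) := by
      by_contra h4
      exact h2 ((hx i (by omega)).mpr h4)
    set m := t - 1 with hm
    have hmt : m + 1 = t := by omega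
    have him : i + 1 < m := by omega
    -- the cycle
    let w : ℕ → V := fun j => if j ≤ i then x j else x (t + i - j)
    let r : ℕ → W := fun j => if j < i then y (j + 1) else if j + 1 = m then y 0 else y (t + i - j)
    have w1 : ∀ j, j ≤ i → w j = x j := fun j hj => if_pos hj
    have w2 : ∀ j, i < j → w j = x (t + i - j) := fun j hj => if_neg (by omega)
    have r1 : ∀ j, j < i → r j = y (j + 1) := fun j hj => if_pos hj
    have r2 : ∀ j, i ≤ j → j + 1 = m → r j = y 0 := fun j hj hj2 => by
      change (if j < i then y (j + 1) else if j + 1 = m then y 0 else y (t + i - j)) = y 0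
      rw [if_neg (by omega), if_pos hj2]
    have r3 : ∀ j, i ≤ j → j + 1 ≠ m → r j = y (t + i - j) := fun j hj hj2 => by
      change (if j < i then y (j + 1) else if j + 1 = m then y 0 else y (t + i - j)) = _
      rw [if_neg (by omega), if_neg hj2]
    -- indices
    have wi : ∀ j, j < m → ∃ a, w j = x a ∧ a < t ∧ a ≠ i + 1 ∧
        ((j ≤ i ∧ a = j) ∨ (i < j ∧ i + 2 ≤ a ∧ a + j = t + i)) := by
      intro j hj
      rcases Nat.lt_or_ge i j with h | h
      · exact ⟨t + i - j, w2 j h, by omega, by omega, Or.inr ⟨h, by omega, by omega⟩⟩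
      · exact ⟨j, w1 j h, by omega, by omega, Or.inl ⟨h, rfl⟩⟩
    have ri : ∀ j, j < m → ∃ a, r j = y a ∧ a ≤ t ∧ a ≠ i + 1 ∧ a ≠ i + 2 ∧
        ((j < i ∧ a = j + 1) ∨ (i ≤ j ∧ j + 1 = m ∧ a = 0) ∨
          (i ≤ j ∧ j + 1 < m ∧ i + 3 ≤ a ∧ a + j = t + i)) := by
      intro j hj
      rcases Nat.lt_or_ge j i with h | h
      · exact ⟨j + 1, r1 j h, by omega, by omega, by omega, Or.inl ⟨h, rfl⟩⟩
      · by_cases h4 : j + 1 = m
        · exact ⟨0, r2 j h h4, by omega, by omega, by omega, Or.inr (Or.inl ⟨h, h4, rfl⟩)⟩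
        · exact ⟨t + i - j, r3 j h h4, by omega, by omega, by omega,
            Or.inr (Or.inr ⟨h, by omega, by omega, by omega⟩)⟩
    have hcyc : IsCyc m E X Y w r := by
      refine ⟨?_, ?_, ?_, ?_, ?_, ?_⟩
      · intro j hj
        obtain ⟨a, ha, ha1, -⟩ := wi j hj
        rw [ha]
        exact ho.xX a ha1
      · intro j hj
        obtain ⟨a, ha, ha1, -⟩ := ri j hj
        rw [ha]
        exact ho.yY a ha1
      · intro j hj j' hj' hjj
        rw [Set.mem_Iio] at hj hj'
        obtain ⟨a, ha, ha1, -, ha2⟩ := wi j hj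
        obtain ⟨b, hb, hb1, -, hb2⟩ := wi j' hj'
        rw [ha, hb] at hjj
        have := xinj a b ha1 hb1 hjj
        omega
      · intro j hj j' hj' hjj
        rw [Set.mem_Iio] at hj hj'
        obtain ⟨a, ha, ha1, -, -, ha2⟩ := ri j hj
        obtain ⟨b, hb, hb1, -, -, hb2⟩ := ri j' hj'
        rw [ha, hb] at hjj
        have := yinj a b ha1 hb1 hjj
        omega
      · intro j hj
        rcases Nat.lt_trichotomy j i with h | h | h
        · rw [w1 j h.le, r1 j h]
          exact ho.e2 j (by omega)
        · subst h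
          rw [w1 j le_rfl, r3 j le_rfl (by omega), Nat.add_sub_cancel]
          exact h3
        · by_cases h4 : j + 1 = m
          · rw [w2 j h, r2 j h.le h4]
            have h5 : t + i - j = i + 2 := by omega
            rw [h5]
            exact h1
          · rw [w2 j h, r3 j h.le h4]
            exact ho.e1 _ (by omega)
      · intro j hj
        by_cases h4 : j + 1 = m
        · have h5 : nx m j = 0 := if_pos h4
          rw [h5, w1 0 (Nat.zero_le _), r2 j (by omega) h4]
          exact ho.e1 0 ht0
        · have h5 : nx m j = j + 1 := if_neg h4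
          rw [h5]
          rcases Nat.lt_trichotomy j i with h | h | h
          · rw [w1 (j + 1) h, r1 j h]
            exact ho.e1 (j + 1) (by omega)
          · subst h
            rw [w2 (j + 1) (by omega), r3 j le_rfl h4]
            have h6 := ho.e2 (t - 1) (by omega)
            have h7 : t + j - (j + 1) = t - 1 := by omega
            have h8 : t + j - j = t - 1 + 1 := by omega
            rw [h7, h8]
            exact h6
          · rw [w2 (j + 1) (by omega), r3 j h.le h4]
            have h6 := ho.e2 (t + i - (j + 1)) (by omega)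
            have h8 : t + i - j = t + i - (j + 1) + 1 := by omega
            rw [h8]
            exact h6
    refine odd_typeII hδ ht (m := m) (by omega) E X Y hY hno hnc w r hcyc (x (i + 1)) (y (i + 1))
      (y (i + 2)) (ho.xX _ (by omega)) (ho.yY _ (by omega)) (ho.yY _ (by omega)) ?_ ?_ ?_ ?_
      (ho.e1 _ (by omega)) (ho.e2 _ (by omega)) i (m - 1) (by omega) (by omega) ?_ ?_
    · intro h4
      have := yinj (i + 1) (i + 2) (by omega) (by omega) h4
      omega
    · intro j hj h4
      obtain ⟨a, ha, ha1, ha2, -⟩ := wi j hj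
      rw [ha] at h4
      exact ha2 (xinj _ _ (by omega) ha1 h4).symm
    · intro j hj h4
      obtain ⟨a, ha, ha1, ha2, -, -⟩ := ri j hj
      rw [ha] at h4
      exact ha2 (yinj _ _ (by omega) ha1 h4).symm
    · intro j hj h4
      obtain ⟨a, ha, ha1, -, ha2, -⟩ := ri j hj
      rw [ha] at h4
      exact ha2 (yinj _ _ (by omega) ha1 h4).symm
    · rw [w1 i le_rfl]
      exact ho.e2 i (by omega)
    · rw [w2 (m - 1) (by omega)]
      have h5 : t + i - (m - 1) = i + 2 := by omega
      rw [h5]
      exact ho.e1 _ (by omega)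

end H22CK
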