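import Pool.Agent.H22.CK.L0
import Pool.Agent.H22.CK.L1
import Pool.Agent.H22.CK.L2
import Pool.Agent.H22.CK.L34
import Pool.Agent.H22.CK.L8

/-! L9 of PROJECT CK: the structure theorem. -/

set_option autoImplicit false

namespace H22CK

variable {V W : Type*}

theorem dR_fl {E : V → W → Prop} {X : Finset V} {y : W} : dR (fl E) X y = dL E X y := rfl

theorem dL_fl {E : V → W → Prop} {Y : Finset W} {x : V} : dL (fl E) Y x = dR E Y x := rfl

theorem closed_fl {E : V → W → Prop} {X : Finset V} {Y : Finset W} {X0 : Finset V}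
    {Y0 : Finset W} (h : Closed (fl E) Y X Y0 X0) : Closed E X Y X0 Y0 where
  hX := h.hY
  hY := h.hX
  nX := h.nY
  nY := h.nX
  c1 := fun x hx y hy hE => h.c2 x hx y hy hE
  c2 := fun y hy x hx hE => h.c1 y hy x hx hE

theorem hasPath_mono {s t : ℕ} (hst : s ≤ t) {E : V → W → Prop} {X : Finset V} {Y : Finset W}
    (h : HasPath t E X Y) : HasPath s E X Y := by
  obtain ⟨p, c, hp, hc, hXY, h1, h2⟩ := h
  exact ⟨p, c, hp.mono (Set.Iio_subset_Iio hst), hc.mono (Set.Iio_subset_Iio hst),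
    fun i hi => hXY i (by omega), fun i hi => h1 i (by omega), fun i hi => h2 i (by omega)⟩

theorem exists_dL {E : V → W → Prop} {X : Finset V} {y : W} {a : V} (h : 2 ≤ dL E X y) :
    ∃ x ∈ X, E x y ∧ x ≠ a := by
  classical
  unfold dL at h
  have h1 : 1 < (X.filter (fun x => E x y)).card := by
    have e : (X.filter (fun x => E x y)).card =
      (@Finset.filter V (fun x => E x y) (fun a => Classical.propDecidable _) X).card := by
      congr
    omega
  obtain ⟨b, hb, hba⟩ := Finset.exists_mem_ne h1 a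
  simp only [Finset.mem_filter] at hb
  exact ⟨b, hb.1, hb.2, hba⟩

theorem exists_dR {E : V → W → Prop} {Y : Finset W} {x : V} {a : W} (h : 2 ≤ dR E Y x) :
    ∃ y ∈ Y, E x y ∧ y ≠ a :=
  exists_dL (E := fl E) (X := Y) (y := x) (a := a) h

theorem hasPath_two {δ : ℕ} (hδ : 2 ≤ δ) (E : V → W → Prop)
    (X : Finset V) (Y : Finset W) (hne : X.Nonempty ∨ Y.Nonempty)
    (hX : ∀ x ∈ X, δ ≤ dR E Y x) (hY : ∀ y ∈ Y, δ ≤ dL E X y) : HasPath 2 E X Y := by
  classical
  have key : ∃ x ∈ X, ∃ y ∈ Y, E x y := by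
    rcases hne with ⟨x, hx⟩ | ⟨y, hy⟩
    · have h2 : 2 ≤ dR E Y x := hδ.trans (hX x hx)
      have : ∃ y ∈ Y, E x y := by
        by_contra hcon
        push Not at hcon
        have : dR E Y x = 0 := by
          unfold dR
          rw [Finset.card_eq_zero, Finset.filter_eq_empty_iff]
          exact fun y hy => hcon y hy
        omega
      obtain ⟨y, hy, hE⟩ := this
      exact ⟨x, hx, y, hy, hE⟩
    · have h2 : 2 ≤ dL E X y := hδ.trans (hY y hy)
      have : ∃ x ∈ X, E x y := by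
        by_contra hcon
        push Not at hcon
        have : dL E X y = 0 := by
          unfold dL
          rw [Finset.card_eq_zero, Finset.filter_eq_empty_iff]
          exact fun y hy => hcon y hy
        omega
      obtain ⟨x, hx, hE⟩ := this
      exact ⟨x, hx, y, hy, hE⟩
  obtain ⟨x0, hx0, y0, hy0, hE⟩ := key
  obtain ⟨x1, hx1, hE1, hne1⟩ := exists_dL (a := x0) (hδ.trans (hY y0 hy0))
  obtain ⟨y1, hy1, hE2, hne2⟩ := exists_dR (a := y0) (hδ.trans (hX x0 hx0))
  refine ⟨fun i => if i = 0 then x1 else x0, fun i => if i = 0 then y0 else y1,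
    ?_, ?_, ?_, ?_, ?_⟩
  · intro a ha b hb hab
    have ha' : a < 2 := ha
    have hb' : b < 2 := hb
    simp only at hab
    split_ifs at hab with h1 h2 h2
    · omega
    · exact absurd hab hne1
    · exact absurd hab.symm hne1
    · omega
  · intro a ha b hb hab
    have ha' : a < 2 := ha
    have hb' : b < 2 := hb
    simp only at hab
    split_ifs at hab with h1 h2 h2
    · omega
    · exact absurd hab.symm hne2
    · exact absurd hab hne2
    · omega
  · intro i hi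
    refine ⟨?_, ?_⟩
    · show (if i = 0 then x1 else x0) ∈ X
      split_ifs <;> assumption
    · show (if i = 0 then y0 else y1) ∈ Y
      split_ifs <;> assumption
  · intro i hi
    show E (if i = 0 then x1 else x0) (if i = 0 then y0 else y1)
    split_ifs <;> assumption
  · intro i hi
    have : i = 0 := by omega
    subst this
    show E (if 0 + 1 = 0 then x1 else x0) (if 0 = 0 then y0 else y1)
    simpa using hE

/-- the case of a longest path that is odd, with ends on the right -/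
theorem structure_odd [DecidableEq V] [DecidableEq W] {k δ t : ℕ} (hδ : 2 ≤ δ)
    (hk : k + 1 = 2 * δ ∨ k = 2 * δ) (E : V → W → Prop)
    (X : Finset V) (Y : Finset W)
    (hX : ∀ x ∈ X, δ ≤ dR E Y x) (hY : ∀ y ∈ Y, δ ≤ dL E X y)
    (ht2 : 2 ≤ t) (htk : t < k) (hno : ¬ HasPath (t + 1) E X Y)
    (ho : ∃ x y, IsOdd t E X Y x y) :
    (∃ X0 Y0, Closed E X Y X0 Y0 ∧ (X0.card + 1 ≤ k ∨ Y0.card + 1 ≤ k)) ∨
    (k = 2 * δ ∧
      (∃ x0 ∈ X, ∃ N, N ⊆ X ∧ N.card = δ ∧ ∀ z ∈ Y, E x0 z → ∀ w ∈ X, (E w z ↔ w ∈ N))) := by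
  obtain ⟨x, y, ho⟩ := ho
  by_cases hcyc : ∃ x' y', IsCyc t E X Y x' y'
  · obtain ⟨x', y', hc⟩ := hcyc
    obtain ⟨X0, Y0, h0, h1⟩ := cyc_closed hδ ht2 (by omega) E X Y hX hY x' y' hc hno
    exact Or.inl ⟨X0, Y0, h0, by omega⟩
  · by_cases ht : t + 2 ≤ 2 * δ
    · exact absurd (odd_cyc hδ ht E X Y hY x y ho hno) hcyc
    · right
      refine ⟨by omega, ?_⟩
      exact odd_special hδ (by omega) E X Y hY hno hcyc x y ho

/-- L9 (structure; from L0, L1, L2, L4, L8) -/
theorem structure_thm [DecidableEq V] [DecidableEq W] {k δ : ℕ} (hδ : 2 ≤ δ)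
    (hk : k + 1 = 2 * δ ∨ k = 2 * δ) (E : V → W → Prop)
    (X : Finset V) (Y : Finset W) (hne : X.Nonempty ∨ Y.Nonempty)
    (hX : ∀ x ∈ X, δ ≤ dR E Y x) (hY : ∀ y ∈ Y, δ ≤ dL E X y)
    (hno : ¬ HasPath k E X Y) :
    (∃ X0 Y0, Closed E X Y X0 Y0 ∧ (X0.card + 1 ≤ k ∨ Y0.card + 1 ≤ k)) ∨
    (k = 2 * δ ∧
      ((∃ x0 ∈ X, ∃ N, N ⊆ X ∧ N.card = δ ∧ ∀ z ∈ Y, E x0 z → ∀ w ∈ X, (E w z ↔ w ∈ N)) ∨
       (∃ y0 ∈ Y, ∃ N, N ⊆ Y ∧ N.card = δ ∧ ∀ z ∈ X, E z y0 → ∀ w ∈ Y, (E z w ↔ w ∈ N)))) := by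
  classical
  -- the largest `t` with a path
  have h2 : HasPath 2 E X Y := hasPath_two hδ E X Y hne hX hY
  obtain ⟨t, ht2, htk, hPt, hno'⟩ : ∃ t, 2 ≤ t ∧ t < k ∧ HasPath t E X Y ∧
      ¬ HasPath (t + 1) E X Y := by
    have hlt : ∀ t, HasPath t E X Y → t < k := by
      intro t h
      by_contra hcon
      exact hno (hasPath_mono (by omega) h)
    by_contra hcon
    push Not at hcon
    have all : ∀ j, HasPath (2 + j) E X Y := by
      intro j
      induction j with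
      | zero => exact h2
      | succ j ih => exact hcon (2 + j) (by omega) (hlt _ ih) ih
    have := hlt _ (all k)
    omega
  by_cases ho1 : ∃ x y, IsOdd t E X Y x y
  · rcases structure_odd hδ hk E X Y hX hY ht2 htk hno' ho1 with h | ⟨hk2, h⟩
    · exact Or.inl h
    · exact Or.inr ⟨hk2, Or.inl h⟩
  · by_cases ho2 : ∃ y x, IsOdd t (fl E) Y X y x
    · rcases structure_odd hδ hk (fl E) Y X (fun y hy => hY y hy) (fun x hx => hX x hx) ht2 htk
        (fun h => hno' (hasPath_fl.1 h)) ho2 with ⟨Y0, X0, h, h'⟩ | ⟨hk2, h⟩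
      · exact Or.inl ⟨X0, Y0, closed_fl h, h'.symm⟩
      · exact Or.inr ⟨hk2, Or.inr h⟩
    · obtain ⟨X0, Y0, h, h'⟩ := even_closed hδ (by omega) (by omega) E X Y hX hY hPt ho1 ho2
      exact Or.inl ⟨X0, Y0, h, Or.inl (by omega)⟩

end H22CK
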