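import Pool.Agent.H22.CK.A1
import Pool.Agent.H22.CK.B3

set_option autoImplicit false

namespace H22CK

variable {V W : Type*}

theorem CPair.mono {k : ℕ} {E : V → W → Prop} {X X' : Finset V} {Y Y' : Finset W} (hX : X ⊆ X')
    (hY : Y ⊆ Y') {u v : W} (h : CPair k E X Y u v) : CPair k E X' Y' u v := by
  obtain ⟨huv, S, T, hS, hT, hc, hu, hv⟩ := h
  exact ⟨huv, S, T, hS.trans hX, hT.trans hY, hc, hu, hv⟩

theorem cp_mono {k : ℕ} {E : V → W → Prop} {X X' : Finset V} {Y Y' : Finset W} (hX : X ⊆ X')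
    (hY : Y ⊆ Y') : cp k E X Y ≤ cp k E X' Y' := by
  classical
  unfold cp
  apply Finset.card_le_card
  intro q hq
  simp only [Finset.mem_filter, Finset.mem_product] at hq ⊢
  exact ⟨⟨hY hq.1.1, hY hq.1.2⟩, hq.2.mono hX hY⟩

/-- core pairs of a sub-pair and the ordered pairs of a core which is disjoint from it -/
theorem cp_add_core {k : ℕ} {E : V → W → Prop} {X X' : Finset V} {Y Y' : Finset W} (hX : X' ⊆ X)
    (hY : Y' ⊆ Y) {S : Finset V} {T : Finset W} (hS : S ⊆ X) (hT : T ⊆ Y) (hc : IsCore k E S T)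
    (hd : Disjoint Y' T) :
    (cp k E X' Y' : ℝ) + (T.card : ℝ) * ((T.card : ℝ) - 1) ≤ cp k E X Y := by
  classical
  have h1 : cp k E X' Y' + T.offDiag.card ≤ cp k E X Y := by
    unfold cp
    rw [← Finset.card_union_of_disjoint]
    · apply Finset.card_le_card
      intro q hq
      simp only [Finset.mem_union, Finset.mem_filter, Finset.mem_product, Finset.mem_offDiag] at hq ⊢
      rcases hq with hq | hq
      · exact ⟨⟨hY hq.1.1, hY hq.1.2⟩, hq.2.mono hX hY⟩
      · exact ⟨⟨hT hq.1, hT hq.2.1⟩, hq.2.2, S, T, hS, hT, hc, hq.1, hq.2.1⟩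
    · rw [Finset.disjoint_left]
      intro q hq hq'
      simp only [Finset.mem_filter, Finset.mem_product, Finset.mem_offDiag] at hq hq'
      exact Finset.disjoint_left.1 hd hq.1.1 hq'.1
  have h2 : (T.offDiag.card : ℝ) = (T.card : ℝ) * ((T.card : ℝ) - 1) := by
    rw [Finset.offDiag_card, Nat.cast_sub (Nat.le_mul_self _)]
    push_cast
    ring
  rw [← h2]
  exact_mod_cast h1

/-- P1 removing a small closed pair -/
theorem step_closed [DecidableEq V] [DecidableEq W] {k δ : ℕ} (hk : 4 ≤ k)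
    (hδ : k + 1 = 2 * δ ∨ k = 2 * δ) (E : V → W → Prop)
    (X : Finset V) (Y : Finset W) (hY : ∀ y ∈ Y, δ ≤ dL E X y)
    (X0 : Finset V) (Y0 : Finset W) (hc : Closed E X Y X0 Y0) (hs : X0.card + 1 ≤ k)
    (ih : mu k * ed E (X \ X0) (Y \ Y0) ≤ (X \ X0).card + (Y \ Y0).card +
      lam k / 2 * (cp k E (X \ X0) (Y \ Y0) + cp k (fl E) (Y \ Y0) (X \ X0))) :
    mu k * ed E X Y ≤ X.card + Y.card + lam k / 2 * (cp k E X Y + cp k (fl E) Y X) := by
  classical
  have hl := (const_facts hk).1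
  have hdeg : ∀ t ∈ Y0, δ ≤ dL E X0 t := by
    intro t ht
    refine (hY t (hc.hY ht)).trans ?_
    unfold dL
    apply Finset.card_le_card
    intro x hx
    simp only [Finset.mem_filter] at hx ⊢
    exact ⟨hc.c2 t ht x hx.1 hx.2, hx.2⟩
  obtain ⟨S', T', hS', hT', hcore, hw⟩ := weight_closed hk hδ E X0 Y0 hc.nY hs hdeg
  have hed : ed E X Y = ed E X0 Y0 + ed E (X \ X0) (Y \ Y0) := by
    unfold ed
    rw [← Finset.card_union_of_disjoint]
    · congr 1
      ext q
      simp only [Finset.mem_union, Finset.mem_filter, Finset.mem_product, Finset.mem_sdiff]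
      constructor
      · rintro ⟨⟨hx, hy⟩, he⟩
        by_cases h0 : q.1 ∈ X0
        · exact Or.inl ⟨⟨h0, hc.c1 _ h0 _ hy he⟩, he⟩
        · refine Or.inr ⟨⟨⟨hx, h0⟩, hy, fun h => h0 (hc.c2 _ h _ hx he)⟩, he⟩
      · rintro (⟨⟨hx, hy⟩, he⟩ | ⟨⟨hx, hy⟩, he⟩)
        · exact ⟨⟨hc.hX hx, hc.hY hy⟩, he⟩
        · exact ⟨⟨hx.1, hy.1⟩, he⟩
    · rw [Finset.disjoint_left]
      intro q hq hq'
      simp only [Finset.mem_filter, Finset.mem_product, Finset.mem_sdiff] at hq hq'
      exact hq'.1.1.2 hq.1.1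
  have hcp1 := cp_add_core (k := k) (E := E) (X := X) (X' := X \ X0) (Y := Y) (Y' := Y \ Y0)
    Finset.sdiff_subset Finset.sdiff_subset (hS'.trans hc.hX) (hT'.trans hc.hY) hcore
    (by
      rw [Finset.disjoint_left]
      intro y hy hy'
      exact (Finset.mem_sdiff.1 hy).2 (hT' hy'))
  have hcp2 : (cp k (fl E) (Y \ Y0) (X \ X0) : ℝ) ≤ cp k (fl E) Y X := by
    have := cp_mono (k := k) (E := fl E) (X := Y \ Y0) (X' := Y) (Y := X \ X0) (Y' := X)
      Finset.sdiff_subset Finset.sdiff_subset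
    exact_mod_cast this
  have hX : (X.card : ℝ) = X0.card + (X \ X0).card := by
    have := Finset.card_sdiff_add_card_eq_card hc.hX
    rw [← this]; push_cast; ring
  have hY' : (Y.card : ℝ) = Y0.card + (Y \ Y0).card := by
    have := Finset.card_sdiff_add_card_eq_card hc.hY
    rw [← this]; push_cast; ring
  rw [hed, hX, hY']
  push_cast
  have := mul_le_mul_of_nonneg_left (add_le_add hcp1 hcp2) (by positivity : 0 ≤ lam k / 2)
  nlinarith [this, hw, ih]

end H22CK
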