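import Pool.Agent.H22.CK.A2
import Pool.Agent.H22.CK.P1

set_option autoImplicit false

namespace H22CK

variable {V W : Type*}

/-- P2 removing a special star -/
theorem step_star [DecidableEq V] [DecidableEq W] {k δ : ℕ} (hk : 4 ≤ k)
    (hδ : k = 2 * δ) (E : V → W → Prop)
    (X : Finset V) (Y : Finset W)
    (x0 : V) (hx0 : x0 ∈ X) (N : Finset V) (hN : N ⊆ X) (hNc : N.card = δ) (Y' : Finset W)
    (hY' : ∀ z, z ∈ Y' ↔ z ∈ Y ∧ E x0 z)
    (h : ∀ z ∈ Y, E x0 z → ∀ w ∈ X, (E w z ↔ w ∈ N))
    (ih : mu k * ed E (X.erase x0) (Y \ Y') ≤ (X.erase x0).card + (Y \ Y').card +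
      lam k / 2 * (cp k E (X.erase x0) (Y \ Y') + cp k (fl E) (Y \ Y') (X.erase x0))) :
    mu k * ed E X Y ≤ X.card + Y.card + lam k / 2 * (cp k E X Y + cp k (fl E) Y X) := by
  classical
  have hl := (const_facts hk).1
  obtain ⟨a1, -, a3, a4, -⟩ := const_facts_even hk hδ
  have hYY : Y' ⊆ Y := fun z hz => ((hY' z).1 hz).1
  have hed : ed E X Y = ed E (X.erase x0) (Y \ Y') + δ * Y'.card := by
    have h1 : ed E X Y = ed E X Y' + ed E X (Y \ Y') := by
      unfold ed
      rw [← Finset.card_union_of_disjoint]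
      · congr 1
        ext q
        simp only [Finset.mem_union, Finset.mem_filter, Finset.mem_product, Finset.mem_sdiff]
        constructor
        · rintro ⟨⟨hx, hy⟩, he⟩
          by_cases h0 : q.2 ∈ Y'
          · exact Or.inl ⟨⟨hx, h0⟩, he⟩
          · exact Or.inr ⟨⟨hx, hy, h0⟩, he⟩
        · rintro (⟨⟨hx, hy⟩, he⟩ | ⟨⟨hx, hy⟩, he⟩)
          · exact ⟨⟨hx, hYY hy⟩, he⟩
          · exact ⟨⟨hx, hy.1⟩, he⟩
      · rw [Finset.disjoint_left]
        intro q hq hq'
        simp only [Finset.mem_filter, Finset.mem_product, Finset.mem_sdiff] at hq hq'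
        exact hq'.1.2.2 hq.1.2
    have h2 : ed E X Y' = δ * Y'.card := by
      have : ((X ×ˢ Y').filter (fun q => E q.1 q.2)) = N ×ˢ Y' := by
        ext q
        simp only [Finset.mem_filter, Finset.mem_product]
        constructor
        · rintro ⟨⟨hx, hy⟩, he⟩
          have := (hY' _).1 hy
          exact ⟨(h _ this.1 this.2 _ hx).1 he, hy⟩
        · rintro ⟨hx, hy⟩
          have := (hY' _).1 hy
          exact ⟨⟨hN hx, hy⟩, (h _ this.1 this.2 _ (hN hx)).2 hx⟩
      unfold ed
      rw [this, Finset.card_product, hNc]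
    have h3 : ed E X (Y \ Y') = ed E (X.erase x0) (Y \ Y') := by
      unfold ed
      congr 1
      ext q
      simp only [Finset.mem_filter, Finset.mem_product, Finset.mem_sdiff, Finset.mem_erase]
      constructor
      · rintro ⟨⟨hx, hy⟩, he⟩
        refine ⟨⟨⟨?_, hx⟩, hy⟩, he⟩
        intro hx0'
        rw [hx0'] at he
        exact hy.2 ((hY' _).2 ⟨hy.1, he⟩)
      · rintro ⟨⟨hx, hy⟩, he⟩
        exact ⟨⟨hx.2, hy⟩, he⟩
    rw [h1, h2, h3]; ring
  have hX : (X.card : ℝ) = (X.erase x0).card + 1 := by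
    have := Finset.card_erase_add_one hx0
    rw [← this]; push_cast; ring
  have hY2 : (Y.card : ℝ) = Y'.card + (Y \ Y').card := by
    have := Finset.card_sdiff_add_card_eq_card hYY
    rw [← this]; push_cast; ring
  have hcp2 : (cp k (fl E) (Y \ Y') (X.erase x0) : ℝ) ≤ cp k (fl E) Y X := by
    have := cp_mono (k := k) (E := fl E) (X := Y \ Y') (X' := Y) (Y := X.erase x0) (Y' := X)
      Finset.sdiff_subset (Finset.erase_subset _ _)
    exact_mod_cast this
  have hcp0 : (cp k E (X.erase x0) (Y \ Y') : ℝ) ≤ cp k E X Y := by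
    have := cp_mono (k := k) (E := E) (X := X.erase x0) (X' := X) (Y := Y \ Y') (Y' := Y)
      (Finset.erase_subset _ _) Finset.sdiff_subset
    exact_mod_cast this
  have hl2 : 0 ≤ lam k / 2 := by positivity
  rw [hed, hX, hY2]
  push_cast
  by_cases hb : Y'.card ≤ k
  · have h1 : (mu k * δ - 1) * (Y'.card : ℝ) ≤ 1 := by
      have : (Y'.card : ℝ) ≤ k := by exact_mod_cast hb
      nlinarith
    have := mul_le_mul_of_nonneg_left (add_le_add hcp0 hcp2) hl2
    nlinarith [this, h1, ih]
  · push Not at hb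
    have hcore : IsCore k E N Y' := by
      refine ⟨?_, ?_, ?_⟩
      · rw [hNc]; omega
      · intro t ht
        have h4 := (hY' _).1 ht
        have : N.filter (fun x => E x t) = N := by
          apply Finset.filter_true_of_mem
          intro x hx
          exact (h _ h4.1 h4.2 _ (hN hx)).2 hx
        unfold dL
        rw [this, hNc]; omega
      · intro x hx
        have : Y'.filter (fun t => E x t) = Y' := by
          apply Finset.filter_true_of_mem
          intro t ht
          have h4 := (hY' _).1 ht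
          exact (h _ h4.1 h4.2 _ (hN hx)).2 hx
        unfold dR
        rw [this]; exact hb.le
    have hcp1 := cp_add_core (k := k) (E := E) (X := X) (X' := X.erase x0) (Y := Y) (Y' := Y \ Y')
      (Finset.erase_subset _ _) Finset.sdiff_subset hN hYY hcore
      (by
        rw [Finset.disjoint_left]
        intro y hy hy'
        exact (Finset.mem_sdiff.1 hy).2 hy')
    have hbR : (k : ℝ) ≤ (Y'.card : ℝ) - 1 := by
      have : ((k + 1 : ℕ) : ℝ) ≤ Y'.card := by exact_mod_cast hb
      push_cast at this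
      linarith
    have h5 : (mu k * δ - 1) * (Y'.card : ℝ) ≤ lam k / 2 * ((Y'.card : ℝ) * ((Y'.card : ℝ) - 1)) := by
      have h6 : (mu k * δ - 1) * (Y'.card : ℝ) ≤ (lam k / 2 * k) * (Y'.card : ℝ) :=
        mul_le_mul_of_nonneg_right a4 (by positivity)
      have h7 : (lam k / 2 * k) * (Y'.card : ℝ) ≤ lam k / 2 * ((Y'.card : ℝ) * ((Y'.card : ℝ) - 1)) := by
        have : (Y'.card : ℝ) * k ≤ (Y'.card : ℝ) * ((Y'.card : ℝ) - 1) :=
          mul_le_mul_of_nonneg_left hbR (by positivity)
        nlinarith [mul_le_mul_of_nonneg_left this hl2]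
      linarith
    have := mul_le_mul_of_nonneg_left (add_le_add hcp1 hcp2) hl2
    nlinarith [this, h5, ih]

end H22CK
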