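import Pool.Agent.H22.CK.L0
import Pool.Agent.H22.CK.L9
import Pool.Agent.H22.CK.P1
import Pool.Agent.H22.CK.P2

set_option autoImplicit false

namespace H22CK

theorem ed_fl {V W : Type*} (E : V → W → Prop) (X : Finset V) (Y : Finset W) :
    ed (fl E) Y X = ed E X Y := by
  classical
  unfold ed
  refine Finset.card_bij' (fun q _ => (q.2, q.1)) (fun q _ => (q.2, q.1)) ?_ ?_ ?_ ?_
  · intro q hq
    simp only [Finset.mem_filter, Finset.mem_product] at hq ⊢
    exact ⟨⟨hq.1.2, hq.1.1⟩, hq.2⟩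
  · intro q hq
    simp only [Finset.mem_filter, Finset.mem_product] at hq ⊢
    exact ⟨⟨hq.1.2, hq.1.1⟩, hq.2⟩
  · intro q _; rfl
  · intro q _; rfl

theorem HasPath.mono {V W : Type*} {k : ℕ} {E : V → W → Prop} {X X' : Finset V} {Y Y' : Finset W}
    (hX : X ⊆ X') (hY : Y ⊆ Y') (h : HasPath k E X Y) : HasPath k E X' Y' := by
  obtain ⟨p, c, hp, hc, h1, h2, h3⟩ := h
  exact ⟨p, c, hp, hc, fun i hi => ⟨hX (h1 i hi).1, hY (h1 i hi).2⟩, h2, h3⟩

theorem Closed.flip {V W : Type*} {E : V → W → Prop} {X X0 : Finset V} {Y Y0 : Finset W}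
    (h : Closed E X Y X0 Y0) : Closed (fl E) Y X Y0 X0 :=
  ⟨h.hY, h.hX, h.nY, h.nX, fun y hy x hx he => h.c2 y hy x hx he, fun x hx y hy he => h.c1 x hx y hy he⟩

/-- the inequality -/
def Ineq {V : Type*} (k : ℕ) (E : V → V → Prop) (X Y : Finset V) : Prop :=
  mu k * ed E X Y ≤ X.card + Y.card + lam k / 2 * (cp k E X Y + cp k (fl E) Y X)

theorem Ineq.flip {V : Type*} {k : ℕ} {E : V → V → Prop} {X Y : Finset V}
    (h : Ineq k (fl E) Y X) : Ineq k E X Y := by
  unfold Ineq at h ⊢
  rw [ed_fl] at h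
  have : fl (fl E) = E := rfl
  rw [this] at h
  linarith

/-- removing a left vertex of small degree -/
theorem step_low {V : Type*} [DecidableEq V] {k δ : ℕ} (hk : 4 ≤ k)
    (hδ : k + 1 = 2 * δ ∨ k = 2 * δ) (E : V → V → Prop) (X Y : Finset V) (x : V) (hx : x ∈ X)
    (hd : dR E Y x < δ) (ih : Ineq k E (X.erase x) Y) : Ineq k E X Y := by
  classical
  obtain ⟨hl, hm, -, hm2, -⟩ := const_facts hk
  unfold Ineq at ih ⊢
  have hed : ed E X Y = ed E (X.erase x) Y + dR E Y x := by
    have h1 : ((X ×ˢ Y).filter (fun q => E q.1 q.2)) =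
        (((X.erase x) ×ˢ Y).filter (fun q => E q.1 q.2)) ∪
          ((Y.filter (fun t => E x t)).image (fun t => (x, t))) := by
      ext q
      simp only [Finset.mem_filter, Finset.mem_product, Finset.mem_union, Finset.mem_erase,
        Finset.mem_image]
      constructor
      · rintro ⟨⟨hqx, hy⟩, he⟩
        by_cases h0 : q.1 = x
        · right
          refine ⟨q.2, ⟨hy, h0 ▸ he⟩, ?_⟩
          rw [← h0]
        · exact Or.inl ⟨⟨⟨h0, hqx⟩, hy⟩, he⟩
      · rintro (⟨⟨hqx, hy⟩, he⟩ | ⟨t, ⟨ht, he⟩, rfl⟩)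
        · exact ⟨⟨hqx.2, hy⟩, he⟩
        · exact ⟨⟨hx, ht⟩, he⟩
    unfold ed dR
    rw [h1, Finset.card_union_of_disjoint, Finset.card_image_of_injective]
    · intro a b hab
      exact (Prod.mk.inj hab).2
    · rw [Finset.disjoint_left]
      intro q hq hq'
      simp only [Finset.mem_filter, Finset.mem_product, Finset.mem_erase, Finset.mem_image] at hq hq'
      obtain ⟨t, -, rfl⟩ := hq'
      exact hq.1.1.1 rfl
  have hX : (X.card : ℝ) = (X.erase x).card + 1 := by
    have := Finset.card_erase_add_one hx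
    rw [← this]; push_cast; ring
  have hcp2 : (cp k (fl E) Y (X.erase x) : ℝ) ≤ cp k (fl E) Y X := by
    have := cp_mono (k := k) (E := fl E) (X := Y) (X' := Y) (Y := X.erase x) (Y' := X)
      (Finset.Subset.refl _) (Finset.erase_subset _ _)
    exact_mod_cast this
  have hcp0 : (cp k E (X.erase x) Y : ℝ) ≤ cp k E X Y := by
    have := cp_mono (k := k) (E := E) (X := X.erase x) (X' := X) (Y := Y) (Y' := Y)
      (Finset.erase_subset _ _) (Finset.Subset.refl _)
    exact_mod_cast this
  have h1 : mu k * (dR E Y x : ℝ) ≤ 1 := by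
    have h2 : 2 * (dR E Y x : ℝ) ≤ (k : ℝ) - 1 := by
      have : 2 * dR E Y x + 1 ≤ k := by omega
      have : ((2 * dR E Y x + 1 : ℕ) : ℝ) ≤ k := by exact_mod_cast this
      push_cast at this
      linarith
    nlinarith [mul_le_mul_of_nonneg_left h2 hm.le]
  have hl2 : 0 ≤ lam k / 2 := by positivity
  have := mul_le_mul_of_nonneg_left (add_le_add hcp0 hcp2) hl2
  rw [hed, hX]
  push_cast
  nlinarith [this, h1, ih]

theorem per_colour_aux {V : Type*} [DecidableEq V] {k δ : ℕ} (hk : 4 ≤ k)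
    (hδ : k + 1 = 2 * δ ∨ k = 2 * δ) (n : ℕ) :
    ∀ (E : V → V → Prop) (X Y : Finset V), X.card + Y.card = n → ¬ HasPath k E X Y →
      Ineq k E X Y := by
  classical
  induction n using Nat.strong_induction_on with
  | _ n ihn =>
  intro E X Y hn hno
  obtain ⟨hl, hm, -, hm2, -⟩ := const_facts hk
  by_cases hne : X.Nonempty ∨ Y.Nonempty
  swap
  · push Not at hne
    have hX : X = ∅ := hne.1
    have hY : Y = ∅ := hne.2
    subst hX; subst hY
    unfold Ineq
    have : ed E (∅ : Finset V) (∅ : Finset V) = 0 := by unfold ed; simp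
    rw [this]
    have : 0 ≤ lam k / 2 := by positivity
    simp only [Nat.cast_zero, mul_zero, Finset.card_empty, zero_add]
    positivity
  by_cases hX : ∀ x ∈ X, δ ≤ dR E Y x
  swap
  · push Not at hX
    obtain ⟨x, hx, hd⟩ := hX
    refine step_low hk hδ E X Y x hx hd ?_
    refine ihn _ ?_ E (X.erase x) Y rfl (fun h => hno (h.mono (Finset.erase_subset _ _) (Finset.Subset.refl _)))
    have := Finset.card_erase_add_one hx
    omega
  by_cases hY : ∀ y ∈ Y, δ ≤ dL E X y
  swap
  · push Not at hY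
    obtain ⟨y, hy, hd⟩ := hY
    refine Ineq.flip (step_low hk hδ (fl E) Y X y hy hd ?_)
    refine ihn _ ?_ (fl E) (Y.erase y) X rfl
      (fun h => hno ((hasPath_fl.1 h).mono (Finset.Subset.refl _) (Finset.erase_subset _ _)))
    have := Finset.card_erase_add_one hy
    omega
  have hδ2 : 2 ≤ δ := by omega
  rcases structure_thm hδ2 hδ E X Y hne hX hY hno with ⟨X0, Y0, hc, hs⟩ | ⟨hk2, hst⟩
  · have hcX := Finset.card_sdiff_add_card_eq_card hc.hX
    have hcY := Finset.card_sdiff_add_card_eq_card hc.hY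
    have hnX := Finset.card_pos.2 hc.nX
    rcases hs with hs | hs
    · refine step_closed hk hδ E X Y hY X0 Y0 hc hs ?_
      exact ihn _ (by omega) E (X \ X0) (Y \ Y0) rfl
        (fun h => hno (h.mono Finset.sdiff_subset Finset.sdiff_subset))
    · refine Ineq.flip (step_closed hk hδ (fl E) Y X hX Y0 X0 hc.flip hs ?_)
      exact ihn _ (by omega) (fl E) (Y \ Y0) (X \ X0) rfl
        (fun h => hno ((hasPath_fl.1 h).mono Finset.sdiff_subset Finset.sdiff_subset))
  · rcases hst with ⟨x0, hx0, N, hN, hNc, h⟩ | ⟨y0, hy0, N, hN, hNc, h⟩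
    · have hcX := Finset.card_erase_add_one hx0
      have hcY : (Y \ Y.filter (fun z => E x0 z)).card ≤ Y.card := Finset.card_le_card Finset.sdiff_subset
      refine step_star hk hk2 E X Y x0 hx0 N hN hNc (Y.filter (fun z => E x0 z)) (by simp) h ?_
      exact ihn _ (by omega) E (X.erase x0) _ rfl
        (fun h => hno (h.mono (Finset.erase_subset _ _) Finset.sdiff_subset))
    · have hcY := Finset.card_erase_add_one hy0
      have hcX : (X \ X.filter (fun z => E z y0)).card ≤ X.card := Finset.card_le_card Finset.sdiff_subset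
      refine Ineq.flip (step_star hk hk2 (fl E) Y X y0 hy0 N hN hNc (X.filter (fun z => E z y0))
        (by simp [fl]) (fun z hz he w hw => h z hz he w hw) ?_)
      exact ihn _ (by omega) (fl E) (Y.erase y0) _ rfl
        (fun h => hno ((hasPath_fl.1 h).mono Finset.sdiff_subset (Finset.erase_subset _ _)))

/-- P3 the inequality for one colour (strong induction on `|X| + |Y|`; from L0, L9, P1, P2 and their
versions with the sides exchanged; vertices of degree `≤ δ - 1` are removed first) -/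
theorem per_colour {V : Type*} {k : ℕ} (hk : 4 ≤ k) (E : V → V → Prop) (X Y : Finset V)
    (hno : ¬ HasPath k E X Y) :
    mu k * ed E X Y ≤ X.card + Y.card + lam k / 2 * (cp k E X Y + cp k (fl E) Y X) := by
  classical
  exact per_colour_aux hk (δ := (k + 1) / 2) (by omega) _ E X Y rfl hno

end H22CK
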