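import Pool.Agent.H22.CK.L0
import Pool.Agent.H22.CK.A1
import Pool.Agent.H22.CK.F1
import Pool.Agent.H22.CK.F2
import Pool.Agent.H22.CK.P3

/-! F3 of PROJECT CK: the bound. -/

set_option autoImplicit false

namespace H22CK

theorem sum_ed {n m : ℕ} (c : Fin n → Fin n → Fin m) :
    ∑ i, ed (fun x y => c x y = i) Finset.univ Finset.univ = n * n := by
  classical
  have h : ∀ i, ed (fun x y => c x y = i) Finset.univ Finset.univ =
      ((Finset.univ : Finset (Fin n × Fin n)).filter (fun q => c q.1 q.2 = i)).card := by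
    intro i
    unfold ed
    rw [Finset.univ_product_univ]
    congr
  rw [Finset.sum_congr rfl (fun i _ => h i)]
  rw [← Finset.card_eq_sum_card_fiberwise (f := fun q : Fin n × Fin n => c q.1 q.2)
    (t := Finset.univ) (fun _ _ => Finset.mem_coe.2 (Finset.mem_univ _))]
  simp [Fintype.card_prod]

/-- F3 (the bound; from A1, P3, F1, F2 used for `c` and for the transposed colouring) -/
theorem bound {n m k : ℕ} (hk : 4 ≤ k) (c : Fin n → Fin n → Fin m)
    (hc : ∀ i j : Fin m, ¬ HasCycle k (fun x y => c x y = i ∨ c x y = j)) :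
    (3 * (k : ℝ) - 2) / (2 * ((k : ℝ) - 1) * (2 * (k : ℝ) - 1)) * n ≤ m := by
  obtain ⟨hlam, hmu, -, -, -, hdiff⟩ := const_facts hk
  have h1 : (∑ i, cp k (fun x y => c x y = i) Finset.univ Finset.univ) + n ≤ n * n :=
    sum_cp hk c hc
  have h2 : (∑ i, cp k (fun y x => c x y = i) Finset.univ Finset.univ) + n ≤ n * n := by
    refine sum_cp hk (fun y x => c x y) (fun i j hcyc => hc i j ?_)
    exact (hasCycle_fl (by omega)).1 hcyc
  have h3 : ∀ i, mu k * ed (fun x y => c x y = i) Finset.univ Finset.univ ≤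
      (n : ℝ) + n + lam k / 2 * (cp k (fun x y => c x y = i) Finset.univ Finset.univ +
        cp k (fun y x => c x y = i) Finset.univ Finset.univ) := by
    intro i
    have := per_colour hk (fun x y => c x y = i) Finset.univ Finset.univ
      (no_mono_path (by omega) c hc i)
    simp only [Finset.card_univ, Fintype.card_fin] at this
    exact this
  have h4 := Finset.sum_le_sum (fun i (_ : i ∈ (Finset.univ : Finset (Fin m))) => h3 i)
  simp only [← Finset.mul_sum, Finset.sum_add_distrib, Finset.sum_const, Finset.card_univ,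
    Fintype.card_fin, nsmul_eq_mul] at h4
  have e1 : (∑ i, (ed (fun x y => c x y = i) Finset.univ Finset.univ : ℝ)) = (n : ℝ) * n := by
    rw [← Nat.cast_sum, sum_ed c, Nat.cast_mul]
  have e2 : (∑ i, (cp k (fun x y => c x y = i) Finset.univ Finset.univ : ℝ)) ≤
      (n : ℝ) * n - n := by
    rw [← Nat.cast_sum]
    have : (((∑ i, cp k (fun x y => c x y = i) Finset.univ Finset.univ) + n : ℕ) : ℝ) ≤
      ((n * n : ℕ) : ℝ) := by exact_mod_cast h1
    push_cast at this ⊢
    linarith
  have e3 : (∑ i, (cp k (fun y x => c x y = i) Finset.univ Finset.univ : ℝ)) ≤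
      (n : ℝ) * n - n := by
    rw [← Nat.cast_sum]
    have : (((∑ i, cp k (fun y x => c x y = i) Finset.univ Finset.univ) + n : ℕ) : ℝ) ≤
      ((n * n : ℕ) : ℝ) := by exact_mod_cast h2
    push_cast at this ⊢
    linarith
  rw [e1] at h4
  have h5 : mu k * ((n : ℝ) * n) ≤ m * ((n : ℝ) + n) + lam k / 2 * (((n : ℝ) * n - n) +
      ((n : ℝ) * n - n)) := by
    refine h4.trans ?_
    have : lam k / 2 * ((∑ i, (cp k (fun x y => c x y = i) Finset.univ Finset.univ : ℝ)) +
        ∑ i, (cp k (fun y x => c x y = i) Finset.univ Finset.univ : ℝ)) ≤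
        lam k / 2 * (((n : ℝ) * n - n) + ((n : ℝ) * n - n)) :=
      mul_le_mul_of_nonneg_left (add_le_add e2 e3) (by positivity)
    linarith
  rcases Nat.eq_zero_or_pos n with hn | hn
  · subst hn
    simp
  · have hn' : (0 : ℝ) < n := by exact_mod_cast hn
    have h6 : (mu k - lam k) * n ≤ 2 * m := by
      by_contra hcon
      push Not at hcon
      have h7 : 2 * (m : ℝ) * n < (mu k - lam k) * n * n := mul_lt_mul_of_pos_right hcon hn'
      have h8 : 0 ≤ lam k * n := by positivity
      nlinarith
    rw [hdiff] at h6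
    linarith

end H22CK
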