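import Pool.Agent.H22.CK.Defs

/-! CK-F4: copies of `C_{2k}` in `K_{n,n}`. -/

set_option autoImplicit false

namespace H22CK

theorem cyc_succ {N : ℕ} {u v : Fin N} (h : (v - u).val = 1) :
    v.val = if u.val + 1 = N then 0 else u.val + 1 := by
  have hu := u.isLt
  have hv := v.isLt
  rw [Fin.sub_def] at h
  simp only at h
  have h2 : N - u.val + v.val = N * ((N - u.val + v.val) / N) + 1 := by
    conv_lhs => rw [← Nat.div_add_mod (N - u.val + v.val) N, h]
  have h3 : (N - u.val + v.val) / N < 2 := by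
    rw [Nat.div_lt_iff_lt_mul (by omega)]; omega
  interval_cases h4 : (N - u.val + v.val) / N <;> split_ifs <;> omega

/-- F4 (copies of `C_{2k}` in `K_{n,n}`) -/
theorem copy_cycle {k n : ℕ} (hk : 2 ≤ k) (p c : ℕ → Fin n) (hp : Set.InjOn p (Set.Iio k))
    (hc : Set.InjOn c (Set.Iio k)) :
    ∃ f : SimpleGraph.Copy (SimpleGraph.cycleGraph (2 * k)) (completeBipartiteGraph (Fin n) (Fin n)),
      ∀ e ∈ (SimpleGraph.cycleGraph (2 * k)).edgeSet, ∃ i < k,
        e.map f = s(Sum.inl (p i), Sum.inr (c i)) ∨ e.map f = s(Sum.inl (p (nx k i)), Sum.inr (c i)) := by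
  set g : Fin (2 * k) → Fin n ⊕ Fin n := fun j =>
    if j.val % 2 = 0 then Sum.inl (p (j.val / 2)) else Sum.inr (c (j.val / 2)) with hg
  have key : ∀ u v : Fin (2 * k), (v - u).val = 1 → ∃ i < k,
      (g u = Sum.inl (p i) ∧ g v = Sum.inr (c i)) ∨
      (g u = Sum.inr (c i) ∧ g v = Sum.inl (p (nx k i))) := by
    intro u v h
    have h1 := cyc_succ h
    have hu := u.isLt
    refine ⟨u.val / 2, by omega, ?_⟩
    by_cases he : u.val % 2 = 0
    · left
      rw [if_neg (by omega)] at h1
      constructor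
      · simp only [hg]; rw [if_pos he]
      · simp only [hg]; rw [if_neg (by omega)]
        congr 2; omega
    · right
      constructor
      · simp only [hg]; rw [if_neg he]
      · simp only [hg]
        rw [if_pos (by split_ifs at h1 <;> omega)]
        congr 2
        unfold nx
        split_ifs at h1 ⊢ <;> omega
  have hadj : ∀ u v : Fin (2 * k), (SimpleGraph.cycleGraph (2 * k)).Adj u v → ∃ i < k,
      s(g u, g v) = s(Sum.inl (p i), Sum.inr (c i)) ∨
      s(g u, g v) = s(Sum.inl (p (nx k i)), Sum.inr (c i)) := by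
    intro u v h
    rw [SimpleGraph.cycleGraph_adj'] at h
    rcases h with h | h
    · obtain ⟨i, hi, ⟨e1, e2⟩ | ⟨e1, e2⟩⟩ := key v u h
      · exact ⟨i, hi, Or.inl (by rw [e1, e2, Sym2.eq_swap])⟩
      · exact ⟨i, hi, Or.inr (by rw [e1, e2])⟩
    · obtain ⟨i, hi, ⟨e1, e2⟩ | ⟨e1, e2⟩⟩ := key u v h
      · exact ⟨i, hi, Or.inl (by rw [e1, e2])⟩
      · exact ⟨i, hi, Or.inr (by rw [e1, e2, Sym2.eq_swap])⟩
  have hginj : Function.Injective g := by
    intro u v h
    have hu := u.isLt
    have hv := v.isLt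
    simp only [hg] at h
    apply Fin.ext
    split_ifs at h with a1 a2 a2
    · have := hp (show u.val / 2 < k by omega) (show v.val / 2 < k by omega) (Sum.inl_injective h)
      omega
    · have := hc (show u.val / 2 < k by omega) (show v.val / 2 < k by omega) (Sum.inr_injective h)
      omega
  let φ : SimpleGraph.cycleGraph (2 * k) →g completeBipartiteGraph (Fin n) (Fin n) :=
    { toFun := g
      map_rel' := by
        intro u v h
        obtain ⟨i, hi, e | e⟩ := hadj u v h
        · rw [← SimpleGraph.mem_edgeSet, e]; simp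
        · rw [← SimpleGraph.mem_edgeSet, e]; simp }
  refine ⟨⟨φ, hginj⟩, ?_⟩
  intro e he
  induction e using Sym2.ind with
  | _ u v =>
    rw [SimpleGraph.mem_edgeSet] at he
    rw [Sym2.map_mk]
    exact hadj u v he

end H22CK
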