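import Pool.Agent.H22.CK.Defs

/-! L0 of PROJECT CK: exchanging the two sides. -/

set_option autoImplicit false

namespace H22CK

variable {V W : Type*}

private theorem hasPath_fl_aux {V W : Type*} {k : ℕ} {E : V → W → Prop} {X : Finset V}
    {Y : Finset W} (h : HasPath k E X Y) : HasPath k (fl E) Y X := by
  obtain ⟨p, c, hp, hc, hXY, h1, h2⟩ := h
  refine ⟨fun i => c (k - 1 - i), fun i => p (k - 1 - i), ?_, ?_, ?_, ?_, ?_⟩
  · intro a ha b hb hab
    have ha' : a < k := ha
    have hb' : b < k := hb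
    have := hc (show k - 1 - a ∈ Set.Iio k from by simp only [Set.mem_Iio]; omega)
      (show k - 1 - b ∈ Set.Iio k from by simp only [Set.mem_Iio]; omega) hab
    omega
  · intro a ha b hb hab
    have ha' : a < k := ha
    have hb' : b < k := hb
    have := hp (show k - 1 - a ∈ Set.Iio k from by simp only [Set.mem_Iio]; omega)
      (show k - 1 - b ∈ Set.Iio k from by simp only [Set.mem_Iio]; omega) hab
    omega
  · intro i hi
    have := hXY (k - 1 - i) (by omega)
    exact ⟨this.2, this.1⟩
  · intro i hi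
    exact h1 (k - 1 - i) (by omega)
  · intro i hi
    have := h2 (k - 1 - (i + 1)) (by omega)
    have e : k - 1 - (i + 1) + 1 = k - 1 - i := by omega
    rw [e] at this
    exact this

/-- L0 -/
theorem hasPath_fl {k : ℕ} {E : V → W → Prop} {X : Finset V} {Y : Finset W} :
    HasPath k (fl E) Y X ↔ HasPath k E X Y :=
  ⟨fun h => hasPath_fl_aux h, fun h => hasPath_fl_aux h⟩

private theorem hasCycle_fl_aux {V W : Type*} {k : ℕ} (hk : 1 ≤ k) {E : V → W → Prop}
    (h : HasCycle k E) : HasCycle k (fl E) := by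
  obtain ⟨p, c, hp, hc, h1, h2, h3⟩ := h
  refine ⟨fun i => c (k - 1 - i), fun i => p (k - 1 - i), ?_, ?_, ?_, ?_, ?_⟩
  · intro a ha b hb hab
    have ha' : a < k := ha
    have hb' : b < k := hb
    have := hc (show k - 1 - a ∈ Set.Iio k from by simp only [Set.mem_Iio]; omega)
      (show k - 1 - b ∈ Set.Iio k from by simp only [Set.mem_Iio]; omega) hab
    omega
  · intro a ha b hb hab
    have ha' : a < k := ha
    have hb' : b < k := hb
    have := hp (show k - 1 - a ∈ Set.Iio k from by simp only [Set.mem_Iio]; omega)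
      (show k - 1 - b ∈ Set.Iio k from by simp only [Set.mem_Iio]; omega) hab
    omega
  · intro i hi
    exact h1 (k - 1 - i) (by omega)
  · intro i hi
    have := h2 (k - 1 - (i + 1)) (by omega)
    have e : k - 1 - (i + 1) + 1 = k - 1 - i := by omega
    rw [e] at this
    exact this
  · show E (p (k - 1 - (k - 1))) (c (k - 1 - 0))
    simpa using h3

/-- L0' -/
theorem hasCycle_fl {k : ℕ} (hk : 1 ≤ k) {E : V → W → Prop} :
    HasCycle k (fl E) ↔ HasCycle k E :=
  ⟨fun h => hasCycle_fl_aux hk h, fun h => hasCycle_fl_aux hk h⟩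

theorem nx_lt_L0 {t i : ℕ} (hi : i < t) : nx t i < t := by
  unfold nx
  split_ifs <;> omega

/-- L0'' -/
theorem isCyc_fl {t : ℕ} {E : V → W → Prop} {X : Finset V} {Y : Finset W} {x : ℕ → V} {y : ℕ → W}
    (h : IsCyc t E X Y x y) : IsCyc t (fl E) Y X y (fun i => x (nx t i)) where
  xX := h.yY
  yY := fun i hi => h.xX _ (nx_lt_L0 hi)
  xinj := h.yinj
  yinj := by
    intro a ha b hb hab
    have ha' : a < t := ha
    have hb' : b < t := hb
    have := h.xinj (show nx t a ∈ Set.Iio t from nx_lt_L0 ha')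
      (show nx t b ∈ Set.Iio t from nx_lt_L0 hb') hab
    unfold nx at this
    split_ifs at this <;> omega
  e1 := fun i hi => h.e2 i hi
  e2 := fun i hi => h.e1 _ (nx_lt_L0 hi)

end H22CK
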