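import Pool.Agent.H22.CK.E1

/-! Moves and counting lemmas on arrangements (helpers for E5, E6, E9). -/

set_option autoImplicit false

namespace H22CK

variable {V W : Type*}

/-- there is an arrangement with `m` real arcs and a missing arc from `x` to `y` -/
def Miss (k : ℕ) (G : V → W → Prop) (K : Finset V) (A : Finset W) (m : ℕ) (x y : V) : Prop :=
  ∃ (p : ℕ → V) (c : ℕ → W) (M : Finset ℕ), Arr k G K A p c M ∧ M.card = m ∧
    ∃ i < k, i ∉ M ∧ p i = x ∧ p (nx k i) = y

/-- there is an arrangement with `m` real arcs -/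
def Imp (k : ℕ) (G : V → W → Prop) (K : Finset V) (A : Finset W) (m : ℕ) : Prop :=
  ∃ (p : ℕ → V) (c : ℕ → W) (M : Finset ℕ), Arr k G K A p c M ∧ M.card = m

theorem Miss.symm {k : ℕ} {G : V → W → Prop} {K : Finset V} {A : Finset W} {m : ℕ} {x y : V}
    (h : Miss k G K A m x y) : Miss k G K A m y x := by
  obtain ⟨p, c, M, hA, hm, i, hi, hiM, rfl, rfl⟩ := h
  obtain ⟨p', c', M', hA', hM', j, hj, hjM, h1, h2⟩ := arr_rev hA hi hiM
  exact ⟨p', c', M', hA', by rw [hM', hm], j, hj, hjM, h1, h2⟩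

/-- symmetric form of the 2-opt move -/
theorem two_opt_sym {k : ℕ} {G : V → W → Prop} {K : Finset V} {A : Finset W} {p : ℕ → V}
    {c : ℕ → W} {M : Finset ℕ} (h : Arr k G K A p c M) {a b : ℕ} (hab : a ≠ b) (ha : a < k)
    (hb : b < k) :
    ∃ p' c' M' i j, Arr k G K A p' c' M' ∧ i < k ∧ j < k ∧ i ≠ j ∧ i ∉ M' ∧ j ∉ M' ∧
      ((p' i = p a ∧ p' (nx k i) = p b ∧ p' j = p (nx k a) ∧ p' (nx k j) = p (nx k b)) ∨
       (p' i = p b ∧ p' (nx k i) = p a ∧ p' j = p (nx k b) ∧ p' (nx k j) = p (nx k a))) ∧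
      M'.card = ((M.erase a).erase b).card ∧
      (∀ i ∈ M', ∃ j ∈ M, j ≠ a ∧ j ≠ b ∧ c' i = c j) := by
  rcases lt_or_gt_of_ne hab with h1 | h1
  · obtain ⟨p', c', M', hA, -, e1, e2, e3, e4, e5, e6, e7, e8, -⟩ := two_opt h h1 hb
    exact ⟨p', c', M', a, b, hA, ha, hb, hab, e1, e2, Or.inl ⟨e3, e4, e5, e6⟩, e7, e8⟩
  · obtain ⟨p', c', M', hA, -, e1, e2, e3, e4, e5, e6, e7, e8, -⟩ := two_opt h h1 ha
    refine ⟨p', c', M', b, a, hA, hb, ha, hab.symm, e1, e2, Or.inr ⟨e3, e4, e5, e6⟩, ?_, ?_⟩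
    · rw [e7, Finset.erase_right_comm]
    · intro i hi
      obtain ⟨j, h1, h2, h3, h4⟩ := e8 i hi
      exact ⟨j, h1, h3, h2, h4⟩

section moves

variable {k : ℕ} {G : V → W → Prop} {K : Finset V} {A : Finset W} {p : ℕ → V} {c : ℕ → W}
  {M : Finset ℕ}

theorem card_erase_two {M : Finset ℕ} {a b : ℕ} (ha : a ∉ M) (hb : b ∈ M) :
    ((M.erase a).erase b).card + 1 = M.card := by
  rw [Finset.erase_eq_of_notMem ha]
  exact Finset.card_erase_add_one hb

theorem card_erase_two' {M : Finset ℕ} {a b : ℕ} (ha : a ∉ M) (hb : b ∉ M) :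
    ((M.erase a).erase b).card = M.card := by
  rw [Finset.erase_eq_of_notMem ha, Finset.erase_eq_of_notMem hb]

/-- rotation at the tail `x = p a` of a missing arc -/
theorem move_rot (h : Arr k G K A p c M) {a b : ℕ} (ha : a < k) (haM : a ∉ M) (hb : b ∈ M)
    {t : W} (ht : t ∈ A) (hf : ∀ j ∈ M, c j ≠ t) (h1 : G (p a) t) (h2 : G (p b) t) :
    Miss k G K A M.card (p (nx k a)) (p (nx k b)) := by
  have hab : a ≠ b := fun he => haM (he ▸ hb)
  obtain ⟨p', c', M', i, j, hA, hi, hj, hij, hiM, hjM, hor, hcard, hcon⟩ :=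
    two_opt_sym h hab ha (h.MK b hb)
  have hfr : ∀ l ∈ M', c' l ≠ t := by
    intro l hl
    obtain ⟨m, hm, -, -, he⟩ := hcon l hl
    rw [he]; exact hf m hm
  have hcard' : M'.card + 1 = M.card := by rw [hcard]; exact card_erase_two haM hb
  have hor' : (G (p' i) t ∧ G (p' (nx k i)) t) := by
    rcases hor with ⟨e1, e2, -, -⟩ | ⟨e1, e2, -, -⟩
    · rw [e1, e2]; exact ⟨h1, h2⟩
    · rw [e1, e2]; exact ⟨h2, h1⟩
  have hL := add_link hA hi hiM (Finset.Subset.refl A) ht hfr hor'.1 hor'.2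
  have hres : Miss k G K A M.card (p' j) (p' (nx k j)) := by
    refine ⟨p', _, _, hL, ?_, j, hj, ?_, rfl, rfl⟩
    · rw [Finset.card_insert_of_notMem hiM, hcard']
    · rw [Finset.mem_insert]; push Not; exact ⟨hij.symm, hjM⟩
  rcases hor with ⟨-, -, e3, e4⟩ | ⟨-, -, e3, e4⟩
  · rw [← e3, ← e4]; exact hres
  · rw [← e3, ← e4]; exact hres.symm

/-- rotation at the head `x' = p (nx k a)` of a missing arc -/
theorem move_rot' (h : Arr k G K A p c M) {a b : ℕ} (ha : a < k) (haM : a ∉ M) (hb : b ∈ M)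
    {t : W} (ht : t ∈ A) (hf : ∀ j ∈ M, c j ≠ t) (h1 : G (p (nx k a)) t)
    (h2 : G (p (nx k b)) t) :
    Miss k G K A M.card (p a) (p b) := by
  have hab : a ≠ b := fun he => haM (he ▸ hb)
  obtain ⟨p', c', M', i, j, hA, hi, hj, hij, hiM, hjM, hor, hcard, hcon⟩ :=
    two_opt_sym h hab ha (h.MK b hb)
  have hfr : ∀ l ∈ M', c' l ≠ t := by
    intro l hl
    obtain ⟨m, hm, -, -, he⟩ := hcon l hl
    rw [he]; exact hf m hm
  have hcard' : M'.card + 1 = M.card := by rw [hcard]; exact card_erase_two haM hb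
  have hor' : (G (p' j) t ∧ G (p' (nx k j)) t) := by
    rcases hor with ⟨-, -, e1, e2⟩ | ⟨-, -, e1, e2⟩
    · rw [e1, e2]; exact ⟨h1, h2⟩
    · rw [e1, e2]; exact ⟨h2, h1⟩
  have hL := add_link hA hj hjM (Finset.Subset.refl A) ht hfr hor'.1 hor'.2
  have hres : Miss k G K A M.card (p' i) (p' (nx k i)) := by
    refine ⟨p', _, _, hL, ?_, i, hi, ?_, rfl, rfl⟩
    · rw [Finset.card_insert_of_notMem hjM, hcard']
    · rw [Finset.mem_insert]; push Not; exact ⟨hij, hiM⟩
  rcases hor with ⟨e3, e4, -, -⟩ | ⟨e3, e4, -, -⟩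
  · rw [← e3, ← e4]; exact hres
  · rw [← e3, ← e4]; exact hres.symm

/-- exchanging the ends of two missing arcs -/
theorem move_swap (h : Arr k G K A p c M) {a b : ℕ} (hab : a ≠ b) (ha : a < k) (hb : b < k)
    (haM : a ∉ M) (hbM : b ∉ M) :
    Miss k G K A M.card (p a) (p b) ∧ Miss k G K A M.card (p (nx k a)) (p (nx k b)) := by
  obtain ⟨p', c', M', i, j, hA, hi, hj, hij, hiM, hjM, hor, hcard, hcon⟩ :=
    two_opt_sym h hab ha hb
  have hcard' : M'.card = M.card := by rw [hcard]; exact card_erase_two' haM hbM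
  have r1 : Miss k G K A M.card (p' i) (p' (nx k i)) := ⟨p', c', M', hA, hcard', i, hi, hiM, rfl, rfl⟩
  have r2 : Miss k G K A M.card (p' j) (p' (nx k j)) := ⟨p', c', M', hA, hcard', j, hj, hjM, rfl, rfl⟩
  rcases hor with ⟨e1, e2, e3, e4⟩ | ⟨e1, e2, e3, e4⟩
  · rw [← e1, ← e2, ← e3, ← e4]; exact ⟨r1, r2⟩
  · rw [← e1, ← e2, ← e3, ← e4]; exact ⟨r1.symm, r2.symm⟩

/-- linking the two ends of a missing arc -/
theorem move_link0 (h : Arr k G K A p c M) {a : ℕ} (ha : a < k) (haM : a ∉ M) {A' : Finset W}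
    (hA : A ⊆ A') {t : W} (ht : t ∈ A') (hf : ∀ j ∈ M, c j ≠ t) (h1 : G (p a) t)
    (h2 : G (p (nx k a)) t) : Imp k G K A' (M.card + 1) :=
  ⟨p, _, _, add_link h ha haM hA ht hf h1 h2, Finset.card_insert_of_notMem haM⟩

/-- linking the tails of two missing arcs -/
theorem move_link (h : Arr k G K A p c M) {a b : ℕ} (hab : a ≠ b) (ha : a < k) (hb : b < k)
    (haM : a ∉ M) (hbM : b ∉ M) {A' : Finset W} (hA : A ⊆ A') {t : W} (ht : t ∈ A')
    (hf : ∀ j ∈ M, c j ≠ t) (h1 : G (p a) t) (h2 : G (p b) t) : Imp k G K A' (M.card + 1) := by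
  obtain ⟨p', c', M', i, j, hA', hi, hj, hij, hiM, hjM, hor, hcard, hcon⟩ :=
    two_opt_sym h hab ha hb
  have hcard' : M'.card = M.card := by rw [hcard]; exact card_erase_two' haM hbM
  have hfr : ∀ l ∈ M', c' l ≠ t := by
    intro l hl
    obtain ⟨m, hm, -, -, he⟩ := hcon l hl
    rw [he]; exact hf m hm
  rw [← hcard']
  rcases hor with ⟨e1, e2, -, -⟩ | ⟨e1, e2, -, -⟩
  · exact move_link0 hA' hi hiM hA ht hfr (by rw [e1]; exact h1) (by rw [e2]; exact h2)
  · exact move_link0 hA' hi hiM hA ht hfr (by rw [e1]; exact h2) (by rw [e2]; exact h1)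

/-- linking the heads of two missing arcs -/
theorem move_link' (h : Arr k G K A p c M) {a b : ℕ} (hab : a ≠ b) (ha : a < k) (hb : b < k)
    (haM : a ∉ M) (hbM : b ∉ M) {A' : Finset W} (hA : A ⊆ A') {t : W} (ht : t ∈ A')
    (hf : ∀ j ∈ M, c j ≠ t) (h1 : G (p (nx k a)) t) (h2 : G (p (nx k b)) t) :
    Imp k G K A' (M.card + 1) := by
  obtain ⟨p', c', M', i, j, hA', hi, hj, hij, hiM, hjM, hor, hcard, hcon⟩ :=
    two_opt_sym h hab ha hb
  have hcard' : M'.card = M.card := by rw [hcard]; exact card_erase_two' haM hbM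
  have hfr : ∀ l ∈ M', c' l ≠ t := by
    intro l hl
    obtain ⟨m, hm, -, -, he⟩ := hcon l hl
    rw [he]; exact hf m hm
  rw [← hcard']
  rcases hor with ⟨-, -, e1, e2⟩ | ⟨-, -, e1, e2⟩
  · exact move_link0 hA' hj hjM hA ht hfr (by rw [e1]; exact h1) (by rw [e2]; exact h2)
  · exact move_link0 hA' hj hjM hA ht hfr (by rw [e1]; exact h2) (by rw [e2]; exact h1)

/-- crossing -/
theorem move_cross (h : Arr k G K A p c M) {a b : ℕ} (ha : a < k) (haM : a ∉ M) (hb : b ∈ M)
    {A' : Finset W} (hA : A ⊆ A') {t1 t2 : W} (ht1 : t1 ∈ A') (ht2 : t2 ∈ A') (ht : t1 ≠ t2)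
    (hf1 : ∀ j ∈ M, c j ≠ t1) (hf2 : ∀ j ∈ M, c j ≠ t2) (h1 : G (p a) t1) (h2 : G (p b) t1)
    (h3 : G (p (nx k a)) t2) (h4 : G (p (nx k b)) t2) : Imp k G K A' (M.card + 1) := by
  have hab : a ≠ b := fun he => haM (he ▸ hb)
  obtain ⟨p', c', M', i, j, hA', hi, hj, hij, hiM, hjM, hor, hcard, hcon⟩ :=
    two_opt_sym h hab ha (h.MK b hb)
  have hfr1 : ∀ l ∈ M', c' l ≠ t1 := by
    intro l hl
    obtain ⟨m, hm, -, -, he⟩ := hcon l hl
    rw [he]; exact hf1 m hm
  have hfr2 : ∀ l ∈ M', c' l ≠ t2 := by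
    intro l hl
    obtain ⟨m, hm, -, -, he⟩ := hcon l hl
    rw [he]; exact hf2 m hm
  have hcard' : M'.card + 1 = M.card := by rw [hcard]; exact card_erase_two haM hb
  have g1 : (G (p' i) t1 ∧ G (p' (nx k i)) t1) ∧ G (p' j) t2 ∧ G (p' (nx k j)) t2 := by
    rcases hor with ⟨e1, e2, e3, e4⟩ | ⟨e1, e2, e3, e4⟩
    · rw [e1, e2, e3, e4]; exact ⟨⟨h1, h2⟩, h3, h4⟩
    · rw [e1, e2, e3, e4]; exact ⟨⟨h2, h1⟩, h4, h3⟩
  have hL := add_link hA' hi hiM hA ht1 hfr1 g1.1.1 g1.1.2
  have hjM2 : j ∉ insert i M' := by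
    rw [Finset.mem_insert]; push Not; exact ⟨hij.symm, hjM⟩
  have hL2 := move_link0 hL hj hjM2 (Finset.Subset.refl A') ht2 (t := t2) (by
    intro l hl
    rcases Finset.mem_insert.1 hl with hl | hl
    · rw [hl, Function.update_self]; exact ht
    · have hne : l ≠ i := fun he => hiM (he ▸ hl)
      rw [Function.update_of_ne hne]; exact hfr2 l hl) g1.2.1 g1.2.2
  rw [Finset.card_insert_of_notMem hiM, hcard'] at hL2
  exact hL2

/-! counting -/

/-- positions of the neighbours of `t` -/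
theorem arr_pos (h : Arr k G K A p c M) {x : V} (hx : x ∈ K) : ∃ i < k, p i = x := by
  classical
  have hinj : Set.InjOn p (Finset.range k : Set ℕ) := by
    intro i hi j hj hij
    exact h.pinj (by simpa using hi) (by simpa using hj) hij
  have himg : (Finset.range k).image p = K := by
    apply Finset.eq_of_subset_of_card_le
    · intro y hy
      obtain ⟨i, hi, rfl⟩ := Finset.mem_image.1 hy
      exact h.pK i (Finset.mem_range.1 hi)
    · rw [Finset.card_image_of_injOn hinj, Finset.card_range, h.cardK]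
  rw [← himg] at hx
  obtain ⟨i, hi, rfl⟩ := Finset.mem_image.1 hx
  exact ⟨i, Finset.mem_range.1 hi, rfl⟩

/-- every index `< k` is a successor -/
theorem nx_surj {k i : ℕ} (hi : i < k) : ∃ j < k, nx k j = i := by
  by_cases h : i = 0
  · exact ⟨k - 1, by omega, by unfold nx; rw [if_pos (by omega)]; exact h.symm⟩
  · exact ⟨i - 1, by omega, by unfold nx; rw [if_neg (by omega)]; omega⟩

/-- If all neighbours of `t` in `K` other than `p (nx k a)` are successors `p (nx k b)` of arcs `b ∈ M`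
with `p b ∈ P`, then `t` has at most `|P| + 1` neighbours, and at most `|P|` if some `y ∈ P` is not of
the form `p b`, `b ∈ M`. -/
theorem count_head (h : Arr k G K A p c M) {a : ℕ} {t : W} {P : Finset V}
    (hP : ∀ b < k, b ≠ a → G (p (nx k b)) t → b ∈ M ∧ p b ∈ P) :
    dL G K t ≤ P.card + 1 ∧ ((∃ y ∈ P, ∀ b ∈ M, p b ≠ y) → dL G K t ≤ P.card) := by
  classical
  -- the neighbours other than p (nx k a) inject into P by taking predecessors
  set N := K.filter (fun x => G x t) with hN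
  have hdL : dL G K t = N.card := by unfold dL; rfl
  set I := (Finset.range k).filter (fun b => b ≠ a ∧ G (p (nx k b)) t) with hI
  have hIM : ∀ b ∈ I, b ∈ M ∧ p b ∈ P := by
    intro b hb
    rw [hI, Finset.mem_filter, Finset.mem_range] at hb
    exact hP b hb.1 hb.2.1 hb.2.2
  have hNI : N ⊆ insert (p (nx k a)) (I.image (fun b => p (nx k b))) := by
    intro x hx
    rw [hN, Finset.mem_filter] at hx
    obtain ⟨i, hi, rfl⟩ := arr_pos h hx.1
    obtain ⟨j, hj, rfl⟩ := nx_surj hi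
    by_cases hja : j = a
    · rw [hja]; exact Finset.mem_insert_self _ _
    · apply Finset.mem_insert_of_mem
      exact Finset.mem_image.2 ⟨j, by rw [hI, Finset.mem_filter, Finset.mem_range]; exact ⟨hj, hja, hx.2⟩, rfl⟩
  have hcN : N.card ≤ I.card + 1 := by
    calc N.card ≤ (insert (p (nx k a)) (I.image (fun b => p (nx k b)))).card := Finset.card_le_card hNI
      _ ≤ (I.image (fun b => p (nx k b))).card + 1 := Finset.card_insert_le _ _
      _ ≤ I.card + 1 := by gcongr; exact Finset.card_image_le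
  have hinj : Set.InjOn p (I : Set ℕ) := by
    intro i hi j hj hij
    have h1 := h.MK _ (hIM i hi).1
    have h2 := h.MK _ (hIM j hj).1
    exact h.pinj h1 h2 hij
  have hIP : I.image p ⊆ P := by
    intro x hx
    obtain ⟨b, hb, rfl⟩ := Finset.mem_image.1 hx
    exact (hIM b hb).2
  have hcI : I.card ≤ P.card := by
    rw [← Finset.card_image_of_injOn hinj]; exact Finset.card_le_card hIP
  refine ⟨by omega, ?_⟩
  rintro ⟨y, hy, hyM⟩
  have hss : I.image p ⊂ P := by
    refine ⟨hIP, fun hc => ?_⟩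
    obtain ⟨b, hb, he⟩ := Finset.mem_image.1 (hc hy)
    exact hyM b (hIM b hb).1 he
  have := Finset.card_lt_card hss
  rw [Finset.card_image_of_injOn hinj] at this
  omega

/-- mirror image of `count_head` -/
theorem count_tail (h : Arr k G K A p c M) {a : ℕ} {t : W} {P : Finset V}
    (hP : ∀ b < k, b ≠ a → G (p b) t → b ∈ M ∧ p (nx k b) ∈ P) :
    dL G K t ≤ P.card + 1 ∧ ((∃ y ∈ P, ∀ b ∈ M, p (nx k b) ≠ y) → dL G K t ≤ P.card) := by
  classical
  set N := K.filter (fun x => G x t) with hN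
  have hdL : dL G K t = N.card := by unfold dL; rfl
  set I := (Finset.range k).filter (fun b => b ≠ a ∧ G (p b) t) with hI
  have hIM : ∀ b ∈ I, b ∈ M ∧ p (nx k b) ∈ P := by
    intro b hb
    rw [hI, Finset.mem_filter, Finset.mem_range] at hb
    exact hP b hb.1 hb.2.1 hb.2.2
  have hNI : N ⊆ insert (p a) (I.image p) := by
    intro x hx
    rw [hN, Finset.mem_filter] at hx
    obtain ⟨i, hi, rfl⟩ := arr_pos h hx.1
    by_cases hja : i = a
    · rw [hja]; exact Finset.mem_insert_self _ _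
    · apply Finset.mem_insert_of_mem
      exact Finset.mem_image.2 ⟨i, by rw [hI, Finset.mem_filter, Finset.mem_range]; exact ⟨hi, hja, hx.2⟩, rfl⟩
  have hcN : N.card ≤ I.card + 1 := by
    calc N.card ≤ (insert (p a) (I.image p)).card := Finset.card_le_card hNI
      _ ≤ (I.image p).card + 1 := Finset.card_insert_le _ _
      _ ≤ I.card + 1 := by gcongr; exact Finset.card_image_le
  have hinj : Set.InjOn (fun b => p (nx k b)) (I : Set ℕ) := by
    intro i hi j hj hij
    have h1 := h.MK _ (hIM i hi).1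
    have h2 := h.MK _ (hIM j hj).1
    exact nx_inj h1 h2 (h.pinj (nx_lt h1) (nx_lt h2) hij)
  have hIP : I.image (fun b => p (nx k b)) ⊆ P := by
    intro x hx
    obtain ⟨b, hb, rfl⟩ := Finset.mem_image.1 hx
    exact (hIM b hb).2
  have hcI : I.card ≤ P.card := by
    rw [← Finset.card_image_of_injOn hinj]; exact Finset.card_le_card hIP
  refine ⟨by omega, ?_⟩
  rintro ⟨y, hy, hyM⟩
  have hss : I.image (fun b => p (nx k b)) ⊂ P := by
    refine ⟨hIP, fun hc => ?_⟩
    obtain ⟨b, hb, he⟩ := Finset.mem_image.1 (hc hy)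
    exact hyM b (hIM b hb).1 he
  have := Finset.card_lt_card hss
  rw [Finset.card_image_of_injOn hinj] at this
  omega

/-- COUNT: crossing count at a missing arc -/
theorem count_cross (h : Arr k G K A p c M) {a : ℕ} (ha : a < k) (haM : a ∉ M)
    {A' : Finset W} (hA : A ⊆ A') (hno : ¬ Imp k G K A' (M.card + 1))
    {t1 t2 : W} (ht1 : t1 ∈ A') (ht2 : t2 ∈ A') (ht : t1 ≠ t2)
    (hf1 : ∀ j ∈ M, c j ≠ t1) (hf2 : ∀ j ∈ M, c j ≠ t2) (h1 : G (p a) t1)
    (h3 : G (p (nx k a)) t2) : dL G K t1 + dL G K t2 ≤ M.card + 2 := by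
  classical
  set I1 := (Finset.range k).filter (fun b => b ≠ a ∧ G (p b) t1) with hI1
  set I2 := (Finset.range k).filter (fun b => b ≠ a ∧ G (p (nx k b)) t2) with hI2
  have hM1 : I1 ⊆ M := by
    intro b hb
    rw [hI1, Finset.mem_filter, Finset.mem_range] at hb
    by_contra hbM
    exact hno (move_link h hb.2.1.symm ha hb.1 haM hbM hA ht1 hf1 h1 hb.2.2)
  have hM2 : I2 ⊆ M := by
    intro b hb
    rw [hI2, Finset.mem_filter, Finset.mem_range] at hb
    by_contra hbM
    exact hno (move_link' h hb.2.1.symm ha hb.1 haM hbM hA ht2 hf2 h3 hb.2.2)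
  have hdisj : Disjoint I1 I2 := by
    rw [Finset.disjoint_left]
    intro b hb1 hb2
    have hbM := hM1 hb1
    rw [hI1, Finset.mem_filter] at hb1
    rw [hI2, Finset.mem_filter] at hb2
    exact hno (move_cross h ha haM hbM hA ht1 ht2 ht hf1 hf2 h1 hb1.2.2 h3 hb2.2.2)
  have hc : I1.card + I2.card ≤ M.card := by
    rw [← Finset.card_union_of_disjoint hdisj]
    exact Finset.card_le_card (Finset.union_subset hM1 hM2)
  have hd1 : dL G K t1 ≤ I1.card + 1 := by
    have hsub : K.filter (fun x => G x t1) ⊆ insert (p a) (I1.image p) := by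
      intro x hx
      rw [Finset.mem_filter] at hx
      obtain ⟨i, hi, rfl⟩ := arr_pos h hx.1
      by_cases hja : i = a
      · rw [hja]; exact Finset.mem_insert_self _ _
      · apply Finset.mem_insert_of_mem
        exact Finset.mem_image.2 ⟨i, by rw [hI1, Finset.mem_filter, Finset.mem_range]; exact ⟨hi, hja, hx.2⟩, rfl⟩
    calc dL G K t1 = (K.filter (fun x => G x t1)).card := by unfold dL; rfl
      _ ≤ (insert (p a) (I1.image p)).card := Finset.card_le_card hsub
      _ ≤ (I1.image p).card + 1 := Finset.card_insert_le _ _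
      _ ≤ I1.card + 1 := by gcongr; exact Finset.card_image_le
  have hd2 : dL G K t2 ≤ I2.card + 1 := by
    have hsub : K.filter (fun x => G x t2) ⊆ insert (p (nx k a)) (I2.image (fun b => p (nx k b))) := by
      intro x hx
      rw [Finset.mem_filter] at hx
      obtain ⟨i, hi, rfl⟩ := arr_pos h hx.1
      obtain ⟨j, hj, rfl⟩ := nx_surj hi
      by_cases hja : j = a
      · rw [hja]; exact Finset.mem_insert_self _ _
      · apply Finset.mem_insert_of_mem
        exact Finset.mem_image.2 ⟨j, by rw [hI2, Finset.mem_filter, Finset.mem_range]; exact ⟨hj, hja, hx.2⟩, rfl⟩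
    calc dL G K t2 = (K.filter (fun x => G x t2)).card := by unfold dL; rfl
      _ ≤ (insert (p (nx k a)) (I2.image (fun b => p (nx k b)))).card := Finset.card_le_card hsub
      _ ≤ (I2.image (fun b => p (nx k b))).card + 1 := Finset.card_insert_le _ _
      _ ≤ I2.card + 1 := by gcongr; exact Finset.card_image_le
  omega

/-- a free good connector exists as soon as the availability exceeds the number of used connectors -/
theorem exists_free (h : Arr k G K A p c M) {A' : Finset W} {d : ℕ} {x : V}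
    (hav : M.card + 1 ≤ av G K d A' x) :
    ∃ t ∈ A', G x t ∧ d ≤ dL G K t ∧ ∀ j ∈ M, c j ≠ t := by
  classical
  by_contra hcon
  push Not at hcon
  have hsub : A'.filter (fun t => G x t ∧ d ≤ dL G K t) ⊆ M.image c := by
    intro t ht
    rw [Finset.mem_filter] at ht
    obtain ⟨j, hj, he⟩ := hcon t ht.1 ht.2.1 ht.2.2
    exact Finset.mem_image.2 ⟨j, hj, he⟩
  have h1 : av G K d A' x = (A'.filter (fun t => G x t ∧ d ≤ dL G K t)).card := by unfold av; rfl
  have h2 := Finset.card_le_card hsub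
  have h3 : (M.image c).card ≤ M.card := Finset.card_image_le
  omega

end moves

end H22CK
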