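import Pool.Agent.H22.CK.Defs

/-! Cycles as periodic sequences indexed by the integers (helper35, for L2 and L7). -/

set_option autoImplicit false

namespace H22CK

variable {V W : Type*}

/-- A cycle with `m` left vertices as a pair of `m`-periodic sequences. -/
structure PCyc (m : ℕ) (E : V → W → Prop) (X : Finset V) (Y : Finset W) (P : ℤ → V) (Q : ℤ → W) :
    Prop where
  pX : ∀ i, P i ∈ X
  qY : ∀ i, Q i ∈ Y
  pinj : ∀ i j, P i = P j ↔ (m : ℤ) ∣ i - j
  qinj : ∀ i j, Q i = Q j ↔ (m : ℤ) ∣ i - j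
  e1 : ∀ i, E (P i) (Q i)
  e2 : ∀ i, E (P (i + 1)) (Q i)

theorem toNat_emod_lt {m : ℕ} (hm : 0 < m) (i : ℤ) : (i % (m : ℤ)).toNat < m := by
  have h1 := Int.emod_nonneg i (b := (m : ℤ)) (by omega)
  have h2 := Int.emod_lt_of_pos i (b := (m : ℤ)) (by omega)
  omega

theorem nx_emod {m : ℕ} (hm : 0 < m) (i : ℤ) :
    nx m (i % (m : ℤ)).toNat = ((i + 1) % (m : ℤ)).toNat := by
  have hm' : (0 : ℤ) < (m : ℤ) := by omega
  have h1 := Int.emod_nonneg i (b := (m : ℤ)) (by omega)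
  have h2 := Int.emod_lt_of_pos i hm'
  have h3 : (i + 1) % (m : ℤ) = (i % (m : ℤ) + 1) % (m : ℤ) := by
    rw [Int.emod_add_emod]
  unfold nx
  split_ifs with h
  · have h4 : i % (m : ℤ) + 1 = m := by omega
    rw [h3, h4, Int.emod_self]
    rfl
  · have h4 : i % (m : ℤ) + 1 < m := by omega
    rw [h3, Int.emod_eq_of_lt (by omega) h4]
    omega

theorem emod_toNat_eq {m : ℕ} (hm : 0 < m) (i j : ℤ) :
    (i % (m : ℤ)).toNat = (j % (m : ℤ)).toNat ↔ (m : ℤ) ∣ i - j := by
  have h1 := Int.emod_nonneg i (b := (m : ℤ)) (by omega)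
  have h2 := Int.emod_nonneg j (b := (m : ℤ)) (by omega)
  rw [← Int.emod_eq_emod_iff_emod_sub_eq_zero.trans Int.dvd_iff_emod_eq_zero.symm]
  constructor
  · intro h
    omega
  · intro h
    rw [h]

theorem IsCyc.pcyc {m : ℕ} (hm : 0 < m) {E : V → W → Prop} {X : Finset V} {Y : Finset W}
    {x : ℕ → V} {y : ℕ → W} (h : IsCyc m E X Y x y) :
    PCyc m E X Y (fun i => x (i % (m : ℤ)).toNat) (fun i => y (i % (m : ℤ)).toNat) where
  pX i := h.xX _ (toNat_emod_lt hm i)
  qY i := h.yY _ (toNat_emod_lt hm i)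
  pinj i j := by
    rw [← emod_toNat_eq hm]
    constructor
    · intro h1
      exact h.xinj (toNat_emod_lt hm i) (toNat_emod_lt hm j) h1
    · intro h1
      show x _ = x _
      rw [h1]
  qinj i j := by
    rw [← emod_toNat_eq hm]
    constructor
    · intro h1
      exact h.yinj (toNat_emod_lt hm i) (toNat_emod_lt hm j) h1
    · intro h1
      show y _ = y _
      rw [h1]
  e1 i := h.e1 _ (toNat_emod_lt hm i)
  e2 i := by
    have := h.e2 _ (toNat_emod_lt hm i)
    rw [nx_emod hm] at this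
    exact this

/-- the sequence at a natural number -/
theorem pcyc_nat {m : ℕ} {α : Type*} (x : ℕ → α) {i : ℕ} (hi : i < m) :
    (fun i : ℤ => x (i % (m : ℤ)).toNat) (i : ℤ) = x i := by
  have : ((i : ℤ) % (m : ℤ)).toNat = i := by
    rw [Int.emod_eq_of_lt (by omega) (by omega)]
    omega
  show x _ = x i
  rw [this]

theorem PCyc.rev {m : ℕ} {E : V → W → Prop} {X : Finset V} {Y : Finset W}
    {P : ℤ → V} {Q : ℤ → W} (h : PCyc m E X Y P Q) :
    PCyc m E X Y (fun i => P (-i)) (fun i => Q (-i - 1)) where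
  pX i := h.pX _
  qY i := h.qY _
  pinj i j := by
    rw [h.pinj, ← dvd_neg]
    have : -(-i - -j) = i - j := by ring
    rw [this]
  qinj i j := by
    rw [h.qinj, ← dvd_neg]
    have : -(-i - 1 - (-j - 1)) = i - j := by ring
    rw [this]
  e1 i := by
    have := h.e2 (-i - 1)
    rw [sub_add_cancel] at this
    exact this
  e2 i := by
    have := h.e1 (-i - 1)
    have e : -(i + 1) = -i - 1 := by ring
    show E (P (-(i + 1))) _
    rw [e]
    exact this

theorem PCyc.fl {m : ℕ} {E : V → W → Prop} {X : Finset V} {Y : Finset W}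
    {P : ℤ → V} {Q : ℤ → W} (h : PCyc m E X Y P Q) :
    PCyc m (H22CK.fl E) Y X Q (fun i => P (i + 1)) where
  pX i := h.qY _
  qY i := h.pX _
  pinj i j := h.qinj i j
  qinj i j := by
    rw [h.pinj]
    have : i + 1 - (j + 1) = i - j := by ring
    rw [this]
  e1 i := h.e2 i
  e2 i := h.e1 (i + 1)

theorem PCyc.shift {m : ℕ} {E : V → W → Prop} {X : Finset V} {Y : Finset W}
    {P : ℤ → V} {Q : ℤ → W} (h : PCyc m E X Y P Q) (i : ℤ) : P (i + m) = P i := by
  rw [h.pinj]
  simp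

theorem PCyc.shiftQ {m : ℕ} {E : V → W → Prop} {X : Finset V} {Y : Finset W}
    {P : ℤ → V} {Q : ℤ → W} (h : PCyc m E X Y P Q) (i : ℤ) : Q (i + m) = Q i := by
  rw [h.qinj]
  simp

/-- small differences -/
theorem eq_of_dvd_lt {m : ℕ} {i j : ℤ} (h : (m : ℤ) ∣ i - j) (h1 : i - j < m) (h2 : j - i < m) :
    i = j := by
  obtain ⟨c, hc⟩ := h
  rcases lt_trichotomy c 0 with h3 | h3 | h3
  · have : (m : ℤ) * c ≤ (m : ℤ) * (-1) := mul_le_mul_of_nonneg_left (by omega) (by omega)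
    omega
  · subst h3
    omega
  · have : (m : ℤ) * 1 ≤ (m : ℤ) * c := mul_le_mul_of_nonneg_left (by omega) (by omega)
    omega

end H22CK
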