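import Pool.Agent.H22.CK.E1

/-! CK: rotations and counting in arrangements which cannot be improved. -/

set_option autoImplicit false

namespace H22CK

variable {V W : Type*}

/-- there is an arrangement with `m` real arcs in which `(x, y)` is a missing arc -/
def Mis (k : ℕ) (G : V → W → Prop) (K : Finset V) (A : Finset W) (m : ℕ) (x y : V) : Prop :=
  ∃ (p : ℕ → V) (c : ℕ → W) (M : Finset ℕ), Arr k G K A p c M ∧ M.card = m ∧
    ∃ a, a < k ∧ a ∉ M ∧ p a = x ∧ p (nx k a) = y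

/-- no arrangement with `m` real arcs -/
def NoArr (k : ℕ) (G : V → W → Prop) (K : Finset V) (A : Finset W) (m : ℕ) : Prop :=
  ∀ (p : ℕ → V) (c : ℕ → W) (M : Finset ℕ), Arr k G K A p c M → M.card ≠ m

section

variable {k : ℕ} {G : V → W → Prop} {K : Finset V} {A A' : Finset W} {p : ℕ → V} {c : ℕ → W}
  {M : Finset ℕ}

theorem Mis.symm {m : ℕ} {x y : V} (h : Mis k G K A m x y) : Mis k G K A m y x := by
  obtain ⟨p, c, M, h, hm, a, ha, haM, rfl, rfl⟩ := h
  obtain ⟨p', c', M', h', hM', j, hj, hjM, e1, e2⟩ := arr_rev h ha haM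
  exact ⟨p', c', M', h', by omega, j, hj, hjM, e1, e2⟩

theorem Mis.memK {m : ℕ} {x y : V} (h : Mis k G K A m x y) : x ∈ K ∧ y ∈ K := by
  obtain ⟨p, c, M, h, hm, a, ha, haM, rfl, rfl⟩ := h
  exact ⟨h.pK a ha, h.pK _ (nx_lt ha)⟩

theorem two_opt' (h : Arr k G K A p c M) {a b : ℕ} (ha : a < k) (hb : b < k) (hab : a ≠ b) :
    ∃ p' c' M' i j, Arr k G K A p' c' M' ∧ i < k ∧ j < k ∧ i ≠ j ∧ i ∉ M' ∧ j ∉ M' ∧
      M'.card = ((M.erase a).erase b).card ∧
      (∀ l ∈ M', ∃ l' ∈ M, l' ≠ a ∧ l' ≠ b ∧ c' l = c l') ∧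
      ((p' i = p a ∧ p' (nx k i) = p b) ∨ (p' i = p b ∧ p' (nx k i) = p a)) ∧
      ((p' j = p (nx k a) ∧ p' (nx k j) = p (nx k b)) ∨
        (p' j = p (nx k b) ∧ p' (nx k j) = p (nx k a))) := by
  rcases Nat.lt_or_gt_of_ne hab with hlt | hlt
  · obtain ⟨p', c', M', h', _, h1, h2, h3, h4, h5, h6, h7, h8, _⟩ := two_opt h hlt hb
    exact ⟨p', c', M', a, b, h', ha, hb, hab, h1, h2, h7, h8, Or.inl ⟨h3, h4⟩, Or.inl ⟨h5, h6⟩⟩
  · obtain ⟨p', c', M', h', _, h1, h2, h3, h4, h5, h6, h7, h8, _⟩ := two_opt h hlt ha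
    refine ⟨p', c', M', b, a, h', hb, ha, fun e => hab e.symm, h1, h2, ?_, ?_, Or.inr ⟨h3, h4⟩,
      Or.inr ⟨h5, h6⟩⟩
    · rw [h7, Finset.erase_right_comm]
    · intro l hl
      obtain ⟨l', e1, e2, e3, e4⟩ := h8 l hl
      exact ⟨l', e1, e3, e2, e4⟩

/-- free connector `t` adjacent to both ends `p a`, `p b` -/
theorem link_step (h : Arr k G K A p c M) (hA : A ⊆ A') (hno : NoArr k G K A' (M.card + 1))
    {a b : ℕ} (ha : a < k) (haM : a ∉ M) (hb : b < k) (hab : a ≠ b) {t : W} (ht : t ∈ A')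
    (hf : ∀ j ∈ M, c j ≠ t) (h1 : G (p a) t) (h2 : G (p b) t) : b ∈ M := by
  by_contra hbM
  obtain ⟨p', c', M', i, j, h', hi, hj, hij, hiM, hjM, hc, hcc, e1, e2⟩ := two_opt' h ha hb hab
  have hG : G (p' i) t ∧ G (p' (nx k i)) t := by
    rcases e1 with ⟨e, e'⟩ | ⟨e, e'⟩ <;> rw [e, e']
    · exact ⟨h1, h2⟩
    · exact ⟨h2, h1⟩
  have hf' : ∀ l ∈ M', c' l ≠ t := by
    intro l hl
    obtain ⟨l', a1, _, _, a4⟩ := hcc l hl
    rw [a4]; exact hf l' a1
  have := add_link h' hi hiM hA ht hf' hG.1 hG.2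
  apply hno _ _ _ this
  rw [Finset.card_insert_of_notMem hiM, hc, Finset.erase_eq_of_notMem haM,
    Finset.erase_eq_of_notMem hbM]

/-- free connector `t` adjacent to both ends `p (nx k a)`, `p (nx k b)` -/
theorem link_step' (h : Arr k G K A p c M) (hA : A ⊆ A') (hno : NoArr k G K A' (M.card + 1))
    {a b : ℕ} (ha : a < k) (haM : a ∉ M) (hb : b < k) (hab : a ≠ b) {t : W} (ht : t ∈ A')
    (hf : ∀ j ∈ M, c j ≠ t) (h1 : G (p (nx k a)) t) (h2 : G (p (nx k b)) t) : b ∈ M := by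
  by_contra hbM
  obtain ⟨p', c', M', i, j, h', hi, hj, hij, hiM, hjM, hc, hcc, e1, e2⟩ := two_opt' h ha hb hab
  have hG : G (p' j) t ∧ G (p' (nx k j)) t := by
    rcases e2 with ⟨e, e'⟩ | ⟨e, e'⟩ <;> rw [e, e']
    · exact ⟨h1, h2⟩
    · exact ⟨h2, h1⟩
  have hf' : ∀ l ∈ M', c' l ≠ t := by
    intro l hl
    obtain ⟨l', a1, _, _, a4⟩ := hcc l hl
    rw [a4]; exact hf l' a1
  have := add_link h' hj hjM hA ht hf' hG.1 hG.2
  apply hno _ _ _ this
  rw [Finset.card_insert_of_notMem hjM, hc, Finset.erase_eq_of_notMem haM,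
    Finset.erase_eq_of_notMem hbM]

theorem direct_step (h : Arr k G K A p c M) (hA : A ⊆ A') (hno : NoArr k G K A' (M.card + 1))
    {a : ℕ} (ha : a < k) (haM : a ∉ M) {t : W} (ht : t ∈ A')
    (hf : ∀ j ∈ M, c j ≠ t) (h1 : G (p a) t) : ¬ G (p (nx k a)) t := by
  intro h2
  have := add_link h ha haM hA ht hf h1 h2
  exact hno _ _ _ this (by rw [Finset.card_insert_of_notMem haM])

/-- rotation -/
theorem rot_step (h : Arr k G K A p c M)
    {a b : ℕ} (ha : a < k) (haM : a ∉ M) (hb : b < k) (hab : a ≠ b) (hbM : b ∈ M) {t : W}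
    (ht : t ∈ A) (hf : ∀ j ∈ M, c j ≠ t) (h1 : G (p a) t) (h2 : G (p b) t) :
    Mis k G K A M.card (p (nx k a)) (p (nx k b)) := by
  obtain ⟨p', c', M', i, j, h', hi, hj, hij, hiM, hjM, hc, hcc, e1, e2⟩ := two_opt' h ha hb hab
  have hG : G (p' i) t ∧ G (p' (nx k i)) t := by
    rcases e1 with ⟨e, e'⟩ | ⟨e, e'⟩ <;> rw [e, e']
    · exact ⟨h1, h2⟩
    · exact ⟨h2, h1⟩
  have hf' : ∀ l ∈ M', c' l ≠ t := by
    intro l hl
    obtain ⟨l', a1, _, _, a4⟩ := hcc l hl
    rw [a4]; exact hf l' a1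
  have h3 := add_link h' hi hiM (Finset.Subset.refl A) ht hf' hG.1 hG.2
  have hcard : (insert i M').card = M.card := by
    rw [Finset.card_insert_of_notMem hiM, hc, Finset.erase_eq_of_notMem haM,
      Finset.card_erase_of_mem hbM]
    have : 0 < M.card := Finset.card_pos.2 ⟨b, hbM⟩
    omega
  have hjn : j ∉ insert i M' := by
    intro hj'
    rcases Finset.mem_insert.1 hj' with e | e
    · exact hij e.symm
    · exact hjM e
  rcases e2 with ⟨e, e'⟩ | ⟨e, e'⟩
  · exact ⟨_, _, _, h3, hcard, j, hj, hjn, e, e'⟩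
  · exact Mis.symm ⟨_, _, _, h3, hcard, j, hj, hjn, e, e'⟩

/-- crossing -/
theorem cross_step (h : Arr k G K A p c M) (hA : A ⊆ A') (hno : NoArr k G K A' (M.card + 1))
    {a b : ℕ} (ha : a < k) (haM : a ∉ M) (hb : b < k) (hab : a ≠ b) (hbM : b ∈ M) {t1 t2 : W}
    (ht1 : t1 ∈ A') (ht2 : t2 ∈ A') (h12 : t1 ≠ t2)
    (hf1 : ∀ j ∈ M, c j ≠ t1) (hf2 : ∀ j ∈ M, c j ≠ t2) (h1 : G (p a) t1) (h2 : G (p b) t1)
    (h3 : G (p (nx k a)) t2) (h4 : G (p (nx k b)) t2) : False := by
  obtain ⟨p', c', M', i, j, h', hi, hj, hij, hiM, hjM, hc, hcc, e1, e2⟩ := two_opt' h ha hb hab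
  have hG : G (p' i) t1 ∧ G (p' (nx k i)) t1 := by
    rcases e1 with ⟨e, e'⟩ | ⟨e, e'⟩ <;> rw [e, e']
    · exact ⟨h1, h2⟩
    · exact ⟨h2, h1⟩
  have hG2 : G (p' j) t2 ∧ G (p' (nx k j)) t2 := by
    rcases e2 with ⟨e, e'⟩ | ⟨e, e'⟩ <;> rw [e, e']
    · exact ⟨h3, h4⟩
    · exact ⟨h4, h3⟩
  have hf' : ∀ l ∈ M', c' l ≠ t1 := by
    intro l hl
    obtain ⟨l', a1, _, _, a4⟩ := hcc l hl
    rw [a4]; exact hf1 l' a1
  have hf'' : ∀ l ∈ M', c' l ≠ t2 := by
    intro l hl
    obtain ⟨l', a1, _, _, a4⟩ := hcc l hl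
    rw [a4]; exact hf2 l' a1
  have h5 := add_link h' hi hiM hA ht1 hf' hG.1 hG.2
  have hjn : j ∉ insert i M' := by
    intro hj'
    rcases Finset.mem_insert.1 hj' with e | e
    · exact hij e.symm
    · exact hjM e
  have hf3 : ∀ l ∈ insert i M', Function.update c' i t1 l ≠ t2 := by
    intro l hl
    rcases Finset.mem_insert.1 hl with rfl | hl
    · rw [Function.update_self]; exact h12
    · rw [Function.update_of_ne]
      · exact hf'' l hl
      · intro e; exact hiM (e ▸ hl)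
  have h6 := add_link h5 hj hjn (Finset.Subset.refl A') ht2 hf3 hG2.1 hG2.2
  apply hno _ _ _ h6
  rw [Finset.card_insert_of_notMem hjn, Finset.card_insert_of_notMem hiM, hc,
    Finset.erase_eq_of_notMem haM, Finset.card_erase_of_mem hbM]
  have : 0 < M.card := Finset.card_pos.2 ⟨b, hbM⟩
  omega

/-- two missing arcs -/
theorem double_step (h : Arr k G K A p c M)
    {a b : ℕ} (ha : a < k) (haM : a ∉ M) (hb : b < k) (hab : a ≠ b) (hbM : b ∉ M) :
    Mis k G K A M.card (p (nx k a)) (p (nx k b)) := by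
  obtain ⟨p', c', M', i, j, h', hi, hj, hij, hiM, hjM, hc, hcc, e1, e2⟩ := two_opt' h ha hb hab
  rw [Finset.erase_eq_of_notMem haM, Finset.erase_eq_of_notMem hbM] at hc
  rcases e2 with ⟨e, e'⟩ | ⟨e, e'⟩
  · exact ⟨_, _, _, h', hc, j, hj, hjM, e, e'⟩
  · exact Mis.symm ⟨_, _, _, h', hc, j, hj, hjM, e, e'⟩

/-- the positions of the neighbours of `t` -/
theorem card_pos_nbrs (h : Arr k G K A p c M) (t : W) [DecidablePred fun i => G (p i) t] :
    ((Finset.range k).filter (fun i => G (p i) t)).card = dL G K t := by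
  classical
  have hK : K = (Finset.range k).image p := by
    symm
    apply Finset.eq_of_subset_of_card_le
    · intro x hx
      obtain ⟨i, hi, rfl⟩ := Finset.mem_image.1 hx
      exact h.pK i (Finset.mem_range.1 hi)
    · rw [h.cardK, Finset.card_image_of_injOn, Finset.card_range]
      intro i hi j hj hij
      exact h.pinj (by simpa using hi) (by simpa using hj) hij
  unfold dL
  rw [hK, Finset.filter_image, Finset.card_image_of_injOn]
  · congr!
  · intro i hi j hj hij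
    simp only [Finset.coe_filter, Finset.mem_range, Set.mem_setOf_eq] at hi hj
    exact h.pinj hi.1 hj.1 hij

theorem nx_surj_rot {i : ℕ} (hi : i < k) : ∃ j, j < k ∧ nx k j = i := by
  by_cases h0 : i = 0
  · exact ⟨k - 1, by omega, by unfold nx; rw [if_pos (by omega)]; omega⟩
  · exact ⟨i - 1, by omega, by unfold nx; rw [if_neg (by omega)]; omega⟩

/-- the positions of the arcs whose end point is a neighbour of `t` -/
theorem card_pos_nbrs' (h : Arr k G K A p c M) (t : W)
    [DecidablePred fun i => G (p (nx k i)) t] :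
    ((Finset.range k).filter (fun i => G (p (nx k i)) t)).card = dL G K t := by
  classical
  rw [← card_pos_nbrs h t]
  have : (Finset.range k).filter (fun i => G (p i) t) =
      ((Finset.range k).filter (fun i => G (p (nx k i)) t)).image (nx k) := by
    ext i
    simp only [Finset.mem_filter, Finset.mem_range, Finset.mem_image]
    constructor
    · rintro ⟨hi, hG⟩
      obtain ⟨j, hj, e⟩ := nx_surj_rot hi
      exact ⟨j, ⟨hj, by rw [e]; exact hG⟩, e⟩
    · rintro ⟨j, ⟨hj, hG⟩, rfl⟩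
      exact ⟨nx_lt hj, hG⟩
  rw [this, Finset.card_image_of_injOn]
  intro i hi j hj hij
  have h1 := (Finset.mem_filter.1 (Finset.mem_coe.1 hi)).1
  have h2 := (Finset.mem_filter.1 (Finset.mem_coe.1 hj)).1
  exact nx_inj (Finset.mem_range.1 h1) (Finset.mem_range.1 h2) hij

/-- COUNT -/
theorem count_step (h : Arr k G K A p c M) (hA : A ⊆ A') (hno : NoArr k G K A' (M.card + 1))
    {a : ℕ} (ha : a < k) (haM : a ∉ M) {t1 t2 : W}
    (ht1 : t1 ∈ A') (ht2 : t2 ∈ A')
    (hf1 : ∀ j ∈ M, c j ≠ t1) (hf2 : ∀ j ∈ M, c j ≠ t2) (h1 : G (p a) t1)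
    (h3 : G (p (nx k a)) t2) : dL G K t1 + dL G K t2 ≤ M.card + 2 := by
  classical
  have h12 : t1 ≠ t2 := by
    rintro rfl
    exact direct_step h hA hno ha haM ht1 hf1 h1 h3
  set B1 := ((Finset.range k).filter (fun i => G (p i) t1)).erase a with hB1
  set B2 := ((Finset.range k).filter (fun i => G (p (nx k i)) t2)).erase a with hB2
  have c1 : B1.card + 1 = dL G K t1 := by
    rw [← card_pos_nbrs h t1, hB1, Finset.card_erase_add_one]
    simp [ha, h1]
  have c2 : B2.card + 1 = dL G K t2 := by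
    rw [← card_pos_nbrs' h t2, hB2, Finset.card_erase_add_one]
    simp [ha, h3]
  have hs1 : B1 ⊆ M := by
    intro b hb
    simp only [hB1, Finset.mem_erase, Finset.mem_filter, Finset.mem_range] at hb
    exact link_step h hA hno ha haM hb.2.1 (fun e => hb.1 e.symm) ht1 hf1 h1 hb.2.2
  have hs2 : B2 ⊆ M := by
    intro b hb
    simp only [hB2, Finset.mem_erase, Finset.mem_filter, Finset.mem_range] at hb
    exact link_step' h hA hno ha haM hb.2.1 (fun e => hb.1 e.symm) ht2 hf2 h3 hb.2.2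
  have hd : Disjoint B1 B2 := by
    rw [Finset.disjoint_left]
    intro b hb hb'
    have hbM := hs1 hb
    simp only [hB1, Finset.mem_erase, Finset.mem_filter, Finset.mem_range] at hb
    simp only [hB2, Finset.mem_erase, Finset.mem_filter, Finset.mem_range] at hb'
    exact cross_step h hA hno ha haM hb.2.1 (fun e => hb.1 e.symm) hbM ht1 ht2 h12 hf1 hf2 h1
      hb.2.2 h3 hb'.2.2
  have := Finset.card_le_card (Finset.union_subset hs1 hs2)
  rw [Finset.card_union_of_disjoint hd] at this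
  omega

/-- all rotations at the missing arc `a`, at its first endpoint -/
theorem rot_set [DecidableEq V] (h : Arr k G K A p c M) (hno : NoArr k G K A (M.card + 1))
    {a : ℕ} (ha : a < k) (haM : a ∉ M) {t : W} (ht : t ∈ A)
    (hf : ∀ j ∈ M, c j ≠ t) (h1 : G (p a) t) :
    ∃ S : Finset V, dL G K t ≤ S.card + 1 ∧ ∀ w ∈ S, Mis k G K A M.card (p (nx k a)) w ∧
      w ≠ p (nx k a) ∧ ∀ b, b < k → b ∉ M → w ≠ p (nx k b) := by
  classical
  set B1 := ((Finset.range k).filter (fun i => G (p i) t)).erase a with hB1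
  have c1 : B1.card + 1 = dL G K t := by
    rw [← card_pos_nbrs h t, hB1, Finset.card_erase_add_one]
    simp [ha, h1]
  have hs1 : ∀ b ∈ B1, b ∈ M ∧ b < k ∧ b ≠ a ∧ G (p b) t := by
    intro b hb
    simp only [hB1, Finset.mem_erase, Finset.mem_filter, Finset.mem_range] at hb
    exact ⟨link_step h (Finset.Subset.refl A) hno ha haM hb.2.1 (fun e => hb.1 e.symm) ht hf h1
      hb.2.2, hb.2.1, hb.1, hb.2.2⟩
  refine ⟨B1.image (fun b => p (nx k b)), ?_, ?_⟩
  · rw [Finset.card_image_of_injOn]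
    · omega
    · intro i hi j hj hij
      have hi' := hs1 i (Finset.mem_coe.1 hi)
      have hj' := hs1 j (Finset.mem_coe.1 hj)
      exact nx_inj hi'.2.1 hj'.2.1 (h.pinj (nx_lt hi'.2.1) (nx_lt hj'.2.1) hij)
  · intro w hw
    obtain ⟨b, hb, rfl⟩ := Finset.mem_image.1 hw
    have hb' := hs1 b hb
    have hne : ∀ b', b' < k → b' ∉ M → p (nx k b) ≠ p (nx k b') := by
      intro b' hb1 hb2 e
      have := nx_inj hb'.2.1 hb1 (h.pinj (nx_lt hb'.2.1) (nx_lt hb1) e)
      rw [this] at hb'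
      exact hb2 hb'.1
    exact ⟨rot_step h ha haM hb'.2.1 (fun e => hb'.2.2.1 e.symm) hb'.1 ht hf h1 hb'.2.2.2,
      hne a ha haM, hne⟩

/-- a free connector -/
theorem exists_free_rot {d : ℕ} {x : V} (hav : M.card < av G K d A x) :
    ∃ t ∈ A, G x t ∧ d ≤ dL G K t ∧ ∀ j ∈ M, c j ≠ t := by
  classical
  have h1 : (M.image c).card < (A.filter (fun t => G x t ∧ d ≤ dL G K t)).card := by
    refine lt_of_le_of_lt Finset.card_image_le ?_
    unfold av at hav
    convert hav
  obtain ⟨t, ht, hn⟩ := Finset.exists_mem_notMem_of_card_lt_card h1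
  simp only [Finset.mem_filter] at ht
  refine ⟨t, ht.1, ht.2.1, ht.2.2, ?_⟩
  intro j hj e
  exact hn (Finset.mem_image.2 ⟨j, hj, e⟩)

/-- there is a missing arc other than `a` -/
theorem exists_missing (h : Arr k G K A p c M) (a : ℕ) (hM : M.card + 2 ≤ k) :
    ∃ b, b < k ∧ b ∉ M ∧ a ≠ b := by
  classical
  have h1 : (insert a M).card < (Finset.range k).card := by
    rw [Finset.card_range]
    have := Finset.card_insert_le a M
    omega
  obtain ⟨b, hb, hn⟩ := Finset.exists_mem_notMem_of_card_lt_card h1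
  refine ⟨b, Finset.mem_range.1 hb, fun h' => hn (Finset.mem_insert_of_mem h'), ?_⟩
  rintro rfl
  exact hn (Finset.mem_insert_self _ _)

theorem exists_missing_one (h : Arr k G K A p c M) (hM : M.card + 1 ≤ k) :
    ∃ b, b < k ∧ b ∉ M := by
  have h1 : M.card < (Finset.range k).card := by
    rw [Finset.card_range]; omega
  obtain ⟨b, hb, hn⟩ := Finset.exists_mem_notMem_of_card_lt_card h1
  exact ⟨b, Finset.mem_range.1 hb, hn⟩

end

/-- the empty arrangement -/
theorem arr_init {k : ℕ} (hk : 1 ≤ k) (G : V → W → Prop) (K : Finset V) (hK : K.card = k)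
    (A : Finset W) (w : W) : ∃ p, Arr k G K A p (fun _ => w) ∅ := by
  classical
  have hne : K.Nonempty := by rw [← Finset.card_pos]; omega
  obtain ⟨x0, hx0⟩ := hne
  refine ⟨fun i => if h : i < k then (K.equivFin.symm ⟨i, by rw [hK]; exact h⟩ : V) else x0, ?_⟩
  refine ⟨hK, ?_, ?_, by simp, by simp, by simp, by simp, by simp⟩
  · intro i hi
    simp only [dif_pos hi]
    exact Finset.coe_mem _
  · intro i hi j hj hij
    have hi' : i < k := hi
    have hj' : j < k := hj
    simp only [dif_pos hi', dif_pos hj'] at hij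
    have := K.equivFin.symm.injective (Subtype.ext hij)
    simpa using this

/-- improving step in E5 -/
theorem step_zero_aux [DecidableEq V] [DecidableEq W] {k δ n m : ℕ} (hk : 3 ≤ k)
    (hkδ : k ≤ 2 * δ) (hn : 1 ≤ n) (G : V → W → Prop) (K Q : Finset V) (hK : K.card = k)
    (hQK : Q ⊆ K) (hQ : Q.card = n) (A : Finset W)
    (hS : ∀ x ∈ K, x ∉ Q → k ≤ av G K δ A x + 2)
    (hB : ∀ x ∈ Q, k ≤ av G K (n + 1) A x + 2) (hm : m + 3 ≤ k)
    (h0 : ∃ p c M, Arr k G K A p c M ∧ M.card = m) :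
    ∃ p c M, Arr k G K A p c M ∧ M.card = m + 1 := by
  by_contra hcon
  have hno : NoArr k G K A (m + 1) := by
    intro p c M h hM
    exact hcon ⟨p, c, M, h, hM⟩
  -- (i)
  have hi : ∀ x x', Mis k G K A m x x' → x ∈ Q ∨ x' ∈ Q := by
    rintro x x' ⟨p, c, M, h, hM, a, ha, haM, rfl, rfl⟩
    by_contra hc
    push Not at hc
    have e1 := hS _ (h.pK a ha) hc.1
    have e2 := hS _ (h.pK _ (nx_lt ha)) hc.2
    obtain ⟨t1, ht1, hG1, hd1, hf1⟩ := exists_free_rot (c := c) (M := M) (G := G) (K := K) (A := A)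
      (x := p a) (d := δ) (by omega)
    obtain ⟨t2, ht2, hG2, hd2, hf2⟩ := exists_free_rot (c := c) (M := M) (G := G) (K := K) (A := A)
      (x := p (nx k a)) (d := δ) (by omega)
    have := count_step h (Finset.Subset.refl A) (by rw [hM]; exact hno) ha haM ht1 ht2 hf1 hf2
      hG1 hG2
    omega
  -- (ii)
  have hii : ∀ q x', Mis k G K A m q x' → q ∈ Q → x' ∈ Q := by
    rintro q x' ⟨p, c, M, h, hM, a, ha, haM, rfl, rfl⟩ hq
    by_contra hx'
    obtain ⟨b, hb, hbM, hab⟩ := exists_missing h a (by omega)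
    have h1 := double_step h ha haM hb hab hbM
    rw [hM] at h1
    have hy' : p (nx k b) ∈ Q := by
      rcases hi _ _ h1 with h2 | h2
      · exact absurd h2 hx'
      · exact h2
    have e1 := hB _ hq
    obtain ⟨t, ht, hG, hd, hf⟩ := exists_free_rot (c := c) (M := M) (G := G) (K := K) (A := A)
      (x := p a) (d := n + 1) (by omega)
    obtain ⟨S, hSc, hSw⟩ := rot_set h (by rw [hM]; exact hno) ha haM ht hf hG
    have hSQ : insert (p (nx k b)) S ⊆ Q := by
      intro w hw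
      rcases Finset.mem_insert.1 hw with rfl | hw
      · exact hy'
      · have := (hSw w hw).1
        rw [hM] at this
        rcases hi _ _ this with h2 | h2
        · exact absurd h2 hx'
        · exact h2
    have hnot : p (nx k b) ∉ S := fun hin => (hSw _ hin).2.2 b hb hbM rfl
    have := Finset.card_le_card hSQ
    rw [Finset.card_insert_of_notMem hnot] at this
    omega
  obtain ⟨p, c, M, h, hM⟩ := h0
  obtain ⟨a, ha, haM⟩ := exists_missing_one h (by omega)
  have hmis : Mis k G K A m (p a) (p (nx k a)) := ⟨p, c, M, h, hM, a, ha, haM, rfl, rfl⟩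
  have hall : ∀ x x', Mis k G K A m x x' → x ∈ Q ∧ x' ∈ Q := by
    intro x x' hx
    rcases hi _ _ hx with h1 | h1
    · exact ⟨h1, hii _ _ hx h1⟩
    · exact ⟨hii _ _ hx.symm h1, h1⟩
  obtain ⟨hq, hx'⟩ := hall _ _ hmis
  have e1 := hB _ hq
  obtain ⟨t, ht, hG, hd, hf⟩ := exists_free_rot (c := c) (M := M) (G := G) (K := K) (A := A)
    (x := p a) (d := n + 1) (by omega)
  obtain ⟨S, hSc, hSw⟩ := rot_set h (by rw [hM]; exact hno) ha haM ht hf hG
  have hSQ : insert (p (nx k a)) S ⊆ Q := by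
    intro w hw
    rcases Finset.mem_insert.1 hw with rfl | hw
    · exact hx'
    · have := (hSw w hw).1
      rw [hM] at this
      exact (hall _ _ this).2
  have hnot : p (nx k a) ∉ S := fun hin => (hSw _ hin).2.1 rfl
  have := Finset.card_le_card hSQ
  rw [Finset.card_insert_of_notMem hnot] at this
  omega

/-- E5 (Step 0) -/
theorem step_zero [DecidableEq V] [DecidableEq W] {k δ n : ℕ} (hk : 3 ≤ k) (hkδ : k ≤ 2 * δ)
    (hn : 1 ≤ n) (G : V → W → Prop) (K Q : Finset V) (hK : K.card = k) (hQK : Q ⊆ K)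
    (hQ : Q.card = n) (A : Finset W)
    (hS : ∀ x ∈ K, x ∉ Q → k ≤ av G K δ A x + 2)
    (hB : ∀ x ∈ Q, k ≤ av G K (n + 1) A x + 2) :
    ∃ p c M, Arr k G K A p c M ∧ M.card + 2 = k := by
  have key : ∀ m, m + 2 ≤ k → ∃ p c M, Arr k G K A p c M ∧ M.card = m := by
    intro m
    induction m with
    | zero =>
      intro _
      have hne : K.Nonempty := by rw [← Finset.card_pos]; omega
      obtain ⟨x0, hx0⟩ := hne
      have hA : A.Nonempty := by
        by_contra hA
        rw [Finset.not_nonempty_iff_eq_empty] at hA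
        by_cases hxQ : x0 ∈ Q
        · have := hB x0 hxQ
          simp [av, hA] at this; omega
        · have := hS x0 hx0 hxQ
          simp [av, hA] at this; omega
      obtain ⟨w, _⟩ := hA
      obtain ⟨p, hp⟩ := arr_init (by omega) G K hK A w
      exact ⟨p, _, ∅, hp, rfl⟩
    | succ m ih =>
      intro hm
      exact step_zero_aux hk hkδ hn G K Q hK hQK hQ A hS hB (by omega) (ih (by omega))
  obtain ⟨p, c, M, h, hM⟩ := key (k - 2) (by omega)
  exact ⟨p, c, M, h, by omega⟩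

/-- E6 (Steps 1 and 2: `f = 2` and `f = 1` missing arcs) -/
theorem step_special [DecidableEq V] [DecidableEq W] {k δ n f : ℕ} (hk : 3 ≤ k)
    (hkδ : k ≤ 2 * δ) (hf : f = 1 ∨ f = 2)
    (hn : 1 ≤ n) (G : V → W → Prop) (K Q : Finset V) (hK : K.card = k) (hQK : Q ⊆ K)
    (hQ : Q.card = n) (A : Finset W) (u : W) (hu : u ∉ A) (hNu : δ + n + 1 ≤ dL G K u)
    (hq : f = 1 → ∃ q ∈ Q, G q u)
    (hS : ∀ x ∈ K, x ∉ Q → ¬ G x u → k + 1 ≤ av G K δ A x + f)
    (hB : ∀ x ∈ Q, ¬ G x u → k + 1 ≤ av G K (n + 1) A x + f)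
    (p : ℕ → V) (c : ℕ → W) (M : Finset ℕ) (h : Arr k G K A p c M) (hM : M.card + f = k) :
    ∃ p' c' M', Arr k G K (insert u A) p' c' M' ∧ M'.card + f = k + 1 := by
  classical
  by_contra hcon
  obtain ⟨m, hmdef⟩ : ∃ m, M.card = m := ⟨_, rfl⟩
  have hno : NoArr k G K (insert u A) (m + 1) := by
    intro p' c' M' h' hM'
    exact hcon ⟨p', c', M', h', by omega⟩
  have hsub : A ⊆ insert u A := Finset.subset_insert u A
  have hno' : NoArr k G K A (m + 1) := by
    intro p' c' M' h' hM'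
    refine hno p' c' M' ?_ hM'
    exact ⟨h'.cardK, h'.pK, h'.pinj, h'.MK, fun i hi => hsub (h'.cA i hi), h'.a1, h'.a2, h'.cinj⟩
  -- (1a) first part
  have h1 : ∀ x x', Mis k G K A m x x' → G x u → x' ∈ Q ∧ ¬ G x' u := by
    rintro x x' ⟨p, c, M, h, hM', a, ha, haM, rfl, rfl⟩ hxu
    have hfu : ∀ j ∈ M, c j ≠ u := by
      intro j hj e
      exact hu (e ▸ h.cA j hj)
    have hx'u : ¬ G (p (nx k a)) u :=
      direct_step h hsub (by rw [hM']; exact hno) ha haM (Finset.mem_insert_self _ _) hfu hxu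
    refine ⟨?_, hx'u⟩
    by_contra hx'Q
    have e2 := hS _ (h.pK _ (nx_lt ha)) hx'Q hx'u
    obtain ⟨t2, ht2, hG2, hd2, hf2⟩ := exists_free_rot (c := c) (M := M) (G := G) (K := K) (A := A)
      (x := p (nx k a)) (d := δ) (by omega)
    have := count_step h hsub (by rw [hM']; exact hno) ha haM (Finset.mem_insert_self _ _)
      (hsub ht2) hfu hf2 hxu hG2
    omega
  -- (1a) second part
  have h2 : ∀ x x', Mis k G K A m x x' → ¬ G x u := by
    intro x x' hxx' hxu
    obtain ⟨hx'Q, hx'u⟩ := h1 _ _ hxx' hxu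
    obtain ⟨p, c, M, h, hM', a, ha, haM, hpa, hpna⟩ := hxx'.symm
    have e2 := hB _ hx'Q hx'u
    rw [← hpa] at e2
    obtain ⟨t, ht, hG, hd, hf'⟩ := exists_free_rot (c := c) (M := M) (G := G) (K := K) (A := A)
      (x := p a) (d := n + 1) (by omega)
    obtain ⟨S, hSc, hSw⟩ := rot_set h (by rw [hM']; exact hno') ha haM ht hf' hG
    have hSQ : ∀ w ∈ S, w ∈ Q ∧ ¬ G w u := by
      intro w hw
      have := (hSw w hw).1
      rw [hM', hpna] at this
      exact h1 _ _ this hxu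
    rcases hf with rfl | rfl
    · obtain ⟨q, hqQ, hqu⟩ := hq rfl
      have hss : insert q S ⊆ Q := by
        intro w hw
        rcases Finset.mem_insert.1 hw with rfl | hw
        · exact hqQ
        · exact (hSQ w hw).1
      have hnot : q ∉ S := fun hin => (hSQ q hin).2 hqu
      have := Finset.card_le_card hss
      rw [Finset.card_insert_of_notMem hnot] at this
      omega
    · obtain ⟨b, hb, hbM, hab⟩ := exists_missing h a (by omega)
      have h3 := double_step h ha haM hb hab hbM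
      rw [hM', hpna] at h3
      have h4 := h1 _ _ h3 hxu
      have hss : insert (p (nx k b)) S ⊆ Q := by
        intro w hw
        rcases Finset.mem_insert.1 hw with rfl | hw
        · exact h4.1
        · exact (hSQ w hw).1
      have hnot : p (nx k b) ∉ S := fun hin => (hSw _ hin).2.2 b hb hbM rfl
      have := Finset.card_le_card hss
      rw [Finset.card_insert_of_notMem hnot] at this
      omega
  -- (1b)
  have h3 : ∀ x x', Mis k G K A m x x' → x' ∈ Q := by
    intro x x' hxx'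
    by_contra hx'Q
    have hx'u := h2 _ _ hxx'.symm
    have hx'K := hxx'.memK.2
    obtain ⟨p, c, M, h, hM', a, ha, haM, hpa, hpna⟩ := hxx'.symm
    have e2 := hS _ hx'K hx'Q hx'u
    rw [← hpa] at e2
    obtain ⟨t, ht, hG, hd, hf'⟩ := exists_free_rot (c := c) (M := M) (G := G) (K := K) (A := A)
      (x := p a) (d := δ) (by omega)
    obtain ⟨S, hSc, hSw⟩ := rot_set h (by rw [hM']; exact hno') ha haM ht hf' hG
    have hss : S ⊆ K.filter (fun w => ¬ G w u) := by
      intro w hw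
      have := (hSw w hw).1
      rw [hM'] at this
      exact Finset.mem_filter.2 ⟨this.memK.2, h2 _ _ this.symm⟩
    have h5 := Finset.card_le_card hss
    have h6 := Finset.card_filter_add_card_filter_not (s := K) (fun w => G w u)
    have h7 : dL G K u = (K.filter (fun w => G w u)).card := by
      unfold dL; congr!
    omega
  obtain ⟨a, ha, haM⟩ := exists_missing_one h (by omega)
  have hmis : Mis k G K A m (p a) (p (nx k a)) := ⟨p, c, M, h, hmdef, a, ha, haM, rfl, rfl⟩
  have hq1 := h3 _ _ hmis.symm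
  have hq1u := h2 _ _ hmis
  have hq2 := h3 _ _ hmis
  have e2 := hB _ hq1 hq1u
  obtain ⟨t, ht, hG, hd, hf'⟩ := exists_free_rot (c := c) (M := M) (G := G) (K := K) (A := A)
    (x := p a) (d := n + 1) (by omega)
  obtain ⟨S, hSc, hSw⟩ := rot_set h (by rw [hmdef]; exact hno') ha haM ht hf' hG
  have hSQ : insert (p (nx k a)) S ⊆ Q := by
    intro w hw
    rcases Finset.mem_insert.1 hw with rfl | hw
    · exact hq2
    · have := (hSw w hw).1
      rw [hmdef] at this
      exact h3 _ _ this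
  have hnot : p (nx k a) ∉ S := fun hin => (hSw _ hin).2.1 rfl
  have := Finset.card_le_card hSQ
  rw [Finset.card_insert_of_notMem hnot] at this
  omega

end H22CK
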